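import Pool.Agent.T2H99.QB.Stm

/-!
# MP_c5814c_pr, package APX: Lipschitz approximation of tame functions
-/

open MeasureTheory ProbabilityTheory Set Filter Topology

noncomputable section

namespace Pool.Agent.T2H99.QB

namespace PkgAPX

/-- Moving average over a window of length `1/(m+1)` on the left. -/
def psi (φ : ℝ → ℝ) (m : ℕ) (x : ℝ) : ℝ :=
  ((m : ℝ) + 1) * ∫ t in (0 : ℝ)..(1 / ((m : ℝ) + 1)), φ (x - t)

lemma eta_pos (m : ℕ) : (0 : ℝ) < 1 / ((m : ℝ) + 1) := by positivity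

lemma eta_le (m : ℕ) : 1 / ((m : ℝ) + 1) ≤ (1 : ℝ) := by
  rw [div_le_one (by positivity)]
  have : (0 : ℝ) ≤ (m : ℝ) := Nat.cast_nonneg m
  linarith

lemma anti_shift {φ : ℝ → ℝ} (h : Monotone φ) (x : ℝ) : Antitone (fun t => φ (x - t)) :=
  fun _ _ hab => h (by linarith)

lemma ii {φ : ℝ → ℝ} (h : Monotone φ) (x a b : ℝ) :
    IntervalIntegrable (fun t => φ (x - t)) volume a b :=
  (anti_shift h x).intervalIntegrable

lemma mul_int_const (m : ℕ) (c : ℝ) :
    ((m : ℝ) + 1) * ∫ _t in (0 : ℝ)..(1 / ((m : ℝ) + 1)), c = c := by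
  rw [intervalIntegral.integral_const, smul_eq_mul, sub_zero]
  field_simp

lemma psi_mono {φ : ℝ → ℝ} (h : Monotone φ) (m : ℕ) : Monotone (psi φ m) := by
  intro x y hxy
  unfold psi
  refine mul_le_mul_of_nonneg_left ?_ (by positivity)
  exact intervalIntegral.integral_mono_on (eta_pos m).le (ii h x _ _) (ii h y _ _)
    fun t _ => h (by linarith)

lemma psi_le {φ : ℝ → ℝ} (h : Monotone φ) (m : ℕ) (x : ℝ) : psi φ m x ≤ φ x := by
  have := intervalIntegral.integral_mono_on (μ := volume) (eta_pos m).le (ii h x _ _)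
    (intervalIntegrable_const (c := φ x)) (fun t ht => h (by linarith [ht.1]))
  have h2 := mul_le_mul_of_nonneg_left this (show (0 : ℝ) ≤ (m : ℝ) + 1 by positivity)
  rw [mul_int_const] at h2
  exact h2

lemma le_psi {φ : ℝ → ℝ} (h : Monotone φ) (m : ℕ) (x : ℝ) :
    φ (x - 1 / ((m : ℝ) + 1)) ≤ psi φ m x := by
  have := intervalIntegral.integral_mono_on (μ := volume) (eta_pos m).le
    (intervalIntegrable_const (c := φ (x - 1 / ((m : ℝ) + 1)))) (ii h x _ _)
    (fun t ht => h (by linarith [ht.2]))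
  have h2 := mul_le_mul_of_nonneg_left this (show (0 : ℝ) ≤ (m : ℝ) + 1 by positivity)
  rw [mul_int_const] at h2
  exact h2

lemma psi_bdd {φ : ℝ → ℝ} (h : Monotone φ) {C : ℝ} (hC : ∀ x, |φ x| ≤ C) (m : ℕ) (x : ℝ) :
    |psi φ m x| ≤ C := by
  rw [abs_le]
  have h1 := abs_le.mp (hC x)
  have h2 := abs_le.mp (hC (x - 1 / ((m : ℝ) + 1)))
  exact ⟨h2.1.trans (le_psi h m x), (psi_le h m x).trans h1.2⟩

lemma psi_eq {φ : ℝ → ℝ} (h : Monotone φ) (m : ℕ) (x : ℝ) :
    psi φ m x = ((m : ℝ) + 1) *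
      ((∫ t in (0 : ℝ)..x, φ t) - ∫ t in (0 : ℝ)..(x - 1 / ((m : ℝ) + 1)), φ t) := by
  unfold psi
  rw [intervalIntegral.integral_comp_sub_left (fun t => φ t) x, sub_zero,
    intervalIntegral.integral_interval_sub_left h.intervalIntegrable h.intervalIntegrable]

lemma prim_lip {φ : ℝ → ℝ} (h : Monotone φ) {C : ℝ} (hC : ∀ x, |φ x| ≤ C) (x y : ℝ) :
    |(∫ t in (0 : ℝ)..x, φ t) - ∫ t in (0 : ℝ)..y, φ t| ≤ C * |x - y| := by
  rw [intervalIntegral.integral_interval_sub_left h.intervalIntegrable h.intervalIntegrable]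
  have := intervalIntegral.norm_integral_le_of_norm_le_const (f := φ) (a := y) (b := x) (C := C)
    (fun t _ => by rw [Real.norm_eq_abs]; exact hC t)
  rwa [Real.norm_eq_abs] at this

lemma psi_lip {φ : ℝ → ℝ} (h : Monotone φ) {C : ℝ} (hC : ∀ x, |φ x| ≤ C) (m : ℕ) :
    LipschitzWith (2 * ((m : ℝ) + 1) * C).toNNReal (psi φ m) := by
  have hC0 : 0 ≤ C := (abs_nonneg _).trans (hC 0)
  refine LipschitzWith.of_dist_le_mul fun x y => ?_
  rw [Real.coe_toNNReal _ (by positivity), Real.dist_eq, Real.dist_eq, psi_eq h, psi_eq h,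
    ← mul_sub, abs_mul, abs_of_pos (show (0 : ℝ) < (m : ℝ) + 1 by positivity)]
  have h1 := prim_lip h hC x y
  have h2 := prim_lip h hC (x - 1 / ((m : ℝ) + 1)) (y - 1 / ((m : ℝ) + 1))
  rw [sub_sub_sub_cancel_right] at h2
  have h3 : |(∫ t in (0 : ℝ)..x, φ t) - (∫ t in (0 : ℝ)..(x - 1 / ((m : ℝ) + 1)), φ t) -
      ((∫ t in (0 : ℝ)..y, φ t) - ∫ t in (0 : ℝ)..(y - 1 / ((m : ℝ) + 1)), φ t)| ≤
      2 * (C * |x - y|) := by
    have : (∫ t in (0 : ℝ)..x, φ t) - (∫ t in (0 : ℝ)..(x - 1 / ((m : ℝ) + 1)), φ t) -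
      ((∫ t in (0 : ℝ)..y, φ t) - ∫ t in (0 : ℝ)..(y - 1 / ((m : ℝ) + 1)), φ t) =
      ((∫ t in (0 : ℝ)..x, φ t) - ∫ t in (0 : ℝ)..y, φ t) -
      ((∫ t in (0 : ℝ)..(x - 1 / ((m : ℝ) + 1)), φ t) -
        ∫ t in (0 : ℝ)..(y - 1 / ((m : ℝ) + 1)), φ t) := by ring
    rw [this]
    refine (abs_sub _ _).trans ?_
    linarith
  calc ((m : ℝ) + 1) * _ ≤ ((m : ℝ) + 1) * (2 * (C * |x - y|)) :=
        mul_le_mul_of_nonneg_left h3 (by positivity)
    _ = _ := by ring

lemma psi_tame {φ : ℝ → ℝ} (h : Tame φ) (m : ℕ) : Tame (psi φ m) := by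
  obtain ⟨C, hC⟩ := h.bdd
  obtain ⟨M, hM⟩ := h.const
  refine ⟨psi_mono h.mono m, ⟨C, psi_bdd h.mono hC m⟩,
    fun x => (psi_lip h.mono hC m).continuous.continuousWithinAt, ⟨M + 1, fun x y hx hy => ?_⟩⟩
  unfold psi
  congr 1
  refine intervalIntegral.integral_congr fun t ht => ?_
  rw [uIcc_of_le (eta_pos m).le] at ht
  have := eta_le m
  exact hM _ _ (by linarith [ht.2]) (by linarith [ht.2])

lemma tendsto_psi {φ : ℝ → ℝ} (h : Tame φ) (x : ℝ) :
    Tendsto (fun m => psi φ m x) atTop (𝓝 (φ x)) := by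
  have h1 : Tendsto (fun m : ℕ => x - 1 / ((m : ℝ) + 1)) atTop (𝓝[Iic x] x) := by
    refine tendsto_nhdsWithin_iff.mpr ⟨?_, Eventually.of_forall fun m => ?_⟩
    · have := (tendsto_one_div_add_atTop_nhds_zero_nat (𝕜 := ℝ)).const_sub x
      rwa [sub_zero] at this
    · have := eta_pos m
      show x - 1 / ((m : ℝ) + 1) ≤ x
      linarith
  have h2 : Tendsto (fun m : ℕ => φ (x - 1 / ((m : ℝ) + 1))) atTop (𝓝 (φ x)) :=
    (h.left x).tendsto.comp h1
  exact tendsto_of_tendsto_of_tendsto_of_le_of_le h2 tendsto_const_nhds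
    (fun m => le_psi h.mono m x) (fun m => psi_le h.mono m x)

end PkgAPX

open PkgAPX in
theorem pAPX (hUNI : S_UNI) (hFF : S_FF) (hHH : S_HH) : S_APX := by
  intro W hW n j p hp φ hφ hsd ε hε
  haveI : IsProbabilityMeasure W := hW.prob
  obtain ⟨⟨C', hC'⟩, hh0, hhm, -⟩ := hHH W hW n j p hp
  obtain ⟨C, hC⟩ := hφ.bdd
  have hC0 : 0 ≤ C := (abs_nonneg _).trans (hC 0)
  have hC'0 : 0 ≤ C' := (abs_nonneg _).trans (hC' 0)
  have hmφ : Measurable φ := hφ.mono.measurable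
  have hmψ : ∀ m, Measurable (psi φ m) := fun m => (psi_mono hφ.mono m).measurable
  have hbψ : ∀ m x, |psi φ m x| ≤ C := fun m x => psi_bdd hφ.mono hC m x
  -- the integral against the weight
  have t1 : Tendsto (fun m => ∫ x, psi φ m x * f n j (cdf W x) ∂W) atTop
      (𝓝 (∫ x, φ x * f n j (cdf W x) ∂W)) := by
    refine tendsto_integral_of_dominated_convergence (fun _ => C * C')
      (fun m => ((hmψ m).mul hhm).aestronglyMeasurable) (integrable_const _)
      (fun m => Eventually.of_forall fun x => ?_) (Eventually.of_forall fun x => ?_)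
    · rw [Real.norm_eq_abs, abs_mul]
      exact mul_le_mul (hbψ m x) (hC' x) (abs_nonneg _) hC0
    · exact (tendsto_psi hφ x).mul_const _
  have tT : Tendsto (fun m => T W n j p (psi φ m)) atTop (𝓝 (T W n j p φ)) :=
    t1.sub (tendsto_psi hφ _)
  have tE : Tendsto (fun m => ∫ x, psi φ m x ∂W) atTop (𝓝 (∫ x, φ x ∂W)) := by
    refine tendsto_integral_of_dominated_convergence (fun _ => C)
      (fun m => (hmψ m).aestronglyMeasurable) (integrable_const _)
      (fun m => Eventually.of_forall fun x => ?_) (Eventually.of_forall fun x => ?_)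
    · rw [Real.norm_eq_abs]
      exact hbψ m x
    · exact tendsto_psi hφ x
  have hbE : ∀ m, |∫ x, psi φ m x ∂W| ≤ C := by
    intro m
    have := norm_integral_le_of_norm_le_const (μ := W) (f := psi φ m) (C := C)
      (Eventually.of_forall fun x => by rw [Real.norm_eq_abs]; exact hbψ m x)
    simpa using this
  have tV : Tendsto (fun m => ∫ x, (psi φ m x - ∫ y, psi φ m y ∂W) ^ 2 ∂W) atTop
      (𝓝 (∫ x, (φ x - ∫ y, φ y ∂W) ^ 2 ∂W)) := by
    refine tendsto_integral_of_dominated_convergence (fun _ => (2 * C) ^ 2)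
      (fun m => (((hmψ m).sub_const _).pow_const 2).aestronglyMeasurable) (integrable_const _)
      (fun m => Eventually.of_forall fun x => ?_) (Eventually.of_forall fun x => ?_)
    · rw [Real.norm_eq_abs, abs_pow]
      refine pow_le_pow_left₀ (abs_nonneg _) ?_ 2
      refine (abs_sub _ _).trans ?_
      have := hbψ m x
      have := hbE m
      linarith
    · exact ((tendsto_psi hφ x).sub tE).pow 2
  have tS : Tendsto (fun m => sdW W (psi φ m)) atTop (𝓝 (sdW W φ)) :=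
    (Real.continuous_sqrt.tendsto _).comp tV
  have tR : Tendsto (fun m => T W n j p (psi φ m) / sdW W (psi φ m)) atTop
      (𝓝 (T W n j p φ / sdW W φ)) := tT.div tS hsd.ne'
  have e1 : ∀ᶠ m in atTop, 0 < sdW W (psi φ m) := tS.eventually (lt_mem_nhds hsd)
  have e2 : ∀ᶠ m in atTop, |T W n j p (psi φ m) / sdW W (psi φ m) - T W n j p φ / sdW W φ| < ε := by
    have := (Metric.tendsto_nhds.mp tR) ε hε
    simpa [Real.dist_eq] using this
  obtain ⟨m, hm1, hm2⟩ := (e1.and e2).exists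
  exact ⟨psi φ m, psi_tame hφ m, ⟨_, psi_lip hφ.mono hC m⟩, hm1, hm2⟩

end Pool.Agent.T2H99.QB
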