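import Pool.Agent.T2H99.QB.Stm

set_option autoImplicit false

open MeasureTheory ProbabilityTheory Set Filter Topology

noncomputable section

namespace Pool.Agent.T2H99.QB

namespace PkgAS1

open Classical in
/-- the step function -/
def st (w : ℝ) : ℝ → ℝ := fun x => if w < x then 1 else 0

lemma st_tame (w : ℝ) : Tame (st w) := by
  refine ⟨?_, ⟨1, ?_⟩, ?_, ⟨w + 1, ?_⟩⟩
  · intro x y hxy
    unfold st
    split_ifs with h1 h2 h2
    · exact le_rfl
    · exact absurd (h1.trans_le hxy) h2
    · exact zero_le_one
    · exact le_rfl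
  · intro x
    unfold st
    split_ifs <;> simp
  · intro x
    by_cases hx : w < x
    · have h1 : (fun _ : ℝ => (1 : ℝ)) =ᶠ[𝓝[Iic x] x] st w := by
        apply eventually_nhdsWithin_of_eventually_nhds
        filter_upwards [lt_mem_nhds hx] with y hy
        simp [st, hy]
      have h2 : st w x = 1 := by simp [st, hx]
      unfold ContinuousWithinAt
      rw [h2]
      exact tendsto_const_nhds.congr' h1
    · have h1 : (fun _ : ℝ => (0 : ℝ)) =ᶠ[𝓝[Iic x] x] st w := by
        filter_upwards [self_mem_nhdsWithin] with y hy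
        have : ¬ w < y := fun h => hx (h.trans_le hy)
        simp [st, this]
      have h2 : st w x = 0 := by simp [st, hx]
      unfold ContinuousWithinAt
      rw [h2]
      exact tendsto_const_nhds.congr' h1
  · intro x y hx hy
    have h1 : w < x := by linarith
    have h2 : w < y := by linarith
    simp [st, h1, h2]

lemma st_eq (w : ℝ) : st w = (Ioi w).indicator (fun _ => (1 : ℝ)) := by
  ext x
  unfold st
  by_cases h : w < x
  · rw [if_pos h, indicator_of_mem (mem_Ioi.2 h)]
  · rw [if_neg h, indicator_of_notMem (by simpa using h)]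

end PkgAS1

open PkgAS1 in
theorem pAS1 (hUNI : S_UNI) (_hFF : S_FF) (hHH : S_HH) : S_AS1 := by
  intro W hW n j p hp
  have hprob := hW.prob
  obtain ⟨_, _, _, _, hq, _, _⟩ := hUNI W hW
  obtain ⟨⟨C, hC⟩, _, hm, _, hone, hG, _⟩ := hHH W hW n j p hp
  obtain ⟨_, hcdf⟩ := hq p ⟨hp.p0, hp.p1⟩
  obtain ⟨w, hw⟩ : ∃ w, w = quant W p := ⟨_, rfl⟩
  rw [← hw] at hcdf
  have hp1 : 0 < 1 - p := by linarith [hp.p1]
  have hreal : W.real (Iic w) = p := by rw [← cdf_eq_real, hcdf]
  have hreal' : W.real (Ioi w) = 1 - p := by
    have h1 := measureReal_add_measureReal_compl (μ := W) (measurableSet_Iic (a := w))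
    rw [compl_Iic, hreal, probReal_univ] at h1
    linarith
  have hint : Integrable (st w) W := by
    rw [st_eq]
    exact (integrable_const (1 : ℝ)).indicator measurableSet_Ioi
  have hmean : ∫ x, st w x ∂W = 1 - p := by
    rw [st_eq, integral_indicator measurableSet_Ioi, setIntegral_const, hreal']
    simp
  have hvar : ∫ x, (st w x - ∫ y, st w y ∂W) ^ 2 ∂W = p * (1 - p) := by
    rw [hmean]
    have h1 : ∀ x, (st w x - (1 - p)) ^ 2 = (1 - 2 * (1 - p)) * st w x + (1 - p) ^ 2 := by
      intro x
      unfold st
      split_ifs <;> ring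
    simp only [h1]
    rw [integral_add (hint.const_mul _) (integrable_const _), integral_const_mul, hmean, integral_const]
    simp only [probReal_univ, smul_eq_mul]
    ring
  have hsd : sdW W (st w) = Real.sqrt (p * (1 - p)) := by
    unfold sdW
    rw [hvar]
  have hT : T W n j p (st w) = 1 - G n j p := by
    unfold T
    rw [← hw]
    have h0 : st w w = 0 := by simp [st]
    rw [h0, sub_zero]
    have hhi : Integrable (fun x => f n j (cdf W x)) W :=
      Integrable.of_bound hm.aestronglyMeasurable C (Eventually.of_forall fun x => by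
        rw [Real.norm_eq_abs]
        exact hC x)
    have h1 : ∀ x, st w x * f n j (cdf W x) =
        f n j (cdf W x) - (Iic w).indicator (fun x => f n j (cdf W x)) x := by
      intro x
      by_cases h : w < x
      · rw [indicator_of_notMem (by simpa using h)]
        simp [st, h]
      · rw [indicator_of_mem (by simpa using h)]
        simp [st, h]
    simp only [h1]
    rw [integral_sub hhi (hhi.indicator measurableSet_Iic), integral_indicator measurableSet_Iic, hone, hG w, hcdf]
  refine ⟨st w, st_tame w, ?_, ?_⟩
  · rw [hsd]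
    exact Real.sqrt_pos.2 (mul_pos hp.p0 hp1)
  · rw [hT, hsd]
    rfl

end Pool.Agent.T2H99.QB
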