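import Pool.Agent.T2H99.QB.Stm

open MeasureTheory ProbabilityTheory Set Filter Topology

noncomputable section

namespace Pool.Agent.T2H99.QB

namespace PkgAS2

/-- The test function. -/
def ph (W : Measure ℝ) (ρ : ℝ → ℝ) (c q : ℝ) (x : ℝ) : ℝ :=
  if x ≤ quant W q then -(ρ (cdf W x) + c) else 0

/-- The test function on the unit interval. -/
def ps (ρ : ℝ → ℝ) (c q : ℝ) (u : ℝ) : ℝ := if u ≤ q then -(ρ u + c) else 0

lemma cdf_mem (W : Measure ℝ) (x : ℝ) : cdf W x ∈ Icc (0 : ℝ) 1 := ⟨cdf_nonneg W x, cdf_le_one W x⟩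

lemma tame (W : Measure ℝ) (hW : Ref W) (ρ : ℝ → ℝ) (hρ : Continuous ρ)
    (ha : AntitoneOn ρ (Icc 0 1)) (h0 : ∀ u ∈ Icc (0 : ℝ) 1, 0 ≤ ρ u) (c : ℝ) (hc : 0 ≤ c) (q : ℝ) :
    Tame (ph W ρ c q) where
  mono := by
    intro x y hxy
    unfold ph
    by_cases hy : y ≤ quant W q
    · rw [if_pos (hxy.trans hy), if_pos hy]
      have := ha (cdf_mem W x) (cdf_mem W y) (monotone_cdf W hxy)
      linarith
    · rw [if_neg hy]
      split_ifs
      · have := h0 _ (cdf_mem W x)
        linarith
      · exact le_rfl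
  bdd := by
    refine ⟨ρ 0 + c, fun x => ?_⟩
    have h1 := h0 _ (cdf_mem W x)
    have h2 := ha ⟨le_rfl, zero_le_one⟩ (cdf_mem W x) (cdf_mem W x).1
    unfold ph
    split_ifs
    · rw [abs_neg, abs_of_nonneg (by linarith)]
      linarith
    · rw [abs_zero]
      linarith
  left := by
    intro x
    by_cases hx : x ≤ quant W q
    · have h : ContinuousWithinAt (fun y => -(ρ (cdf W y) + c)) (Iic x) x :=
        ((hρ.comp hW.cont).add continuous_const).neg.continuousWithinAt
      refine h.congr (fun y hy => ?_) ?_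
      · unfold ph
        rw [if_pos (le_trans hy hx)]
      · unfold ph
        rw [if_pos hx]
    · have h : ContinuousAt (fun _ : ℝ => (0 : ℝ)) x := continuousAt_const
      refine (h.congr ?_).continuousWithinAt
      filter_upwards [lt_mem_nhds (not_le.1 hx)] with y hy
      unfold ph
      rw [if_neg (not_le.2 hy)]
  const := by
    refine ⟨quant W q + 1, fun x y hx hy => ?_⟩
    unfold ph
    rw [if_neg (by linarith), if_neg (by linarith)]

lemma ps_meas (ρ : ℝ → ℝ) (hρ : Continuous ρ) (c q : ℝ) : Measurable (ps ρ c q) := by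
  unfold ps
  exact Measurable.ite measurableSet_Iic (hρ.measurable.add_const c).neg measurable_const

/-- Integrals of functions of the form `F 1_{u ≤ q}` on the unit interval. -/
lemma int_ite (F : ℝ → ℝ) (_hF : Continuous F) (q : ℝ) (hq0 : 0 < q) (hq1 : q < 1) :
    ∫ u in (0 : ℝ)..1, (if u ≤ q then F u else 0) = ∫ u in (0 : ℝ)..q, F u := by
  rw [intervalIntegral.integral_of_le zero_le_one, intervalIntegral.integral_of_le hq0.le]
  have : (fun u => if u ≤ q then F u else 0) = (Iic q).indicator F := by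
    ext u
    simp [Set.indicator, Set.mem_Iic]
  rw [this, setIntegral_indicator measurableSet_Iic]
  congr 1
  have : Ioc (0 : ℝ) 1 ∩ Iic q = Ioc 0 q := by
    ext u
    simp only [mem_inter_iff, mem_Ioc, mem_Iic]
    constructor
    · rintro ⟨⟨h1, h2⟩, h3⟩
      exact ⟨h1, h3⟩
    · rintro ⟨h1, h3⟩
      exact ⟨⟨h1, by linarith⟩, h3⟩
  rw [this]

theorem core (hUNI : S_UNI) (hHH : S_HH) (hBET : S_BET) (W : Measure ℝ) (hW : Ref W) (n j : ℕ)
    (p : ℝ) (hP : Par n j p)
    (ρ : ℝ → ℝ) (hρ : Continuous ρ)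
    (ha : AntitoneOn ρ (Icc 0 1)) (h0 : ∀ u ∈ Icc (0 : ℝ) 1, 0 ≤ ρ u) (hG : 0 ≤ G n j p)
    (B1 B : ℝ)
    (h1 : ∫ u in (0 : ℝ)..p, ρ u = G n j p) (h2 : ∫ u in (0 : ℝ)..p, ρ u ^ 2 = B1)
    (h3 : ∫ u in (0 : ℝ)..p, ρ u * f n j u = B1) (hB : B ^ 2 = B1 + G n j p ^ 2 / (1 - p))
    (hBpos : 0 < B) (ε : ℝ) (hε : 0 < ε) :
    ∃ φ : ℝ → ℝ, Tame φ ∧ 0 < sdW W φ ∧ T W n j p φ / sdW W φ ≤ -B + ε := by
  have hp1 := hP.p1
  have hp0 := hP.p0
  have hp : 0 < 1 - p := by linarith
  set c : ℝ := G n j p / (1 - p) with hc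
  have hc0 : 0 ≤ c := div_nonneg hG hp.le
  have := hW.prob
  obtain ⟨hu1, hu2, hu3, hu4, hu5, hu6, hu7⟩ := hUNI W hW
  obtain ⟨hh1, hh2, hh3, hh4, hh5, hh6, hh7⟩ := hHH W hW n j p hP
  have hfc : Continuous (f n j) := by
    unfold f
    fun_prop
  -- the three continuous functions of `q`
  set A1 : ℝ → ℝ := fun q => ∫ u in (0 : ℝ)..q, (ρ u + c) with hA1
  set A2 : ℝ → ℝ := fun q => ∫ u in (0 : ℝ)..q, (ρ u + c) ^ 2 with hA2
  set A3 : ℝ → ℝ := fun q => ∫ u in (0 : ℝ)..q, (ρ u + c) * f n j u with hA3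
  have cρ : Continuous fun u => ρ u + c := hρ.add continuous_const
  have cA1 : Continuous A1 := intervalIntegral.continuous_primitive
    (fun a b => cρ.intervalIntegrable a b) 0
  have cA2 : Continuous A2 := intervalIntegral.continuous_primitive
    (fun a b => (cρ.pow 2).intervalIntegrable a b) 0
  have cA3 : Continuous A3 := intervalIntegral.continuous_primitive
    (fun a b => (cρ.mul hfc).intervalIntegrable a b) 0
  have hGp : ∫ u in (0 : ℝ)..p, f n j u = G n j p := ((hBET n j hP.j1 hP.jn).2 p).symm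
  have hcp : c * (1 - p) = G n j p := by
    rw [hc]; field_simp
  have vA1 : A1 p = c := by
    simp only [hA1]
    rw [intervalIntegral.integral_add (hρ.intervalIntegrable _ _) (by simp), h1,
      intervalIntegral.integral_const, smul_eq_mul]
    linarith
  have vA2 : A2 p = B1 + 2 * c * G n j p + c ^ 2 * p := by
    simp only [hA2]
    have : (fun u => (ρ u + c) ^ 2) = fun u => ρ u ^ 2 + 2 * c * ρ u + c ^ 2 := by
      ext u; ring
    have k1 : Continuous fun u => ρ u ^ 2 := by fun_prop
    have k2 : Continuous fun u => 2 * c * ρ u := by fun_prop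
    have k3 : Continuous fun u => ρ u ^ 2 + 2 * c * ρ u := by fun_prop
    rw [this, intervalIntegral.integral_add (k3.intervalIntegrable _ _) (by simp),
      intervalIntegral.integral_add (k1.intervalIntegrable _ _)
      (k2.intervalIntegrable _ _), h2,
      intervalIntegral.integral_const_mul, h1,
      intervalIntegral.integral_const, smul_eq_mul]
    ring
  have vA3 : A3 p = B1 + c * G n j p := by
    simp only [hA3]
    have : (fun u => (ρ u + c) * f n j u) = fun u => ρ u * f n j u + c * f n j u := by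
      ext u; ring
    have k1 : Continuous fun u => ρ u * f n j u := by fun_prop
    have k2 : Continuous fun u => c * f n j u := by fun_prop
    rw [this, intervalIntegral.integral_add (k1.intervalIntegrable _ _)
      (k2.intervalIntegrable _ _), h3,
      intervalIntegral.integral_const_mul, hGp]
  have hB2 : B ^ 2 = B1 + c * G n j p := by
    rw [hB, hc]; ring
  have vV : A2 p - A1 p ^ 2 = B ^ 2 := by
    rw [vA2, vA1, hB2]
    have : c ^ 2 * p - c ^ 2 = - (c * G n j p) := by
      rw [← hcp]; ring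
    nlinarith
  have vT : A3 p = B ^ 2 := by rw [vA3, hB2]
  -- the ratio is continuous at `p`
  have hcont : ContinuousAt (fun q => -A3 q / Real.sqrt (A2 q - A1 q ^ 2)) p := by
    refine ContinuousAt.div cA3.neg.continuousAt
      (Real.continuous_sqrt.comp (cA2.sub (cA1.pow 2))).continuousAt ?_
    show Real.sqrt (A2 p - A1 p ^ 2) ≠ 0
    rw [vV, Real.sqrt_sq hBpos.le]
    exact hBpos.ne'
  have hval : -A3 p / Real.sqrt (A2 p - A1 p ^ 2) = -B := by
    rw [vV, Real.sqrt_sq hBpos.le, vT]
    field_simp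
  have e1 : ∀ᶠ q in 𝓝 p, -A3 q / Real.sqrt (A2 q - A1 q ^ 2) < -B + ε := by
    have := hcont.tendsto
    rw [hval] at this
    exact this.eventually (gt_mem_nhds (by linarith))
  have e2 : ∀ᶠ q in 𝓝 p, 0 < A2 q - A1 q ^ 2 := by
    have : Tendsto (fun q => A2 q - A1 q ^ 2) (𝓝 p) (𝓝 (A2 p - A1 p ^ 2)) :=
      (cA2.sub (cA1.pow 2)).continuousAt
    rw [vV] at this
    exact this.eventually (lt_mem_nhds (by positivity))
  have e3 : ∀ᶠ q in 𝓝 p, 0 < q := lt_mem_nhds hp0
  obtain ⟨q, ⟨⟨hq1, hq2⟩, hq3⟩, hq4⟩ :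
      ∃ q, ((-A3 q / Real.sqrt (A2 q - A1 q ^ 2) < -B + ε ∧ 0 < A2 q - A1 q ^ 2) ∧ 0 < q) ∧
        q < p := by
    have hfr : ∃ᶠ q in 𝓝 p, q < p := by
      have : ∃ᶠ q in 𝓝[<] p, q < p := by
        refine Eventually.frequently ?_
        exact self_mem_nhdsWithin
      exact this.filter_mono nhdsWithin_le_nhds
    obtain ⟨q, hq⟩ := (hfr.and_eventually ((e1.and e2).and e3)).exists
    exact ⟨q, hq.2, hq.1⟩
  have hqI : q ∈ Ioo (0 : ℝ) 1 := ⟨hq3, by linarith⟩
  have hpI : p ∈ Ioo (0 : ℝ) 1 := ⟨hp0, hp1⟩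
  -- a.e. equality
  have hae : ∀ᵐ x ∂W, x ∈ spt W := by
    rw [ae_iff]
    exact hu1
  have hae2 : ∀ᵐ x ∂W, ph W ρ c q x = ps ρ c q (cdf W x) := by
    filter_upwards [hae] with x hx
    have key : x ≤ quant W q ↔ cdf W x ≤ q := by
      rw [← hu7 x hx (quant W q) (hu5 q hqI).1, (hu5 q hqI).2]
    unfold ph ps
    by_cases hx' : x ≤ quant W q
    · rw [if_pos hx', if_pos (key.1 hx')]
    · rw [if_neg hx', if_neg (fun h => hx' (key.2 h))]
  have hmps := ps_meas ρ hρ c q
  have hI1 : ∫ x, ph W ρ c q x ∂W = -A1 q := by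
    rw [integral_congr_ae hae2, hh4 _ hmps]
    unfold ps
    rw [int_ite _ (by fun_prop) q hqI.1 hqI.2, intervalIntegral.integral_neg]
  have hI2 : ∫ x, (ph W ρ c q x - ∫ y, ph W ρ c q y ∂W) ^ 2 ∂W = A2 q - A1 q ^ 2 := by
    rw [hI1]
    have : ∀ᵐ x ∂W, (ph W ρ c q x - -A1 q) ^ 2 = (ps ρ c q (cdf W x) + A1 q) ^ 2 := by
      filter_upwards [hae2] with x hx
      rw [hx]; ring
    rw [integral_congr_ae this, hh4 (fun u => (ps ρ c q u + A1 q) ^ 2)
      ((hmps.add_const _).pow_const 2)]
    have hexp : (fun u => (ps ρ c q u + A1 q) ^ 2) = fun u =>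
        (if u ≤ q then ((ρ u + c) ^ 2 - 2 * A1 q * (ρ u + c)) else 0) + A1 q ^ 2 := by
      ext u
      unfold ps
      split_ifs <;> ring
    rw [hexp, intervalIntegral.integral_add, int_ite _ (by fun_prop) q hqI.1 hqI.2,
      intervalIntegral.integral_const, intervalIntegral.integral_sub,
      intervalIntegral.integral_const_mul]
    · simp only [hA1, hA2, smul_eq_mul]
      ring
    · exact (cρ.pow 2).intervalIntegrable _ _
    · exact (continuous_const.mul cρ).intervalIntegrable _ _
    · have : (fun u => if u ≤ q then ((ρ u + c) ^ 2 - 2 * A1 q * (ρ u + c)) else 0)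
        = (Iic q).indicator (fun u => (ρ u + c) ^ 2 - 2 * A1 q * (ρ u + c)) := by
        ext u
        simp [Set.indicator, Set.mem_Iic]
      rw [this, intervalIntegrable_iff]
      exact ((intervalIntegrable_iff.1 (((cρ.pow 2).sub
        (continuous_const.mul cρ)).intervalIntegrable _ _))).indicator measurableSet_Iic
    · simp
  have hsd : sdW W (ph W ρ c q) = Real.sqrt (A2 q - A1 q ^ 2) := by
    unfold sdW
    rw [hI2]
  have hw : ph W ρ c q (quant W p) = 0 := by
    unfold ph
    rw [if_neg]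
    rw [not_le]
    by_contra hle
    rw [not_lt] at hle
    have := (hu7 _ (hu5 p hpI).1 _ (hu5 q hqI).1).2 hle
    rw [(hu5 p hpI).2, (hu5 q hqI).2] at this
    linarith
  have hT : T W n j p (ph W ρ c q) = -A3 q := by
    unfold T
    rw [hw, sub_zero]
    have : ∀ᵐ x ∂W, ph W ρ c q x * f n j (cdf W x) = ps ρ c q (cdf W x) * f n j (cdf W x) := by
      filter_upwards [hae2] with x hx
      rw [hx]
    rw [integral_congr_ae this, hh4 (fun u => ps ρ c q u * f n j u) (hmps.mul hfc.measurable)]
    have hexp : (fun u => ps ρ c q u * f n j u) = fun u =>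
        (if u ≤ q then -((ρ u + c) * f n j u) else 0) := by
      ext u
      unfold ps
      split_ifs <;> ring
    rw [hexp, int_ite _ (by fun_prop) q hqI.1 hqI.2, intervalIntegral.integral_neg]
  refine ⟨ph W ρ c q, tame W hW ρ hρ ha h0 c hc0 q, ?_, ?_⟩
  · rw [hsd]
    exact Real.sqrt_pos.2 hq2
  · rw [hsd, hT]
    exact hq1.le

end PkgAS2

open PkgAS2 in
theorem pAS2 (hUNI : S_UNI) (hFF : S_FF) (hHH : S_HH) (hSST : S_SST) (hBET : S_BET) : S_AS2 := by
  intro W hW n j p hP s hms hs1 hsf ε hε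
  obtain ⟨hf1, hf2, hf3, hf4, hf5, hf6, hf7, hf8, hf9, hf10, hf11, hf12⟩ := hFF n j p hP
  have hp1 := hP.p1
  have hp0 := hP.p0
  have hp : 0 < 1 - p := by linarith
  have hGp : 0 < G n j p := by
    have := hf10 (left_mem_Icc.2 zero_le_one) ⟨hp0.le, hp1.le⟩ hp0
    rwa [hf7] at this
  have hs0 : 0 ≤ s := hf11.trans hms
  have hBET' := (hBET n j hP.j1 hP.jn).2
  have hii : ∀ a b : ℝ, IntervalIntegrable (f n j) volume a b :=
    fun a b => hf2.intervalIntegrable a b
  have hsub : ∀ a b : ℝ, ∫ u in a..b, f n j u = G n j b - G n j a := by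
    intro a b
    rw [hBET' b, hBET' a, intervalIntegral.integral_interval_sub_left (hii _ _) (hii _ _)]
  rcases le_or_gt s p with hsp | hsp
  · -- case A
    have hmin : min s p = s := min_eq_left hsp
    set B1 : ℝ := s * f n j s ^ 2 + ∫ u in s..p, f n j u ^ 2 with hB1
    have hcρ : Continuous fun u : ℝ => f n j (max u s) := hf2.comp (by fun_prop)
    have hleft : ∀ u ∈ uIcc (0 : ℝ) s, f n j (max u s) = f n j s := by
      intro u hu
      rw [uIcc_of_le hs0] at hu
      rw [max_eq_right hu.2]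
    have hright : ∀ u ∈ uIcc s p, f n j (max u s) = f n j u := by
      intro u hu
      rw [uIcc_of_le hsp] at hu
      rw [max_eq_left hu.1]
    have hGs : G n j s ^ 2 / s = s * f n j s ^ 2 := by
      rcases hs0.eq_or_lt with h | h
      · rw [← h]; simp
      · rw [← hsf]; field_simp
    have hBsq : Binf n j p s ^ 2 = B1 + G n j p ^ 2 / (1 - p) := by
      unfold Binf
      rw [hmin, Real.sq_sqrt, hGs]
      rw [hGs]
      have : 0 ≤ ∫ u in s..p, f n j u ^ 2 :=
        intervalIntegral.integral_nonneg hsp (fun u _ => sq_nonneg _)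
      positivity
    have hBpos : 0 < Binf n j p s := by
      unfold Binf
      rw [hmin, hGs]
      apply Real.sqrt_pos.2
      have : 0 ≤ ∫ u in s..p, f n j u ^ 2 :=
        intervalIntegral.integral_nonneg hsp (fun u _ => sq_nonneg _)
      have h2 : 0 < G n j p ^ 2 / (1 - p) := by positivity
      have h3 : 0 ≤ s * f n j s ^ 2 := by positivity
      linarith
    refine core hUNI hHH hBET W hW n j p hP (fun u => f n j (max u s)) hcρ ?_ ?_ hGp.le B1
      (Binf n j p s) ?_ ?_ ?_ hBsq hBpos ε hε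
    · intro u hu v hv huv
      have hmu : max u s ∈ Icc (((j : ℝ) - 1) / ((n : ℝ) - 1)) 1 :=
        ⟨hms.trans (le_max_right _ _), max_le hu.2 hs1.le⟩
      have hmv : max v s ∈ Icc (((j : ℝ) - 1) / ((n : ℝ) - 1)) 1 :=
        ⟨hms.trans (le_max_right _ _), max_le hv.2 hs1.le⟩
      exact hf5.antitoneOn hmu hmv (max_le_max_right s huv)
    · intro u hu
      exact hf3 _ ⟨hu.1.trans (le_max_left _ _), max_le hu.2 hs1.le⟩
    · rw [← intervalIntegral.integral_add_adjacent_intervals
        (hcρ.intervalIntegrable 0 s) (hcρ.intervalIntegrable s p),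
        intervalIntegral.integral_congr (g := fun _ => f n j s) hleft,
        intervalIntegral.integral_congr (g := fun u => f n j u) hright, hsub,
        intervalIntegral.integral_const, smul_eq_mul, sub_zero, hsf]
      ring
    · have k1 : Continuous fun u : ℝ => f n j (max u s) ^ 2 := by fun_prop
      have e1 : ∫ u in (0 : ℝ)..s, f n j (max u s) ^ 2 = ∫ _u in (0 : ℝ)..s, f n j s ^ 2 :=
        intervalIntegral.integral_congr (fun u hu => by simp only [hleft u hu])
      have e2 : ∫ u in s..p, f n j (max u s) ^ 2 = ∫ u in s..p, f n j u ^ 2 :=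
        intervalIntegral.integral_congr (fun u hu => by simp only [hright u hu])
      rw [← intervalIntegral.integral_add_adjacent_intervals
        (k1.intervalIntegrable 0 s) (k1.intervalIntegrable s p), e1, e2,
        intervalIntegral.integral_const, smul_eq_mul, sub_zero]
    · have k1 : Continuous fun u : ℝ => f n j (max u s) * f n j u := by fun_prop
      have e1 : ∫ u in (0 : ℝ)..s, f n j (max u s) * f n j u
          = ∫ u in (0 : ℝ)..s, f n j s * f n j u :=
        intervalIntegral.integral_congr (fun u hu => by simp only [hleft u hu])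
      have e2 : ∫ u in s..p, f n j (max u s) * f n j u = ∫ u in s..p, f n j u ^ 2 :=
        intervalIntegral.integral_congr (fun u hu => by simp only [hright u hu]; ring)
      rw [← intervalIntegral.integral_add_adjacent_intervals
        (k1.intervalIntegrable 0 s) (k1.intervalIntegrable s p), e1, e2,
        intervalIntegral.integral_const_mul, hsub, hf7, sub_zero, ← hsf, hB1]
      ring
  · -- case B
    have hmin : min s p = p := min_eq_right hsp.le
    set B1 : ℝ := G n j p ^ 2 / p with hB1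
    have hBsq : Binf n j p s ^ 2 = B1 + G n j p ^ 2 / (1 - p) := by
      unfold Binf
      rw [hmin, Real.sq_sqrt, intervalIntegral.integral_same, add_zero]
      rw [intervalIntegral.integral_same]
      positivity
    have hBpos : 0 < Binf n j p s := by
      unfold Binf
      rw [hmin, intervalIntegral.integral_same]
      apply Real.sqrt_pos.2
      positivity
    refine core hUNI hHH hBET W hW n j p hP (fun _ => G n j p / p) continuous_const ?_ ?_ hGp.le B1
      (Binf n j p s) ?_ ?_ ?_ hBsq hBpos ε hε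
    · intro u _ v _ _
      exact le_rfl
    · intro u _
      positivity
    · rw [intervalIntegral.integral_const, smul_eq_mul, sub_zero]
      field_simp
    · rw [intervalIntegral.integral_const, smul_eq_mul, sub_zero, hB1]
      field_simp
    · rw [intervalIntegral.integral_const_mul, hsub, hf7, sub_zero, hB1]
      ring

end Pool.Agent.T2H99.QB
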