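import Pool.Agent.T2H99.QB.Stm

/-!
# Package BET: `G' = f`
-/

set_option autoImplicit false

open MeasureTheory ProbabilityTheory Set Filter Topology

noncomputable section

namespace Pool.Agent.T2H99.QB

namespace PkgBET

theorem term (n i : ℕ) (u : ℝ) :
    HasDerivAt (fun u : ℝ => (n.choose i : ℝ) * u ^ i * (1 - u) ^ (n - i))
      (f n i u - f n (i + 1) u) u := by
  have h1 : HasDerivAt (fun u : ℝ => u ^ i) ((i : ℝ) * u ^ (i - 1)) u := hasDerivAt_pow i u
  have h2 : HasDerivAt (fun u : ℝ => (1 - u)) (-1) u := by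
    simpa using (hasDerivAt_id u).const_sub 1
  have h3 : HasDerivAt (fun u : ℝ => (1 - u) ^ (n - i))
      (((n - i : ℕ) : ℝ) * (1 - u) ^ (n - i - 1) * (-1)) u := h2.pow (n - i)
  have h4 := (h1.const_mul (n.choose i : ℝ)).mul h3
  refine h4.congr_deriv ?_
  have hc : ((n.choose (i + 1) : ℝ)) * ((i : ℝ) + 1) = (n.choose i : ℝ) * ((n - i : ℕ) : ℝ) := by
    have := Nat.choose_succ_right_eq n i
    exact_mod_cast this
  unfold f
  have e1 : i + 1 - 1 = i := by omega
  have e2 : n - i - 1 = n - (i + 1) := by omega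
  rw [e1, e2]
  push_cast
  linear_combination (u ^ i * (1 - u) ^ (n - (i + 1))) * hc

end PkgBET

theorem pBET : S_BET := by
  intro n j hj hjn
  have hder : ∀ u : ℝ, HasDerivAt (G n j) (f n j u) u := by
    intro u
    have h1 : HasDerivAt (G n j) (∑ i ∈ Finset.Ico j (n + 1), (f n i u - f n (i + 1) u)) u := by
      unfold G
      exact HasDerivAt.fun_sum (fun i _ => PkgBET.term n i u)
    refine h1.congr_deriv ?_
    rw [Finset.sum_Ico_eq_sum_range]
    have h2 : ∀ k ∈ Finset.range (n + 1 - j),
        f n (j + k) u - f n (j + k + 1) u =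
          (fun k => f n (j + k) u) k - (fun k => f n (j + k) u) (k + 1) := by
      intro k _
      rfl
    rw [Finset.sum_congr rfl h2, Finset.sum_range_sub']
    have e3 : j + (n + 1 - j) = n + 1 := by omega
    have h4 : f n (n + 1) u = 0 := by
      unfold f
      rw [Nat.choose_succ_self]
      simp
    simp only [add_zero]
    rw [e3, h4, sub_zero]
  refine ⟨hder, fun u => ?_⟩
  have hcont : Continuous (f n j) := by
    unfold f
    fun_prop
  have h0 : G n j 0 = 0 := by
    unfold G
    apply Finset.sum_eq_zero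
    intro i hi
    have hi1 : i ≠ 0 := by
      have := (Finset.mem_Ico.1 hi).1
      omega
    rw [zero_pow hi1]
    ring
  rw [intervalIntegral.integral_eq_sub_of_hasDerivAt (fun x _ => hder x)
    (hcont.intervalIntegrable 0 u), h0, sub_zero]

end Pool.Agent.T2H99.QB
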