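import Pool.Agent.T2H99.QB.Stm

/-!
# Package C0B: the infimum over the convex order is zero (upper side)
-/

open MeasureTheory ProbabilityTheory Set Filter Topology

noncomputable section

namespace Pool.Agent.T2H99.QB

namespace PkgC0B

theorem min_sq_le (x t : ℝ) : (min x t) ^ 2 ≤ (min x 0) ^ 2 + t ^ 2 := by
  rcases le_total x t with h | h
  · rw [min_eq_left h]
    rcases le_total x 0 with h0 | h0
    · rw [min_eq_left h0]; nlinarith [sq_nonneg t]
    · rw [min_eq_right h0]; nlinarith
  · rw [min_eq_right h]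
    nlinarith [sq_nonneg (min x 0)]

theorem sq_int {W : Measure ℝ} [IsProbabilityMeasure W] (hI : IM W) (t : ℝ) :
    Integrable (fun x => (min x t) ^ 2) W := by
  have h : Integrable (fun x : ℝ => (min x 0) ^ 2 + t ^ 2) W := hI.add (integrable_const _)
  refine h.mono' (by fun_prop) ?_
  refine Eventually.of_forall fun x => ?_
  rw [Real.norm_of_nonneg (sq_nonneg _)]
  exact min_sq_le x t

end PkgC0B

open PkgC0B in
theorem pC0B (hUNI : S_UNI) (_hFF : S_FF) (hHH : S_HH) : S_C0B := by
  intro W hW hI n j p hP ε hε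
  have := hW.prob
  obtain ⟨hnull, hopen, hord, -, hq, hqi, hle⟩ := hUNI W hW
  obtain ⟨⟨C, hC⟩, hh0, hhm, -, -, -, hT⟩ := hHH W hW n j p hP
  have hC0 : 0 ≤ C := (abs_nonneg _).trans (hC 0)
  set u : ℝ := min (p / 2) (ε ^ 2 / (2 * (C ^ 2 + ε ^ 2))) with hu
  have hp0 := hP.p0
  have hp1 := hP.p1
  have hden : 0 < C ^ 2 + ε ^ 2 := by positivity
  have hu0 : 0 < u := lt_min (by linarith) (by positivity)
  have hu1 : u ≤ p / 2 := min_le_left _ _
  have hu2 : u * (C ^ 2 + ε ^ 2) < ε ^ 2 := by
    have h1 : u ≤ ε ^ 2 / (2 * (C ^ 2 + ε ^ 2)) := min_le_right _ _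
    have h2 := mul_le_mul_of_nonneg_right h1 hden.le
    have h3 : ε ^ 2 / (2 * (C ^ 2 + ε ^ 2)) * (C ^ 2 + ε ^ 2) = ε ^ 2 / 2 := by
      field_simp
    have h4 : 0 < ε ^ 2 := by positivity
    linarith
  obtain ⟨ht1, ht2⟩ := hq u ⟨hu0, by linarith⟩
  obtain ⟨hw1, hw2⟩ := hq p ⟨hp0, hp1⟩
  set t : ℝ := quant W u with ht
  have htw : t < quant W p := by
    by_contra hcon
    push Not at hcon
    have h1 := (hle _ hw1 _ ht1).2 hcon
    rw [hw2, ht2] at h1
    linarith
  -- `y = t - min x t`
  set y : ℝ → ℝ := fun x => t - min x t with hy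
  have hg2 : Integrable (fun x => (min x t) ^ 2) W := sq_int hI t
  obtain ⟨hgi, hghi, hTg⟩ := hT (fun x => min x t) (by fun_prop) hg2
  have hyi : Integrable y W := (integrable_const t).sub hgi
  have hy2 : Integrable (fun x => y x ^ 2) W := by
    have h1 : Integrable (fun x => t ^ 2 - 2 * t * min x t + (min x t) ^ 2) W :=
      ((integrable_const _).sub (hgi.const_mul _)).add hg2
    refine h1.congr (Eventually.of_forall fun x => ?_)
    simp only [hy]
    ring
  have hy0 : ∀ x, 0 ≤ y x := fun x => sub_nonneg.2 (min_le_right _ _)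
  set m : ℝ := ∫ x, y x ∂W with hm
  set S : ℝ := ∫ x, y x ^ 2 ∂W with hS
  have hm0 : 0 ≤ m := integral_nonneg hy0
  have hmeas : W.real (Iic t) = u := by rw [← cdf_eq_real, ht2]
  -- positivity of `S`
  have hS0 : 0 < S := by
    obtain ⟨e, he, hb⟩ := Metric.isOpen_iff.1 hopen t ht1
    have ht' : t - e / 2 ∈ spt W := by
      refine hb ?_
      rw [Metric.mem_ball, Real.dist_eq, show t - e / 2 - t = -(e / 2) by ring, abs_neg,
        abs_of_pos (by linarith)]
      linarith
    have h1 : ∫ x, (Iic (t - e / 2)).indicator (fun _ => (e / 2) ^ 2) x ∂W ≤ S := by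
      refine integral_mono ((integrable_const _).indicator measurableSet_Iic) hy2 ?_
      intro x
      by_cases hx : x ∈ Iic (t - e / 2)
      · rw [indicator_of_mem hx]
        simp only [mem_Iic] at hx
        have h2 : e / 2 ≤ y x := by
          simp only [hy]
          rw [min_eq_left (by linarith)]
          linarith
        exact pow_le_pow_left₀ (by linarith) h2 2
      · rw [indicator_of_notMem hx]
        exact sq_nonneg _
    rw [integral_indicator measurableSet_Iic, setIntegral_const, smul_eq_mul, ← cdf_eq_real] at h1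
    have h3 : 0 < cdf W (t - e / 2) * (e / 2) ^ 2 := mul_pos ht'.1 (by positivity)
    linarith
  -- Cauchy-Schwarz
  have hCS : m ^ 2 ≤ u * S := by
    have hint : Integrable (fun x => (Iic t).indicator (fun _ => (1 : ℝ)) x) W :=
      (integrable_const _).indicator measurableSet_Iic
    have h1 : 0 ≤ ∫ x, (m ^ 2 * y x ^ 2 - 2 * m * S * y x +
        S ^ 2 * (Iic t).indicator (fun _ => (1 : ℝ)) x) ∂W := by
      refine integral_nonneg fun x => ?_
      by_cases hx : x ∈ Iic t
      · rw [indicator_of_mem hx]
        have e : m ^ 2 * y x ^ 2 - 2 * m * S * y x + S ^ 2 * 1 = (m * y x - S) ^ 2 := by ring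
        have h2 := sq_nonneg (m * y x - S)
        rw [← e] at h2
        exact h2
      · rw [indicator_of_notMem hx]
        simp only [mem_Iic, not_le] at hx
        have : y x = 0 := by simp only [hy]; rw [min_eq_right hx.le]; ring
        simp [this]
    have i1 : Integrable (fun x => m ^ 2 * y x ^ 2) W := hy2.const_mul _
    have i2 : Integrable (fun x => 2 * m * S * y x) W := hyi.const_mul _
    have i3 : Integrable (fun x => S ^ 2 * (Iic t).indicator (fun _ => (1 : ℝ)) x) W :=
      hint.const_mul _
    have i4 : Integrable (fun x => m ^ 2 * y x ^ 2 - 2 * m * S * y x) W := i1.sub i2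
    rw [integral_add i4 i3,
      integral_sub i1 i2, integral_const_mul, integral_const_mul,
      integral_const_mul, ← hS, ← hm, integral_indicator measurableSet_Iic, setIntegral_const,
      smul_eq_mul, hmeas] at h1
    by_contra hcon
    push Not at hcon
    nlinarith
  -- the variance
  have hsd : sdW W (fun x => min x t) = Real.sqrt (S - m ^ 2) := by
    unfold sdW
    congr 1
    have hE : ∫ x, min x t ∂W = t - m := by
      rw [hm]
      simp only [hy]
      rw [integral_sub (integrable_const _) hgi]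
      simp
    rw [hE]
    have h1 : ∀ x : ℝ, (min x t - (t - m)) ^ 2 = m ^ 2 - 2 * m * y x + y x ^ 2 := by
      intro x
      simp only [hy]
      ring
    simp only [h1]
    have i2 : Integrable (fun x => 2 * m * y x) W := hyi.const_mul _
    have i1 : Integrable (fun x => m ^ 2 - 2 * m * y x) W := (integrable_const _).sub i2
    rw [integral_add i1 hy2,
      integral_sub (integrable_const _) i2, integral_const_mul, ← hm, ← hS]
    simp
    ring
  have hvar : (1 - u) * S ≤ S - m ^ 2 := by nlinarith
  have hu1' : u < 1 := by linarith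
  have hvar0 : 0 < S - m ^ 2 := lt_of_lt_of_le (mul_pos (by linarith) hS0) hvar
  have hsd0 : 0 < sdW W (fun x => min x t) := by rw [hsd]; exact Real.sqrt_pos.2 hvar0
  refine ⟨t, ht1, htw, hsd0, ?_⟩
  -- the numerator
  have hTlow : -(C * m) ≤ T W n j p (fun x => min x t) := by
    rw [hTg]
    rw [min_eq_right htw.le]
    have h1 : -(C * m) = ∫ x, -(C * y x) ∂W := by
      rw [integral_neg, integral_const_mul]
    rw [h1]
    refine integral_mono (hyi.const_mul C).neg ?_ ?_
    · have h2 : Integrable (fun x => min x t * f n j (cdf W x) - t * f n j (cdf W x)) W := by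
        refine hghi.sub (Integrable.const_mul ?_ t)
        refine (integrable_const C).mono' hhm.aestronglyMeasurable ?_
        exact Eventually.of_forall fun x => hC x
      refine h2.congr (Eventually.of_forall fun x => ?_)
      simp only
      ring
    · intro x
      simp only
      have h3 : f n j (cdf W x) ≤ C := (le_abs_self _).trans (hC x)
      have h4 := mul_le_mul_of_nonneg_right h3 (hy0 x)
      have h5 : (min x t - t) = - y x := by simp only [hy]; ring
      rw [h5]
      linarith
  rw [lt_div_iff₀ hsd0]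
  have hkey : C * m < ε * sdW W (fun x => min x t) := by
    rw [hsd]
    apply lt_of_pow_lt_pow_left₀ 2 (mul_nonneg hε.le (Real.sqrt_nonneg _))
    rw [mul_pow, mul_pow, Real.sq_sqrt hvar0.le]
    have h1 : C ^ 2 * m ^ 2 ≤ C ^ 2 * (u * S) := mul_le_mul_of_nonneg_left hCS (sq_nonneg _)
    have h2 : ε ^ 2 * ((1 - u) * S) ≤ ε ^ 2 * (S - m ^ 2) :=
      mul_le_mul_of_nonneg_left hvar (sq_nonneg _)
    have h3 : u * (C ^ 2 + ε ^ 2) * S < ε ^ 2 * S := mul_lt_mul_of_pos_right hu2 hS0
    nlinarith
  linarith

end Pool.Agent.T2H99.QB
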