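import Pool.Agent.T2H99.QB.Stm

/-! # Project QB, package CE1

The extremal function is unique: the inequality `T(g) ≤ c sdW(g)` on the cone (CRL, CRR) and the
parallelogram law for the variance. -/

open MeasureTheory ProbabilityTheory Set Filter Topology

noncomputable section

namespace Pool.Agent.T2H99.QB

namespace PkgCE1

/-- the upper bound for concave functions -/
theorem upper (hUNI : S_UNI) (hCRL : S_CRL) (hCRR : S_CRR) {W : Measure ℝ} (hW : Ref W) {n j : ℕ}
    {p : ℝ} (hP : Par n j p) {c : ℝ} (hc : 0 ≤ c)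
    (h : ∀ t ∈ spt W, quant W p < t → Nt W n j p t ≤ c * Real.sqrt (Vt W t)) {g : ℝ → ℝ}
    (hg : ConcaveOn ℝ (spt W) g) (hm : MonotoneOn g (spt W))
    (hi : Integrable (fun x => g x ^ 2) W) :
    T W n j p g ≤ c * sdW W g := by
  obtain ⟨hqp, -⟩ := (hUNI W hW).2.2.2.2.1 p ⟨hP.p0, hP.p1⟩
  obtain ⟨s, g', hs, h1, h2, h3, h4, h5, h6, h7⟩ := hCRL W hW n j p hP g hg hm hi
  have hw : g' (quant W p) = g (quant W p) := h2 _ hqp le_rfl
  have h8 := hCRR W hW n j p hP c hc h s g' hs (fun x hx hxw => by rw [hw]; exact h1 x hx hxw)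
    (fun x hx hxw => by rw [hw, h2 x hx hxw]; exact h3 x hx) h4 h5
  exact h6.trans (h8.trans (mul_le_mul_of_nonneg_left h7 hc))

theorem sdW_nonneg (W : Measure ℝ) (g : ℝ → ℝ) : 0 ≤ sdW W g := Real.sqrt_nonneg _

theorem sdW_const_mul (W : Measure ℝ) {α : ℝ} (hα : 0 ≤ α) (g : ℝ → ℝ) :
    sdW W (fun x => α * g x) = α * sdW W g := by
  unfold sdW
  have : ∀ x, (α * g x - ∫ y, α * g y ∂W) ^ 2 = α ^ 2 * (g x - ∫ y, g y ∂W) ^ 2 := by
    intro x
    rw [integral_const_mul]
    ring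
  simp_rw [this]
  rw [integral_const_mul, Real.sqrt_mul (sq_nonneg α), Real.sqrt_sq hα]

theorem T_const_mul (W : Measure ℝ) (n j : ℕ) (p : ℝ) (α : ℝ) (g : ℝ → ℝ) :
    T W n j p (fun x => α * g x) = α * T W n j p g := by
  unfold T
  have : ∀ x, α * g x * f n j (cdf W x) = α * (g x * f n j (cdf W x)) := fun x => by ring
  simp_rw [this]
  rw [integral_const_mul]
  ring

/-- the parallelogram law -/
theorem mid {W : Measure ℝ} [IsProbabilityMeasure W] {u v : ℝ → ℝ} (hu : MemLp u 2 W)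
    (hv : MemLp v 2 W) (h1 : sdW W u = sdW W v)
    (h2 : 2 * sdW W u ≤ sdW W (fun x => u x + v x)) : ∃ b : ℝ, ∀ᵐ x ∂W, u x = v x + b := by
  have hui : Integrable u W := hu.integrable one_le_two
  have hvi : Integrable v W := hv.integrable one_le_two
  set a := ∫ x, u x ∂W with ha
  set b := ∫ x, v x ∂W with hb
  have hU : MemLp (fun x => u x - a) 2 W := hu.sub (memLp_const a)
  have hV : MemLp (fun x => v x - b) 2 W := hv.sub (memLp_const b)
  have hsu : sdW W u ^ 2 = ∫ x, (u x - a) ^ 2 ∂W :=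
    Real.sq_sqrt (integral_nonneg fun x => sq_nonneg _)
  have hsv : sdW W v ^ 2 = ∫ x, (v x - b) ^ 2 ∂W :=
    Real.sq_sqrt (integral_nonneg fun x => sq_nonneg _)
  have hsum : ∫ x, (u x + v x) ∂W = a + b := integral_add hui hvi
  have hsuv : sdW W (fun x => u x + v x) ^ 2 = ∫ x, (u x - a + (v x - b)) ^ 2 ∂W := by
    unfold sdW
    rw [Real.sq_sqrt (integral_nonneg fun x => sq_nonneg _), hsum]
    congr 1
    ext x
    ring
  have hp : Integrable (fun x => (u x - a + (v x - b)) ^ 2) W := (hU.add hV).integrable_sq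
  have hm : Integrable (fun x => (u x - a - (v x - b)) ^ 2) W := (hU.sub hV).integrable_sq
  have key : ∫ x, (u x - a + (v x - b)) ^ 2 ∂W + ∫ x, (u x - a - (v x - b)) ^ 2 ∂W =
      2 * ∫ x, (u x - a) ^ 2 ∂W + 2 * ∫ x, (v x - b) ^ 2 ∂W := by
    rw [← integral_add hp hm, ← integral_const_mul, ← integral_const_mul,
      ← integral_add (hU.integrable_sq.const_mul 2) (hV.integrable_sq.const_mul 2)]
    congr 1
    ext x
    ring
  have hz : ∫ x, (u x - a - (v x - b)) ^ 2 ∂W = 0 := by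
    apply le_antisymm _ (integral_nonneg fun x => sq_nonneg _)
    have h3 : (2 * sdW W u) ^ 2 ≤ sdW W (fun x => u x + v x) ^ 2 :=
      pow_le_pow_left₀ (mul_nonneg zero_le_two (sdW_nonneg W u)) h2 2
    rw [hsuv] at h3
    have h4 : sdW W v ^ 2 = sdW W u ^ 2 := by rw [h1]
    rw [← hsu, ← hsv, h4] at key
    nlinarith
  have h5 := (integral_eq_zero_iff_of_nonneg (fun x => sq_nonneg _) hm).1 hz
  refine ⟨a - b, ?_⟩
  filter_upwards [h5] with x hx
  have h6 : u x - a - (v x - b) = 0 := by simpa using hx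
  linarith

/-- continuous functions which agree almost everywhere agree on the support interval -/
theorem eq_of_ae {W : Measure ℝ} (hW : Ref W) (ho : IsOpen (spt W)) {φ ψ : ℝ → ℝ}
    (h1 : ContinuousOn φ (spt W)) (h2 : ContinuousOn ψ (spt W)) (h : ∀ᵐ x ∂W, φ x = ψ x) :
    ∀ x ∈ spt W, φ x = ψ x := by
  have := hW.prob
  intro x hx
  by_contra hne
  have hcx : ContinuousAt (fun x => φ x - ψ x) x := (h1.sub h2).continuousAt (ho.mem_nhds hx)
  have hev : ∀ᶠ y in 𝓝 x, φ y - ψ y ≠ 0 := hcx.eventually_ne (sub_ne_zero.2 hne)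
  have hev2 : ∀ᶠ y in 𝓝 x, y ∈ spt W := ho.mem_nhds hx
  obtain ⟨ε, hε, hball⟩ := Metric.eventually_nhds_iff_ball.1 (hev.and hev2)
  have hin : ∀ y, x - ε / 2 ≤ y → y ≤ x → y ∈ Metric.ball x ε := by
    intro y h3 h4
    rw [Metric.mem_ball, Real.dist_eq, abs_lt]
    constructor <;> linarith
  have hnull : W (Ioc (x - ε / 2) x) = 0 := by
    refine measure_mono_null (fun y hy => ?_) h
    exact fun hcon => (hball y (hin y hy.1.le hy.2)).1 (sub_eq_zero.2 hcon)
  have hmass : W (Ioc (x - ε / 2) x) = ENNReal.ofReal (cdf W x - cdf W (x - ε / 2)) := by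
    conv_lhs => rw [← measure_cdf W]
    exact StieltjesFunction.measure_Ioc _ _ _
  have hlt : cdf W (x - ε / 2) < cdf W x :=
    hW.strict (hball _ (hin _ le_rfl (by linarith))).2 hx (by linarith)
  rw [hmass, ENNReal.ofReal_eq_zero] at hnull
  linarith

/-- uniqueness of the extremal function -/
theorem unique (hUNI : S_UNI) (hHH : S_HH) (hMEA : S_MEA) (hCRL : S_CRL) (hCRR : S_CRR)
    {W : Measure ℝ} (hW : Ref W) {n j : ℕ} {p : ℝ} (hP : Par n j p) {c : ℝ} (hc : 0 < c)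
    (h : ∀ t ∈ spt W, quant W p < t → Nt W n j p t ≤ c * Real.sqrt (Vt W t)) {g g₀ : ℝ → ℝ}
    (hg : ConcaveOn ℝ (spt W) g) (hm : MonotoneOn g (spt W))
    (hi : Integrable (fun x => g x ^ 2) W) (hsd : 0 < sdW W g) (hT : T W n j p g = c * sdW W g)
    (hg₀ : ConcaveOn ℝ (spt W) g₀) (hm₀ : MonotoneOn g₀ (spt W))
    (hi₀ : Integrable (fun x => g₀ x ^ 2) W) (hsd₀ : 0 < sdW W g₀)
    (hT₀ : T W n j p g₀ = c * sdW W g₀) :
    ∃ α b : ℝ, 0 < α ∧ ∀ x ∈ spt W, g x = α * g₀ x + b := by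
  have := hW.prob
  obtain ⟨-, ho, -, -, -, -, -⟩ := hUNI W hW
  set α : ℝ := sdW W g / sdW W g₀ with hα
  have hα0 : 0 < α := div_pos hsd hsd₀
  have hae : AEStronglyMeasurable g W := hMEA W hW g (Or.inl hm)
  have hae₀ : AEStronglyMeasurable g₀ W := hMEA W hW g₀ (Or.inl hm₀)
  have hL : MemLp g 2 W := (memLp_two_iff_integrable_sq hae).2 hi
  have hL₀ : MemLp (fun x => α * g₀ x) 2 W :=
    ((memLp_two_iff_integrable_sq hae₀).2 hi₀).const_mul α
  have hsv : sdW W (fun x => α * g₀ x) = sdW W g := by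
    rw [sdW_const_mul W hα0.le, hα]
    field_simp
  have hTv : T W n j p (fun x => α * g₀ x) = c * sdW W g := by
    rw [T_const_mul, hT₀, hα]
    field_simp
  have hvi : Integrable (fun x => (α * g₀ x) ^ 2) W := hL₀.integrable_sq
  -- the sum is in the cone
  have hcv : ConcaveOn ℝ (spt W) (fun x => α * g₀ x) := by
    have := hg₀.smul hα0.le
    simpa [smul_eq_mul] using this
  have hkc : ConcaveOn ℝ (spt W) (fun x => g x + α * g₀ x) := hg.add hcv
  have hkm : MonotoneOn (fun x => g x + α * g₀ x) (spt W) := by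
    intro x hx y hy hxy
    have h1 := hm hx hy hxy
    have h2 := mul_le_mul_of_nonneg_left (hm₀ hx hy hxy) hα0.le
    simp only
    linarith
  have hki : Integrable (fun x => (g x + α * g₀ x) ^ 2) W := (hL.add hL₀).integrable_sq
  have hTk : T W n j p (fun x => g x + α * g₀ x) =
      T W n j p g + T W n j p (fun x => α * g₀ x) := by
    obtain ⟨-, -, -, -, -, -, hint⟩ := hHH W hW n j p hP
    have e1 := (hint g hae hi).2.1
    have e2 := (hint (fun x => α * g₀ x) hL₀.1 hvi).2.1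
    unfold T
    have : ∀ x, (g x + α * g₀ x) * f n j (cdf W x) =
        g x * f n j (cdf W x) + α * g₀ x * f n j (cdf W x) := fun x => by ring
    simp_rw [this]
    rw [integral_add e1 e2]
    ring
  have hup := upper hUNI hCRL hCRR hW hP hc.le h hkc hkm hki
  rw [hTk, hT, hTv] at hup
  have h2 : 2 * sdW W g ≤ sdW W (fun x => g x + α * g₀ x) := by
    have : c * (2 * sdW W g) ≤ c * sdW W (fun x => g x + α * g₀ x) := by linarith
    exact le_of_mul_le_mul_left this hc
  obtain ⟨b, hb⟩ := mid hL hL₀ hsv.symm h2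
  refine ⟨α, b, hα0, ?_⟩
  exact eq_of_ae hW ho (hg.continuousOn ho) ((hcv.continuousOn ho).add continuousOn_const) hb

end PkgCE1

open PkgCE1 in
theorem pCE1 (hUNI : S_UNI) (hHH : S_HH) (hMEA : S_MEA) (hNV : S_NV) (hMAX : S_MAX)
    (hCRL : S_CRL) (hCRR : S_CRR) : S_CE1 := by
  intro W hW hIM n j p hP t' ht' hwt hD g hgc hgm hgi hsd heq
  have := hW.prob
  obtain ⟨-, ho, hoc, -, hq, -, -⟩ := hUNI W hW
  obtain ⟨hqp, -⟩ := hq p ⟨hP.p0, hP.p1⟩
  obtain ⟨hN, hmax, -⟩ := hMAX W hW hIM n j p hP t' ht' hwt hD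
  have hV : 0 < Vt W t' := ((hNV W hW hIM n j p hP t').2.2.2 ht').1
  have hs0 : 0 < Real.sqrt (Vt W t') := Real.sqrt_pos.2 hV
  set c := Nt W n j p t' / Real.sqrt (Vt W t') with hc
  have hcpos : 0 < c := div_pos hN hs0
  have hbd : ∀ t ∈ spt W, quant W p < t → Nt W n j p t ≤ c * Real.sqrt (Vt W t) := by
    intro t ht hwt2
    have hVt : 0 < Real.sqrt (Vt W t) :=
      Real.sqrt_pos.2 ((hNV W hW hIM n j p hP t).2.2.2 ht).1
    rw [← div_le_iff₀ hVt]
    by_cases h : t = t'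
    · rw [h]
    · exact (hmax t ht hwt2 h).le
  have hconv : Convex ℝ (spt W) := hoc.convex
  have hsd₀ : sdW W (fun x => min x t') = Real.sqrt (Vt W t') := rfl
  have hT₀ : T W n j p (fun x => min x t') = Nt W n j p t' := by
    unfold T Nt
    simp only [min_eq_left hwt.le]
  refine unique hUNI hHH hMEA hCRL hCRR hW hP hcpos hbd hgc hgm hgi hsd ?_
    (g₀ := fun x => min x t') ?_ ?_ ?_ ?_ ?_
  · rw [← heq]
    field_simp
  · exact (concaveOn_id hconv).inf (concaveOn_const t' hconv)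
  · intro x _ y _ hxy
    exact min_le_min_right t' hxy
  · have hdom : Integrable (fun x => (min x 0) ^ 2 + t' ^ 2) W :=
      Integrable.add hIM (integrable_const _)
    refine hdom.mono' (by fun_prop) (Eventually.of_forall fun x => ?_)
    rw [Real.norm_eq_abs, abs_of_nonneg (sq_nonneg _)]
    rcases le_total x t' with h1 | h1 <;> rcases le_total x 0 with h2 | h2 <;>
      simp only [min_eq_left h1, min_eq_right h1, min_eq_left h2, min_eq_right h2] <;> nlinarith
  · rw [hsd₀]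
    exact hs0
  · rw [hsd₀, hT₀, hc]
    field_simp

end Pool.Agent.T2H99.QB
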