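import Pool.Agent.T2H99.QB.Stm

/-! Project QB, package CE2: the extremal in the case without a zero of `Dt` is affine. -/

open MeasureTheory ProbabilityTheory Set Filter Topology

noncomputable section

namespace Pool.Agent.T2H99.QB

namespace PkgCE2

/-- the truncated line -/
def gt (v s w t x : ℝ) : ℝ := v + s * (min x t - w)

theorem min_sq {W : Measure ℝ} [IsProbabilityMeasure W] (hx : Integrable (fun x : ℝ => x ^ 2) W) (t : ℝ) :
    Integrable (fun x : ℝ => (min x t) ^ 2) W := by
  refine Integrable.mono' (hx.add (integrable_const (t ^ 2))) (by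
    apply Continuous.aestronglyMeasurable
    fun_prop) (Eventually.of_forall fun x => ?_)
  rw [Real.norm_eq_abs, abs_of_nonneg (sq_nonneg _)]
  simp only [Pi.add_apply]
  rcases min_choice x t with h | h
  · rw [h]; nlinarith [sq_nonneg t]
  · rw [h]; nlinarith [sq_nonneg x]

theorem min_int {W : Measure ℝ} [IsProbabilityMeasure W] (hx : Integrable (fun x : ℝ => x ^ 2) W) (t : ℝ) :
    Integrable (fun x : ℝ => min x t) W := by
  refine Integrable.mono' ((min_sq hx t).add (integrable_const 1)) (by
    apply Continuous.aestronglyMeasurable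
    fun_prop) (Eventually.of_forall fun x => ?_)
  rw [Real.norm_eq_abs]
  simp only [Pi.add_apply]
  rw [abs_le]
  constructor
  · nlinarith [sq_nonneg (min x t + 1), sq_nonneg (min x t)]
  · nlinarith [sq_nonneg (min x t - 1), sq_nonneg (min x t)]

theorem id_int {W : Measure ℝ} [IsProbabilityMeasure W] (hx : Integrable (fun x : ℝ => x ^ 2) W) :
    Integrable (fun x : ℝ => x) W := by
  refine Integrable.mono' (hx.add (integrable_const 1)) (by
    apply Continuous.aestronglyMeasurable
    fun_prop) (Eventually.of_forall fun x => ?_)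
  rw [Real.norm_eq_abs]
  simp only [Pi.add_apply]
  rw [abs_le]
  constructor
  · nlinarith [sq_nonneg (x + 1), sq_nonneg x]
  · nlinarith [sq_nonneg (x - 1), sq_nonneg x]

theorem line_mean {W : Measure ℝ} [IsProbabilityMeasure W] (hi : Integrable (fun x : ℝ => x) W) (v s w : ℝ) :
    Integrable (fun x => v + s * (x - w)) W ∧ ∫ x, (v + s * (x - w)) ∂W = v + s * ((∫ x, x ∂W) - w) := by
  have e : (fun x : ℝ => v + s * (x - w)) = fun x => (v - s * w) + s * x := by
    funext x
    ring
  constructor
  · rw [e]
    exact (integrable_const _).add (hi.const_mul s)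
  · rw [e, integral_add (integrable_const _) (hi.const_mul s), integral_const_mul, integral_const]
    simp
    ring

/-- the variance -/
theorem var_eq {W : Measure ℝ} [IsProbabilityMeasure W] {g : ℝ → ℝ} (h1 : Integrable g W)
    (h2 : Integrable (fun x => g x ^ 2) W) :
    ∫ x, (g x - ∫ y, g y ∂W) ^ 2 ∂W = (∫ x, g x ^ 2 ∂W) - (∫ x, g x ∂W) ^ 2 := by
  set E := ∫ y, g y ∂W with hE
  have e : ∀ x, (g x - E) ^ 2 = g x ^ 2 + (-(2 * E)) * g x + E ^ 2 := fun x => by ring
  simp_rw [e]
  have i1 : Integrable (fun x => g x ^ 2 + (-(2 * E)) * g x) W := h2.add (h1.const_mul _)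
  rw [integral_add i1 (integrable_const _), integral_add h2 (h1.const_mul _), integral_const_mul, integral_const,
    ← hE]
  simp
  ring

theorem gt_mean {W : Measure ℝ} [IsProbabilityMeasure W] (hx : Integrable (fun x : ℝ => x ^ 2) W) (v s w t : ℝ) :
    Integrable (gt v s w t) W ∧ ∫ x, gt v s w t x ∂W = v + s * (Mt W t - w) := by
  have i := min_int hx t
  have e : gt v s w t = fun x => (v - s * w) + s * min x t := by
    funext x
    rw [gt]
    ring
  constructor
  · rw [e]
    exact (integrable_const _).add (i.const_mul s)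
  · rw [e, integral_add (integrable_const _) (i.const_mul s), integral_const_mul, integral_const, Mt]
    simp
    ring

theorem gt_sq {W : Measure ℝ} [IsProbabilityMeasure W] (hx : Integrable (fun x : ℝ => x ^ 2) W) (v s w t : ℝ) :
    Integrable (fun x => gt v s w t x ^ 2) W := by
  have e : (fun x => gt v s w t x ^ 2) = fun x => (v - s * w) ^ 2 + (2 * (v - s * w) * s) * min x t +
      s ^ 2 * (min x t) ^ 2 := by
    funext x
    rw [gt]
    ring
  rw [e]
  exact ((integrable_const _).add ((min_int hx t).const_mul _)).add ((min_sq hx t).const_mul _)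

theorem gt_meas (W : Measure ℝ) (v s w t : ℝ) : AEStronglyMeasurable (gt v s w t) W := by
  apply Continuous.aestronglyMeasurable
  unfold gt
  fun_prop

theorem gt_sd {W : Measure ℝ} [IsProbabilityMeasure W] (hx : Integrable (fun x : ℝ => x ^ 2) W) (v s w t : ℝ)
    (hs : 0 ≤ s) : sdW W (gt v s w t) = s * Real.sqrt (Vt W t) := by
  rw [sdW, (gt_mean hx v s w t).2, Vt]
  have e : ∀ x, (gt v s w t x - (v + s * (Mt W t - w))) ^ 2 = s ^ 2 * (min x t - Mt W t) ^ 2 := fun x => by
    rw [gt]
    ring
  simp_rw [e]
  rw [integral_const_mul, Real.sqrt_mul (sq_nonneg s), Real.sqrt_sq hs]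

/-- truncations approximate the mean -/
theorem lim_mean {W : Measure ℝ} (hUNI : S_UNI) (hW : Ref W) [IsProbabilityMeasure W]
    (hx : Integrable (fun x : ℝ => x ^ 2) W) {p : ℝ} (hp0 : 0 < p) (hp1 : p < 1) :
    ∃ t : ℕ → ℝ, (∀ n, t n ∈ spt W ∧ quant W p ≤ t n) ∧
      Tendsto (fun n => Mt W (t n)) atTop (𝓝 (∫ x, x ∂W)) := by
  obtain ⟨hspt, -, -, -, hq, hq2, hmono⟩ := hUNI W hW
  have hae : ∀ᵐ x ∂W, x ∈ spt W := by
    rw [ae_iff]
    exact hspt
  set u : ℕ → ℝ := fun n => 1 - (1 - p) / (n + 1) with hu
  have hu0 : ∀ n, p ≤ u n := by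
    intro n
    rw [hu]
    simp only
    have : (1 - p) / ((n : ℝ) + 1) ≤ 1 - p := div_le_self (by linarith) (by
      have : (0 : ℝ) ≤ n := Nat.cast_nonneg n
      linarith)
    linarith
  have hu1 : ∀ n, u n < 1 := by
    intro n
    have : 0 < (1 - p) / ((n : ℝ) + 1) := div_pos (by linarith) (by positivity)
    rw [hu]
    simp only
    linarith
  have hulim : Tendsto u atTop (𝓝 1) := by
    have h1 : Tendsto (fun n : ℕ => (1 - p) / ((n : ℝ) + 1)) atTop (𝓝 0) := by
      have h2 := (tendsto_one_div_add_atTop_nhds_zero_nat (𝕜 := ℝ)).const_mul (1 - p)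
      rw [mul_zero] at h2
      refine h2.congr fun n => ?_
      rw [mul_one_div]
    have h3 := h1.const_sub 1
    rw [sub_zero] at h3
    exact h3
  have hmem : ∀ n, u n ∈ Ioo (0 : ℝ) 1 := fun n => ⟨lt_of_lt_of_le hp0 (hu0 n), hu1 n⟩
  have hw := hq p ⟨hp0, hp1⟩
  have hle : ∀ n, quant W p ≤ quant W (u n) := by
    intro n
    rw [← hmono _ hw.1 _ (hq _ (hmem n)).1, hw.2, (hq _ (hmem n)).2]
    exact hu0 n
  refine ⟨fun n => quant W (u n), fun n => ⟨(hq _ (hmem n)).1, hle n⟩, ?_⟩
  unfold Mt
  apply tendsto_integral_of_dominated_convergence (fun x => |x| + |quant W p|)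
  · intro n
    apply Continuous.aestronglyMeasurable
    fun_prop
  · exact (id_int hx).abs.add (integrable_const _)
  · intro n
    refine Eventually.of_forall fun x => ?_
    rw [Real.norm_eq_abs]
    have h1 := hle n
    have a1 := abs_nonneg (quant W p)
    have a2 := abs_nonneg x
    rcases le_total x (quant W (u n)) with h | h
    · rw [min_eq_left h]
      linarith
    · rw [min_eq_right h, abs_le]
      have b1 := neg_abs_le (quant W p)
      have b2 := le_abs_self x
      constructor <;> linarith
  · filter_upwards [hae] with x hx'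
    have h1 : ∀ᶠ n in atTop, cdf W x ≤ u n := by
      have := hulim.eventually (lt_mem_nhds hx'.2)
      filter_upwards [this] with n hn
      exact hn.le
    apply tendsto_const_nhds.congr'
    filter_upwards [h1] with n hn
    have : x ≤ quant W (u n) := by
      rw [← hmono _ hx' _ (hq _ (hmem n)).1, (hq _ (hmem n)).2]
      exact hn
    rw [min_eq_left this]

/-- the truncation argument -/
theorem core (hUNI : S_UNI) (hFF : S_FF) (hHH : S_HH) (hMEA : S_MEA) (hNV : S_NV) {W : Measure ℝ} (hW : Ref W)
    (hIM : IM W) {n j : ℕ} {p : ℝ} (hpar : Par n j p) (hx : Integrable (fun x : ℝ => x ^ 2) W)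
    {s : ℝ} (hs : 0 ≤ s) {g : ℝ → ℝ}
    (hA : ∀ x ∈ spt W, x ≤ quant W p → g x = g (quant W p) + s * (x - quant W p))
    (hgap : ∀ x ∈ spt W, ∀ y ∈ spt W, quant W p ≤ x → x ≤ y →
      (g (quant W p) + s * (x - quant W p)) - g x ≤ (g (quant W p) + s * (y - quant W p)) - g y)
    (hmon : MonotoneOn g (spt W)) (hsq : Integrable (fun x => g x ^ 2) W) :
    T W n j p g ≤ 0 ∨ (∃ t ∈ spt W, quant W p < t ∧ T W n j p g ≤ s * Nt W n j p t ∧
      s * Real.sqrt (Vt W t) ≤ sdW W g) ∨
      ∀ x ∈ spt W, g x = g (quant W p) + s * (x - quant W p) := by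
  have hWp := hW.prob
  obtain ⟨hspt, hopen, hord, -, hq, -, hmono⟩ := hUNI W hW
  obtain ⟨-, -, -, hfpos, hfanti, -, -, -, -, -, hm0, hm1⟩ := hFF n j p hpar
  obtain ⟨⟨C, hC⟩, hh0, hhm, -, hh1, -, hT⟩ := hHH W hW n j p hpar
  have hae : ∀ᵐ x ∂W, x ∈ spt W := by
    rw [ae_iff]
    exact hspt
  obtain ⟨hwS, hwc⟩ := hq p ⟨hpar.p0, hpar.p1⟩
  set w := quant W p with hw
  set v := g w with hv
  have hgm : AEStronglyMeasurable g W := hMEA W hW g (Or.inl hmon)
  obtain ⟨hgi, hgh, hTg⟩ := hT g hgm hsq
  rw [← hv] at hTg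
  by_cases hall : ∀ x ∈ spt W, g x = v + s * (x - w)
  · exact Or.inr (Or.inr hall)
  push Not at hall
  obtain ⟨x₁, hx₁, hne⟩ := hall
  have hx₁w : w < x₁ := by
    by_contra hcon
    exact hne (hA x₁ hx₁ (not_lt.mp hcon))
  have hB : ∀ x ∈ spt W, w ≤ x → g x ≤ v + s * (x - w) := by
    intro x hxS hwx
    have := hgap w hwS x hxS le_rfl hwx
    rw [sub_self, mul_zero, add_zero, ← hv, sub_self] at this
    linarith
  have hB' : ∀ x ∈ spt W, g x ≤ v + s * (x - w) := by
    intro x hxS
    rcases le_total x w with h | h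
    · exact (hA x hxS h).le
    · exact hB x hxS h
  have hlt₁ : g x₁ < v + s * (x₁ - w) := lt_of_le_of_ne (hB x₁ hx₁ hx₁w.le) hne
  -- the mean of the line is larger
  obtain ⟨hLi, hLval⟩ := line_mean (id_int hx) v s w
  have hEL : ∫ x, g x ∂W < ∫ x, (v + s * (x - w)) ∂W := by
    have hle : ∫ x, g x ∂W ≤ ∫ x, (v + s * (x - w)) ∂W :=
      integral_mono_ae hgi hLi (by filter_upwards [hae] with x hxS using hB' x hxS)
    refine lt_of_le_of_ne hle fun heq => ?_
    have h0 : ∫ x, ((v + s * (x - w)) - g x) ∂W = 0 := by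
      rw [integral_sub hLi hgi, heq, sub_self]
    have h1 := (integral_eq_zero_iff_of_nonneg_ae (by
      filter_upwards [hae] with x hxS
      exact sub_nonneg.mpr (hB' x hxS)) (hLi.sub hgi)).mp h0
    have h2 : W (Iic x₁)ᶜ = 0 := by
      rw [measure_eq_zero_iff_ae_notMem]
      filter_upwards [hae, h1] with x hxS hz
      intro hcon
      have hcon' : ¬ x ≤ x₁ := hcon
      have hxx : x₁ ≤ x := (not_le.mp hcon').le
      have h3 := hgap x₁ hx₁ x hxS hx₁w.le hxx
      have h4 : v + s * (x - w) - g x = 0 := hz
      linarith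
    rw [prob_compl_eq_zero_iff measurableSet_Iic] at h2
    have h3 := hx₁.2
    rw [cdf_eq_real, measureReal_def, h2] at h3
    simp at h3
  obtain ⟨tt, htt, hlim⟩ := lim_mean hUNI hW hx hpar.p0 hpar.p1
  have hlim2 : Tendsto (fun n => v + s * (Mt W (tt n) - w)) atTop (𝓝 (v + s * ((∫ x, x ∂W) - w))) :=
    ((hlim.sub_const w).const_mul s).const_add v
  rw [hLval] at hEL
  obtain ⟨N, hN⟩ := (hlim2.eventually (lt_mem_nhds hEL)).exists
  set t₂ := tt N with ht₂
  obtain ⟨ht₂S, ht₂w⟩ := htt N
  rw [← hw] at ht₂w
  -- the mean at `w`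
  by_cases hcase : ∫ x, g x ∂W ≤ v + s * (Mt W w - w)
  · left
    obtain ⟨i1, i2⟩ := gt_mean hx v s w w
    have hge : ∀ x ∈ spt W, gt v s w w x ≤ g x := by
      intro x hxS
      rw [gt]
      rcases le_total x w with h | h
      · rw [min_eq_left h]
        exact (hA x hxS h).ge
      · rw [min_eq_right h, sub_self, mul_zero, add_zero]
        exact hmon hwS hxS h
    have hle : ∀ x, gt v s w w x ≤ v := by
      intro x
      rw [gt]
      have : min x w - w ≤ 0 := by
        have := min_le_right x w
        linarith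
      nlinarith
    have hC0 : 0 ≤ C := (abs_nonneg _).trans (hC 0)
    rw [hTg]
    calc ∫ x, (g x - v) * f n j (cdf W x) ∂W ≤ ∫ x, C * (g x - gt v s w w x) ∂W := by
          refine integral_mono_ae ?_ ((hgi.sub i1).const_mul C) ?_
          · have e : (fun x => (g x - v) * f n j (cdf W x)) =
                fun x => g x * f n j (cdf W x) - v * f n j (cdf W x) := by
              funext x
              ring
            rw [e]
            refine hgh.sub (Integrable.const_mul ?_ v)
            exact Integrable.mono' (integrable_const C) hhm.aestronglyMeasurable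
              (Eventually.of_forall fun x => by rw [Real.norm_eq_abs]; exact hC x)
          · filter_upwards [hae] with x hxS
            have h1 := hge x hxS
            have h2 := hle x
            have h3 := hh0 x
            have h4 : f n j (cdf W x) ≤ C := (le_abs_self _).trans (hC x)
            show (g x - v) * f n j (cdf W x) ≤ C * (g x - gt v s w w x)
            calc (g x - v) * f n j (cdf W x) ≤ (g x - gt v s w w x) * f n j (cdf W x) :=
                  mul_le_mul_of_nonneg_right (by linarith) h3
              _ ≤ (g x - gt v s w w x) * C := mul_le_mul_of_nonneg_left h4 (by linarith)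
              _ = C * (g x - gt v s w w x) := by ring
      _ = C * ((∫ x, g x ∂W) - (v + s * (Mt W w - w))) := by
          rw [integral_const_mul, integral_sub hgi i1, i2]
      _ ≤ 0 := mul_nonpos_of_nonneg_of_nonpos hC0 (by linarith)
  · right; left
    push Not at hcase
    have hcontM : Continuous (fun t => v + s * (Mt W t - w)) := by
      have : Continuous (Mt W) := by
        rw [continuous_iff_continuousAt]
        exact fun t => (hNV W hW hIM n j p hpar t).1.continuousAt
      exact continuous_const.add (continuous_const.mul (this.sub continuous_const))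
    obtain ⟨t, htI, hteq⟩ := intermediate_value_Icc ht₂w hcontM.continuousOn (⟨hcase.le, hN.le⟩ :
      ∫ x, g x ∂W ∈ Icc (v + s * (Mt W w - w)) (v + s * (Mt W t₂ - w)))
    simp only at hteq
    have htw : w < t := by
      refine lt_of_le_of_ne htI.1 fun h => ?_
      rw [← h] at hteq
      linarith
    have htS : t ∈ spt W := hord.out hwS ht₂S htI
    obtain ⟨i1, i2⟩ := gt_mean hx v s w t
    have i3 := gt_sq hx v s w t
    obtain ⟨-, i4, hTt⟩ := hT (gt v s w t) (gt_meas W v s w t) i3
    set ψ : ℝ → ℝ := fun x => gt v s w t x - g x with hψ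
    have hψi : Integrable ψ W := i1.sub hgi
    have hψ0 : ∫ x, ψ x ∂W = 0 := by
      rw [hψ, integral_sub i1 hgi, i2, hteq, sub_self]
    have hψl : ∀ x ∈ spt W, x ≤ t → 0 ≤ ψ x := by
      intro x hxS hxt
      rw [hψ]
      simp only
      rw [gt, min_eq_left hxt]
      exact sub_nonneg.mpr (hB' x hxS)
    have hψr : ∀ x ∈ spt W, ∀ y ∈ spt W, t ≤ x → x ≤ y → ψ y ≤ ψ x := by
      intro x hxS y hyS htx hxy
      rw [hψ]
      simp only
      rw [gt, gt, min_eq_right htx, min_eq_right (htx.trans hxy)]
      have := hmon hxS hyS hxy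
      linarith
    have hψw : ∀ x ∈ spt W, x ≤ w → ψ x = 0 := by
      intro x hxS hxw
      rw [hψ]
      simp only
      rw [gt, min_eq_left (hxw.trans htw.le), hA x hxS hxw]
      ring
    have hGm : ∀ x ∈ spt W, ∀ y ∈ spt W, x ≤ y → gt v s w t x + g x ≤ gt v s w t y + g y := by
      intro x hxS y hyS hxy
      have h1 := hmon hxS hyS hxy
      have h2 : gt v s w t x ≤ gt v s w t y := by
        rw [gt, gt]
        have := min_le_min_right t hxy
        nlinarith
      linarith
    have hhanti : ∀ x ∈ spt W, ∀ y ∈ spt W, w ≤ x → x ≤ y → f n j (cdf W y) ≤ f n j (cdf W x) := by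
      intro x hxS y hyS hwx hxy
      have h1 : p ≤ cdf W x := by
        rw [← hwc]
        exact monotone_cdf W hwx
      have h2 := monotone_cdf W hxy
      exact hfanti.antitoneOn ⟨hpar.mp.trans h1, hxS.2.le⟩ ⟨hpar.mp.trans (h1.trans h2), hyS.2.le⟩ h2
    -- the two inequalities
    have hkey : 0 ≤ ∫ x, ψ x * f n j (cdf W x) ∂W ∧ ∫ x, (gt v s w t x ^ 2 - g x ^ 2) ∂W ≤ 0 := by
      have hψh : Integrable (fun x => ψ x * f n j (cdf W x)) W := by
        have e : (fun x => ψ x * f n j (cdf W x)) =
            fun x => gt v s w t x * f n j (cdf W x) - g x * f n j (cdf W x) := by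
          funext x
          rw [hψ]
          ring
        rw [e]
        exact i4.sub hgh
      by_cases hBne : ∃ b ∈ spt W, ψ b < 0
      · obtain ⟨b₀, hb₀S, hb₀⟩ := hBne
        set B : Set ℝ := {x | x ∈ spt W ∧ ψ x < 0} with hBdef
        have hBt : ∀ x ∈ B, t ≤ x := by
          intro x hxB
          by_contra hcon
          have := hψl x hxB.1 (not_le.mp hcon).le
          linarith [hxB.2]
        have hBb : BddBelow B := ⟨t, hBt⟩
        have hBn : B.Nonempty := ⟨b₀, hb₀S, hb₀⟩
        set x₀ := sInf B with hx₀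
        have hx₀t : t ≤ x₀ := le_csInf hBn hBt
        have hx₀b : x₀ ≤ b₀ := csInf_le hBb ⟨hb₀S, hb₀⟩
        have hx₀S : x₀ ∈ spt W := hord.out htS hb₀S ⟨hx₀t, hx₀b⟩
        have hpos : ∀ x ∈ spt W, 0 < ψ x → x ≤ x₀ ∧ w ≤ x := by
          intro x hxS hxp
          constructor
          · apply le_csInf hBn
            intro b hb
            by_contra hcon
            have := hψr b hb.1 x hxS (hBt b hb) (not_le.mp hcon).le
            linarith [hb.2]
          · by_contra hcon
            have := hψw x hxS (not_le.mp hcon).le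
            linarith
        have hneg : ∀ x ∈ spt W, ψ x < 0 → x₀ ≤ x := fun x hxS hxn => csInf_le hBb ⟨hxS, hxn⟩
        constructor
        · have h1 : ∫ x, ψ x * f n j (cdf W x₀) ∂W ≤ ∫ x, ψ x * f n j (cdf W x) ∂W := by
            refine integral_mono_ae (hψi.mul_const _) hψh ?_
            filter_upwards [hae] with x hxS
            show ψ x * f n j (cdf W x₀) ≤ ψ x * f n j (cdf W x)
            rcases lt_trichotomy (ψ x) 0 with h | h | h
            · have h2 := hneg x hxS h
              have h3 := hhanti x₀ hx₀S x hxS (htw.le.trans hx₀t) h2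
              exact mul_le_mul_of_nonpos_left h3 h.le
            · rw [h, zero_mul, zero_mul]
            · obtain ⟨h2, h2'⟩ := hpos x hxS h
              have h3 := hhanti x hxS x₀ hx₀S h2' h2
              exact mul_le_mul_of_nonneg_left h3 h.le
          rw [integral_mul_const, hψ0, zero_mul] at h1
          exact h1
        · have h1 : ∫ x, (gt v s w t x ^ 2 - g x ^ 2) ∂W ≤ ∫ x, ψ x * (gt v s w t x₀ + g x₀) ∂W := by
            refine integral_mono_ae (i3.sub hsq) (hψi.mul_const _) ?_
            filter_upwards [hae] with x hxS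
            show gt v s w t x ^ 2 - g x ^ 2 ≤ ψ x * (gt v s w t x₀ + g x₀)
            have e : gt v s w t x ^ 2 - g x ^ 2 = ψ x * (gt v s w t x + g x) := by
              rw [hψ]
              ring
            rw [e]
            rcases lt_trichotomy (ψ x) 0 with h | h | h
            · have h2 := hneg x hxS h
              have h3 := hGm x₀ hx₀S x hxS h2
              exact mul_le_mul_of_nonpos_left h3 h.le
            · rw [h, zero_mul, zero_mul]
            · obtain ⟨h2, h2'⟩ := hpos x hxS h
              have h3 := hGm x hxS x₀ hx₀S h2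
              exact mul_le_mul_of_nonneg_left h3 h.le
          rw [integral_mul_const, hψ0, zero_mul] at h1
          exact h1
      · push Not at hBne
        have h1 := (integral_eq_zero_iff_of_nonneg_ae (by
          filter_upwards [hae] with x hxS
          exact hBne x hxS) hψi).mp hψ0
        constructor
        · refine integral_nonneg_of_ae ?_
          filter_upwards [h1] with x hxz
          have h2 : ψ x = 0 := hxz
          show (0 : ℝ) ≤ ψ x * f n j (cdf W x)
          rw [h2, zero_mul]
        · refine integral_nonpos_of_ae ?_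
          filter_upwards [h1] with x hxz
          have h2 : ψ x = 0 := hxz
          show gt v s w t x ^ 2 - g x ^ 2 ≤ (0 : ℝ)
          have e : gt v s w t x ^ 2 - g x ^ 2 = ψ x * (gt v s w t x + g x) := by
            rw [hψ]
            ring
          rw [e, h2, zero_mul]
    refine ⟨t, htS, htw, ?_, ?_⟩
    · -- `T g ≤ s N(t)`
      have hgw : gt v s w t w = v := by
        rw [gt, min_eq_left htw.le, sub_self, mul_zero, add_zero]
      have hNt : T W n j p (gt v s w t) = s * Nt W n j p t := by
        rw [T, ← hw, hgw, Nt, ← hw]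
        obtain ⟨-, k1, -⟩ := hT (fun x => min x t) (by
          apply Continuous.aestronglyMeasurable
          fun_prop) (min_sq hx t)
        have hhi : Integrable (fun x => f n j (cdf W x)) W :=
          Integrable.mono' (integrable_const C) hhm.aestronglyMeasurable
            (Eventually.of_forall fun x => by rw [Real.norm_eq_abs]; exact hC x)
        have e : (fun x => gt v s w t x * f n j (cdf W x)) =
            fun x => (v - s * w) * f n j (cdf W x) + s * (min x t * f n j (cdf W x)) := by
          funext x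
          rw [gt]
          ring
        rw [e, integral_add (hhi.const_mul _) (k1.const_mul _), integral_const_mul, integral_const_mul, hh1]
        ring
      rw [← hNt]
      have h1 : T W n j p (gt v s w t) - T W n j p g = ∫ x, ψ x * f n j (cdf W x) ∂W := by
        rw [T, T, ← hw, hgw, ← hv]
        have e : (fun x => ψ x * f n j (cdf W x)) =
            fun x => gt v s w t x * f n j (cdf W x) - g x * f n j (cdf W x) := by
          funext x
          rw [hψ]
          ring
        rw [e, integral_sub i4 hgh]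
        ring
      linarith [hkey.1]
    · rw [← gt_sd hx v s w t hs, sdW, sdW]
      apply Real.sqrt_le_sqrt
      rw [var_eq i1 i3, var_eq hgi hsq, i2, hteq]
      have h2 := hkey.2
      rw [integral_sub i3 hsq] at h2
      linarith

end PkgCE2

open PkgCE2 in
theorem pCE2 (hUNI : S_UNI) (hFF : S_FF) (hHH : S_HH) (hMEA : S_MEA) (hCRL : S_CRL) (hNV : S_NV)
    (hEND : S_END) : S_CE2 := by
  intro W hW hIM n j p hpar hD hex g hconc hmon hsq hsd heq
  have hWp := hW.prob
  obtain ⟨hx2, hsdx, hTx, hPhi⟩ := hEND W hW hIM n j p hpar hD hex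
  obtain ⟨hspt, hopen, hord, -, hq, -, hmono⟩ := hUNI W hW
  obtain ⟨-, -, -, hfpos, -, -, -, -, -, -, -, -⟩ := hFF n j p hpar
  obtain ⟨⟨C, hC⟩, hh0, hhm, -, hh1, -, hT⟩ := hHH W hW n j p hpar
  have hae : ∀ᵐ x ∂W, x ∈ spt W := by
    rw [ae_iff]
    exact hspt
  obtain ⟨hwS, hwc⟩ := hq p ⟨hpar.p0, hpar.p1⟩
  obtain ⟨s, g', hs, hL1, hL2, hL3, hmon', hsq', hTle, hsdle⟩ := hCRL W hW n j p hpar g hconc hmon hsq
  have hg'w : g' (quant W p) = g (quant W p) := hL2 _ hwS le_rfl
  set w := quant W p with hw
  set c := T W n j p (fun x => x) / sdW W (fun x => x) with hc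
  have hc0 : 0 < c := div_pos hTx hsdx
  have hTg : T W n j p g = c * sdW W g := by
    rw [← heq]
    field_simp
  have hTgpos : 0 < T W n j p g := by
    rw [hTg]
    exact mul_pos hc0 hsd
  -- the gap is monotone
  have hgap : ∀ x ∈ spt W, ∀ y ∈ spt W, w ≤ x → x ≤ y → g y - g x ≤ s * (y - x) := by
    intro x hxS y hyS hwx hxy
    rcases eq_or_lt_of_le hxy with h | h
    · rw [h, sub_self, sub_self, mul_zero]
    rcases eq_or_lt_of_le hwx with h' | h'
    · rw [← h']
      have := hL3 y hyS
      linarith
    · have h1 := hconc.slope_anti_adjacent hwS hyS h' h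
      have h2 : (g x - g w) / (x - w) ≤ s := by
        rw [div_le_iff₀ (sub_pos.mpr h')]
        have := hL3 x hxS
        linarith
      have h3 := h1.trans h2
      rw [div_le_iff₀ (sub_pos.mpr h)] at h3
      exact h3
  have hcore := core hUNI hFF hHH hMEA hNV hW hIM hpar hx2 hs (g := g')
    (fun x hxS hxw => by
      rw [← hw, hg'w]
      exact hL1 x hxS hxw)
    (fun x hxS y hyS hwx hxy => by
      rw [hL2 x hxS hwx, hL2 y hyS (hwx.trans hxy)]
      have := hgap x hxS y hyS hwx hxy
      linarith) hmon' hsq'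
  rw [← hw, hg'w] at hcore
  have hg'all : ∀ x ∈ spt W, g' x = g w + s * (x - w) := by
    rcases hcore with h | ⟨t, htS, htw, h1, h2⟩ | h
    · linarith
    · exfalso
      have hV : 0 < Vt W t := ((hNV W hW hIM n j p hpar t).2.2.2 htS).1
      have hsV : 0 < Real.sqrt (Vt W t) := Real.sqrt_pos.mpr hV
      have h3 := hPhi t htS htw
      rw [div_lt_iff₀ hsV] at h3
      have hs0 : s ≠ 0 := by
        rintro rfl
        rw [zero_mul] at h1
        linarith
      have hsp : 0 < s := lt_of_le_of_ne hs (Ne.symm hs0)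
      have h4 : s * Nt W n j p t < s * (c * Real.sqrt (Vt W t)) := mul_lt_mul_of_pos_left h3 hsp
      have h5 : c * (s * Real.sqrt (Vt W t)) ≤ c * sdW W g := mul_le_mul_of_nonneg_left (h2.trans hsdle) hc0.le
      nlinarith
    · exact h
  -- values for `g'`
  have hgm : AEStronglyMeasurable g W := hMEA W hW g (Or.inl hmon)
  have hgm' : AEStronglyMeasurable g' W := hMEA W hW g' (Or.inl hmon')
  obtain ⟨hgi, hgh, hTg1⟩ := hT g hgm hsq
  obtain ⟨hgi', hgh', hTg1'⟩ := hT g' hgm' hsq'
  obtain ⟨hii, hih, hTi⟩ := hT (fun x => x) (by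
    apply Continuous.aestronglyMeasurable
    fun_prop) hx2
  have hTg' : T W n j p g' = s * T W n j p (fun x => x) := by
    rw [hTg1', hTi, hg'w, ← integral_const_mul]
    apply integral_congr_ae
    filter_upwards [hae] with x hxS
    rw [hg'all x hxS]
    ring
  have hsd' : sdW W g' = s * sdW W (fun x => x) := by
    rw [sdW, sdW]
    have hmean : ∫ y, g' y ∂W = g w + s * ((∫ y, y ∂W) - w) := by
      have e : ∫ y, g' y ∂W = ∫ y, (g w + s * (y - w)) ∂W := by
        apply integral_congr_ae
        filter_upwards [hae] with x hxS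
        exact hg'all x hxS
      rw [e, (line_mean hii (g w) s w).2]
    have e : ∫ x, (g' x - ∫ y, g' y ∂W) ^ 2 ∂W = s ^ 2 * ∫ x, (x - ∫ y, y ∂W) ^ 2 ∂W := by
      rw [← integral_const_mul]
      apply integral_congr_ae
      filter_upwards [hae] with x hxS
      rw [hg'all x hxS, hmean]
      ring
    rw [e, Real.sqrt_mul (sq_nonneg s), Real.sqrt_sq hs]
  have hTeq : T W n j p g' = T W n j p g := by
    apply le_antisymm _ hTle
    have h1 : T W n j p (fun x => x) = c * sdW W (fun x => x) := by
      rw [hc]
      field_simp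
    calc T W n j p g' = c * sdW W g' := by rw [hTg', hsd', h1]; ring
      _ ≤ c * sdW W g := mul_le_mul_of_nonneg_left hsdle hc0.le
      _ = T W n j p g := hTg.symm
  have hs0 : 0 < s := by
    refine lt_of_le_of_ne hs fun h => ?_
    rw [← h, zero_mul] at hTg'
    linarith
  have hle : ∀ x ∈ spt W, g x ≤ g' x := fun x hxS => by
    rw [hg'all x hxS]
    exact hL3 x hxS
  -- equality almost everywhere
  have hint : ∫ x, (g' x - g x) * f n j (cdf W x) ∂W = 0 := by
    have e : (fun x => (g' x - g x) * f n j (cdf W x)) =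
        fun x => g' x * f n j (cdf W x) - g x * f n j (cdf W x) := by
      funext x
      ring
    rw [e, integral_sub hgh' hgh]
    rw [T, T, ← hw, hg'w] at hTeq
    linarith
  have hint2 : Integrable (fun x => (g' x - g x) * f n j (cdf W x)) W := by
    have e : (fun x => (g' x - g x) * f n j (cdf W x)) =
        fun x => g' x * f n j (cdf W x) - g x * f n j (cdf W x) := by
      funext x
      ring
    rw [e]
    exact hgh'.sub hgh
  have hz := (integral_eq_zero_iff_of_nonneg_ae (by
    filter_upwards [hae] with x hxS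
    exact mul_nonneg (sub_nonneg.mpr (hle x hxS)) (hh0 x)) hint2).mp hint
  refine ⟨s, g w - s * w, hs0, ?_⟩
  intro x₁ hx₁
  have hgoal : g x₁ = g w + s * (x₁ - w) := by
    rcases le_total w x₁ with h | h
    · rw [← hL2 x₁ hx₁ h]
      exact hg'all x₁ hx₁
    · rcases eq_or_lt_of_le h with h' | h'
      · rw [h', sub_self, mul_zero, add_zero]
      · by_contra hne
        have hlt : g x₁ < g w + s * (x₁ - w) := lt_of_le_of_ne (hL3 x₁ hx₁) hne
        have h2 : W (Iic x₁) = 0 := by
          have h3 : ∀ᵐ x ∂W, x ∉ Iic x₁ := by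
            filter_upwards [hae, hz] with x hxS hzx
            intro hxx
            have hxx' : x ≤ x₁ := hxx
            have h4 : (g' x - g x) * f n j (cdf W x) = 0 := hzx
            have h5 : 0 < f n j (cdf W x) := hfpos _ ⟨hxS.1, hxS.2⟩
            have h6 : g' x - g x = 0 := by
              rcases mul_eq_zero.mp h4 with h | h
              · exact h
              · exact absurd h h5.ne'
            rw [hg'all x hxS] at h6
            rcases eq_or_lt_of_le hxx' with h7 | h7
            · rw [h7] at h6
              linarith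
            · have h8 := hconc.slope_anti_adjacent hxS hwS h7 h'
              have h9 : s ≤ (g w - g x₁) / (w - x₁) := by
                rw [le_div_iff₀ (sub_pos.mpr h')]
                linarith
              have h10 := h9.trans h8
              rw [le_div_iff₀ (sub_pos.mpr h7)] at h10
              linarith
          exact measure_eq_zero_iff_ae_notMem.mpr h3
        have h3 := hx₁.1
        rw [cdf_eq_real, measureReal_def, h2] at h3
        simp at h3
  rw [hgoal]
  ring

end Pool.Agent.T2H99.QB
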