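import Pool.Agent.T2H99.QB.Stm

/-! # Package CLO: the cone is closed in `L²(W)` (the limsup of convex functions is convex) -/

set_option autoImplicit false

open MeasureTheory ProbabilityTheory Set Filter Topology

noncomputable section

namespace Pool.Agent.T2H99.QB

namespace PkgCLO

/-- the functions of the cone are nonnegative on the support interval -/
theorem nonneg {W : Measure ℝ} {p : ℝ} {k : ℝ → ℝ} (h : InK W p k) (hw : quant W p ∈ spt W) {x : ℝ}
    (hx : x ∈ spt W) : 0 ≤ k x := by
  rcases le_total x (quant W p) with h1 | h1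
  · rw [← h.zero _ hw le_rfl]
    exact h.anti hx hw h1
  · rw [h.zero x hx h1]

theorem meas {W : Measure ℝ} {p : ℝ} {k : ℝ → ℝ} (h : InK W p k) (hw : quant W p ∈ spt W)
    (h0 : W (spt W)ᶜ = 0) : AEStronglyMeasurable k W := by
  have h1 : AEStronglyMeasurable (fun x => Real.sqrt (k x ^ 2)) W :=
    Real.continuous_sqrt.comp_aestronglyMeasurable h.sq.aestronglyMeasurable
  refine h1.congr ?_
  have h2 : ∀ᵐ x ∂W, x ∈ spt W := by
    rw [ae_iff]
    exact h0
  filter_upwards [h2] with x hx
  exact Real.sqrt_sq (nonneg h hw hx)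

end PkgCLO

open PkgCLO

theorem pCLO (hUNI : S_UNI) : S_CLO := by
  intro W hW p hp0 hp1 k hk φ hφ hφ2 hlim
  obtain ⟨h0, hopen, hord, -, hq, hq2, hmono⟩ := hUNI W hW
  haveI := hW.prob
  have hw : quant W p ∈ spt W := (hq p ⟨hp0, hp1⟩).1
  have hae : ∀ᵐ x ∂W, x ∈ spt W := by
    rw [ae_iff]
    exact h0
  have hkm : ∀ i, AEStronglyMeasurable (k i) W := fun i => meas (hk i) hw h0
  have hk2 : ∀ i, MemLp (k i) 2 W := fun i =>
    (memLp_two_iff_integrable_sq (hkm i)).2 (hk i).sq
  have hφL : MemLp φ 2 W := (memLp_two_iff_integrable_sq hφ).2 hφ2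
  -- convergence in measure
  have hd : ∀ i, MemLp (k i - φ) 2 W := fun i => (hk2 i).sub hφL
  have hnorm : Tendsto (fun i => eLpNorm (k i - φ) 2 W) atTop (𝓝 0) := by
    have h1 : ∀ i, eLpNorm (k i - φ) 2 W = ENNReal.ofReal (Real.sqrt (∫ x, (k i x - φ x) ^ 2 ∂W)) := by
      intro i
      rw [(hd i).eLpNorm_eq_integral_rpow_norm (by norm_num) (by norm_num)]
      congr 1
      rw [Real.sqrt_eq_rpow]
      norm_num
    simp_rw [h1]
    have h2 : Tendsto (fun i => Real.sqrt (∫ x, (k i x - φ x) ^ 2 ∂W)) atTop (𝓝 0) := by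
      have := (Real.continuous_sqrt.tendsto 0).comp hlim
      rwa [Real.sqrt_zero] at this
    have h3 := (ENNReal.continuous_ofReal.tendsto 0).comp h2
    rwa [ENNReal.ofReal_zero] at h3
  have hmeas : TendstoInMeasure W k atTop φ :=
    tendstoInMeasure_of_tendsto_eLpNorm (by norm_num) hkm hφ hnorm
  obtain ⟨ns, hns, hconv⟩ := hmeas.exists_seq_tendsto_ae
  -- pointwise bounds
  have hlow : ∀ x ∈ spt W, ∀ i, 0 ≤ k (ns i) x := fun x hx i => nonneg (hk _) hw hx
  have hup : ∀ x ∈ spt W, ∃ C, ∀ i, k (ns i) x ≤ C := by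
    intro x hx
    -- a point of convergence to the left of `x`
    obtain ⟨y, hyx, hys, hy⟩ : ∃ y, y < x ∧ y ∈ spt W ∧
        Tendsto (fun i => k (ns i) y) atTop (𝓝 (φ y)) := by
      have hu : (cdf W x) / 2 ∈ Ioo (0 : ℝ) 1 := ⟨by have := hx.1; linarith, by
        have := hx.1; have := hx.2; linarith⟩
      by_contra hcon
      push Not at hcon
      have h1 : W (Iic (quant W (cdf W x / 2))) = 0 := by
        rw [← nonpos_iff_eq_zero]
        calc W (Iic (quant W (cdf W x / 2))) ≤
            W ({y | ¬ (y ∈ spt W)} ∪ {y | ¬ Tendsto (fun i => k (ns i) y) atTop (𝓝 (φ y))}) := by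
              refine measure_mono fun y hy => ?_
              by_cases h2 : y ∈ spt W
              · right
                refine hcon y ?_ h2
                have h3 := (hq _ hu)
                have h4 : quant W (cdf W x / 2) < x := by
                  by_contra h5
                  rw [not_lt] at h5
                  have := (hmono x hx _ h3.1).2 h5
                  rw [h3.2] at this
                  have := hx.1
                  linarith
                exact lt_of_le_of_lt hy h4
              · left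
                exact h2
          _ ≤ W {y | ¬ (y ∈ spt W)} + W {y | ¬ Tendsto (fun i => k (ns i) y) atTop (𝓝 (φ y))} :=
              measure_union_le _ _
          _ = 0 := by rw [ae_iff.1 hae, ae_iff.1 hconv, add_zero]
      have h2 : cdf W (quant W (cdf W x / 2)) = 0 := by
        rw [cdf_eq_real, measureReal_def, h1, ENNReal.toReal_zero]
      rw [(hq _ hu).2] at h2
      have := hu.1
      linarith
    obtain ⟨C, hC⟩ := hy.bddAbove_range
    refine ⟨C, fun i => ((hk _).anti hys hx hyx.le).trans (hC ⟨i, rfl⟩)⟩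
  have hbu : ∀ x ∈ spt W, IsBoundedUnder (· ≤ ·) atTop (fun i => k (ns i) x) := by
    intro x hx
    obtain ⟨C, hC⟩ := hup x hx
    exact isBoundedUnder_of ⟨C, hC⟩
  have hcb : ∀ x ∈ spt W, IsCoboundedUnder (· ≤ ·) atTop (fun i => k (ns i) x) := by
    intro x hx
    exact (isBoundedUnder_of ⟨0, hlow x hx⟩ : IsBoundedUnder (· ≥ ·) atTop _).isCoboundedUnder_flip
  let k₀ : ℝ → ℝ := fun x => limsup (fun i => k (ns i) x) atTop
  have hk₀φ : k₀ =ᵐ[W] φ := by
    filter_upwards [hconv] with x hx
    exact hx.limsup_eq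
  refine ⟨k₀, ⟨⟨hord.convex, ?_⟩, ?_, ?_, ?_⟩, hk₀φ⟩
  · intro x hx y hy a b ha hb hab
    have hxy : a • x + b • y ∈ spt W := hord.convex hx hy ha hb hab
    refine le_of_forall_pos_le_add fun ε hε => ?_
    refine limsup_le_of_le (hcb _ hxy) ?_
    have e1 : ∀ᶠ i in atTop, k (ns i) x < k₀ x + ε :=
      eventually_lt_of_limsup_lt (by change k₀ x < _; linarith) (hbu x hx)
    have e2 : ∀ᶠ i in atTop, k (ns i) y < k₀ y + ε :=
      eventually_lt_of_limsup_lt (by change k₀ y < _; linarith) (hbu y hy)
    filter_upwards [e1, e2] with i h1 h2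
    have h3 := (hk (ns i)).conv.2 hx hy ha hb hab
    simp only [smul_eq_mul] at h3 ⊢
    have h4 := mul_le_mul_of_nonneg_left h1.le ha
    have h5 := mul_le_mul_of_nonneg_left h2.le hb
    have h6 : a * ε + b * ε = ε := by rw [← add_mul, hab, one_mul]
    nlinarith
  · intro x hx y hy hxy
    refine limsup_le_limsup (Eventually.of_forall fun i => (hk (ns i)).anti hx hy hxy) (hcb y hy) (hbu x hx)
  · intro x hx hwx
    change limsup (fun i => k (ns i) x) atTop = 0
    have : (fun i => k (ns i) x) = fun _ => (0 : ℝ) := by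
      funext i
      exact (hk (ns i)).zero x hx hwx
    rw [this, limsup_const]
  · refine hφ2.congr ?_
    filter_upwards [hk₀φ] with x hx
    rw [hx]

end Pool.Agent.T2H99.QB
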