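import Pool.Agent.T2H99.QB.Stm

open MeasureTheory ProbabilityTheory Set

noncomputable section

namespace Pool.Agent.T2H99.QB

namespace PkgCNT

/-- the box belonging to the index set `S` -/
def box (n : ℕ) (t : ℝ) (S : Finset (Fin n)) : Set (Fin n → ℝ) :=
  Set.pi Set.univ (fun i => if i ∈ S then Iic t else Ioi t)

lemma mem_box {n : ℕ} {t : ℝ} {S : Finset (Fin n)} {x : Fin n → ℝ} :
    x ∈ box n t S ↔ Finset.univ.filter (fun i => x i ≤ t) = S := by
  unfold box
  rw [Set.mem_univ_pi]
  constructor
  · intro h
    ext i
    rw [Finset.mem_filter]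
    have hi := h i
    by_cases hS : i ∈ S
    · simp only [hS, if_true, mem_Iic] at hi
      simp [hS, hi]
    · simp only [hS, if_false, mem_Ioi] at hi
      simp [hS, hi]
  · rintro rfl i
    by_cases hi : x i ≤ t
    · simp [hi]
    · simp only [Finset.mem_filter, Finset.mem_univ, true_and, hi, if_false]
      exact not_le.1 hi

lemma meas_box (n : ℕ) (t : ℝ) (S : Finset (Fin n)) : MeasurableSet (box n t S) := by
  unfold box
  refine MeasurableSet.univ_pi fun i => ?_
  by_cases hS : i ∈ S
  · simp [hS]
  · simp [hS]

lemma real_box (μ : Measure ℝ) [IsProbabilityMeasure μ] (n : ℕ) (t : ℝ) (S : Finset (Fin n)) :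
    (Measure.pi (fun _ : Fin n => μ)).real (box n t S) =
      (cdf μ t) ^ S.card * (1 - cdf μ t) ^ (n - S.card) := by
  unfold box
  rw [Measure.real, Measure.pi_pi, ENNReal.toReal_prod]
  have h1 : ∀ i : Fin n, (μ (if i ∈ S then Iic t else Ioi t)).toReal =
      if i ∈ S then cdf μ t else 1 - cdf μ t := by
    intro i
    by_cases hS : i ∈ S
    · simp only [hS, if_true]
      rw [cdf_eq_real]
      rfl
    · simp only [hS, if_false]
      rw [cdf_eq_real, ← compl_Iic]
      have := probReal_compl_eq_one_sub (μ := μ) (s := Iic t) measurableSet_Iic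
      exact this
  rw [Finset.prod_congr rfl fun i _ => h1 i, Finset.prod_ite, Finset.prod_const, Finset.prod_const]
  congr 2
  · congr 1
    ext i; simp
  · rw [Finset.filter_not, Finset.card_sdiff_of_subset (Finset.filter_subset _ _)]
    simp

end PkgCNT

open PkgCNT in
theorem pCNT : S_CNT := by
  intro μ hμ n j t
  set u := cdf μ t with hu
  have hset : {x : Fin n → ℝ | j ≤ (Finset.univ.filter (fun i => x i ≤ t)).card} =
      ⋃ S ∈ (Finset.univ : Finset (Finset (Fin n))).filter (fun S => j ≤ S.card), box n t S := by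
    ext x
    simp only [Set.mem_ofPred_eq, Finset.mem_filter, Finset.mem_univ, true_and, mem_iUnion, exists_prop]
    constructor
    · intro h
      exact ⟨_, h, mem_box.2 rfl⟩
    · rintro ⟨S, h, hx⟩
      rw [mem_box.1 hx]
      exact h
  rw [hset, measureReal_biUnion_finset]
  · have hsum : ∑ S ∈ (Finset.univ : Finset (Finset (Fin n))).filter (fun S => j ≤ S.card),
        (Measure.pi (fun _ : Fin n => μ)).real (box n t S) =
        ∑ S ∈ (Finset.univ : Finset (Fin n)).powerset,
          (fun m : ℕ => if j ≤ m then u ^ m * (1 - u) ^ (n - m) else 0) S.card := by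
      rw [Finset.sum_filter, Finset.powerset_univ]
      refine Finset.sum_congr rfl fun S _ => ?_
      by_cases h : j ≤ S.card
      · simp only [h, if_true]
        exact real_box μ n t S
      · simp [h]
    rw [hsum, Finset.sum_powerset_apply_card (fun m : ℕ => if j ≤ m then u ^ m * (1 - u) ^ (n - m) else 0)]
    unfold G
    rw [Finset.card_univ, Fintype.card_fin]
    rw [← Finset.sum_subset (s₁ := Finset.Ico j (n + 1)) (s₂ := Finset.range (n + 1))]
    · refine Finset.sum_congr rfl fun i hi => ?_
      rw [Finset.mem_Ico] at hi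
      simp only [hi.1, if_true, nsmul_eq_mul]
      ring
    · intro i hi
      rw [Finset.mem_Ico] at hi
      exact Finset.mem_range.2 hi.2
    · intro i hi hi'
      rw [Finset.mem_range] at hi
      rw [Finset.mem_Ico, not_and] at hi'
      have : ¬ j ≤ i := fun h => hi' h hi
      simp [this]
  · intro S _ S' _ hne
    refine Set.disjoint_left.2 fun x hx hx' => hne ?_
    rw [← mem_box.1 hx, mem_box.1 hx']
  · intro S _
    exact meas_box n t S

end Pool.Agent.T2H99.QB
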