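import Pool.Agent.T2H99.QB.Stm

/-!
# MP_c5814c_pr, package COL: the collapse of the star order family
-/

open MeasureTheory ProbabilityTheory Set Filter Topology

noncomputable section

namespace Pool.Agent.T2H99.QB

namespace PkgCOL

/-- the cut-off near the left endpoint -/
def ct (a δ x : ℝ) : ℝ := max 0 (min 1 ((x - a) / δ))

/-- the approximating function -/
def gg (ψ : ℝ → ℝ) (K a δ x : ℝ) : ℝ := (K + ψ (max x (a + δ))) * ct a δ x

lemma ct_nonneg (a δ x : ℝ) : 0 ≤ ct a δ x := le_max_left _ _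

lemma ct_le (a δ x : ℝ) : ct a δ x ≤ 1 := max_le zero_le_one (min_le_left _ _)

lemma ct_mono {a δ : ℝ} (hδ : 0 < δ) : Monotone (ct a δ) := by
  intro x y hxy
  unfold ct
  exact max_le_max le_rfl (min_le_min le_rfl (div_le_div_of_nonneg_right (by linarith) hδ.le))

lemma ct_one {a δ x : ℝ} (hδ : 0 < δ) (hx : a + δ ≤ x) : ct a δ x = 1 := by
  unfold ct
  rw [min_eq_left (by rw [le_div_iff₀ hδ]; linarith), max_eq_right zero_le_one]

lemma ct_lin {a δ x : ℝ} (hδ : 0 < δ) (hx : a ≤ x) (hx2 : x ≤ a + δ) : ct a δ x = (x - a) / δ := by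
  unfold ct
  rw [min_eq_right (by rw [div_le_one hδ]; linarith), max_eq_right (div_nonneg (by linarith) hδ.le)]

lemma ct_pos {a δ x : ℝ} (hδ : 0 < δ) (hx : a < x) : 0 < ct a δ x := by
  unfold ct
  exact lt_max_of_lt_right (lt_min zero_lt_one (div_pos (by linarith) hδ))

lemma ct_cont (a δ : ℝ) : Continuous (ct a δ) := by
  unfold ct; fun_prop

lemma gg_cont {ψ : ℝ → ℝ} (hψ : Continuous ψ) (K a δ : ℝ) : Continuous (gg ψ K a δ) := by
  unfold gg
  have := ct_cont a δ
  fun_prop

/-- `(K + ψ x) / (x - a)` is antitone -/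
lemma quo_anti {ψ : ℝ → ℝ} {C K a M : ℝ} {L : NNReal} (hC : ∀ x, |ψ x| ≤ C) (hL : LipschitzWith L ψ)
    (hM : ∀ x y, M ≤ x → M ≤ y → ψ x = ψ y) (haM : a ≤ M) (hK : C + 1 + L * (M - a) ≤ K) {x y : ℝ}
    (hx : a < x) (hxy : x ≤ y) : (K + ψ y) / (y - a) ≤ (K + ψ x) / (x - a) := by
  have hxa : 0 < x - a := by linarith
  have hya : 0 < y - a := by linarith
  rw [div_le_div_iff₀ hya hxa]
  have hCx := abs_le.1 (hC x)
  have hL0 : (0 : ℝ) ≤ L := L.2
  have hLM : 0 ≤ (L : ℝ) * (M - a) := mul_nonneg hL0 (by linarith)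
  suffices h : (ψ y - ψ x) * (x - a) ≤ (K + ψ x) * (y - x) by nlinarith
  have hK1 : (L : ℝ) * (M - a) ≤ K + ψ x := by linarith
  rcases le_total M x with h | h
  · rw [hM y x (h.trans hxy) h, sub_self, zero_mul]
    exact mul_nonneg (by linarith) (by linarith)
  · have h1 : ψ y - ψ x ≤ L * (y - x) := by
      have := hL.dist_le_mul y x
      rw [Real.dist_eq, Real.dist_eq, abs_of_nonneg (show 0 ≤ y - x by linarith)] at this
      exact (le_abs_self _).trans this
    calc (ψ y - ψ x) * (x - a) ≤ (L * (y - x)) * (x - a) := mul_le_mul_of_nonneg_right h1 hxa.le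
      _ ≤ (L * (y - x)) * (M - a) :=
          mul_le_mul_of_nonneg_left (by linarith) (mul_nonneg hL0 (by linarith))
      _ = (L * (M - a)) * (y - x) := by ring
      _ ≤ (K + ψ x) * (y - x) := mul_le_mul_of_nonneg_right hK1 (by linarith)

lemma gg_quo {ψ : ℝ → ℝ} {K a δ x : ℝ} (hδ : 0 < δ) (hx : a < x) :
    gg ψ K a δ x / (x - a) = (K + ψ (max x (a + δ))) / (max x (a + δ) - a) := by
  have hxa : x - a ≠ 0 := (sub_pos.2 hx).ne'
  unfold gg
  rcases le_total (a + δ) x with h | h
  · rw [ct_one hδ h, max_eq_left h, mul_one]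
  · rw [ct_lin hδ hx.le h, max_eq_right h]
    have : a + δ - a = δ := by ring
    rw [this]
    field_simp

end PkgCOL

open PkgCOL in
theorem pCOL (hUNI : S_UNI) (hFF : S_FF) (hHH : S_HH) : S_COL := by
  intro W hW hbd n j p hp ψ hψ hLip hsd ε hε
  obtain ⟨L, hL⟩ := hLip
  haveI : IsProbabilityMeasure W := hW.prob
  obtain ⟨hW0, hopen, -, -, hq, -⟩ := hUNI W hW
  obtain ⟨⟨C', hC'⟩, hh0, hhm, -, hh1, -⟩ := hHH W hW n j p hp
  obtain ⟨C, hC⟩ := hψ.bdd
  obtain ⟨M, hM⟩ := hψ.const
  have hC0 : 0 ≤ C := (abs_nonneg _).trans (hC 0)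
  have hC'0 : 0 ≤ C' := (abs_nonneg _).trans (hC' 0)
  set a : ℝ := lep W with ha
  have hspt : ∀ x ∈ spt W, a < x := by
    intro x hx
    obtain ⟨η, hη, hb⟩ := Metric.isOpen_iff.1 hopen x hx
    have h1 : x - η / 2 ∈ spt W := hb (by
      rw [Metric.mem_ball, Real.dist_eq]
      rw [show x - η / 2 - x = -(η / 2) by ring, abs_neg, abs_of_pos (by linarith)]
      linarith)
    have h2 : a ≤ x - η / 2 := csInf_le hbd h1.1
    linarith
  have hne : (spt W).Nonempty := by
    by_contra h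
    rw [not_nonempty_iff_eq_empty] at h
    rw [h, compl_empty, measure_univ] at hW0
    exact one_ne_zero hW0
  have hnear : ∀ η : ℝ, 0 < η → ∃ x ∈ spt W, x < a + η := by
    intro η hη
    obtain ⟨z, hz⟩ := hne
    obtain ⟨y, hy, hy2⟩ := exists_lt_of_csInf_lt (s := {x | 0 < cdf W x}) ⟨z, hz.1⟩
      (show sInf {x | 0 < cdf W x} < a + η by rw [ha]; unfold lep; linarith)
    refine ⟨min y z, ⟨?_, ?_⟩, lt_of_le_of_lt (min_le_left _ _) hy2⟩
    · rcases min_choice y z with h | h <;> rw [h]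
      · exact hy
      · exact hz.1
    · exact lt_of_le_of_lt (monotone_cdf W (min_le_right _ _)) hz.2
  have hae : ∀ᵐ x ∂W, x ∈ spt W := by
    rw [ae_iff]; exact hW0
  have hw : quant W p ∈ spt W := (hq p ⟨hp.p0, hp.p1⟩).1
  set M' : ℝ := max M a with hM'
  have hM2 : ∀ x y, M' ≤ x → M' ≤ y → ψ x = ψ y := fun x y hx hy =>
    hM x y ((le_max_left _ _).trans hx) ((le_max_left _ _).trans hy)
  have haM : a ≤ M' := le_max_right _ _
  have hL0 : (0 : ℝ) ≤ L := L.2
  set K : ℝ := C + 1 + L * (M' - a) with hK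
  have hKC : C + 1 ≤ K := by
    have : 0 ≤ (L : ℝ) * (M' - a) := mul_nonneg hL0 (by linarith)
    linarith
  have hKpos : ∀ x, 1 ≤ K + ψ x := fun x => by have := (abs_le.1 (hC x)).1; linarith
  have hKle : ∀ x, K + ψ x ≤ K + C := fun x => by have := (abs_le.1 (hC x)).2; linarith
  let g : ℕ → ℝ → ℝ := fun m => gg ψ K a (1 / ((m : ℝ) + 1))
  have hδ : ∀ m : ℕ, (0 : ℝ) < 1 / ((m : ℝ) + 1) := fun m => by positivity
  have hgc : ∀ m, Continuous (g m) := fun m => gg_cont hL.continuous _ _ _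
  have hg0 : ∀ m x, 0 ≤ g m x := fun m x =>
    mul_nonneg (by linarith [hKpos (max x (a + 1 / ((m : ℝ) + 1)))]) (ct_nonneg _ _ _)
  have hg1 : ∀ m x, g m x ≤ K + C := fun m x => by
    calc g m x ≤ (K + C) * 1 := mul_le_mul (hKle _) (ct_le _ _ _) (ct_nonneg _ _ _) (by linarith)
      _ = K + C := mul_one _
  have hgb : ∀ m x, |g m x| ≤ K + C := fun m x => by
    rw [abs_of_nonneg (hg0 m x)]; exact hg1 m x
  -- the limit
  let Φ : ℝ → ℝ := fun x => K + ψ x
  have hlim : ∀ x, a < x → Tendsto (fun m => g m x) atTop (𝓝 (Φ x)) := by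
    intro x hx
    have h1 : ∀ᶠ m : ℕ in atTop, 1 / ((m : ℝ) + 1) < x - a :=
      (tendsto_one_div_add_atTop_nhds_zero_nat (𝕜 := ℝ)).eventually (gt_mem_nhds (sub_pos.2 hx))
    refine tendsto_const_nhds.congr' ?_
    filter_upwards [h1] with m hm
    have h2 : a + 1 / ((m : ℝ) + 1) ≤ x := by linarith
    simp only [g, gg, Φ]
    rw [ct_one (hδ m) h2, max_eq_left h2, mul_one]
  have hψm : Measurable ψ := hψ.mono.measurable
  have hψi : Integrable ψ W := by
    refine Integrable.of_bound hψm.aestronglyMeasurable C (Eventually.of_forall fun x => ?_)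
    rw [Real.norm_eq_abs]; exact hC x
  have hfi : Integrable (fun x => f n j (cdf W x)) W :=
    Integrable.of_bound hhm.aestronglyMeasurable C' (Eventually.of_forall fun x => by
      rw [Real.norm_eq_abs]; exact hC' x)
  have hψf : Integrable (fun x => ψ x * f n j (cdf W x)) W := by
    refine Integrable.of_bound (hψm.mul hhm).aestronglyMeasurable (C * C') (Eventually.of_forall fun x => ?_)
    rw [Real.norm_eq_abs, abs_mul]
    exact mul_le_mul (hC x) (hC' x) (abs_nonneg _) hC0
  have hTΦ : T W n j p Φ = T W n j p ψ := by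
    unfold T
    have h1 : (∫ x, Φ x * f n j (cdf W x) ∂W) = K + ∫ x, ψ x * f n j (cdf W x) ∂W := by
      have h2 : (fun x => Φ x * f n j (cdf W x)) =
          fun x => K * f n j (cdf W x) + ψ x * f n j (cdf W x) := by
        funext x; simp only [Φ]; ring
      rw [h2, integral_add (hfi.const_mul K) hψf, integral_const_mul, hh1, mul_one]
    rw [h1]; simp only [Φ]; ring
  have hsΦ : sdW W Φ = sdW W ψ := by
    unfold sdW
    have h1 : (∫ y, Φ y ∂W) = K + ∫ y, ψ y ∂W := by
      simp only [Φ]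
      rw [integral_add (integrable_const K) hψi]
      simp
    rw [h1]
    congr 1
    refine integral_congr_ae (Eventually.of_forall fun x => ?_)
    simp only [Φ]; ring
  have tT1 : Tendsto (fun m => ∫ x, g m x * f n j (cdf W x) ∂W) atTop
      (𝓝 (∫ x, Φ x * f n j (cdf W x) ∂W)) := by
    refine tendsto_integral_of_dominated_convergence (fun _ => (K + C) * C')
      (fun m => ((hgc m).measurable.mul hhm).aestronglyMeasurable) (integrable_const _)
      (fun m => Eventually.of_forall fun x => ?_) ?_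
    · rw [Real.norm_eq_abs, abs_mul]
      exact mul_le_mul (hgb m x) (hC' x) (abs_nonneg _) (by linarith)
    · filter_upwards [hae] with x hx
      exact (hlim x (hspt x hx)).mul_const _
  have tT : Tendsto (fun m => T W n j p (g m)) atTop (𝓝 (T W n j p Φ)) :=
    tT1.sub (hlim _ (hspt _ hw))
  have tE : Tendsto (fun m => ∫ x, g m x ∂W) atTop (𝓝 (∫ x, Φ x ∂W)) := by
    refine tendsto_integral_of_dominated_convergence (fun _ => K + C)
      (fun m => (hgc m).measurable.aestronglyMeasurable) (integrable_const _)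
      (fun m => Eventually.of_forall fun x => ?_) ?_
    · rw [Real.norm_eq_abs]; exact hgb m x
    · filter_upwards [hae] with x hx
      exact hlim x (hspt x hx)
  have hbE : ∀ m, |∫ x, g m x ∂W| ≤ K + C := by
    intro m
    have := norm_integral_le_of_norm_le_const (μ := W) (f := g m) (C := K + C)
      (Eventually.of_forall fun x => by rw [Real.norm_eq_abs]; exact hgb m x)
    simpa using this
  have tV : Tendsto (fun m => ∫ x, (g m x - ∫ y, g m y ∂W) ^ 2 ∂W) atTop
      (𝓝 (∫ x, (Φ x - ∫ y, Φ y ∂W) ^ 2 ∂W)) := by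
    refine tendsto_integral_of_dominated_convergence (fun _ => (2 * (K + C)) ^ 2)
      (fun m => (((hgc m).measurable.sub_const _).pow_const 2).aestronglyMeasurable) (integrable_const _)
      (fun m => Eventually.of_forall fun x => ?_) ?_
    · rw [Real.norm_eq_abs, abs_pow]
      refine pow_le_pow_left₀ (abs_nonneg _) ?_ 2
      refine (abs_sub _ _).trans ?_
      have := hgb m x
      have := hbE m
      linarith
    · filter_upwards [hae] with x hx
      exact ((hlim x (hspt x hx)).sub tE).pow 2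
  have tS : Tendsto (fun m => sdW W (g m)) atTop (𝓝 (sdW W Φ)) :=
    (Real.continuous_sqrt.tendsto _).comp tV
  have hsdΦ : 0 < sdW W Φ := hsΦ ▸ hsd
  have tR : Tendsto (fun m => T W n j p (g m) / sdW W (g m)) atTop
      (𝓝 (T W n j p Φ / sdW W Φ)) := tT.div tS hsdΦ.ne'
  have e1 : ∀ᶠ m in atTop, 0 < sdW W (g m) := tS.eventually (lt_mem_nhds hsdΦ)
  have e2 : ∀ᶠ m in atTop, |T W n j p (g m) / sdW W (g m) - T W n j p Φ / sdW W Φ| < ε := by
    have := (Metric.tendsto_nhds.mp tR) ε hε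
    simpa [Real.dist_eq] using this
  obtain ⟨m, hm1, hm2⟩ := (e1.and e2).exists
  rw [hTΦ, hsΦ] at hm2
  refine ⟨g m, ⟨(hgc m).continuousOn, ?_, ?_, ?_, ?_, ?_, hm1⟩, hm2⟩
  · -- monotone
    intro x _ y _ hxy
    exact mul_le_mul (by have := hψ.mono (max_le_max hxy (le_refl (a + 1 / ((m : ℝ) + 1)))); linarith)
      (ct_mono (hδ m) hxy) (ct_nonneg _ _ _) (by linarith [hKpos (max y (a + 1 / ((m : ℝ) + 1)))])
  · -- positive
    intro x hx
    exact mul_pos (by linarith [hKpos (max x (a + 1 / ((m : ℝ) + 1)))]) (ct_pos (hδ m) (hspt x hx))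
  · -- limit zero
    intro e he
    have hKC' : 0 < K + C := by linarith
    have hd := hδ m
    set δ : ℝ := 1 / ((m : ℝ) + 1) with hδd
    obtain ⟨x, hx, hx2⟩ := hnear (min δ (e * δ / (K + C))) (lt_min hd (by positivity))
    refine ⟨x, hx, ?_⟩
    have hxa := hspt x hx
    have h1 : x ≤ a + δ := by have := min_le_left δ (e * δ / (K + C)); linarith
    have h2 : x - a ≤ e * δ / (K + C) := by have := min_le_right δ (e * δ / (K + C)); linarith
    have h3 : g m x ≤ (K + C) * ((x - a) / δ) := by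
      have h4 : g m x = (K + ψ (max x (a + δ))) * ((x - a) / δ) := by
        simp only [g, gg]
        rw [ct_lin hd hxa.le h1]
      rw [h4]
      exact mul_le_mul_of_nonneg_right (hKle _) (div_nonneg (by linarith) hd.le)
    calc g m x ≤ (K + C) * ((x - a) / δ) := h3
      _ ≤ (K + C) * ((e * δ / (K + C)) / δ) :=
          mul_le_mul_of_nonneg_left (div_le_div_of_nonneg_right h2 hd.le) hKC'.le
      _ = e := by field_simp
  · -- antitone quotient
    intro x hx y hy hxy
    have hxa := hspt x hx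
    have hya := hspt y hy
    simp only
    rw [← ha]
    change gg ψ K a (1 / ((m : ℝ) + 1)) y / (y - a) ≤ gg ψ K a (1 / ((m : ℝ) + 1)) x / (x - a)
    rw [gg_quo (hδ m) hxa, gg_quo (hδ m) hya]
    exact quo_anti hC hL hM2 haM le_rfl (lt_of_lt_of_le (by linarith [hδ m]) (le_max_right x _))
      (max_le_max hxy le_rfl)
  · -- integrable square
    refine Integrable.of_bound ((hgc m).measurable.pow_const 2).aestronglyMeasurable ((K + C) ^ 2)
      (Eventually.of_forall fun x => ?_)
    rw [Real.norm_eq_abs, abs_pow]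
    exact pow_le_pow_left₀ (abs_nonneg _) (hgb m x) 2

end Pool.Agent.T2H99.QB
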