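import Pool.Agent.T2H99.QB.Stm

open MeasureTheory ProbabilityTheory Set Filter Topology

noncomputable section

namespace Pool.Agent.T2H99.QB

namespace PkgCRL

/-- a supergradient at an interior point -/
theorem supergrad {s : Set ℝ} {g : ℝ → ℝ} (hg : ConcaveOn ℝ s g) (hs : IsOpen s) {w : ℝ} (hw : w ∈ s) :
    ∃ a : ℝ, ∀ x ∈ s, g x ≤ g w + a * (x - w) := by
  obtain ⟨l, u, hlu, hsub⟩ := (mem_nhds_iff_exists_Ioo_subset.1 (hs.mem_nhds hw))
  have hl : (l + w) / 2 ∈ s := hsub ⟨by linarith [hlu.1], by linarith [hlu.1, hlu.2]⟩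
  have hu : (w + u) / 2 ∈ s := hsub ⟨by linarith [hlu.1, hlu.2], by linarith [hlu.2]⟩
  set A : Set ℝ := {a | ∃ x ∈ s, w < x ∧ a = (g x - g w) / (x - w)} with hA
  have hne : A.Nonempty := ⟨_, (w + u) / 2, hu, by linarith [hlu.2], rfl⟩
  have hbd : ∀ y ∈ s, y < w → ∀ a ∈ A, a ≤ (g w - g y) / (w - y) := by
    rintro y hy hyw a ⟨x, hx, hwx, rfl⟩
    exact hg.slope_anti_adjacent hy hx hyw hwx
  have hbdd : BddAbove A := ⟨_, hbd _ hl (by linarith [hlu.1])⟩
  refine ⟨sSup A, fun x hx => ?_⟩
  rcases lt_trichotomy x w with h | h | h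
  · have h1 : sSup A ≤ (g w - g x) / (w - x) := csSup_le hne (hbd x hx h)
    rw [le_div_iff₀ (by linarith)] at h1
    linarith
  · subst h
    simp
  · have h1 : (g x - g w) / (x - w) ≤ sSup A := le_csSup hbdd ⟨x, hx, h, rfl⟩
    rw [div_le_iff₀ (by linarith)] at h1
    linarith

end PkgCRL

open PkgCRL in
theorem pCRL (hUNI : S_UNI) (hHH : S_HH) (hMEA : S_MEA) (hCON : S_CON) : S_CRL := by
  intro W hW n j p hPar g hconc hmono hsq
  obtain ⟨hnull, hopen, _, _, hq, _, _⟩ := hUNI W hW
  have hprob := hW.prob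
  obtain ⟨⟨Ch, hCh⟩, hh0, hhm, _, _, _, hT⟩ := hHH W hW n j p hPar
  have hw : quant W p ∈ spt W := (hq p ⟨hPar.p0, hPar.p1⟩).1
  set w := quant W p with hwdef
  obtain ⟨a, ha⟩ := supergrad hconc hopen hw
  have ha0 : 0 ≤ a := by
    obtain ⟨l, u, hlu, hsub⟩ := (mem_nhds_iff_exists_Ioo_subset.1 (hopen.mem_nhds hw))
    have hu : (w + u) / 2 ∈ spt W := hsub ⟨by linarith [hlu.1, hlu.2], by linarith [hlu.2]⟩
    have h1 := ha _ hu
    have h2 := hmono hw hu (by linarith [hlu.2])
    by_contra hneg
    push Not at hneg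
    have h3 : 0 < (w + u) / 2 - w := by linarith [hlu.2]
    nlinarith
  -- slopes on the left are at least `a`
  have hslope : ∀ x ∈ spt W, ∀ y ∈ spt W, x ≤ y → y ≤ w → a * (y - x) ≤ g y - g x := by
    intro x hx y hy hxy hyw
    rcases hxy.eq_or_lt with h | h
    · subst h; simp
    · rcases hyw.eq_or_lt with h2 | h2
      · rw [h2]
        have := ha x hx
        linarith
      · have h3 := hconc.slope_anti_adjacent hx hw h h2
        have h4 : a ≤ (g w - g y) / (w - y) := by
          rw [le_div_iff₀ (by linarith)]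
          have := ha y hy
          linarith
        have h5 := h4.trans h3
        rw [le_div_iff₀ (by linarith)] at h5
        exact h5
  set g' : ℝ → ℝ := fun x => if x ≤ w then g w + a * (x - w) else g x with hg'
  have e1 : ∀ x, x ≤ w → g' x = g w + a * (x - w) := fun x hx => if_pos hx
  have e2 : ∀ x, w < x → g' x = g x := fun x hx => if_neg (not_le.2 hx)
  have e3 : g' w = g w := by rw [e1 w le_rfl]; ring
  have hdiff : ∀ x ∈ spt W, ∀ y ∈ spt W, x ≤ y → 0 ≤ g' y - g' x ∧ g' y - g' x ≤ g y - g x := by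
    intro x hx y hy hxy
    rcases le_or_gt y w with h | h
    · rw [e1 y h, e1 x (hxy.trans h)]
      have := hslope x hx y hy hxy h
      constructor
      · nlinarith
      · linarith
    · rw [e2 y h]
      rcases le_or_gt x w with h2 | h2
      · rw [e1 x h2]
        have h3 := hslope x hx w hw h2 le_rfl
        have h4 := hmono hw hy h.le
        constructor
        · nlinarith
        · linarith
      · rw [e2 x h2]
        have := hmono hx hy hxy
        constructor
        · linarith
        · exact le_rfl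
  have hmono' : MonotoneOn g' (spt W) := by
    intro x hx y hy hxy
    linarith [(hdiff x hx y hy hxy).1]
  have hgm := hMEA W hW g (Or.inl hmono)
  have hgm' := hMEA W hW g' (Or.inl hmono')
  have hcon : ∀ x ∈ spt W, ∀ y ∈ spt W, |g' x - g' y| ≤ |g x - g y| := by
    intro x hx y hy
    rcases le_total x y with h | h
    · obtain ⟨h1, h2⟩ := hdiff x hx y hy h
      have h3 := hmono hx hy h
      rw [abs_sub_comm, abs_sub_comm (g x), abs_of_nonneg h1, abs_of_nonneg (by linarith)]
      exact h2
    · obtain ⟨h1, h2⟩ := hdiff y hy x hx h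
      have h3 := hmono hy hx h
      rw [abs_of_nonneg h1, abs_of_nonneg (by linarith)]
      exact h2
  obtain ⟨hsq', hsd⟩ := hCON W hW g g' hgm hgm' hsq hcon
  refine ⟨a, g', ha0, fun x _ hx => e1 x hx, ?_, ha, hmono', hsq', ?_, hsd⟩
  · intro x _ hx
    rcases hx.eq_or_lt with h | h
    · rw [← h, e3]
    · exact e2 x h
  · obtain ⟨hi1, hi2, hT1⟩ := hT g hgm hsq
    obtain ⟨hi1', hi2', hT2⟩ := hT g' hgm' hsq'
    rw [hT1, hT2]
    have hhi : Integrable (fun x => f n j (cdf W x)) W := by
      refine Integrable.of_bound hhm.aestronglyMeasurable Ch (Eventually.of_forall fun x => ?_)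
      rw [Real.norm_eq_abs]
      exact hCh x
    have hint : Integrable (fun x => (g x - g w) * f n j (cdf W x)) W := by
      have : (fun x => (g x - g w) * f n j (cdf W x)) =
          fun x => g x * f n j (cdf W x) - g w * f n j (cdf W x) := by
        funext x; ring
      rw [this]
      exact hi2.sub (hhi.const_mul _)
    have hint' : Integrable (fun x => (g' x - g' w) * f n j (cdf W x)) W := by
      have : (fun x => (g' x - g' w) * f n j (cdf W x)) =
          fun x => g' x * f n j (cdf W x) - g' w * f n j (cdf W x) := by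
        funext x; ring
      rw [this]
      exact hi2'.sub (hhi.const_mul _)
    refine integral_mono_ae hint hint' ?_
    have hae : ∀ᵐ x ∂W, x ∈ spt W := by
      rw [ae_iff]
      exact hnull
    filter_upwards [hae] with x hx
    refine mul_le_mul_of_nonneg_right ?_ (hh0 x)
    rw [e3]
    have : g x ≤ g' x := by
      rcases le_or_gt x w with h | h
      · rw [e1 x h]; exact ha x hx
      · rw [e2 x h]
    linarith

end Pool.Agent.T2H99.QB
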