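import Pool.Agent.T2H99.QB.Stm

/-! # Package CRR: truncation on the right -/

set_option autoImplicit false

open MeasureTheory ProbabilityTheory Set Filter Topology

noncomputable section

namespace Pool.Agent.T2H99.QB

namespace PkgCRR

/-- Chebyshev type inequality -/
lemma cheb {W : Measure ℝ} {S : Set ℝ} (hS : ∀ᵐ x ∂W, x ∈ S) {ψ Q : ℝ → ℝ}
    (hψ : Integrable ψ W) (h0 : ∫ x, ψ x ∂W = 0) (hψQ : Integrable (fun x => ψ x * Q x) W)
    (hQ : ∀ x ∈ S, ∀ y ∈ S, 0 < ψ x → ψ y < 0 → Q x ≤ Q y) : ∫ x, ψ x * Q x ∂W ≤ 0 := by
  by_cases hp : ∃ x ∈ S, 0 < ψ x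
  swap
  · push Not at hp
    have h2 : 0 ≤ᵐ[W] fun x => - ψ x := by
      filter_upwards [hS] with x hx
      simpa using hp x hx
    have h3 : ∫ x, - ψ x ∂W = 0 := by rw [integral_neg, h0, neg_zero]
    have h4 := (integral_eq_zero_iff_of_nonneg_ae h2 hψ.neg).1 h3
    have h5 : ∫ x, ψ x * Q x ∂W = ∫ _x, (0 : ℝ) ∂W := by
      refine integral_congr_ae ?_
      filter_upwards [h4] with x hx
      have : ψ x = 0 := by simpa using hx
      rw [this, zero_mul]
    rw [h5, integral_zero]
  by_cases hn : ∃ y ∈ S, ψ y < 0
  swap
  · push Not at hn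
    have h2 : 0 ≤ᵐ[W] ψ := by
      filter_upwards [hS] with x hx
      simpa using hn x hx
    have h4 := (integral_eq_zero_iff_of_nonneg_ae h2 hψ).1 h0
    have h5 : ∫ x, ψ x * Q x ∂W = ∫ _x, (0 : ℝ) ∂W := by
      refine integral_congr_ae ?_
      filter_upwards [h4] with x hx
      have : ψ x = 0 := by simpa using hx
      rw [this, zero_mul]
    rw [h5, integral_zero]
  obtain ⟨x₀, hx₀, hx₀p⟩ := hp
  obtain ⟨y₀, hy₀, hy₀n⟩ := hn
  set κ := sSup (Q '' {x | x ∈ S ∧ 0 < ψ x}) with hκ
  have hbdd : BddAbove (Q '' {x | x ∈ S ∧ 0 < ψ x}) :=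
    ⟨Q y₀, by rintro _ ⟨x, ⟨hx, hxp⟩, rfl⟩; exact hQ x hx y₀ hy₀ hxp hy₀n⟩
  have h1 : ∀ᵐ x ∂W, ψ x * (Q x - κ) ≤ 0 := by
    filter_upwards [hS] with x hx
    rcases lt_trichotomy (ψ x) 0 with h | h | h
    · have h2 : κ ≤ Q x := csSup_le ⟨Q x₀, x₀, ⟨hx₀, hx₀p⟩, rfl⟩
        (by rintro _ ⟨z, ⟨hz, hzp⟩, rfl⟩; exact hQ z hz x hx hzp h)
      nlinarith
    · simp [h]
    · have h2 : Q x ≤ κ := le_csSup hbdd ⟨x, ⟨hx, h⟩, rfl⟩
      nlinarith
  have h2 : ∫ x, ψ x * Q x ∂W = ∫ x, ψ x * (Q x - κ) ∂W := by
    have h3 : ∀ x, ψ x * (Q x - κ) = ψ x * Q x - κ * ψ x := fun x => by ring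
    simp_rw [h3]
    rw [integral_sub hψQ (hψ.const_mul κ), integral_const_mul, h0]
    simp
  rw [h2]
  exact integral_nonpos_of_ae h1

lemma var_eq {W : Measure ℝ} [IsProbabilityMeasure W] {g : ℝ → ℝ} (h1 : Integrable g W)
    (h2 : Integrable (fun x => g x ^ 2) W) :
    ∫ x, (g x - ∫ y, g y ∂W) ^ 2 ∂W = ∫ x, g x ^ 2 ∂W - (∫ x, g x ∂W) ^ 2 := by
  obtain ⟨m, hm⟩ : ∃ m : ℝ, m = ∫ y, g y ∂W := ⟨_, rfl⟩
  rw [← hm]
  have h3 : ∀ x, (g x - m) ^ 2 = g x ^ 2 - 2 * m * g x + m ^ 2 := fun x => by ring
  simp_rw [h3]
  have h4 : ∫ x, (g x ^ 2 - 2 * m * g x + m ^ 2) ∂W =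
      ∫ x, (g x ^ 2 - 2 * m * g x) ∂W + ∫ _x, m ^ 2 ∂W :=
    integral_add (h2.sub (h1.const_mul _)) (integrable_const _)
  have h5 : ∫ x, (g x ^ 2 - 2 * m * g x) ∂W = ∫ x, g x ^ 2 ∂W - ∫ x, 2 * m * g x ∂W :=
    integral_sub h2 (h1.const_mul _)
  rw [h4, h5, integral_const_mul, ← hm]
  simp
  ring

end PkgCRR

open PkgCRR in
theorem pCRR (hUNI : S_UNI) (hFF : S_FF) (hHH : S_HH) (hMEA : S_MEA) (hCON : S_CON) : S_CRR := by
  intro W hW n j p hpar c hc hN s g hs hleft hright hmono hsq
  have : IsProbabilityMeasure W := hW.prob
  obtain ⟨hnull, hopen, hord, -, hq, hqc, hle⟩ := hUNI W hW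
  obtain ⟨-, -, -, -, hanti, -, -, -, -, -, hm0, hm1⟩ := hFF n j p hpar
  obtain ⟨⟨C, hC⟩, hh0, hhm, -, hh1, -, hT⟩ := hHH W hW n j p hpar
  have hS : ∀ᵐ x ∂W, x ∈ spt W := by
    rw [ae_iff]
    exact hnull
  obtain ⟨w, hw⟩ : ∃ w, w = quant W p := ⟨_, rfl⟩
  obtain ⟨hwS, hwp⟩ := hq p ⟨hpar.p0, hpar.p1⟩
  rw [← hw] at hwS hwp hN hleft hright hT
  obtain ⟨v, hv⟩ : ∃ v, v = g w := ⟨_, rfl⟩
  rw [← hv] at hleft hright
  set h : ℝ → ℝ := fun x => f n j (cdf W x) with hh
  have hhint : Integrable h W := by
    refine Integrable.of_bound hhm.aestronglyMeasurable C (Eventually.of_forall fun x => ?_)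
    rw [Real.norm_eq_abs]
    exact hC x
  have hC0 : 0 ≤ C := (abs_nonneg _).trans (hC 0)
  have hgm : AEStronglyMeasurable g W := hMEA W hW g (Or.inl hmono)
  obtain ⟨hgi, hghi, hTg⟩ := hT g hgm hsq
  rw [← hv] at hTg
  have hsd0 : 0 ≤ sdW W g := Real.sqrt_nonneg _
  have hge : ∀ x ∈ spt W, w ≤ x → v ≤ g x := fun x hx hwx => by
    rw [hv]
    exact hmono hwS hx hwx
  -- the case `s = 0`
  rcases hs.eq_or_lt with hs0 | hspos
  · have h1 : T W n j p g ≤ 0 := by
      rw [hTg]
      refine integral_nonpos_of_ae ?_
      filter_upwards [hS] with x hx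
      have h2 : g x ≤ v := by
        rcases le_total x w with h3 | h3
        · rw [hleft x hx h3, ← hs0]; simp
        · have := hright x hx h3
          rw [← hs0] at this
          simpa using this
      have h3 := hh0 x
      simp only [Pi.zero_apply]
      nlinarith
    exact h1.trans (mul_nonneg hc hsd0)
  -- the truncated functions
  obtain ⟨gt, hgt⟩ : ∃ gt : ℝ → ℝ → ℝ, ∀ t x, gt t x = v + s * (min x t - w) :=
    ⟨fun t x => v + s * (min x t - w), fun _ _ => rfl⟩
  have hgtc : ∀ t, Continuous (gt t) := fun t => by
    have : gt t = fun x => v + s * (min x t - w) := funext fun x => hgt t x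
    rw [this]
    fun_prop
  have hgtsq : ∀ t, w ≤ t → Integrable (fun x => gt t x ^ 2) W := fun t hwt => by
    refine Integrable.mono' (hsq.add (integrable_const ((|v| + s * (t - w)) ^ 2)))
      ((hgtc t).pow 2).aestronglyMeasurable ?_
    filter_upwards [hS] with x hx
    rw [Real.norm_eq_abs, abs_of_nonneg (sq_nonneg _)]
    simp only [Pi.add_apply]
    rcases le_total x w with h1 | h1
    · have h2 : gt t x = g x := by rw [hgt, min_eq_left (h1.trans hwt), hleft x hx h1]
      rw [h2]
      have := sq_nonneg (|v| + s * (t - w))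
      linarith
    · have h2 : 0 ≤ min x t - w := by
        have := le_min h1 hwt
        linarith
      have h3 : min x t - w ≤ t - w := by
        have := min_le_right x t
        linarith
      have h4 : |gt t x| ≤ |v| + s * (t - w) := by
        rw [hgt]
        refine (abs_add_le _ _).trans ?_
        rw [abs_of_nonneg (mul_nonneg hs h2)]
        nlinarith
      have h5 : gt t x ^ 2 ≤ (|v| + s * (t - w)) ^ 2 := by
        rw [← sq_abs (gt t x)]
        exact pow_le_pow_left₀ (abs_nonneg _) h4 2
      have := sq_nonneg (g x)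
      linarith
  have hgtw : ∀ t, w ≤ t → gt t w = v := fun t ht => by
    rw [hgt, min_eq_left ht]
    ring
  have hgtall : ∀ t, w ≤ t → Integrable (gt t) W ∧ Integrable (fun x => gt t x * h x) W ∧
      T W n j p (gt t) = ∫ x, (gt t x - v) * h x ∂W := fun t ht => by
    obtain ⟨h1, h2, h3⟩ := hT (gt t) (hgtc t).aestronglyMeasurable (hgtsq t ht)
    rw [hgtw t ht] at h3
    exact ⟨h1, h2, h3⟩
  -- `T (gt t) = s N(t)`
  have hTgt : ∀ t, w ≤ t → T W n j p (gt t) = s * Nt W n j p t := fun t ht => by
    have h1 := (hgtall t ht).2.1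
    have h2 : Integrable (fun x => min x t * h x) W := by
      have h3 : (fun x => min x t * h x) = fun x =>
          s⁻¹ * (gt t x * h x) + (w - s⁻¹ * v) * h x := by
        funext x
        rw [hgt]
        field_simp
        ring
      rw [h3]
      exact (h1.const_mul _).add (hhint.const_mul _)
    have h3 : ∫ x, gt t x * h x ∂W = s * ∫ x, min x t * h x ∂W + (v - s * w) := by
      have h4 : (fun x => gt t x * h x) = fun x => s * (min x t * h x) + (v - s * w) * h x := by
        funext x
        rw [hgt]
        ring
      rw [h4, integral_add (h2.const_mul _) (hhint.const_mul _), integral_const_mul,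
        integral_const_mul, hh1, mul_one]
    unfold T Nt
    rw [← hw, hgtw t ht, h3]
    ring
  -- `sdW (gt t) = s √V(t)`
  have hsdgt : ∀ t, w ≤ t → sdW W (gt t) = s * Real.sqrt (Vt W t) := fun t ht => by
    have h1 := (hgtall t ht).1
    have h2 : Integrable (fun x => min x t) W := by
      have h3 : (fun x => min x t) = fun x => s⁻¹ * gt t x + (w - s⁻¹ * v) := by
        funext x
        rw [hgt]
        field_simp
        ring
      rw [h3]
      exact (h1.const_mul _).add (integrable_const _)
    have h3 : ∫ x, gt t x ∂W = s * Mt W t + (v - s * w) := by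
      have h4 : (fun x => gt t x) = fun x => s * (min x t) + (v - s * w) := by
        funext x
        rw [hgt]
        ring
      rw [h4, integral_add (h2.const_mul _) (integrable_const _), integral_const_mul]
      simp [Mt]
    unfold sdW
    have h4 : ∫ x, (gt t x - ∫ y, gt t y ∂W) ^ 2 ∂W = s ^ 2 * Vt W t := by
      rw [h3]
      unfold Vt
      rw [← integral_const_mul]
      refine integral_congr_ae (Eventually.of_forall fun x => ?_)
      simp only
      rw [hgt]
      ring
    rw [h4, Real.sqrt_mul (sq_nonneg s), Real.sqrt_sq hs]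
  have hmain : ∀ t ∈ spt W, w < t → T W n j p (gt t) ≤ c * sdW W (gt t) := fun t ht hwt => by
    rw [hTgt t hwt.le, hsdgt t hwt.le]
    have := hN t ht hwt
    nlinarith
  by_cases hA : ∃ t₁ ∈ spt W, w ≤ t₁ ∧ ∫ x, g x ∂W ≤ ∫ x, gt t₁ x ∂W
  · -- the case of an exact truncation
    obtain ⟨t₁, ht₁, hwt₁, hle₁⟩ := hA
    have hcont : ContinuousOn (fun t => ∫ x, gt t x ∂W) (Icc w t₁) := by
      have h1 : LipschitzOnWith (Real.toNNReal s) (fun t => ∫ x, gt t x ∂W) (Icc w t₁) := by
        refine LipschitzOnWith.of_dist_le_mul fun a ha b hb => ?_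
        rw [Real.dist_eq, Real.dist_eq, Real.coe_toNNReal s hs,
          ← integral_sub (hgtall a ha.1).1 (hgtall b hb.1).1, ← Real.norm_eq_abs]
        refine (norm_integral_le_of_norm_le_const (C := s * |a - b|)
          (Eventually.of_forall fun x => ?_)).trans (le_of_eq ?_)
        · rw [hgt, hgt, Real.norm_eq_abs,
            show v + s * (min x a - w) - (v + s * (min x b - w)) = s * (min x a - min x b) by ring,
            abs_mul, abs_of_nonneg hs]
          refine mul_le_mul_of_nonneg_left ?_ hs
          refine (abs_min_sub_min_le_max x a x b).trans ?_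
          simp
        · simp
      exact h1.continuousOn
    have hw0 : ∫ x, gt w x ∂W ≤ ∫ x, g x ∂W := by
      refine integral_mono_ae (hgtall w le_rfl).1 hgi ?_
      filter_upwards [hS] with x hx
      rw [hgt]
      rcases le_total x w with h1 | h1
      · rw [min_eq_left h1, hleft x hx h1]
      · rw [min_eq_right h1]
        have := hge x hx h1
        simpa using this
    obtain ⟨t, ht, hteq⟩ := intermediate_value_Icc hwt₁ hcont ⟨hw0, hle₁⟩
    have hteq' : ∫ x, gt t x ∂W = ∫ x, g x ∂W := hteq
    have htS : t ∈ spt W := hord.out hwS ht₁ ht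
    have hwt : w ≤ t := ht.1
    obtain ⟨hti, hthi, htT⟩ := hgtall t hwt
    have hψ : Integrable (fun x => gt t x - g x) W := hti.sub hgi
    have hψ0 : ∫ x, (gt t x - g x) ∂W = 0 := by
      rw [integral_sub hti hgi, hteq', sub_self]
    -- the sign pattern
    have hpos : ∀ x ∈ spt W, 0 < gt t x - g x → w < x := fun x hx h1 => by
      by_contra h2
      push Not at h2
      rw [hgt, min_eq_left (h2.trans hwt), hleft x hx h2] at h1
      linarith
    have hneg : ∀ x ∈ spt W, gt t x - g x < 0 → t < x := fun x hx h1 => by
      by_contra h2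
      push Not at h2
      rw [hgt, min_eq_left h2] at h1
      rcases le_total x w with h3 | h3
      · rw [hleft x hx h3] at h1
        linarith
      · have := hright x hx h3
        linarith
    have hsign : ∀ x ∈ spt W, ∀ y ∈ spt W, 0 < gt t x - g x → gt t y - g y < 0 → x < y := by
      intro x hx y hy h1 h2
      by_contra h3
      push Not at h3
      have h4 := hneg y hy h2
      have h5 : gt t x = gt t y := by
        rw [hgt, hgt, min_eq_right (h4.le.trans h3), min_eq_right h4.le]
      have h6 := hmono hy hx h3
      linarith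
    have hTle : T W n j p g ≤ T W n j p (gt t) := by
      have h1 := cheb (Q := fun x => -h x) hS hψ hψ0 (by
        have h2 := (hthi.sub hghi).neg
        refine h2.congr (Eventually.of_forall fun x => ?_)
        simp only [Pi.neg_apply, Pi.sub_apply]
        ring) (by
        intro x hx y hy h1 h2
        have h3 := hsign x hx y hy h1 h2
        have h4 := hpos x hx h1
        have h5 : p ≤ cdf W x := by
          rw [← hwp]
          exact (hle w hwS x hx).2 h4.le
        have h6 : cdf W x ≤ cdf W y := (hle x hx y hy).2 h3.le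
        have h7 := hanti.antitoneOn (a := cdf W x) (b := cdf W y)
          ⟨hpar.mp.trans h5, cdf_le_one W x⟩ ⟨hpar.mp.trans (h5.trans h6), cdf_le_one W y⟩ h6
        simp only [hh]
        linarith)
      rw [hTg, htT]
      have h2 : ∫ x, (g x - v) * h x ∂W - ∫ x, (gt t x - v) * h x ∂W =
          ∫ x, (gt t x - g x) * -h x ∂W := by
        rw [← integral_sub]
        · refine integral_congr_ae (Eventually.of_forall fun x => ?_)
          simp only
          ring
        · have := hghi.sub (hhint.const_mul v)
          refine this.congr (Eventually.of_forall fun x => ?_)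
          simp only [Pi.sub_apply]
          ring
        · have := hthi.sub (hhint.const_mul v)
          refine this.congr (Eventually.of_forall fun x => ?_)
          simp only [Pi.sub_apply]
          ring
      linarith
    have hsdle : sdW W (gt t) ≤ sdW W g := by
      unfold sdW
      refine Real.sqrt_le_sqrt ?_
      rw [var_eq hti (hgtsq t hwt), var_eq hgi hsq, hteq']
      have h1 := cheb (Q := fun x => gt t x + g x) hS hψ hψ0 (by
        have h2 := (hgtsq t hwt).sub hsq
        refine h2.congr (Eventually.of_forall fun x => ?_)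
        simp only [Pi.sub_apply]
        ring) (by
        intro x hx y hy h1 h2
        have h3 := hsign x hx y hy h1 h2
        have h4 := hmono hx hy h3.le
        have h5 : gt t x ≤ gt t y := by
          rw [hgt, hgt]
          have h6 : min x t ≤ min y t := min_le_min h3.le le_rfl
          nlinarith
        linarith)
      have h2 : ∫ x, gt t x ^ 2 ∂W - ∫ x, g x ^ 2 ∂W =
          ∫ x, (gt t x - g x) * (gt t x + g x) ∂W := by
        rw [← integral_sub (hgtsq t hwt) hsq]
        refine integral_congr_ae (Eventually.of_forall fun x => ?_)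
        simp only
        ring
      linarith
    rcases hwt.eq_or_lt with h1 | h1
    · -- `t = w`
      have h2 : T W n j p (gt t) ≤ 0 := by
        rw [htT]
        refine integral_nonpos_of_ae (Eventually.of_forall fun x => ?_)
        simp only [Pi.zero_apply]
        rw [hgt]
        have h3 : min x t - w ≤ 0 := by
          have := min_le_right x t
          linarith
        have h4 := hh0 x
        have h5 : s * (min x t - w) ≤ 0 := mul_nonpos_of_nonneg_of_nonpos hs h3
        nlinarith
      have := mul_nonneg hc hsd0
      linarith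
    · have h2 := hmain t htS h1
      have h3 := mul_le_mul_of_nonneg_left hsdle hc
      linarith
  · -- the case of an affine function
    push Not at hA
    -- points tending to the right end
    set u : ℕ → ℝ := fun i => 1 - (1 - p) / ((i : ℝ) + 2) with hu
    have hu1 : ∀ i, p < u i ∧ u i < 1 := fun i => by
      have hi : (0 : ℝ) ≤ i := Nat.cast_nonneg i
      have hp1 := hpar.p1
      constructor
      · have h1 : (1 - p) / ((i : ℝ) + 2) < (1 - p) := by
          rw [div_lt_iff₀ (by linarith)]
          nlinarith
        simp only [hu]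
        linarith
      · have h1 : 0 < (1 - p) / ((i : ℝ) + 2) := div_pos (by linarith) (by linarith)
        simp only [hu]
        linarith
    have hulim : Tendsto u atTop (𝓝 1) := by
      have h1 : Tendsto (fun i : ℕ => (1 - p) / ((i : ℝ) + 2)) atTop (𝓝 0) := by
        refine Tendsto.div_atTop tendsto_const_nhds ?_
        exact tendsto_atTop_add_const_right _ _ tendsto_natCast_atTop_atTop
      have h2 := (tendsto_const_nhds (x := (1 : ℝ))).sub h1
      simpa [hu] using h2
    set t : ℕ → ℝ := fun i => quant W (u i) with ht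
    have htS : ∀ i, t i ∈ spt W ∧ cdf W (t i) = u i := fun i =>
      hq (u i) ⟨hpar.p0.trans (hu1 i).1, (hu1 i).2⟩
    have hwt : ∀ i, w < t i := fun i => by
      by_contra h1
      push Not at h1
      have h2 := (hle (t i) (htS i).1 w hwS).2 h1
      rw [(htS i).2, hwp] at h2
      linarith [(hu1 i).1]
    have hev : ∀ x ∈ spt W, ∀ᶠ i in atTop, x ≤ t i := fun x hx => by
      have h1 : cdf W x < 1 := hx.2
      filter_upwards [hulim.eventually (lt_mem_nhds h1)] with i hi
      refine (hle x hx (t i) (htS i).1).1 ?_
      rw [(htS i).2]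
      exact hi.le
    -- the tails
    set e : ℕ → ℝ → ℝ := fun i => (Ioi (t i)).indicator (fun x => g x - v) with he
    have hei : ∀ i, Integrable (e i) W := fun i =>
      (hgi.sub (integrable_const v)).indicator measurableSet_Ioi
    have helim : Tendsto (fun i => ∫ x, e i x ∂W) atTop (𝓝 0) := by
      have h1 : Tendsto (fun i => ∫ x, e i x ∂W) atTop (𝓝 (∫ _x, (0 : ℝ) ∂W)) := by
        refine tendsto_integral_of_dominated_convergence (fun x => |g x - v|)
          (fun i => (hei i).aestronglyMeasurable) (hgi.sub (integrable_const v)).abs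
          (fun i => Eventually.of_forall fun x => ?_) ?_
        · rw [Real.norm_eq_abs]
          simp only [he, indicator]
          split_ifs
          · exact le_rfl
          · simp
        · filter_upwards [hS] with x hx
          refine tendsto_const_nhds.congr' ?_
          filter_upwards [hev x hx] with i hi
          simp only [he]
          rw [indicator_of_notMem]
          simpa using hi
      simpa using h1
    have he0 : ∀ i, ∀ x ∈ spt W, 0 ≤ e i x := fun i x hx => by
      simp only [he, indicator]
      split_ifs with h1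
      · have := hge x hx ((hwt i).le.trans (le_of_lt h1))
        linarith
      · exact le_rfl
    -- `g - gt ≤ e`
    have hge' : ∀ i, ∀ x ∈ spt W, g x - gt (t i) x ≤ e i x := fun i x hx => by
      simp only [he]
      rw [hgt]
      by_cases h1 : x ≤ t i
      · rw [indicator_of_notMem (by simpa using h1), min_eq_left h1]
        rcases le_total x w with h2 | h2
        · rw [hleft x hx h2]; simp
        · have := hright x hx h2
          linarith
      · push Not at h1
        rw [indicator_of_mem (by simpa using h1), min_eq_right h1.le]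
        have h2 : 0 ≤ s * (t i - w) := mul_nonneg hs (by linarith [hwt i])
        linarith
    -- `g` is affine almost everywhere
    have haff : ∀ᵐ x ∂W, g x = v + s * (x - w) := by
      set Dd : ℕ → ℝ → ℝ := fun i => (Iic (t i)).indicator (fun x => gt (t i) x - g x) with hDd
      have hDi : ∀ i, Integrable (Dd i) W := fun i =>
        ((hgtall (t i) (hwt i).le).1.sub hgi).indicator measurableSet_Iic
      have hD0 : ∀ i, ∀ x ∈ spt W, 0 ≤ Dd i x := fun i x hx => by
        simp only [hDd, indicator]
        split_ifs with h1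
        · rw [hgt, min_eq_left (by simpa using h1)]
          rcases le_total x w with h2 | h2
          · rw [hleft x hx h2]; simp
          · have := hright x hx h2
            linarith
        · exact le_rfl
      have hDint : ∀ i₀, ∫ x, Dd i₀ x ∂W ≤ 0 := fun i₀ => by
        refine ge_of_tendsto helim ?_
        filter_upwards [hev (t i₀) (htS i₀).1] with i hi
        have h1 := hA (t i) (htS i).1 (hwt i).le
        have h2 : ∫ x, (Dd i₀ x - e i x) ∂W ≤ ∫ x, (gt (t i) x - g x) ∂W := by
          refine integral_mono_ae ((hDi i₀).sub (hei i))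
            ((hgtall (t i) (hwt i).le).1.sub hgi) ?_
          filter_upwards [hS] with x hx
          simp only [hDd, he]
          by_cases h3 : x ≤ t i₀
          · rw [indicator_of_mem (by simpa using h3),
              indicator_of_notMem (by simpa using h3.trans hi), hgt, hgt, min_eq_left h3,
              min_eq_left (h3.trans hi)]
            linarith
          · push Not at h3
            rw [indicator_of_notMem (by simpa using h3)]
            have h4 := hge' i x hx
            simp only [he] at h4
            linarith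
        rw [integral_sub (hDi i₀) (hei i),
          integral_sub (hgtall (t i) (hwt i).le).1 hgi] at h2
        linarith
      have hDz : ∀ i, ∀ᵐ x ∂W, Dd i x = 0 := fun i => by
        have h1 : 0 ≤ᵐ[W] Dd i := by
          filter_upwards [hS] with x hx
          exact hD0 i x hx
        have h2 : ∫ x, Dd i x ∂W = 0 := le_antisymm (hDint i) (integral_nonneg_of_ae h1)
        have h3 := (integral_eq_zero_iff_of_nonneg_ae h1 (hDi i)).1 h2
        filter_upwards [h3] with x hx
        simpa using hx
      filter_upwards [hS, ae_all_iff.2 hDz] with x hx hxz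
      obtain ⟨i, hi⟩ := (hev x hx).exists
      have h1 := hxz i
      simp only [hDd] at h1
      rw [indicator_of_mem (by simpa using hi), hgt, min_eq_left hi] at h1
      linarith
    -- compare
    have hsdle : ∀ i, sdW W (gt (t i)) ≤ sdW W g := fun i => by
      have h1 : sdW W (fun x => v + s * (x - w)) = sdW W g := by
        unfold sdW
        have h2 : ∫ y, (v + s * (y - w)) ∂W = ∫ y, g y ∂W := by
          refine integral_congr_ae ?_
          filter_upwards [haff] with x hx
          rw [hx]
        rw [h2]
        congr 1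
        refine integral_congr_ae ?_
        filter_upwards [haff] with x hx
        rw [hx]
      rw [← h1]
      refine (hCON W hW (fun x => v + s * (x - w)) (gt (t i)) ?_
        (hgtc (t i)).aestronglyMeasurable ?_ ?_).2
      · exact (by fun_prop : Continuous fun x : ℝ => v + s * (x - w)).aestronglyMeasurable
      · refine hsq.congr ?_
        filter_upwards [haff] with x hx
        rw [hx]
      · intro x _ y _
        rw [hgt, hgt, show v + s * (min x (t i) - w) - (v + s * (min y (t i) - w)) =
            s * (min x (t i) - min y (t i)) by ring,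
          show v + s * (x - w) - (v + s * (y - w)) = s * (x - y) by ring, abs_mul, abs_mul]
        refine mul_le_mul_of_nonneg_left ?_ (abs_nonneg _)
        refine (abs_min_sub_min_le_max x (t i) y (t i)).trans ?_
        simp
    have hTle : ∀ i, T W n j p g ≤ T W n j p (gt (t i)) + C * ∫ x, e i x ∂W := fun i => by
      obtain ⟨hti, hthi, htT⟩ := hgtall (t i) (hwt i).le
      rw [hTg, htT]
      have hehi : Integrable (fun x => e i x * h x) W := by
        refine Integrable.mono' ((hei i).abs.const_mul C)
          ((hei i).aestronglyMeasurable.mul hhm.aestronglyMeasurable)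
          (Eventually.of_forall fun x => ?_)
        rw [Real.norm_eq_abs, abs_mul, mul_comm]
        exact mul_le_mul_of_nonneg_right (hC x) (abs_nonneg _)
      have h1 : ∫ x, (g x - v) * h x ∂W - ∫ x, (gt (t i) x - v) * h x ∂W =
          ∫ x, (g x - gt (t i) x) * h x ∂W := by
        rw [← integral_sub]
        · refine integral_congr_ae (Eventually.of_forall fun x => ?_)
          simp only
          ring
        · have := hghi.sub (hhint.const_mul v)
          refine this.congr (Eventually.of_forall fun x => ?_)
          simp only [Pi.sub_apply]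
          ring
        · have := hthi.sub (hhint.const_mul v)
          refine this.congr (Eventually.of_forall fun x => ?_)
          simp only [Pi.sub_apply]
          ring
      have h2 : ∫ x, (g x - gt (t i) x) * h x ∂W ≤ ∫ x, C * e i x ∂W := by
        refine integral_mono_ae ?_ ((hei i).const_mul C) ?_
        · refine (hghi.sub hthi).congr (Eventually.of_forall fun x => ?_)
          simp only [Pi.sub_apply]
          ring
        · filter_upwards [hS] with x hx
          have h3 := hge' i x hx
          have h4 := he0 i x hx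
          have h5 := hh0 x
          have h6 : h x ≤ C := (le_abs_self _).trans (hC x)
          have h7 : (g x - gt (t i) x) * h x ≤ e i x * h x := mul_le_mul_of_nonneg_right h3 h5
          have h8 : e i x * h x ≤ e i x * C := mul_le_mul_of_nonneg_left h6 h4
          linarith
      rw [integral_const_mul] at h2
      linarith
    have hfin : ∀ i, T W n j p g ≤ c * sdW W g + C * ∫ x, e i x ∂W := fun i => by
      have h1 := hTle i
      have h2 := hmain (t i) (htS i).1 (hwt i)
      have h3 := mul_le_mul_of_nonneg_left (hsdle i) hc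
      linarith
    have hlim : Tendsto (fun i => c * sdW W g + C * ∫ x, e i x ∂W) atTop
        (𝓝 (c * sdW W g + C * 0)) := tendsto_const_nhds.add (helim.const_mul C)
    have h1 := ge_of_tendsto' hlim hfin
    simpa using h1

end Pool.Agent.T2H99.QB
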