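import Pool.Agent.T2H99.QB.Stm

/-!
# Package CS: Cauchy-Schwarz for the truncated variable
-/

set_option autoImplicit false

open MeasureTheory ProbabilityTheory Set Filter Topology

noncomputable section

namespace Pool.Agent.T2H99.QB

theorem pCS (hUNI : S_UNI) : S_CS := by
  intro W hW hIM t
  haveI := hW.prob
  -- integrability
  have hmeas : Measurable (fun x : ℝ => min x t) := measurable_id.min measurable_const
  have hsq : Integrable (fun x : ℝ => (min x t) ^ 2) W := by
    have hdom : Integrable (fun x : ℝ => 2 * (min x 0) ^ 2 + 2 * t ^ 2) W :=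
      (hIM.const_mul 2).add (integrable_const _)
    refine hdom.mono' (hmeas.pow_const 2).aestronglyMeasurable ?_
    refine Filter.Eventually.of_forall fun x => ?_
    rw [Real.norm_eq_abs, abs_of_nonneg (sq_nonneg _)]
    have h1 : |min x t| ≤ |min x 0| + |t| := by
      rcases le_total x t with h | h
      · rw [min_eq_left h]
        rcases le_total x 0 with h0 | h0
        · rw [min_eq_left h0]
          linarith [abs_nonneg t]
        · rw [min_eq_right h0, abs_zero, abs_of_nonneg h0]
          linarith [le_abs_self t]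
      · rw [min_eq_right h]
        linarith [abs_nonneg (min x 0)]
    have h2 : (min x t) ^ 2 ≤ (|min x 0| + |t|) ^ 2 := by
      rw [← sq_abs (min x t)]
      exact pow_le_pow_left₀ (abs_nonneg _) h1 2
    nlinarith [sq_nonneg (|min x 0| - |t|), sq_abs (min x 0), sq_abs t]
  have hL2 : MemLp (fun x : ℝ => min x t) 2 W := (memLp_two_iff_integrable_sq
    hmeas.aestronglyMeasurable).2 hsq
  have hint : Integrable (fun x : ℝ => min x t) W := hL2.integrable (by norm_num)
  -- the variable `Y`
  set Y : ℝ → ℝ := fun x => t - min x t with hY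
  have hYint : Integrable Y W := (integrable_const t).sub hint
  have hYL2 : MemLp Y 2 W := (memLp_const t).sub hL2
  have hYsq : Integrable (fun x => Y x ^ 2) W := hYL2.integrable_sq
  have hEY : ∫ x, Y x ∂W = t - Mt W t := by
    rw [hY, integral_sub (integrable_const t) hint, integral_const]
    simp [Mt]
  have hVt : Vt W t = (∫ x, Y x ^ 2 ∂W) - (t - Mt W t) ^ 2 := by
    unfold Vt
    have h1 : ∀ x, (min x t - Mt W t) ^ 2 =
        Y x ^ 2 - 2 * (t - Mt W t) * Y x + (t - Mt W t) ^ 2 := by
      intro x
      simp only [hY]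
      ring
    have hA : Integrable (fun x => Y x ^ 2 - 2 * (t - Mt W t) * Y x) W :=
      hYsq.sub (hYint.const_mul _)
    simp_rw [h1]
    rw [integral_add hA (integrable_const _),
      integral_sub hYsq (hYint.const_mul _), integral_const_mul, hEY, integral_const]
    simp
    ring
  -- the set `A`
  set c : ℝ := cdf W t with hc
  have hcA : W.real (Iic t) = c := by
    rw [hc, cdf_eq_real]
  have hY0 : ∀ x, x ∉ Iic t → Y x = 0 := by
    intro x hx
    simp only [hY]
    rw [min_eq_right (le_of_lt (not_le.1 hx)), sub_self]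
  have hYA : ∀ x, Y x = (Iic t).indicator Y x := by
    intro x
    by_cases hx : x ∈ Iic t
    · rw [indicator_of_mem hx]
    · rw [indicator_of_notMem hx, hY0 x hx]
  have hc0 : 0 ≤ c := cdf_nonneg W t
  have hEYc : (t - Mt W t) ^ 2 ≤ c * ∫ x, Y x ^ 2 ∂W := by
    set e : ℝ := t - Mt W t with he
    have hind : Integrable ((Iic t).indicator (fun _ => (1 : ℝ))) W :=
      (integrable_const (1 : ℝ)).indicator measurableSet_Iic
    have h0 : 0 ≤ ∫ x, (c * Y x - e * (Iic t).indicator (fun _ => (1 : ℝ)) x) ^ 2 ∂W :=
      integral_nonneg fun x => sq_nonneg _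
    have h1 : ∀ x, (c * Y x - e * (Iic t).indicator (fun _ => (1 : ℝ)) x) ^ 2 =
        c ^ 2 * Y x ^ 2 - 2 * c * e * Y x + e ^ 2 * (Iic t).indicator (fun _ => (1 : ℝ)) x := by
      intro x
      by_cases hx : x ∈ Iic t
      · rw [indicator_of_mem hx]
        ring
      · rw [indicator_of_notMem hx, hY0 x hx]
        ring
    have hA : Integrable (fun x => c ^ 2 * Y x ^ 2 - 2 * c * e * Y x) W :=
      (hYsq.const_mul _).sub (hYint.const_mul _)
    simp_rw [h1] at h0
    rw [integral_add hA (hind.const_mul _),
      integral_sub (hYsq.const_mul _) (hYint.const_mul _), integral_const_mul,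
      integral_const_mul, integral_const_mul, hEY,
      integral_indicator_const _ measurableSet_Iic, hcA] at h0
    simp only [smul_eq_mul, mul_one] at h0
    rcases hc0.eq_or_lt with hcz | hcp
    · -- `c = 0`
      have hnull : W (Iic t) = 0 := by
        have h2 : W.real (Iic t) = 0 := by rw [hcA, ← hcz]
        exact (measureReal_eq_zero_iff).1 h2
      have h3 : ∫ x, Y x ∂W = 0 := by
        apply integral_eq_zero_of_ae
        have h4 : ∀ᵐ x ∂W, x ∉ Iic t := measure_eq_zero_iff_ae_notMem.1 hnull
        filter_upwards [h4] with x hx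
        exact hY0 x hx
      rw [hEY] at h3
      rw [h3, ← hcz]
      simp
    · have h5 : 0 ≤ c * (c * (∫ x, Y x ^ 2 ∂W) - e ^ 2) := by nlinarith
      have h6 := nonneg_of_mul_nonneg_right h5 hcp
      linarith
  rw [hVt]
  nlinarith

end Pool.Agent.T2H99.QB
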