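import Pool.Agent.T2H99.QB.Stm

/-!
# Package DAT: the lower bound is attained by `-k`
-/

open MeasureTheory ProbabilityTheory Set Filter Topology

noncomputable section

namespace Pool.Agent.T2H99.QB

theorem pDAT (hUNI : S_UNI) (hFF : S_FF) (hHH : S_HH) (hMEA : S_MEA) : S_DAT := by
  intro W hW hI n j p hP k hVI
  have := hW.prob
  obtain ⟨hnull, hopen, hord, -, hq, hqi, hle⟩ := hUNI W hW
  obtain ⟨⟨C, hC⟩, hh0, hhm, -, -, -, hT⟩ := hHH W hW n j p hP
  obtain ⟨hK, hVI1, hVI2⟩ := hVI
  obtain ⟨hw1, hw2⟩ := hq p ⟨hP.p0, hP.p1⟩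
  set w : ℝ := quant W p with hw
  have hkm : AEStronglyMeasurable k W := hMEA W hW k (Or.inr hK.anti)
  obtain ⟨hki, hkh, -⟩ := hT k hkm hK.sq
  have hspt : ∀ᵐ x ∂W, x ∈ spt W := by
    rw [ae_iff]
    exact hnull
  set E : ℝ := ∫ y, k y ∂W with hE
  have hvar : ∫ x, (k x - E) ^ 2 ∂W = ∫ x, k x * f n j (cdf W x) ∂W := by
    have h1 : ∫ x, k x * res W n j k x ∂W =
        (∫ x, k x * f n j (cdf W x) ∂W) - (∫ x, k x ^ 2 ∂W) + E * E := by
      have h2 : ∀ x, k x * res W n j k x = k x * f n j (cdf W x) - k x ^ 2 + E * k x := by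
        intro x
        unfold res
        rw [← hE]
        ring
      simp only [h2]
      have i1 : Integrable (fun x => k x * f n j (cdf W x) - k x ^ 2) W := hkh.sub hK.sq
      have i2 : Integrable (fun x => E * k x) W := hki.const_mul _
      rw [integral_add i1 i2, integral_sub hkh hK.sq, integral_const_mul]
    rw [hVI2] at h1
    have h3 : ∫ x, (k x - E) ^ 2 ∂W = (∫ x, k x ^ 2 ∂W) - E * E := by
      have h4 : ∀ x, (k x - E) ^ 2 = k x ^ 2 - (2 * E) * k x + E ^ 2 := fun x => by ring
      simp only [h4]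
      have i2 : Integrable (fun x => 2 * E * k x) W := hki.const_mul _
      have i1 : Integrable (fun x => k x ^ 2 - 2 * E * k x) W := hK.sq.sub i2
      rw [integral_add i1 (integrable_const _),
        integral_sub hK.sq i2, integral_const_mul, ← hE]
      simp
      ring
    linarith
  have hnn : 0 ≤ ∫ x, (k x - E) ^ 2 ∂W := integral_nonneg fun x => sq_nonneg _
  have hsdk : sdW W (fun x => -k x) = Real.sqrt (∫ x, k x * f n j (cdf W x) ∂W) := by
    unfold sdW
    rw [← hvar, integral_neg, ← hE]
    congr 1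
    apply integral_congr_ae
    refine Eventually.of_forall fun x => ?_
    simp only
    ring
  have hTk : T W n j p (fun x => -k x) = -∫ x, k x * f n j (cdf W x) ∂W := by
    unfold T
    rw [← hw]
    simp only
    rw [hK.zero w hw1 le_rfl, neg_zero, sub_zero, ← integral_neg]
    congr 1
    ext x
    ring
  refine ⟨?_, hsdk, hTk⟩
  rw [← hvar]
  refine lt_of_le_of_ne hnn fun h0 => ?_
  -- the variance vanishes
  have hsqi : Integrable (fun x => (k x - E) ^ 2) W := by
    have h1 : Integrable (fun x => k x ^ 2 - (2 * E) * k x + E ^ 2) W :=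
      (hK.sq.sub (hki.const_mul _)).add (integrable_const _)
    refine h1.congr (Eventually.of_forall fun x => ?_)
    simp only
    ring
  have hae := (integral_eq_zero_iff_of_nonneg (fun x => sq_nonneg (k x - E)) hsqi).1 h0.symm
  have hkE : ∀ᵐ x ∂W, k x = E := by
    filter_upwards [hae] with x hx
    have h1 : (k x - E) ^ 2 = 0 := hx
    have h2 := pow_eq_zero_iff (two_ne_zero) |>.1 h1
    linarith
  have hE0 : E = 0 := by
    by_contra hne
    have h1 : ∀ᵐ x ∂W, x ∈ Iic w := by
      filter_upwards [hkE, hspt] with x hx hxs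
      by_contra hcon
      simp only [mem_Iic, not_le] at hcon
      exact hne (by rw [← hx]; exact hK.zero x hxs hcon.le)
    have h2 : W (Iic w) = 1 := (mem_ae_iff_prob_eq_one measurableSet_Iic).1 h1
    have h3 : cdf W w = 1 := by
      rw [cdf_eq_real, Measure.real, h2]
      simp
    rw [hw2] at h3
    linarith [hP.p1]
  -- the test function
  have hsq' : Integrable (fun x => (max (w - x) 0) ^ 2) W := by
    have h : Integrable (fun x : ℝ => 2 * (min x 0) ^ 2 + 2 * w ^ 2) W :=
      (hI.const_mul 2).add (integrable_const _)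
    refine h.mono' (by fun_prop) ?_
    refine Eventually.of_forall fun x => ?_
    rw [Real.norm_of_nonneg (sq_nonneg _)]
    rcases le_total (w - x) 0 with h1 | h1
    · rw [max_eq_right h1]
      nlinarith [sq_nonneg (min x 0), sq_nonneg w]
    · rw [max_eq_left h1]
      rcases le_total x 0 with h2 | h2
      · rw [min_eq_left h2]
        nlinarith [sq_nonneg (w + x)]
      · rw [min_eq_right h2]
        nlinarith
  have hInK : InK W p (fun x => max (w - x) 0) := by
    refine ⟨?_, ?_, ?_, hsq'⟩
    · have h1 : ConvexOn ℝ (spt W) (fun x : ℝ => w - x) := by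
        refine ⟨hord.convex, ?_⟩
        intro x _ y _ a b _ _ hab
        simp only [smul_eq_mul]
        apply le_of_eq
        have : b = 1 - a := by linarith
        subst this
        ring
      have h2 : ConvexOn ℝ (spt W) (fun _ : ℝ => (0 : ℝ)) := convexOn_const 0 hord.convex
      exact h1.sup h2
    · intro x _ y _ hxy
      exact max_le_max (by linarith) le_rfl
    · intro x _ hx
      exact max_eq_right (by linarith)
  have h1 := hVI1 _ hInK
  have h2 : ∫ x, max (w - x) 0 * res W n j k x ∂W =
      ∫ x, max (w - x) 0 * f n j (cdf W x) ∂W := by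
    apply integral_congr_ae
    filter_upwards [hkE] with x hx
    unfold res
    rw [hx, ← hE]
    ring
  rw [h2] at h1
  obtain ⟨-, hti, -⟩ := hT (fun x => max (w - x) 0) (by fun_prop) hsq'
  have h3 : 0 < ∫ x, max (w - x) 0 * f n j (cdf W x) ∂W := by
    rw [integral_pos_iff_support_of_nonneg (fun x => mul_nonneg (le_max_right _ _) (hh0 x)) hti]
    obtain ⟨e, he, hb⟩ := Metric.isOpen_iff.1 hopen w hw1
    have ht' : w - e / 2 ∈ spt W := by
      refine hb ?_
      rw [Metric.mem_ball, Real.dist_eq, show w - e / 2 - w = -(e / 2) by ring, abs_neg,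
        abs_of_pos (by linarith)]
      linarith
    have hpos : 0 < W (Iic (w - e / 2)) := by
      have h4 := ht'.1
      rw [cdf_eq_real, Measure.real, ENNReal.toReal_pos_iff] at h4
      exact h4.1
    refine hpos.trans_le ?_
    have h5 : W (Iic (w - e / 2)) ≤ W (Iic (w - e / 2) ∩ spt W) := by
      have h6 : Iic (w - e / 2) ⊆ (Iic (w - e / 2) ∩ spt W) ∪ (spt W)ᶜ := by
        intro x hx
        by_cases hxs : x ∈ spt W
        · exact Or.inl ⟨hx, hxs⟩
        · exact Or.inr hxs
      refine (measure_mono h6).trans ((measure_union_le _ _).trans ?_)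
      rw [hnull, add_zero]
    refine h5.trans (measure_mono ?_)
    rintro x ⟨hx, hxs⟩
    simp only [mem_Iic] at hx
    rw [Function.mem_support]
    refine (mul_pos ?_ ?_).ne'
    · exact lt_max_of_lt_left (by linarith)
    · exact (hFF n j p hP).2.2.2.1 _ ⟨hxs.1, hxs.2⟩
  linarith

end Pool.Agent.T2H99.QB
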