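import Pool.Agent.T2H99.QB.Stm

/-!
# Package DFI: the distribution free lower bound
-/

open MeasureTheory ProbabilityTheory Set Filter Topology

noncomputable section

namespace Pool.Agent.T2H99.QB

namespace PkgDFI

/-- Cauchy-Schwarz -/
lemma cs {W : Measure ℝ} {a b : ℝ → ℝ} (ha : Integrable (fun x => a x ^ 2) W)
    (hb : Integrable (fun x => b x ^ 2) W) (hab : Integrable (fun x => a x * b x) W) :
    ∫ x, a x * b x ∂W ≤ Real.sqrt (∫ x, a x ^ 2 ∂W) * Real.sqrt (∫ x, b x ^ 2 ∂W) := by
  set A := ∫ x, a x ^ 2 ∂W with hA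
  set B := ∫ x, b x ^ 2 ∂W with hB
  set C := ∫ x, a x * b x ∂W with hC
  have hA0 : 0 ≤ A := integral_nonneg fun x => sq_nonneg _
  have hB0 : 0 ≤ B := integral_nonneg fun x => sq_nonneg _
  have key : ∀ s t : ℝ, 0 ≤ s ^ 2 * A - 2 * (s * t) * C + t ^ 2 * B := by
    intro s t
    have h1 : 0 ≤ ∫ x, (s * a x - t * b x) ^ 2 ∂W := integral_nonneg fun x => sq_nonneg _
    have h2 : ∫ x, (s * a x - t * b x) ^ 2 ∂W = s ^ 2 * A - 2 * (s * t) * C + t ^ 2 * B := by
      have h3 : (fun x => (s * a x - t * b x) ^ 2) =
          fun x => (s ^ 2 * a x ^ 2 - 2 * (s * t) * (a x * b x)) + t ^ 2 * b x ^ 2 := by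
        ext x; ring
      have i1 : Integrable (fun x => s ^ 2 * a x ^ 2) W := ha.const_mul _
      have i2 : Integrable (fun x => 2 * (s * t) * (a x * b x)) W := hab.const_mul _
      have i3 : Integrable (fun x => t ^ 2 * b x ^ 2) W := hb.const_mul _
      have i12 : Integrable (fun x => s ^ 2 * a x ^ 2 - 2 * (s * t) * (a x * b x)) W := i1.sub i2
      rw [h3, integral_add i12 i3, integral_sub i1 i2, integral_const_mul, integral_const_mul,
        integral_const_mul]
    linarith
  rcases eq_or_lt_of_le hA0 with h | h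
  · -- `A = 0`
    rw [← h, Real.sqrt_zero, zero_mul]
    by_contra hcon
    push Not at hcon
    have := key ((B + 1) / C) 1
    rw [← h] at this
    have h4 : (B + 1) / C * 1 * C = B + 1 := by field_simp
    nlinarith
  · rcases eq_or_lt_of_le hB0 with h' | h'
    · rw [← h', Real.sqrt_zero, mul_zero]
      by_contra hcon
      push Not at hcon
      have := key 1 ((A + 1) / C)
      rw [← h'] at this
      have h4 : 1 * ((A + 1) / C) * C = A + 1 := by field_simp
      nlinarith
    · have hα := Real.sqrt_pos.2 h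
      have hβ := Real.sqrt_pos.2 h'
      have hα2 := Real.sq_sqrt hA0
      have hβ2 := Real.sq_sqrt hB0
      have := key (Real.sqrt B) (Real.sqrt A)
      rw [hα2, hβ2] at this
      have h5 : 0 < Real.sqrt A * Real.sqrt B := mul_pos hα hβ
      have h6 : (Real.sqrt A * Real.sqrt B) * C ≤ (Real.sqrt A * Real.sqrt B) *
          (Real.sqrt A * Real.sqrt B) := by nlinarith
      exact le_of_mul_le_mul_left h6 h5

/-- integral of a piecewise continuous function -/
lemma split {A B C : ℝ → ℝ} (hA : Continuous A) (hB : Continuous B) (hC : Continuous C) {r p : ℝ}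
    (h0 : 0 ≤ r) (h1 : r ≤ p) (h2 : p ≤ 1) :
    ∫ u in (0 : ℝ)..1, (if u ≤ r then A u else if u ≤ p then B u else C u) =
      (∫ u in (0 : ℝ)..r, A u) + (∫ u in r..p, B u) + ∫ u in p..1, C u := by
  set F : ℝ → ℝ := fun u => if u ≤ r then A u else if u ≤ p then B u else C u with hF
  have e1 : EqOn A F (uIoc 0 r) := by
    intro u hu
    rw [uIoc_of_le h0] at hu
    simp only [hF, if_pos hu.2]
  have e2 : EqOn B F (uIoc r p) := by
    intro u hu
    rw [uIoc_of_le h1] at hu
    simp only [hF, if_neg (not_le.2 hu.1), if_pos hu.2]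
  have e3 : EqOn C F (uIoc p 1) := by
    intro u hu
    rw [uIoc_of_le h2] at hu
    simp only [hF, if_neg (not_le.2 (h1.trans_lt hu.1)), if_neg (not_le.2 hu.1)]
  have i1 : IntervalIntegrable F volume 0 r := (hA.intervalIntegrable 0 r).congr e1
  have i2 : IntervalIntegrable F volume r p := (hB.intervalIntegrable r p).congr e2
  have i3 : IntervalIntegrable F volume p 1 := (hC.intervalIntegrable p 1).congr e3
  have s1 : ∫ u in (0 : ℝ)..r, A u = ∫ u in (0 : ℝ)..r, F u :=
    intervalIntegral.integral_congr_ae (Eventually.of_forall fun u hu => e1 hu)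
  have s2 : ∫ u in r..p, B u = ∫ u in r..p, F u :=
    intervalIntegral.integral_congr_ae (Eventually.of_forall fun u hu => e2 hu)
  have s3 : ∫ u in p..1, C u = ∫ u in p..1, F u :=
    intervalIntegral.integral_congr_ae (Eventually.of_forall fun u hu => e3 hu)
  rw [s1, s2, s3, intervalIntegral.integral_add_adjacent_intervals i1 i2,
    intervalIntegral.integral_add_adjacent_intervals (i1.trans i2) i3]

end PkgDFI

open PkgDFI in
theorem pDFI (hUNI : S_UNI) (hFF : S_FF) (hHH : S_HH) (hMEA : S_MEA) (hCON : S_CON)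
    (hSST : S_SST) (hBET : S_BET) : S_DFI := by
  intro W hW n j p hP s hs0 hs1 hsG g hg hg2
  have hprob := hW.prob
  obtain ⟨U0, -, -, -, Uq, -, Uiff⟩ := hUNI W hW
  obtain ⟨-, fc, fnn, -, fanti, fmono, G0, G1, f1, Gmono, m0, m1⟩ := hFF n j p hP
  obtain ⟨⟨Cf, hCf⟩, h0, hmeas, hφ, -, -, hint⟩ := hHH W hW n j p hP
  obtain ⟨-, hGint⟩ := hBET n j hP.j1 hP.jn
  obtain ⟨s', -, huniq, hGle, -⟩ := hSST n j p hP
  have hss : s = s' := huniq s ⟨hs0, hs1.le⟩ hsG
  subst hss
  set m : ℝ := ((j : ℝ) - 1) / ((n : ℝ) - 1) with hm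
  have hp0 := hP.p0
  have hp1 := hP.p1
  have hmp : m ≤ p := hP.mp
  set r : ℝ := min s p with hr
  have hr0 : 0 ≤ r := le_min (m0.trans hs0) hp0.le
  have hrs : r ≤ s := min_le_left _ _
  have hrp : r ≤ p := min_le_right _ _
  have hmr : m ≤ r := le_min hs0 hmp
  set w := quant W p with hw
  obtain ⟨hws, hwp⟩ := Uq p ⟨hp0, hp1⟩
  -- constants
  set c : ℝ := G n j p / (1 - p) with hc
  have h1p : 0 < 1 - p := by linarith
  have hcp : G n j p = c * (1 - p) := by rw [hc]; field_simp
  set c0 : ℝ := G n j r / r with hc0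
  have hc0r : r * c0 = G n j r := by
    rcases eq_or_lt_of_le hr0 with h | h
    · rw [← h, G0]; ring
    · rw [hc0]; field_simp
  have hGr : ∫ u in (0 : ℝ)..r, f n j u = G n j r := (hGint r).symm
  have hGrp : ∫ u in r..p, f n j u = G n j p - G n j r := by
    rw [hGint p, hGint r]
    exact (intervalIntegral.integral_interval_sub_left (fc.intervalIntegrable _ _)
      (fc.intervalIntegrable _ _)).symm
  -- the functions
  set k : ℝ → ℝ := fun x => max (g w - g x) 0 with hk
  set φ : ℝ → ℝ := fun u => if u ≤ r then c0 + c else if u ≤ p then f n j u + c else 0 with hφd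
  set q : ℝ → ℝ := fun x => φ (cdf W x) with hq
  have hgm : AEStronglyMeasurable g W := hMEA W hW g (Or.inl hg)
  have hkm : AEStronglyMeasurable k W :=
    (aestronglyMeasurable_const.sub hgm).sup aestronglyMeasurable_const
  have hcon : ∀ x ∈ spt W, ∀ y ∈ spt W, |k x - k y| ≤ |g x - g y| := by
    intro x _ y _
    refine (abs_max_sub_max_le_abs _ _ _).trans ?_
    rw [show g w - g x - (g w - g y) = -(g x - g y) by ring, abs_neg]
  obtain ⟨hk2, hsd⟩ := hCON W hW g k hgm hkm hg2 hcon
  obtain ⟨hk1, hkh, -⟩ := hint k hkm hk2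
  obtain ⟨hg1, hgh, hT⟩ := hint g hgm hg2
  have hspt : ∀ᵐ x ∂W, x ∈ spt W := by
    rw [ae_iff]
    exact U0
  have hφm : Measurable φ := by
    have := fc.measurable
    exact Measurable.ite measurableSet_Iic measurable_const
      (Measurable.ite measurableSet_Iic (this.add_const c) measurable_const)
  have hqm : Measurable q := hφm.comp (cdf W).mono.measurable
  -- pointwise facts
  have hk0 : ∀ x ∈ spt W, p < cdf W x → k x = 0 := by
    intro x hx hpx
    have h1 : w ≤ x := (Uiff w hws x hx).1 (by rw [hwp]; exact hpx.le)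
    have h2 := hg hws hx h1
    exact max_eq_right (by linarith)
  have hkanti : ∀ x ∈ spt W, ∀ y ∈ spt W, cdf W x ≤ cdf W y → k y ≤ k x := by
    intro x hx y hy hxy
    have h2 := hg hx hy ((Uiff x hx y hy).1 hxy)
    exact max_le_max (by linarith) le_rfl
  -- integrability
  have hCf0 : 0 ≤ Cf := (abs_nonneg _).trans (hCf 0)
  have hqb : ∀ x, |q x| ≤ |c0| + |c| + Cf := by
    intro x
    simp only [hq, hφd]
    split_ifs
    · have := abs_add_le c0 c
      linarith
    · have h1 := abs_add_le (f n j (cdf W x)) c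
      have h2 := hCf x
      have h3 := abs_nonneg c0
      linarith
    · rw [abs_zero]
      positivity
  have ih : Integrable (fun x => f n j (cdf W x)) W :=
    (integrable_const Cf).mono' hmeas.aestronglyMeasurable (Eventually.of_forall fun x => by
      rw [Real.norm_eq_abs]; exact hCf x)
  have iq : Integrable q W :=
    (integrable_const (|c0| + |c| + Cf)).mono' hqm.aestronglyMeasurable
      (Eventually.of_forall fun x => by rw [Real.norm_eq_abs]; exact hqb x)
  have iq2 : Integrable (fun x => q x ^ 2) W := by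
    refine (integrable_const ((|c0| + |c| + Cf) ^ 2)).mono' (hqm.pow_const 2).aestronglyMeasurable
      (Eventually.of_forall fun x => ?_)
    rw [Real.norm_eq_abs, abs_pow]
    exact pow_le_pow_left₀ (abs_nonneg _) (hqb x) 2
  have ikq : Integrable (fun x => k x * q x) W := by
    refine (hk1.norm.mul_const (|c0| + |c| + Cf)).mono' (hkm.mul hqm.aestronglyMeasurable)
      (Eventually.of_forall fun x => ?_)
    rw [norm_mul]
    exact mul_le_mul_of_nonneg_left (hqb x) (norm_nonneg _)
  -- the integrals of `q`
  have hEq : ∫ x, q x ∂W = c := by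
    have h1 := hφ φ hφm
    have h2 := split (A := fun _ => c0 + c) (B := fun u => f n j u + c) (C := fun _ => 0)
      continuous_const (fc.add continuous_const) continuous_const hr0 hrp hp1.le
    simp only [hq]
    rw [h1]
    refine h2.trans ?_
    rw [intervalIntegral.integral_const, intervalIntegral.integral_add (fc.intervalIntegrable _ _)
      (by simp), hGrp, intervalIntegral.integral_const, intervalIntegral.integral_const]
    simp only [smul_eq_mul]
    linear_combination hc0r + hcp
  have hEq2 : ∫ x, q x ^ 2 ∂W = r * c0 ^ 2 + (∫ u in r..p, f n j u ^ 2) + 2 * c * G n j p + c ^ 2 * p := by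
    have h1 := hφ (fun u => φ u ^ 2) (hφm.pow_const 2)
    have h2 := split (A := fun _ => (c0 + c) ^ 2) (B := fun u => (f n j u + c) ^ 2) (C := fun _ => 0)
      continuous_const ((fc.add continuous_const).pow 2) continuous_const hr0 hrp hp1.le
    have h3 : ∀ u : ℝ, φ u ^ 2 = if u ≤ r then (c0 + c) ^ 2 else if u ≤ p then (f n j u + c) ^ 2 else 0 := by
      intro u
      simp only [hφd]
      split_ifs <;> simp
    have h4 : ∫ u in r..p, (f n j u + c) ^ 2 = (∫ u in r..p, f n j u ^ 2) +
        (2 * c * (G n j p - G n j r) + c ^ 2 * (p - r)) := by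
      have e1 : ∀ u : ℝ, (f n j u + c) ^ 2 = f n j u ^ 2 + (2 * c * f n j u + c ^ 2) := fun u => by ring
      simp only [e1]
      rw [intervalIntegral.integral_add ((by fun_prop : Continuous fun u => f n j u ^ 2).intervalIntegrable _ _)
        ((by fun_prop : Continuous fun u => 2 * c * f n j u + c ^ 2).intervalIntegrable _ _),
        intervalIntegral.integral_add ((by fun_prop : Continuous fun u => 2 * c * f n j u).intervalIntegrable _ _)
        (by simp), intervalIntegral.integral_const_mul, hGrp, intervalIntegral.integral_const]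
      simp only [smul_eq_mul]
      ring
    simp only [hq]
    rw [h1]
    simp only [h3]
    refine h2.trans ?_
    rw [intervalIntegral.integral_const, h4, intervalIntegral.integral_const]
    simp only [smul_eq_mul]
    linear_combination 2 * c * hc0r
  have hsdq : Real.sqrt (∫ x, (q x - c) ^ 2 ∂W) = Binf n j p s := by
    have h1 : ∫ x, (q x - c) ^ 2 ∂W = (∫ x, q x ^ 2 ∂W) - c ^ 2 := by
      have e1 : ∀ x : ℝ, (q x - c) ^ 2 = q x ^ 2 - (2 * c * q x - c ^ 2) := fun x => by ring
      simp only [e1]
      have i1 : Integrable (fun x => 2 * c * q x - c ^ 2) W := (iq.const_mul _).sub (integrable_const _)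
      rw [integral_sub iq2 i1, integral_sub (iq.const_mul _) (integrable_const _),
        integral_const_mul, hEq, integral_const]
      simp
      ring
    unfold Binf
    rw [h1, hEq2, ← hr]
    congr 1
    have e2 : G n j r ^ 2 / r = r * c0 ^ 2 := by
      rcases eq_or_lt_of_le hr0 with h | h
      · rw [← h]; simp
      · rw [← hc0r]; field_simp
    have e3 : G n j p ^ 2 / (1 - p) = c ^ 2 * (1 - p) := by
      rw [hcp]; field_simp
    rw [e2, e3]
    linear_combination 2 * c * hcp
  -- comparison on `U ≤ r`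
  obtain ⟨κ, hκ⟩ : ∃ κ : ℝ, ∀ x ∈ spt W, cdf W x ≤ r →
      k x * (f n j (cdf W x) - c0) ≤ κ * (f n j (cdf W x) - c0) := by
    rcases eq_or_lt_of_le hr0 with h | h
    · refine ⟨0, fun x hx hxr => ?_⟩
      exact absurd (hx.1) (not_lt.2 (by rw [h]; exact hxr))
    · have hj2 : j - 1 ≠ 0 := by
        intro hj
        have hj1 : j = 1 := by have := hP.j1; omega
        have hm0 : m = 0 := by rw [hm, hj1]; simp
        have := huniq 0 ⟨by rw [hm0], zero_le_one⟩ (by rw [zero_mul, G0])
        linarith
      have hf0 : f n j 0 = 0 := by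
        unfold f
        rw [zero_pow hj2]
        ring
      have hr1 : r ≤ 1 := hrp.trans hp1.le
      have hc0pos : 0 < c0 := by
        have h2 := Gmono ⟨le_rfl, zero_le_one⟩ ⟨hr0, hr1⟩ h
        rw [G0] at h2
        exact div_pos h2 h
      have hc0r' : c0 ≤ f n j r := by
        rw [hc0, div_le_iff₀ h, mul_comm]
        exact hGle r ⟨hr0, hrs⟩
      have hfm : f n j r ≤ f n j m := fanti.antitoneOn ⟨le_rfl, m1.le⟩ ⟨hmr, hr1⟩ hmr
      obtain ⟨u0, hu0, hfu0⟩ := intermediate_value_Icc m0 fc.continuousOn
        (show c0 ∈ Icc (f n j 0) (f n j m) from ⟨by rw [hf0]; exact hc0pos.le, hc0r'.trans hfm⟩)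
      have hu00 : 0 < u0 := by
        rcases eq_or_lt_of_le hu0.1 with h2 | h2
        · rw [← h2, hf0] at hfu0
          linarith
        · exact h2
      obtain ⟨hx0, hUx0⟩ := Uq u0 ⟨hu00, hu0.2.trans_lt m1⟩
      refine ⟨k (quant W u0), fun x hx hxr => ?_⟩
      have hx1 := hx.1
      rcases le_total (cdf W x) u0 with h2 | h2
      · have h3 : f n j (cdf W x) ≤ c0 := by
          rw [← hfu0]
          exact fmono ⟨hx1.le, h2.trans hu0.2⟩ hu0 h2
        have h4 := hkanti x hx _ hx0 (by rw [hUx0]; exact h2)
        nlinarith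
      · have h3 : c0 ≤ f n j (cdf W x) := by
          rcases le_total (cdf W x) m with h5 | h5
          · rw [← hfu0]
            exact fmono hu0 ⟨hx1.le, h5⟩ h2
          · exact hc0r'.trans (fanti.antitoneOn ⟨h5, hx.2.le⟩ ⟨hmr, hr1⟩ hxr)
        have h4 := hkanti _ hx0 x hx (by rw [hUx0]; exact h2)
        nlinarith
  set ψ : ℝ → ℝ := fun u => if u ≤ r then f n j u - c0 else if u ≤ p then 0 else 0 with hψ
  have hψm : Measurable ψ := by
    have := fc.measurable
    exact Measurable.ite measurableSet_Iic (this.sub_const c0)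
      (Measurable.ite measurableSet_Iic measurable_const measurable_const)
  have hEψ : ∫ x, ψ (cdf W x) ∂W = 0 := by
    rw [hφ ψ hψm]
    have h2 := split (A := fun u => f n j u - c0) (B := fun _ => 0) (C := fun _ => 0)
      (fc.sub continuous_const) continuous_const continuous_const hr0 hrp hp1.le
    refine h2.trans ?_
    rw [intervalIntegral.integral_sub (fc.intervalIntegrable _ _) (by simp), hGr,
      intervalIntegral.integral_const, intervalIntegral.integral_const, intervalIntegral.integral_const]
    simp only [smul_eq_mul]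
    linear_combination -hc0r
  have iψ : Integrable (fun x => ψ (cdf W x)) W := by
    refine (integrable_const (Cf + |c0|)).mono' (hψm.comp (cdf W).mono.measurable).aestronglyMeasurable
      (Eventually.of_forall fun x => ?_)
    rw [Real.norm_eq_abs]
    simp only [hψ]
    split_ifs
    · have h1 := abs_sub (f n j (cdf W x)) c0
      have h2 := hCf x
      linarith
    · rw [abs_zero]; positivity
    · rw [abs_zero]; positivity
  have hpt : ∀ x ∈ spt W, k x * f n j (cdf W x) - k x * (q x - c) ≤ κ * ψ (cdf W x) := by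
    intro x hx
    rcases le_or_gt (cdf W x) r with h1 | h1
    · have h2 := hκ x hx h1
      simp only [hq, hφd, hψ, if_pos h1]
      linarith
    · rcases le_or_gt (cdf W x) p with h3 | h3
      · simp only [hq, hφd, hψ, if_neg (not_le.2 h1), if_pos h3]
        linarith
      · rw [hk0 x hx h3]
        simp only [hψ, if_neg (not_le.2 h1), if_neg (not_le.2 h3)]
        linarith
  have ikqc : Integrable (fun x => k x * (q x - c)) W := by
    refine (ikq.sub (hk1.const_mul c)).congr (Eventually.of_forall fun x => ?_)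
    simp only [Pi.sub_apply]
    ring
  have hstep2 : ∫ x, k x * f n j (cdf W x) ∂W ≤ ∫ x, k x * (q x - c) ∂W := by
    have h1 : ∫ x, (k x * f n j (cdf W x) - k x * (q x - c)) ∂W ≤ ∫ x, κ * ψ (cdf W x) ∂W := by
      refine integral_mono_ae (hkh.sub ikqc) (iψ.const_mul κ) ?_
      filter_upwards [hspt] with x hx
      exact hpt x hx
    rw [integral_sub hkh ikqc, integral_const_mul, hEψ, mul_zero] at h1
    linarith
  -- Cauchy-Schwarz
  set K := ∫ x, k x ∂W with hK
  have iqc : Integrable (fun x => q x - c) W := iq.sub (integrable_const _)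
  have hqc0 : ∫ x, (q x - c) ∂W = 0 := by
    rw [integral_sub iq (integrable_const _), hEq, integral_const]
    simp
  have iKqc : Integrable (fun x => (k x - K) * (q x - c)) W := by
    refine (ikqc.sub (iqc.const_mul K)).congr (Eventually.of_forall fun x => ?_)
    simp only [Pi.sub_apply]
    ring
  have hcov : ∫ x, k x * (q x - c) ∂W = ∫ x, (k x - K) * (q x - c) ∂W := by
    have e1 : ∀ x : ℝ, (k x - K) * (q x - c) = k x * (q x - c) - K * (q x - c) := fun x => by ring
    simp only [e1]
    rw [integral_sub ikqc (iqc.const_mul K), integral_const_mul, hqc0]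
    ring
  have ikK : Integrable (fun x => (k x - K) ^ 2) W := by
    refine ((hk2.sub (hk1.const_mul (2 * K))).add (integrable_const (K ^ 2))).congr
      (Eventually.of_forall fun x => ?_)
    simp only [Pi.sub_apply, Pi.add_apply]
    ring
  have iqK : Integrable (fun x => (q x - c) ^ 2) W := by
    refine ((iq2.sub (iq.const_mul (2 * c))).add (integrable_const (c ^ 2))).congr
      (Eventually.of_forall fun x => ?_)
    simp only [Pi.sub_apply, Pi.add_apply]
    ring
  have hcs := cs ikK iqK iKqc
  rw [hsdq] at hcs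
  -- the first step
  have hstep1 : -(T W n j p g) ≤ ∫ x, k x * f n j (cdf W x) ∂W := by
    rw [hT, ← integral_neg]
    refine integral_mono_ae ?_ hkh (Eventually.of_forall fun x => ?_)
    · refine ((ih.const_mul (g w)).sub hgh).congr (Eventually.of_forall fun x => ?_)
      simp only [Pi.sub_apply]
      ring
    · have h1 := h0 x
      have h2 : g w - g x ≤ k x := le_max_left _ _
      calc -((g x - g w) * f n j (cdf W x)) = (g w - g x) * f n j (cdf W x) := by ring
        _ ≤ _ := mul_le_mul_of_nonneg_right h2 h1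
  have hB : 0 ≤ Binf n j p s := by unfold Binf; exact Real.sqrt_nonneg _
  calc -(T W n j p g) ≤ ∫ x, k x * f n j (cdf W x) ∂W := hstep1
    _ ≤ ∫ x, k x * (q x - c) ∂W := hstep2
    _ = ∫ x, (k x - K) * (q x - c) ∂W := hcov
    _ ≤ sdW W k * Binf n j p s := hcs
    _ = Binf n j p s * sdW W k := mul_comm _ _
    _ ≤ Binf n j p s * sdW W g := mul_le_mul_of_nonneg_left hsd hB

end Pool.Agent.T2H99.QB

end
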