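import Pool.Agent.T2H99.QB.H35

set_option autoImplicit false

open MeasureTheory ProbabilityTheory Set Filter Topology

noncomputable section

namespace Pool.Agent.T2H99.QB

namespace DFSx

open H35

/-- the chain of inequalities behind the distribution free upper bound -/
theorem chain (hUNI : S_UNI) (hFF : S_FF) (hHH : S_HH) (hMEA : S_MEA) (hCON : S_CON)
    {W : Measure ℝ} (hW : Ref W) {n j : ℕ} {p : ℝ} (hp : Par n j p) {g : ℝ → ℝ}
    (hmono : MonotoneOn g (spt W)) (hsq : Integrable (fun x => g x ^ 2) W) :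
    ∃ (A R : ℝ) (ψ : ℝ → ℝ), (∀ x, ψ x = max (g x - g (quant W p)) 0) ∧ 0 ≤ A ∧ 0 ≤ R ∧
      T W n j p g ≤ (1 - G n j p) / (1 - p) * A ∧ A ^ 2 * p / (1 - p) + R ≤ sdW W g ^ 2 ∧
      R = ∫ x in Ioi (quant W p), (ψ x - A / (1 - p)) ^ 2 ∂W ∧
      IntegrableOn (fun x => (ψ x - A / (1 - p)) ^ 2) (Ioi (quant W p)) W := by
  have := hW.prob
  have Lg : L2 W g := ⟨hMEA W hW g (Or.inl hmono), hsq⟩
  have Lh := L2h hHH hW hp
  obtain ⟨hw, hwp⟩ := w_mem hUNI hW hp
  obtain ⟨-, hopen, hOC, -, hquant, hquant2, hle⟩ := hUNI W hW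
  obtain ⟨hjn, hfc, hf0, hfpos, hfanti, hfmono, hG0, hG1, hf1, hGmono, hm0, hm1⟩ := hFF n j p hp
  set w := quant W p with hwdef
  set v := g w with hv
  have hp0 := hp.p0
  have hp1 := hp.p1
  have h1p : 0 < 1 - p := by linarith
  set ψ : ℝ → ℝ := fun x => max (g x - v) 0 with hψ
  have hψ0 : ∀ x, 0 ≤ ψ x := fun x => le_max_right _ _
  have hψmono : MonotoneOn ψ (spt W) := by
    intro x hx y hy hxy
    exact max_le_max (by linarith [hmono hx hy hxy]) le_rfl
  have hcontr : ∀ x ∈ spt W, ∀ y ∈ spt W, |ψ x - ψ y| ≤ |g x - g y| := by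
    intro x _ y _
    simp only [hψ]
    rcases le_total (g x) v with h | h <;> rcases le_total (g y) v with h' | h'
    · rw [max_eq_right (by linarith), max_eq_right (by linarith)]; simp
    · rw [max_eq_right (by linarith), max_eq_left (by linarith), abs_le]
      constructor <;> cases abs_cases (g x - g y) <;> linarith
    · rw [max_eq_left (by linarith), max_eq_right (by linarith), abs_le]
      constructor <;> cases abs_cases (g x - g y) <;> linarith
    · rw [max_eq_left (by linarith), max_eq_left (by linarith)]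
      apply le_of_eq
      congr 1
      ring
  have hmeas1 : AEStronglyMeasurable ψ W := hMEA W hW ψ (Or.inl hψmono)
  obtain ⟨hsq1, hsd1⟩ := hCON W hW g ψ Lg.m hmeas1 hsq hcontr
  have L1 : L2 W ψ := ⟨hmeas1, hsq1⟩
  obtain ⟨-, hh0, -, -, htot, hIic, hT⟩ := hHH W hW n j p hp
  obtain ⟨-, -, hTg⟩ := hT g Lg.m hsq
  -- zero on the left
  have hψz : ∀ x ∈ spt W, x ≤ w → ψ x = 0 := by
    intro x hx hxw
    simp only [hψ]
    rw [max_eq_right]
    linarith [hmono hx hw hxw]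
  set A := ∫ x, ψ x ∂W with hA
  have hA0 : 0 ≤ A := integral_nonneg hψ0
  have hIoi : ∀ F : ℝ → ℝ, Integrable F W → (∀ x ∈ spt W, x ≤ w → F x = 0) →
      ∫ x in Ioi w, F x ∂W = ∫ x, F x ∂W := by
    intro F hF hz
    apply setIntegral_eq_integral_of_ae_compl_eq_zero
    filter_upwards [ae_spt hUNI hW] with x hx hxw
    exact hz x hx (not_lt.1 hxw)
  have hAw : ∫ x in Ioi w, ψ x ∂W = A := hIoi ψ L1.int hψz
  set H := (1 - G n j p) / (1 - p) with hH
  have hGp : G n j p < 1 := by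
    rw [← hG1]
    exact hGmono ⟨hp0.le, hp1.le⟩ ⟨zero_le_one, le_rfl⟩ hp1
  have hHpos : 0 < H := div_pos (by linarith) h1p
  have hreal : W.real (Ioi w) = 1 - p := by rw [real_Ioi hW, hwp]
  have hhw : ∫ x in Ioi w, f n j (cdf W x) ∂W = 1 - G n j p := by
    have h1 := integral_add_compl (μ := W) (f := fun x => f n j (cdf W x)) (measurableSet_Iic (a := w)) Lh.int
    rw [compl_Iic, hIic w, hwp, htot] at h1
    linarith
  -- the threshold
  have hHf : H ≤ f n j p := by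
    rw [hH, div_le_iff₀ h1p, ← hhw]
    have h1 : ∫ x in Ioi w, f n j (cdf W x) ∂W ≤ ∫ x in Ioi w, f n j p ∂W := by
      apply integral_mono_ae Lh.int.integrableOn (integrable_const _)
      filter_upwards [ae_restrict_of_ae (ae_spt hUNI hW), ae_restrict_mem measurableSet_Ioi] with x hx hxw
      have h2 : p ≤ cdf W x := by rw [← hwp]; exact monotone_cdf W (le_of_lt hxw)
      exact hfanti.antitoneOn ⟨hp.mp, hp1.le⟩ ⟨hp.mp.trans h2, hx.2.le⟩ h2
    rw [setIntegral_const, hreal, smul_eq_mul] at h1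
    linarith
  obtain ⟨u0, hu0, hfu0⟩ : ∃ u ∈ Icc p 1, f n j u = H := by
    have h1 := intermediate_value_Icc' hp1.le (hfc.continuousOn (s := Icc p 1))
    have h2 : H ∈ Icc (f n j 1) (f n j p) := ⟨by rw [hf1]; exact hHpos.le, hHf⟩
    exact h1 h2
  have hu1 : u0 < 1 := by
    rcases lt_or_eq_of_le hu0.2 with h | h
    · exact h
    · rw [h, hf1] at hfu0
      linarith
  have hu00 : 0 < u0 := by linarith [hu0.1]
  obtain ⟨hx0, hx0c⟩ := hquant u0 ⟨hu00, hu1⟩
  set x0 := quant W u0 with hx0def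
  have hcheb : ∀ x ∈ spt W, w < x → (ψ x - ψ x0) * (f n j (cdf W x) - H) ≤ 0 := by
    intro x hx hwx
    have h2 : p ≤ cdf W x := by rw [← hwp]; exact monotone_cdf W (le_of_lt hwx)
    rcases le_total x x0 with h | h
    · have h3 : ψ x ≤ ψ x0 := hψmono hx hx0 h
      have h4 : H ≤ f n j (cdf W x) := by
        rw [← hfu0]
        apply hfanti.antitoneOn ⟨hp.mp.trans h2, hx.2.le⟩ ⟨hp.mp.trans hu0.1, hu1.le⟩
        rw [← hx0c]
        exact monotone_cdf W h
      exact mul_nonpos_of_nonpos_of_nonneg (by linarith) (by linarith)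
    · have h3 : ψ x0 ≤ ψ x := hψmono hx0 hx h
      have h4 : f n j (cdf W x) ≤ H := by
        rw [← hfu0]
        apply hfanti.antitoneOn ⟨hp.mp.trans hu0.1, hu1.le⟩ ⟨hp.mp.trans h2, hx.2.le⟩
        rw [← hx0c]
        exact monotone_cdf W h
      exact mul_nonpos_of_nonneg_of_nonpos (by linarith) (by linarith)
  have Lψh : Integrable (fun x => ψ x * f n j (cdf W x)) W := L1.mul Lh
  have hcheb2 : ∫ x in Ioi w, ψ x * f n j (cdf W x) ∂W ≤ H * A := by
    have j1 : IntegrableOn (fun x => ψ x * f n j (cdf W x)) (Ioi w) W := Lψh.integrableOn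
    have j2 : IntegrableOn (fun x => H * ψ x) (Ioi w) W := (L1.int.const_mul H).integrableOn
    have j3 : IntegrableOn (fun x => ψ x0 * f n j (cdf W x)) (Ioi w) W := (Lh.int.const_mul _).integrableOn
    have j4 : IntegrableOn (fun x => ψ x * f n j (cdf W x) - H * ψ x) (Ioi w) W := j1.sub j2
    have j5 : IntegrableOn (fun x => ψ x * f n j (cdf W x) - H * ψ x - ψ x0 * f n j (cdf W x)) (Ioi w) W :=
      j4.sub j3
    have h1 : ∫ x in Ioi w, (ψ x * f n j (cdf W x) - H * ψ x - ψ x0 * f n j (cdf W x) + ψ x0 * H) ∂W ≤ 0 := by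
      apply integral_nonpos_of_ae
      filter_upwards [ae_restrict_of_ae (ae_spt hUNI hW), ae_restrict_mem measurableSet_Ioi] with x hx hxw
      have := hcheb x hx hxw
      simp only [Pi.zero_apply]
      linarith
    rw [integral_add j5 (integrable_const _), integral_sub j4 j3, integral_sub j1 j2,
      integral_const_mul, integral_const_mul, hAw, hhw, setIntegral_const, hreal, smul_eq_mul] at h1
    have h2 : (1 - p) * (ψ x0 * H) = ψ x0 * (1 - G n j p) := by
      rw [hH]; field_simp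
    linarith
  have hTle : T W n j p g ≤ H * A := by
    rw [hTg]
    have i1 : Integrable (fun x => (g x - g w) * f n j (cdf W x)) W := (Lg.sub (L2.const _)).mul Lh
    have h1 : ∫ x, (g x - g w) * f n j (cdf W x) ∂W ≤ ∫ x, ψ x * f n j (cdf W x) ∂W := by
      apply integral_mono i1 Lψh
      intro x
      exact mul_le_mul_of_nonneg_right (le_max_left _ _) (hh0 x)
    rw [← hIoi _ Lψh (fun x hx hxw => by rw [hψz x hx hxw, zero_mul])] at h1
    linarith
  have j1 : IntegrableOn (fun x => ψ x ^ 2) (Ioi w) W := hsq1.integrableOn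
  have j2 : IntegrableOn (fun x => 2 * (A / (1 - p)) * ψ x) (Ioi w) W := (L1.int.const_mul _).integrableOn
  have j3 : IntegrableOn (fun x => ψ x ^ 2 - 2 * (A / (1 - p)) * ψ x) (Ioi w) W := j1.sub j2
  have hRfun : ∀ x, (ψ x - A / (1 - p)) ^ 2 = ψ x ^ 2 - 2 * (A / (1 - p)) * ψ x + (A / (1 - p)) ^ 2 :=
    fun x => by ring
  have hRval : ∫ x in Ioi w, (ψ x - A / (1 - p)) ^ 2 ∂W = (∫ x, ψ x ^ 2 ∂W) - A ^ 2 / (1 - p) := by
    simp_rw [hRfun]
    rw [integral_add j3 (integrable_const _), integral_sub j1 j2, integral_const_mul, hAw,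
      hIoi _ hsq1 (fun x hx hxw => by rw [hψz x hx hxw]; ring), setIntegral_const, hreal, smul_eq_mul]
    field_simp
    ring
  refine ⟨A, ∫ x in Ioi w, (ψ x - A / (1 - p)) ^ 2 ∂W, ψ, fun x => rfl, hA0,
    integral_nonneg fun _ => sq_nonneg _, hTle, ?_, rfl, ?_⟩
  · have h1 : sdW W ψ ^ 2 ≤ sdW W g ^ 2 := pow_le_pow_left₀ (sd_nonneg _) hsd1 2
    rw [sd_sq_eq L1, ← hA] at h1
    rw [hRval]
    have h2 : A ^ 2 * p / (1 - p) + ((∫ x, ψ x ^ 2 ∂W) - A ^ 2 / (1 - p)) = (∫ x, ψ x ^ 2 ∂W) - A ^ 2 := by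
      field_simp
      ring
    rw [h2]
    exact h1
  · simp_rw [hRfun]
    exact j3.add (integrable_const _)

end DFSx

open H35 DFSx in
theorem pDFS (hUNI : S_UNI) (hFF : S_FF) (hHH : S_HH) (hMEA : S_MEA) (hCON : S_CON) : S_DFS := by
  intro W hW n j p hp g hmono hsq
  obtain ⟨A, R, ψ, -, hA0, hR0, hT, hV, -, -⟩ := chain hUNI hFF hHH hMEA hCON hW hp hmono hsq
  obtain ⟨-, -, -, -, -, -, -, hG1, -, hGmono, -, -⟩ := hFF n j p hp
  have hp0 := hp.p0
  have hp1 := hp.p1
  have h1p : 0 < 1 - p := by linarith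
  have hGp : G n j p < 1 := by
    rw [← hG1]
    exact hGmono ⟨hp0.le, hp1.le⟩ ⟨zero_le_one, le_rfl⟩ hp1
  refine hT.trans ?_
  unfold Bsup
  have hs : 0 < Real.sqrt (p * (1 - p)) := Real.sqrt_pos.2 (by positivity)
  have hss : Real.sqrt (p * (1 - p)) ^ 2 = p * (1 - p) := Real.sq_sqrt (by positivity)
  have h2 : A * Real.sqrt (p * (1 - p)) ≤ (1 - p) * sdW W g := by
    refine (abs_le_of_sq_le_sq' ?_ (mul_nonneg h1p.le (sd_nonneg _))).2
    rw [mul_pow, mul_pow, hss]
    have h3 : A ^ 2 * p / (1 - p) ≤ sdW W g ^ 2 := by linarith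
    rw [div_le_iff₀ h1p] at h3
    calc A ^ 2 * (p * (1 - p)) = (A ^ 2 * p) * (1 - p) := by ring
      _ ≤ (sdW W g ^ 2 * (1 - p)) * (1 - p) := mul_le_mul_of_nonneg_right h3 h1p.le
      _ = _ := by ring
  rw [div_mul_eq_mul_div, div_mul_eq_mul_div, div_le_div_iff₀ h1p hs]
  have h4 : 0 ≤ 1 - G n j p := by linarith
  calc (1 - G n j p) * A * Real.sqrt (p * (1 - p)) = (1 - G n j p) * (A * Real.sqrt (p * (1 - p))) := by ring
    _ ≤ (1 - G n j p) * ((1 - p) * sdW W g) := mul_le_mul_of_nonneg_left h2 h4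
    _ = _ := by ring

end Pool.Agent.T2H99.QB
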