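import Pool.Agent.T2H99.QB.H35

set_option autoImplicit false

open MeasureTheory ProbabilityTheory Set Filter Topology

noncomputable section

namespace Pool.Agent.T2H99.QB

open H35 in
theorem pDUN (hUNI : S_UNI) (hHH : S_HH) (hMEA : S_MEA) : S_DUN := by
  intro W hW n j p hp k k' hk hk'
  have := hW.prob
  obtain ⟨hk1, hk2, hk3⟩ := hk
  obtain ⟨hk1', hk2', hk3'⟩ := hk'
  have L : L2 W k := ⟨hMEA W hW k (Or.inr hk1.anti), hk1.sq⟩
  have L' : L2 W k' := ⟨hMEA W hW k' (Or.inr hk1'.anti), hk1'.sq⟩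
  have Lh := L2h hHH hW hp
  have e1 := hk2 k' hk1'
  have e2 := hk2' k hk1
  rw [resint hW L' L Lh] at e1
  rw [resint hW L L' Lh] at e2
  rw [resint hW L L Lh] at hk3
  rw [resint hW L' L' Lh] at hk3'
  have v1 := sd_sq_eq L
  have v2 := sd_sq_eq L'
  have hsym : ∫ x, k' x * k x ∂W = ∫ x, k x * k' x ∂W := integral_congr_ae (Eventually.of_forall fun x => mul_comm _ _)
  have hq := quad L L' 1 1
  have s1 : ∫ x, k x * k x ∂W = ∫ x, k x ^ 2 ∂W := integral_congr_ae (Eventually.of_forall fun x => (sq _).symm)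
  have s2 : ∫ x, k' x * k' x ∂W = ∫ x, k' x ^ 2 ∂W := integral_congr_ae (Eventually.of_forall fun x => (sq _).symm)
  rw [hsym] at e1
  rw [s1] at hk3
  rw [s2] at hk3'
  have hn : 0 ≤ ∫ x, (1 * (k x - ∫ y, k y ∂W) - 1 * (k' x - ∫ y, k' y ∂W)) ^ 2 ∂W :=
    integral_nonneg fun _ => sq_nonneg _
  have hz : ∫ x, (1 * (k x - ∫ y, k y ∂W) - 1 * (k' x - ∫ y, k' y ∂W)) ^ 2 ∂W = 0 := by
    apply le_antisymm _ hn
    rw [hq, v1, v2]
    linarith
  have Ld : L2 W (fun x => 1 * (k x - ∫ y, k y ∂W) - 1 * (k' x - ∫ y, k' y ∂W)) :=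
    ((L.sub (L2.const _)).smul 1).sub ((L'.sub (L2.const _)).smul 1)
  have hae := (integral_eq_zero_iff_of_nonneg (fun x => sq_nonneg _) Ld.i).1 hz
  have hae2 : ∀ᵐ x ∂W, k x - k' x = (∫ y, k y ∂W) - ∫ y, k' y ∂W := by
    filter_upwards [hae] with x hx
    have : 1 * (k x - ∫ y, k y ∂W) - 1 * (k' x - ∫ y, k' y ∂W) = 0 := by simpa using hx
    linarith
  obtain ⟨hw, -⟩ := w_mem hUNI hW hp
  have hc := const_zero hUNI hW hw hae2 (fun x hx hwx => by
    rw [hk1.zero x hx hwx, hk1'.zero x hx hwx, sub_self])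
  have hopen := (hUNI W hW).2.1
  have hcont : ContinuousOn (fun x => k x - k' x) (spt W) :=
    (hk1.conv.continuousOn hopen).sub (hk1'.conv.continuousOn hopen)
  intro x hx
  have := zero_of_ae hUNI hW hcont (by filter_upwards [hae2] with x hx; rw [hx, hc]) x hx
  linarith

end Pool.Agent.T2H99.QB
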