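import Pool.Agent.T2H99.QB.Stm

open MeasureTheory ProbabilityTheory Set Filter Topology

noncomputable section

namespace Pool.Agent.T2H99.QB

theorem pEMP (hUNI : S_UNI) : S_EMP := by
  intro W hW g hc hm hi hsd
  have := hW.prob
  obtain ⟨h0, hop, -⟩ := hUNI W hW
  have hae : ∀ᵐ x ∂W, x ∈ spt W := h0
  -- `g` is not constant on `spt W`
  obtain ⟨x₁, h₁, x₂, h₂, hlt, hglt⟩ : ∃ x₁ ∈ spt W, ∃ x₂ ∈ spt W, x₁ < x₂ ∧ g x₁ < g x₂ := by
    by_contra hcon
    push Not at hcon
    obtain ⟨x₀, hx₀⟩ := hae.exists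
    have hconst : ∀ x ∈ spt W, g x = g x₀ := by
      intro x hx
      rcases lt_trichotomy x x₀ with h | h | h
      · exact le_antisymm (hm hx hx₀ h.le) (hcon x hx x₀ hx₀ h)
      · rw [h]
      · exact le_antisymm (hcon x₀ hx₀ x hx h) (hm hx₀ hx h.le)
    have e1 : ∫ y, g y ∂W = g x₀ := by
      rw [integral_congr_ae (g := fun _ => g x₀) (hae.mono fun x hx => hconst x hx)]
      simp
    have e2 : ∫ x, (g x - ∫ y, g y ∂W) ^ 2 ∂W = 0 := by
      rw [e1, integral_congr_ae (g := fun _ => (0 : ℝ))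
        (hae.mono fun x hx => by simp [hconst x hx])]
      simp
    unfold sdW at hsd
    rw [e2, Real.sqrt_zero] at hsd
    exact lt_irrefl _ hsd
  set c := (g x₂ - g x₁) / (x₂ - x₁) with hcdef
  have hcpos : 0 < c := div_pos (by linarith) (by linarith)
  have hbound : ∀ x ∈ spt W, |min x 0| ≤ |x₁| + (|g x₁| + |g x|) / c := by
    intro x hx
    have hnn : 0 ≤ (|g x₁| + |g x|) / c := by positivity
    rcases lt_or_ge x x₁ with h | h
    · have hs := hc.slope_anti_adjacent hx h₂ h hlt
      have h3 : c * (x₁ - x) ≤ g x₁ - g x := by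
        rw [hcdef]
        have h4 : 0 < x₁ - x := by linarith
        calc (g x₂ - g x₁) / (x₂ - x₁) * (x₁ - x) ≤ (g x₁ - g x) / (x₁ - x) * (x₁ - x) :=
              mul_le_mul_of_nonneg_right hs h4.le
          _ = g x₁ - g x := by field_simp
      have h5 : x₁ - x ≤ (|g x₁| + |g x|) / c := by
        rw [le_div_iff₀ hcpos]
        have := le_abs_self (g x₁)
        have := neg_abs_le (g x)
        nlinarith
      have h6 : |min x 0| ≤ |x| := by
        rcases le_total x 0 with hx0 | hx0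
        · rw [min_eq_left hx0]
        · rw [min_eq_right hx0]; simp
      have h7 : |x| ≤ |x₁| + (x₁ - x) := by
        rw [abs_le]
        constructor
        · have := neg_abs_le x₁
          have := le_abs_self x₁
          have h8 : 0 ≤ |x₁| := abs_nonneg _
          linarith
        · have := le_abs_self x₁
          linarith
      linarith
    · have h6 : |min x 0| ≤ |x₁| := by
        rcases le_total x 0 with hx0 | hx0
        · rw [min_eq_left hx0, abs_of_nonpos hx0, abs_of_nonpos (h.trans hx0)]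
          linarith
        · rw [min_eq_right hx0]; simp
      linarith
  unfold IM
  refine Integrable.mono' (g := fun x => 3 * (x₁ ^ 2 + (g x₁) ^ 2 / c ^ 2) + 3 / c ^ 2 * (g x) ^ 2) ?_ ?_ ?_
  · exact (integrable_const _).add (hi.const_mul _)
  · exact (by fun_prop : Continuous fun x : ℝ => (min x 0) ^ 2).aestronglyMeasurable
  · filter_upwards [hae] with x hx
    have hb := hbound x hx
    rw [Real.norm_eq_abs, abs_of_nonneg (sq_nonneg _), ← sq_abs]
    have h1 : |min x 0| ^ 2 ≤ (|x₁| + (|g x₁| + |g x|) / c) ^ 2 :=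
      pow_le_pow_left₀ (abs_nonneg _) hb 2
    refine h1.trans ?_
    have e1 : (|x₁| + (|g x₁| + |g x|) / c) ^ 2 ≤
        3 * (|x₁| ^ 2 + (|g x₁| / c) ^ 2 + (|g x| / c) ^ 2) := by
      rw [add_div]
      nlinarith [sq_nonneg (|x₁| - |g x₁| / c), sq_nonneg (|x₁| - |g x| / c),
        sq_nonneg (|g x₁| / c - |g x| / c)]
    refine e1.trans (le_of_eq ?_)
    have q1 : (|g x₁| / c) ^ 2 = (g x₁) ^ 2 / c ^ 2 := by rw [div_pow, sq_abs]
    have q2 : (|g x| / c) ^ 2 = (g x) ^ 2 / c ^ 2 := by rw [div_pow, sq_abs]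
    rw [q1, q2, sq_abs]
    ring

end Pool.Agent.T2H99.QB
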