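import Pool.Agent.T2H99.QB.Stm

open MeasureTheory ProbabilityTheory Set Filter Topology

noncomputable section

namespace Pool.Agent.T2H99.QB

namespace PkgEND

lemma cdf_mem (W : Measure ℝ) (x : ℝ) : cdf W x ∈ Icc (0 : ℝ) 1 := ⟨cdf_nonneg W x, cdf_le_one W x⟩

lemma min_sq_int (W : Measure ℝ) [IsProbabilityMeasure W] (h : IM W) (t : ℝ) :
    Integrable (fun x : ℝ => (min x t) ^ 2) W := by
  have hb : Integrable (fun x : ℝ => 2 * (min x 0) ^ 2 + 2 * t ^ 2) W :=
    (Integrable.const_mul h 2).add (integrable_const _)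
  refine hb.mono' (by fun_prop) (Eventually.of_forall fun x => ?_)
  rw [Real.norm_of_nonneg (sq_nonneg _)]
  rcases le_total x t with h1 | h1 <;> rcases le_total x 0 with h2 | h2 <;>
    simp only [min_eq_left h1, min_eq_right h1, min_eq_left h2, min_eq_right h2] <;> nlinarith [sq_nonneg x, sq_nonneg t]

lemma min_int (W : Measure ℝ) [IsProbabilityMeasure W] (h : IM W) (t : ℝ) :
    Integrable (fun x : ℝ => min x t) W := by
  have h1 : MemLp (fun x : ℝ => min x t) 2 W :=
    (memLp_two_iff_integrable_sq (by fun_prop)).2 (min_sq_int W h t)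
  exact h1.integrable (by norm_num)

lemma Vt_eq (W : Measure ℝ) [IsProbabilityMeasure W] (h : IM W) (t : ℝ) :
    Vt W t = ∫ x, (min x t) ^ 2 ∂W - Mt W t ^ 2 := by
  unfold Vt
  have e : (fun x => (min x t - Mt W t) ^ 2)
      = fun x => (min x t) ^ 2 - (2 * Mt W t * min x t - Mt W t ^ 2) := by
    ext x; ring
  have i1 := min_sq_int W h t
  have i2 : Integrable (fun x : ℝ => 2 * Mt W t * min x t) W := (min_int W h t).const_mul _
  have i3 : Integrable (fun x : ℝ => 2 * Mt W t * min x t - Mt W t ^ 2) W :=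
    i2.sub (integrable_const _)
  rw [e, integral_sub i1 i3, integral_sub i2 (integrable_const _),
    integral_const_mul]
  simp only [integral_const, smul_eq_mul, probReal_univ, one_mul]
  change _ - (2 * Mt W t * Mt W t - Mt W t ^ 2) = _
  ring

lemma sd_sq (W : Measure ℝ) [IsProbabilityMeasure W] (h : Integrable (fun x : ℝ => x ^ 2) W) :
    ∫ x, (x - ∫ y, y ∂W) ^ 2 ∂W = ∫ x, x ^ 2 ∂W - (∫ x, x ∂W) ^ 2 := by
  set m := ∫ y, y ∂W with hm
  have i0 : Integrable (fun x : ℝ => x) W := by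
    have h1 : MemLp (fun x : ℝ => x) 2 W :=
      (memLp_two_iff_integrable_sq (by fun_prop)).2 h
    exact h1.integrable (by norm_num)
  have e : (fun x => (x - m) ^ 2) = fun x => x ^ 2 - (2 * m * x - m ^ 2) := by
    ext x; ring
  have i2 : Integrable (fun x : ℝ => 2 * m * x) W := i0.const_mul _
  have i3 : Integrable (fun x : ℝ => 2 * m * x - m ^ 2) W := i2.sub (integrable_const _)
  rw [e, integral_sub h i3, integral_sub i2 (integrable_const _),
    integral_const_mul]
  simp only [integral_const, smul_eq_mul, probReal_univ, one_mul]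
  rw [← hm]
  ring

end PkgEND

open PkgEND in
theorem pEND (hUNI : S_UNI) (hFF : S_FF) (hHH : S_HH) (hBET : S_BET) (hNV : S_NV)
    (hMON : S_MON) : S_END := by
  intro W hW hIM n j p hP hD hN
  have := hW.prob
  obtain ⟨hu1, hu2, hu3, hu4, hu5, hu6, hu7⟩ := hUNI W hW
  obtain ⟨hf1, hf2, hf3, hf4, hf5, hf6, hf7, hf8, hf9, hf10, hf11, hf12⟩ := hFF n j p hP
  obtain ⟨hh1, hh2, hh3, hh4, hh5, hh6, hh7⟩ := hHH W hW n j p hP
  have hNV' := hNV W hW hIM n j p hP
  have hp1 := hP.p1
  have hp0 := hP.p0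
  have hp : 0 < 1 - p := by linarith
  have hpI : p ∈ Ioo (0 : ℝ) 1 := ⟨hp0, hp1⟩
  set w := quant W p with hw
  have hwS : w ∈ spt W := (hu5 p hpI).1
  have hww : cdf W w = p := (hu5 p hpI).2
  have hGc : Continuous (G n j) := by
    unfold G
    fun_prop
  have hMc : Continuous (Mt W) := continuous_iff_continuousAt.2 fun t => (hNV' t).1.continuousAt
  have hVc : Continuous (Vt W) := continuous_iff_continuousAt.2 fun t => (hNV' t).2.1.continuousAt
  have hNc : Continuous (Nt W n j p) :=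
    continuous_iff_continuousAt.2 fun t => (hNV' t).2.2.1.continuousAt
  have hFc := hW.cont
  have hDc : Continuous (Dt W n j p) := by
    unfold Dt
    fun_prop
  have hG1 : ∀ u ∈ Icc (0 : ℝ) 1, G n j u ≤ 1 := by
    intro u hu
    rw [← hf8]
    exact hf10.monotoneOn hu ⟨zero_le_one, le_rfl⟩ hu.2
  have hG1' : ∀ u ∈ Ico (0 : ℝ) 1, G n j u < 1 := by
    intro u hu
    rw [← hf8]
    exact hf10 ⟨hu.1, hu.2.le⟩ ⟨zero_le_one, le_rfl⟩ hu.2
  -- the interval `(w,d)`
  set I : Set ℝ := spt W ∩ Ioi w with hI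
  have hIo : IsOpen I := hu2.inter isOpen_Ioi
  have hIoc : I.OrdConnected := hu3.inter ordConnected_Ioi
  have hIc : Convex ℝ I := hIoc.convex
  have hV0 : ∀ t ∈ spt W, 0 < Vt W t := fun t ht => ((hNV' t).2.2.2 ht).1
  have hM0 : ∀ t ∈ spt W, Mt W t < t := fun t ht => ((hNV' t).2.2.2 ht).2
  -- N(w) < 0
  have hNw : Nt W n j p w < 0 := by
    have hq : p / 2 ∈ Ioo (0 : ℝ) 1 := ⟨by linarith, by linarith⟩
    set v := quant W (p / 2) with hv
    have hvS : v ∈ spt W := (hu5 _ hq).1
    have hvv : cdf W v = p / 2 := (hu5 _ hq).2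
    have hvw : v < w := by
      by_contra hle
      rw [not_lt] at hle
      have := (hu7 w hwS v hvS).2 hle
      rw [hww, hvv] at this
      linarith
    obtain ⟨i1, i2, i3⟩ := hh7 (fun x => min x w) (by fun_prop) (min_sq_int W hIM w)
    have hTN : Nt W n j p w = ∫ x, (min x w - w) * f n j (cdf W x) ∂W := by
      have : Nt W n j p w = T W n j p (fun x => min x w) := by
        unfold Nt T
        simp only [← hw, min_self]
      rw [this, i3]
      simp only [min_self]
    have hint : Integrable (fun x => (w - min x w) * f n j (cdf W x)) W := by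
      have e : (fun x => (w - min x w) * f n j (cdf W x))
          = fun x => w * f n j (cdf W x) - min x w * f n j (cdf W x) := by
        ext x; ring
      rw [e]
      obtain ⟨C, hC⟩ := hh1
      have : Integrable (fun x => f n j (cdf W x)) W :=
        Integrable.of_bound hh3.aestronglyMeasurable C (Eventually.of_forall hC)
      exact (this.const_mul w).sub i2
    have h1 : (w - v) * G n j (p / 2) ≤ ∫ x in Iic v, (w - min x w) * f n j (cdf W x) ∂W := by
      rw [← hvv, ← hh6 v, ← integral_const_mul]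
      obtain ⟨C, hC⟩ := hh1
      have hi : Integrable (fun x => f n j (cdf W x)) W :=
        Integrable.of_bound hh3.aestronglyMeasurable C (Eventually.of_forall hC)
      refine setIntegral_mono_on (hi.const_mul _).integrableOn hint.integrableOn
        measurableSet_Iic (fun x hx => ?_)
      have hx' : x ≤ v := hx
      refine mul_le_mul_of_nonneg_right ?_ (hh2 x)
      rw [min_eq_left (hx'.trans hvw.le)]
      linarith
    have h2 : ∫ x in Iic v, (w - min x w) * f n j (cdf W x) ∂W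
        ≤ ∫ x, (w - min x w) * f n j (cdf W x) ∂W := by
      refine setIntegral_le_integral hint (Eventually.of_forall fun x => ?_)
      exact mul_nonneg (sub_nonneg.2 (min_le_right _ _)) (hh2 x)
    have h3 : 0 < G n j (p / 2) := by
      have := hf10 (left_mem_Icc.2 zero_le_one) ⟨hq.1.le, hq.2.le⟩ hq.1
      rwa [hf7] at this
    have h4 : ∫ x, (w - min x w) * f n j (cdf W x) ∂W = - Nt W n j p w := by
      rw [hTN, ← integral_neg]
      congr 1
      ext x; ring
    have h5 : 0 < (w - v) * G n j (p / 2) := mul_pos (by linarith) h3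
    linarith
  -- D > 0 on I
  have hDpos : ∀ t ∈ I, 0 < Dt W n j p t := by
    have hex : ∃ t ∈ I, 0 < Dt W n j p t := by
      have e1 : ∀ᶠ t in 𝓝 w, Nt W n j p t < 0 := hNc.continuousAt.eventually (gt_mem_nhds hNw)
      have e2 : ∀ᶠ t in 𝓝 w, t ∈ spt W := hu2.mem_nhds hwS
      have hfr : ∃ᶠ t in 𝓝 w, w < t := by
        have : ∃ᶠ t in 𝓝[>] w, w < t := Eventually.frequently self_mem_nhdsWithin
        exact this.filter_mono nhdsWithin_le_nhds
      obtain ⟨t, ht1, ht2, ht3⟩ := (hfr.and_eventually (e1.and e2)).exists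
      refine ⟨t, ⟨ht3, ht1⟩, ?_⟩
      unfold Dt
      have a1 := hV0 t ht3
      have a2 := hM0 t ht3
      have a3 : cdf W t < 1 := ht3.2
      have a4 := hG1' (cdf W t) ⟨ht3.1.le, ht3.2⟩
      have b1 : 0 < (1 - G n j (cdf W t)) * Vt W t := mul_pos (by linarith) a1
      have b2 : 0 < (1 - cdf W t) * (t - Mt W t) * (-Nt W n j p t) :=
        mul_pos (mul_pos (by linarith) (by linarith)) (by linarith)
      linarith
    obtain ⟨t₀, ht₀, hDt₀⟩ := hex
    intro t ht
    by_contra hneg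
    rw [not_lt] at hneg
    have hpc : IsPreconnected I := hIc.isPreconnected
    have := hpc.intermediate_value ht ht₀ hDc.continuousOn
    obtain ⟨z, hz, hz0⟩ := this ⟨hneg, hDt₀.le⟩
    exact hD z hz.1 hz.2 hz0
  -- Φ is strictly increasing
  set Φ : ℝ → ℝ := fun t => Nt W n j p t / Real.sqrt (Vt W t) with hΦ
  have hΦd : ∀ t ∈ I, HasDerivAt Φ (Dt W n j p t / (Vt W t * Real.sqrt (Vt W t))) t := by
    intro t ht
    have a1 := hV0 t ht.1
    have hs : 0 < Real.sqrt (Vt W t) := Real.sqrt_pos.2 a1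
    have hss : Real.sqrt (Vt W t) ^ 2 = Vt W t := Real.sq_sqrt a1.le
    have h := (hNV' t).2.2.1.div ((hNV' t).2.1.sqrt a1.ne') hs.ne'
    refine h.congr_deriv ?_
    unfold Dt
    rw [hss]
    field_simp
    rw [hss]
  have hΦm : StrictMonoOn Φ I := by
    refine strictMonoOn_of_deriv_pos hIc (fun t ht => (hΦd t ht).continuousAt.continuousWithinAt) ?_
    intro t ht
    rw [hIo.interior_eq] at ht
    rw [(hΦd t ht).deriv]
    have a1 := hV0 t ht.1
    exact div_pos (hDpos t ht) (mul_pos a1 (Real.sqrt_pos.2 a1))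
  obtain ⟨t₁, ht₁S, ht₁w, hNt₁⟩ := hN
  have ht₁ : t₁ ∈ I := ⟨ht₁S, ht₁w⟩
  -- monotonicity
  have hVm : MonotoneOn (Vt W) (spt W) := by
    refine monotoneOn_of_deriv_nonneg hu3.convex hVc.continuousOn
      (fun t _ => (hNV' t).2.1.differentiableAt.differentiableWithinAt) (fun t ht => ?_)
    rw [hu2.interior_eq] at ht
    rw [(hNV' t).2.1.deriv]
    have a2 := hM0 t ht
    have a3 := (cdf_mem W t).2
    exact mul_nonneg (mul_nonneg (by norm_num) (by linarith)) (by linarith)
  have hNm : Monotone (Nt W n j p) := by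
    refine monotone_of_deriv_nonneg (fun t => (hNV' t).2.2.1.differentiableAt) (fun t => ?_)
    rw [(hNV' t).2.2.1.deriv]
    have := hG1 _ (cdf_mem W t)
    linarith
  have hMm : Monotone (Mt W) := by
    refine monotone_of_deriv_nonneg (fun t => (hNV' t).1.differentiableAt) (fun t => ?_)
    rw [(hNV' t).1.deriv]
    have := (cdf_mem W t).2
    linarith
  have hcm : ∀ t, w ≤ t → p ≤ cdf W t := by
    intro t ht
    rw [← hww]
    exact monotone_cdf W ht
  have hgr : ∀ t, w ≤ t → p * (t - w) ≤ (t - Mt W t) - (w - Mt W w) := by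
    intro t ht
    have hmono : MonotoneOn (fun s => s - Mt W s - p * s) (Ici w) := by
      refine monotoneOn_of_deriv_nonneg (convex_Ici w) (by fun_prop)
        (fun s _ => ?_) (fun s hs => ?_)
      · exact (((hasDerivAt_id s).sub (hNV' s).1).sub
          ((hasDerivAt_id s).const_mul p)).differentiableAt.differentiableWithinAt
      · rw [interior_Ici] at hs
        have hd : HasDerivAt (fun s => s - Mt W s - p * s) (1 - (1 - cdf W s) - p * 1) s :=
          ((hasDerivAt_id s).sub (hNV' s).1).sub ((hasDerivAt_id s).const_mul p)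
        rw [hd.deriv]
        have := hcm s (le_of_lt hs)
        linarith
    have := hmono (mem_Ici.2 le_rfl) (mem_Ici.2 ht) ht
    simp only at this
    linarith
  have hMw := hM0 w hwS
  have hE : ∀ t, w ≤ t → p * (Mt W t - Mt W w) ^ 2 ≤ (1 - p) * Vt W t := by
    intro t ht
    have hmono : MonotoneOn (fun s => (1 - p) * Vt W s - p * (Mt W s - Mt W w) ^ 2) (Ici w) := by
      have hd : ∀ s, HasDerivAt (fun s => (1 - p) * Vt W s - p * (Mt W s - Mt W w) ^ 2)
          ((1 - p) * (2 * (1 - cdf W s) * (s - Mt W s))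
            - p * (2 * (Mt W s - Mt W w) * (1 - cdf W s))) s := by
        intro s
        have h1 := ((hNV' s).2.1.const_mul (1 - p))
        have h2 := ((((hNV' s).1.sub_const (Mt W w)).pow 2).const_mul p)
        refine (h1.sub h2).congr_deriv ?_
        simp
      refine monotoneOn_of_deriv_nonneg (convex_Ici w) (by fun_prop)
        (fun s _ => (hd s).differentiableAt.differentiableWithinAt) (fun s hs => ?_)
      rw [interior_Ici] at hs
      rw [(hd s).deriv]
      have hs' : w ≤ s := le_of_lt hs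
      have h1 := hgr s hs'
      have h3 := (cdf_mem W s).2
      have h4 : 0 ≤ s - w := by linarith
      have h5 : p * (Mt W s - Mt W w) ≤ (1 - p) * (s - Mt W s) := by
        nlinarith
      have h6 : (1 - p) * (2 * (1 - cdf W s) * (s - Mt W s))
            - p * (2 * (Mt W s - Mt W w) * (1 - cdf W s))
            = 2 * (1 - cdf W s) * ((1 - p) * (s - Mt W s) - p * (Mt W s - Mt W w)) := by ring
      rw [h6]
      exact mul_nonneg (mul_nonneg (by norm_num) (by linarith)) (by linarith)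
    have := hmono (mem_Ici.2 le_rfl) (mem_Ici.2 ht) ht
    simp only [sub_self] at this
    have hVw := (hV0 w hwS).le
    have : 0 ≤ (1 - p) * Vt W w := mul_nonneg hp.le hVw
    nlinarith
  set κ : ℝ := Real.sqrt ((1 - p) / p) with hκ
  have hκ0 : 0 ≤ κ := Real.sqrt_nonneg _
  have hEκ : ∀ t, w ≤ t → Mt W t - Mt W w ≤ κ * Real.sqrt (Vt W t) := by
    intro t ht
    rw [hκ, ← Real.sqrt_mul (by positivity)]
    refine Real.le_sqrt_of_sq_le ?_
    have := hE t ht
    rw [div_mul_eq_mul_div, le_div_iff₀ hp0]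
    linarith
  -- choice of t₀
  have hφ1 : 0 < Φ t₁ := div_pos hNt₁ (Real.sqrt_pos.2 (hV0 t₁ ht₁S))
  obtain ⟨u₀, hu01, hu02, hu03, hu04, hu05⟩ : ∃ u, f n j u * κ < Φ t₁ / 2 ∧ cdf W t₁ < u ∧
      ((j : ℝ) - 1) / ((n : ℝ) - 1) < u ∧ 0 < u ∧ u < 1 := by
    have e1 : ∀ᶠ u in 𝓝 (1 : ℝ), f n j u * κ < Φ t₁ / 2 := by
      have : Tendsto (fun u => f n j u * κ) (𝓝 1) (𝓝 (f n j 1 * κ)) :=
        (hf2.mul continuous_const).continuousAt
      rw [hf9, zero_mul] at this
      exact this.eventually (gt_mem_nhds (by linarith))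
    have e2 : ∀ᶠ u in 𝓝 (1 : ℝ), cdf W t₁ < u := lt_mem_nhds ht₁S.2
    have e3 : ∀ᶠ u in 𝓝 (1 : ℝ), ((j : ℝ) - 1) / ((n : ℝ) - 1) < u := lt_mem_nhds hf12
    have e4 : ∀ᶠ u in 𝓝 (1 : ℝ), 0 < u := lt_mem_nhds zero_lt_one
    have hfr : ∃ᶠ u in 𝓝 (1 : ℝ), u < 1 := by
      have : ∃ᶠ t in 𝓝[<] (1 : ℝ), t < 1 := Eventually.frequently self_mem_nhdsWithin
      exact this.filter_mono nhdsWithin_le_nhds
    obtain ⟨u, h1, h2, h3, h4, h5⟩ := (hfr.and_eventually (e1.and (e2.and (e3.and e4)))).exists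
    exact ⟨u, h2, h3, h4, h5, h1⟩
  have hcdflt : ∀ s t : ℝ, cdf W s < cdf W t → s < t := by
    intro s t h
    by_contra hle
    rw [not_lt] at hle
    exact absurd (monotone_cdf W hle) (not_le.2 h)
  set t₀ := quant W u₀ with ht₀
  have ht₀S : t₀ ∈ spt W := (hu5 u₀ ⟨hu04, hu05⟩).1
  have ht₀c : cdf W t₀ = u₀ := (hu5 u₀ ⟨hu04, hu05⟩).2
  have ht₁₀ : t₁ < t₀ := hcdflt _ _ (by rw [ht₀c]; exact hu02)
  have ht₀I : t₀ ∈ I := ⟨ht₀S, lt_trans ht₁w ht₁₀⟩
  have hwt₀ : w < t₀ := ht₀I.2
  have hH : ∀ u ∈ Icc u₀ 1, 1 - G n j u ≤ f n j u₀ * (1 - u) := by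
    intro u hu
    have hii : ∀ a b : ℝ, IntervalIntegrable (f n j) volume a b :=
      fun a b => hf2.intervalIntegrable a b
    have hsub : 1 - G n j u = ∫ x in u..1, f n j x := by
      have h1 : (1 : ℝ) = ∫ x in (0 : ℝ)..1, f n j x := by
        rw [← (hBET n j hP.j1 hP.jn).2 1, hf8]
      have h2 := intervalIntegral.integral_interval_sub_left (hii 0 1) (hii 0 u)
      rw [← h1, ← (hBET n j hP.j1 hP.jn).2 u] at h2
      exact h2
    have hle : ∫ x in u..1, f n j x ≤ ∫ _x in u..1, f n j u₀ := by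
      refine intervalIntegral.integral_mono_on hu.2 (hii _ _) (by simp) (fun x hx => ?_)
      exact hf5.antitoneOn ⟨hu03.le, hu05.le⟩ ⟨hu03.le.trans (hu.1.trans hx.1), hx.2⟩
        (hu.1.trans hx.1)
    rw [hsub]
    rw [intervalIntegral.integral_const, smul_eq_mul] at hle
    linarith
  have hNM : ∀ t, t₀ ≤ t → Nt W n j p t - Nt W n j p t₀ ≤ f n j u₀ * (Mt W t - Mt W t₀) := by
    intro t ht
    have hmono : MonotoneOn (fun s => f n j u₀ * Mt W s - Nt W n j p s) (Ici t₀) := by
      have hd : ∀ s, HasDerivAt (fun s => f n j u₀ * Mt W s - Nt W n j p s)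
          (f n j u₀ * (1 - cdf W s) - (1 - G n j (cdf W s))) s := fun s =>
        ((hNV' s).1.const_mul _).sub (hNV' s).2.2.1
      refine monotoneOn_of_deriv_nonneg (convex_Ici t₀) (by fun_prop)
        (fun s _ => (hd s).differentiableAt.differentiableWithinAt) (fun s hs => ?_)
      rw [interior_Ici] at hs
      rw [(hd s).deriv]
      have := hH (cdf W s) ⟨by rw [← ht₀c]; exact monotone_cdf W (le_of_lt hs), (cdf_mem W s).2⟩
      linarith
    have := hmono (mem_Ici.2 le_rfl) (mem_Ici.2 ht) ht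
    simp only at this
    linarith
  have hf0 : 0 ≤ f n j u₀ := hf3 u₀ ⟨hu04.le, hu05.le⟩
  set R : ℝ := 2 * Nt W n j p t₀ / Φ t₁ with hR
  have hsqV : ∀ t ∈ spt W, t₀ ≤ t → Real.sqrt (Vt W t) ≤ R := by
    intro t htS ht
    have htI : t ∈ I := ⟨htS, lt_of_lt_of_le hwt₀ ht⟩
    have hs : 0 < Real.sqrt (Vt W t) := Real.sqrt_pos.2 (hV0 t htS)
    have h1 : Φ t₁ ≤ Φ t := hΦm.monotoneOn ht₁ htI (ht₁₀.le.trans ht)
    have h2 : Φ t * Real.sqrt (Vt W t) = Nt W n j p t := by
      simp only [hΦ]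
      field_simp
    have h3 := hNM t ht
    have h4 := hEκ t (hwt₀.le.trans ht)
    have h5 : Mt W t - Mt W t₀ ≤ Mt W t - Mt W w := by
      have := hMm hwt₀.le
      linarith
    have h6 : f n j u₀ * (Mt W t - Mt W t₀) ≤ f n j u₀ * κ * Real.sqrt (Vt W t) := by
      rw [mul_assoc]
      exact mul_le_mul_of_nonneg_left (h5.trans h4) hf0
    have h7 : f n j u₀ * κ * Real.sqrt (Vt W t) ≤ Φ t₁ / 2 * Real.sqrt (Vt W t) :=
      mul_le_mul_of_nonneg_right hu01.le hs.le
    have h8 : Φ t₁ * Real.sqrt (Vt W t) ≤ Φ t * Real.sqrt (Vt W t) :=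
      mul_le_mul_of_nonneg_right h1 hs.le
    rw [hR, le_div_iff₀ hφ1]
    linarith
  have hR0 : 0 ≤ R := (Real.sqrt_nonneg _).trans (hsqV t₀ ht₀S le_rfl)
  set B : ℝ := R ^ 2 + (|Mt W w| + κ * R) ^ 2 with hB
  have hsqB : ∀ t ∈ spt W, t₀ ≤ t → ∫ x, (min x t) ^ 2 ∂W ≤ B := by
    intro t htS ht
    have h1 := Vt_eq W hIM t
    have h2 := hsqV t htS ht
    have h3 : Vt W t ≤ R ^ 2 := by
      rw [← Real.sq_sqrt (hV0 t htS).le]
      exact pow_le_pow_left₀ (Real.sqrt_nonneg _) h2 2
    have h4 := hEκ t (hwt₀.le.trans ht)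
    have h5 : κ * Real.sqrt (Vt W t) ≤ κ * R := mul_le_mul_of_nonneg_left h2 hκ0
    have h6 : Mt W w ≤ Mt W t := hMm (hwt₀.le.trans ht)
    have h7 : |Mt W t| ≤ |Mt W w| + κ * R := by
      rw [abs_le]
      constructor
      · have := neg_abs_le (Mt W w)
        have h8 : 0 ≤ κ * R := mul_nonneg hκ0 hR0
        linarith
      · have := le_abs_self (Mt W w)
        linarith
    have h8 : Mt W t ^ 2 ≤ (|Mt W w| + κ * R) ^ 2 := by
      rw [← sq_abs (Mt W t)]
      exact pow_le_pow_left₀ (abs_nonneg _) h7 2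
    linarith
  -- the sequence
  set uk : ℕ → ℝ := fun k => 1 - (1 - u₀) / ((k : ℝ) + 1) with huk
  have huk1 : ∀ k, u₀ ≤ uk k ∧ uk k < 1 := by
    intro k
    have hk : (0 : ℝ) < (k : ℝ) + 1 := by positivity
    have hk1 : (1 : ℝ) ≤ (k : ℝ) + 1 := by linarith [Nat.cast_nonneg (α := ℝ) k]
    have h1 : 0 < (1 - u₀) / ((k : ℝ) + 1) := div_pos (by linarith) hk
    have h2 : (1 - u₀) / ((k : ℝ) + 1) ≤ 1 - u₀ := div_le_self (by linarith) hk1
    simp only [huk]
    exact ⟨by linarith, by linarith⟩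
  have hukl : Tendsto uk atTop (𝓝 1) := by
    have h1 : Tendsto (fun k : ℕ => (1 - u₀) * (1 / ((k : ℝ) + 1))) atTop (𝓝 ((1 - u₀) * 0)) :=
      tendsto_one_div_add_atTop_nhds_zero_nat.const_mul _
    have h2 : Tendsto uk atTop (𝓝 (1 - (1 - u₀) * 0)) := by
      refine (tendsto_const_nhds.sub h1).congr (fun k => ?_)
      simp only [huk]
      ring
    simpa using h2
  set tk : ℕ → ℝ := fun k => quant W (uk k) with htk
  have htkS : ∀ k, tk k ∈ spt W := fun k => (hu5 (uk k) ⟨by linarith [(huk1 k).1], (huk1 k).2⟩).1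
  have htkc : ∀ k, cdf W (tk k) = uk k := fun k =>
    (hu5 (uk k) ⟨by linarith [(huk1 k).1], (huk1 k).2⟩).2
  have htk0 : ∀ k, t₀ ≤ tk k := by
    intro k
    rw [← hu7 t₀ ht₀S (tk k) (htkS k), ht₀c, htkc]
    exact (huk1 k).1
  have htke : ∀ x ∈ spt W, ∀ᶠ k in atTop, x < tk k := by
    intro x hx
    filter_upwards [hukl.eventually (lt_mem_nhds hx.2)] with k hk
    exact hcdflt _ _ (by rw [htkc]; exact hk)
  have htkI : ∀ k, tk k ∈ I := fun k => ⟨htkS k, lt_of_lt_of_le hwt₀ (htk0 k)⟩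
  have hae : ∀ᵐ x ∂W, x ∈ spt W := by
    rw [ae_iff]
    exact hu1
  have hfat : ∫⁻ x, ENNReal.ofReal (x ^ 2) ∂W ≤ ENNReal.ofReal B := by
    calc ∫⁻ x, ENNReal.ofReal (x ^ 2) ∂W
        = ∫⁻ x, liminf (fun k => ENNReal.ofReal ((min x (tk k)) ^ 2)) atTop ∂W := by
          refine lintegral_congr_ae ?_
          filter_upwards [hae] with x hx
          have : (fun k => ENNReal.ofReal ((min x (tk k)) ^ 2)) =ᶠ[atTop]
              fun _ => ENNReal.ofReal (x ^ 2) := by
            filter_upwards [htke x hx] with k hk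
            rw [min_eq_left hk.le]
          rw [liminf_congr this, liminf_const]
      _ ≤ liminf (fun k => ∫⁻ x, ENNReal.ofReal ((min x (tk k)) ^ 2) ∂W) atTop :=
          lintegral_liminf_le (fun k => by fun_prop)
      _ ≤ liminf (fun _ : ℕ => ENNReal.ofReal B) atTop := by
          refine liminf_le_liminf (Eventually.of_forall fun k => ?_)
          rw [← ofReal_integral_eq_lintegral_ofReal (min_sq_int W hIM (tk k))
            (Eventually.of_forall fun x => sq_nonneg _)]
          exact ENNReal.ofReal_le_ofReal (hsqB (tk k) (htkS k) (htk0 k))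
      _ = ENNReal.ofReal B := liminf_const _
  have hx2 : Integrable (fun x : ℝ => x ^ 2) W := by
    refine ⟨by fun_prop, ?_⟩
    rw [hasFiniteIntegral_iff_ofReal (Eventually.of_forall fun x => sq_nonneg _)]
    exact lt_of_le_of_lt hfat ENNReal.ofReal_lt_top
  obtain ⟨j1, j2, j3⟩ := hh7 (fun x => x) (by fun_prop) hx2
  have habs : ∀ k x, |min x (tk k)| ≤ |x| + |t₁| := by
    intro k x
    have h1 : t₁ ≤ tk k := ht₁₀.le.trans (htk0 k)
    rw [abs_le]
    have a1 := neg_abs_le x
    have a2 := le_abs_self x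
    have a3 := neg_abs_le t₁
    have a4 := le_abs_self t₁
    have a5 := abs_nonneg x
    have a6 := abs_nonneg t₁
    constructor
    · exact le_min (by linarith) (by linarith)
    · exact (min_le_left _ _).trans (by linarith)
  have hmine : ∀ᵐ x ∂W, ∀ᶠ k in atTop, min x (tk k) = x := by
    filter_upwards [hae] with x hx
    filter_upwards [htke x hx] with k hk
    exact min_eq_left hk.le
  have L1 : Tendsto (fun k => ∫ x, (min x (tk k)) ^ 2 ∂W) atTop (𝓝 (∫ x, x ^ 2 ∂W)) := by
    have hbi : Integrable (fun x : ℝ => 2 * x ^ 2 + 2 * |t₁| ^ 2) W :=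
      (hx2.const_mul 2).add (integrable_const _)
    refine tendsto_integral_of_dominated_convergence _ (fun k => by fun_prop) hbi
      (fun k => Eventually.of_forall fun x => ?_) ?_
    · rw [Real.norm_of_nonneg (sq_nonneg _), ← sq_abs (min x (tk k)), ← sq_abs x]
      have := habs k x
      have h2 := pow_le_pow_left₀ (abs_nonneg _) this 2
      nlinarith [sq_nonneg (|x| - |t₁|)]
    · filter_upwards [hmine] with x hx
      refine Tendsto.congr' ?_ tendsto_const_nhds
      filter_upwards [hx] with k hk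
      rw [hk]
  have L2 : Tendsto (fun k => Mt W (tk k)) atTop (𝓝 (∫ x, x ∂W)) := by
    unfold Mt
    have hbi : Integrable (fun x : ℝ => |x| + |t₁|) W := j1.abs.add (integrable_const _)
    refine tendsto_integral_of_dominated_convergence _ (fun k => by fun_prop) hbi
      (fun k => Eventually.of_forall fun x => habs k x) ?_
    filter_upwards [hmine] with x hx
    refine Tendsto.congr' ?_ tendsto_const_nhds
    filter_upwards [hx] with k hk
    rw [hk]
  have L3 : Tendsto (fun k => Nt W n j p (tk k)) atTop (𝓝 (T W n j p (fun x => x))) := by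
    unfold Nt T
    refine Tendsto.sub_const ?_ _
    obtain ⟨C, hC⟩ := hh1
    have hbi : Integrable (fun x : ℝ => (|x| + |t₁|) * C) W :=
      (j1.abs.add (integrable_const _)).mul_const C
    refine tendsto_integral_of_dominated_convergence _
      (fun k => AEStronglyMeasurable.mul (by fun_prop) hh3.aestronglyMeasurable) hbi
      (fun k => Eventually.of_forall fun x => ?_) ?_
    · rw [norm_mul, Real.norm_eq_abs, Real.norm_eq_abs]
      exact mul_le_mul (habs k x) (hC x) (abs_nonneg _) (by positivity)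
    · filter_upwards [hmine] with x hx
      refine Tendsto.congr' ?_ tendsto_const_nhds
      filter_upwards [hx] with k hk
      rw [hk]
  have L4 : Tendsto (fun k => Vt W (tk k)) atTop (𝓝 (∫ x, (x - ∫ y, y ∂W) ^ 2 ∂W)) := by
    rw [sd_sq W hx2]
    refine (L1.sub (L2.pow 2)).congr (fun k => ?_)
    rw [Vt_eq W hIM (tk k)]
  have hsd2 : Vt W t₁ ≤ ∫ x, (x - ∫ y, y ∂W) ^ 2 ∂W := by
    refine ge_of_tendsto' L4 (fun k => ?_)
    exact hVm ht₁S (htkS k) (ht₁₀.le.trans (htk0 k))
  have hsd2p : 0 < ∫ x, (x - ∫ y, y ∂W) ^ 2 ∂W := lt_of_lt_of_le (hV0 t₁ ht₁S) hsd2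
  have hsdp : 0 < sdW W (fun x => x) := Real.sqrt_pos.2 hsd2p
  have hTp : Nt W n j p t₁ ≤ T W n j p (fun x => x) :=
    ge_of_tendsto' L3 (fun k => hNm (ht₁₀.le.trans (htk0 k)))
  have L5 : Tendsto (fun k => Φ (tk k)) atTop
      (𝓝 (T W n j p (fun x => x) / sdW W (fun x => x))) := by
    exact L3.div ((Real.continuous_sqrt.tendsto _).comp L4) hsdp.ne'
  have hle : ∀ t ∈ I, Φ t ≤ T W n j p (fun x => x) / sdW W (fun x => x) := by
    intro t ht
    refine ge_of_tendsto L5 ?_
    filter_upwards [htke t ht.1] with k hk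
    exact hΦm.monotoneOn ht (htkI k) hk.le
  refine ⟨hx2, hsdp, lt_of_lt_of_le hNt₁ hTp, fun t htS htw => ?_⟩
  have htI : t ∈ I := ⟨htS, htw⟩
  obtain ⟨k, hk⟩ := (htke t htS).exists
  exact lt_of_lt_of_le (hΦm htI (htkI k) hk) (hle _ (htkI k))

end Pool.Agent.T2H99.QB
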