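import Pool.Agent.T2H99.QB.Stm

/-!
# Package EQ1: convex order implies that the transfer function is concave
-/

open MeasureTheory ProbabilityTheory Set Filter Topology

noncomputable section

namespace Pool.Agent.T2H99.QB

namespace PkgEQ1

theorem sup_le {A B a b r s₀ t₀ : ℝ} (ha : 0 < a) (hb : 0 < b) (hs : s₀ < A) (ht : t₀ < B)
    (h : ∀ s t : ℝ, s₀ ≤ s → s < A → t₀ ≤ t → t < B → a * s + b * t < r) : a * A + b * B ≤ r := by
  by_contra hcon
  push Not at hcon
  set e : ℝ := a * A + b * B - r with he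
  have he0 : 0 < e := by linarith
  set d : ℝ := e / (2 * (a + b)) with hd
  have hd0 : 0 < d := by positivity
  have h1 := h (max s₀ (A - d)) (max t₀ (B - d)) (le_max_left _ _)
    (max_lt hs (by linarith)) (le_max_left _ _) (max_lt ht (by linarith))
  have h2 : A - d ≤ max s₀ (A - d) := le_max_right _ _
  have h3 : B - d ≤ max t₀ (B - d) := le_max_right _ _
  have h4 : a * (A - d) + b * (B - d) < r := by nlinarith
  have h5 : (a + b) * d = e / 2 := by
    rw [hd]; field_simp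
  nlinarith

end PkgEQ1

open PkgEQ1 in
theorem pEQ1 (hUNI : S_UNI) (hQNT : S_QNT) : S_EQ1 := by
  intro W hW μ hμ hc
  obtain ⟨hconv, hno⟩ := hc
  obtain ⟨-, -, hord, -, hq, -, hle⟩ := hUNI W hW
  have hgal := (hQNT μ hμ.prob).1
  have := hμ.prob
  have hlow : ∀ x ∈ spt W, ∃ s₀ < quant μ (cdf W x), ∀ s, s₀ ≤ s → s < quant μ (cdf W x) →
      s ∈ spt μ ∧ cdf μ s < cdf W x := by
    intro x hx
    obtain ⟨hx0, hx1⟩ := hx
    have hg := hgal (cdf W x) hx0 hx1
    have h1 : ¬ ∀ y < quant μ (cdf W x), cdf μ y = 0 := by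
      intro h
      have h2 := hno _ h
      have h3 := (hg (quant μ (cdf W x))).1 le_rfl
      linarith
    push Not at h1
    obtain ⟨s₀, hs₀, hs₀'⟩ := h1
    refine ⟨s₀, hs₀, fun s hs hs' => ?_⟩
    have h4 : cdf μ s < cdf W x := by
      by_contra hcon
      push Not at hcon
      have := (hg s).2 hcon
      linarith
    refine ⟨⟨?_, by linarith⟩, h4⟩
    have h5 : 0 < cdf μ s₀ := lt_of_le_of_ne (cdf_nonneg μ s₀) (Ne.symm hs₀')
    exact h5.trans_le (monotone_cdf μ hs)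
  have hlt : ∀ x ∈ spt W, ∀ s ∈ spt μ, cdf μ s < cdf W x → quant W (cdf μ s) < x := by
    intro x hx s hs h
    obtain ⟨h1, h2⟩ := hq (cdf μ s) ⟨hs.1, hs.2⟩
    by_contra hcon
    push Not at hcon
    have h3 := (hle x hx _ h1).2 hcon
    rw [h2] at h3
    linarith
  have hcv : Convex ℝ (spt W) := hord.convex
  refine ⟨hcv, ?_⟩
  intro x hx y hy a b ha hb hab
  rcases ha.eq_or_lt with rfl | ha
  · have hb1 : b = 1 := by linarith
    subst hb1
    simp
  rcases hb.eq_or_lt with rfl | hb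
  · have ha1 : a = 1 := by linarith
    subst ha1
    simp
  obtain ⟨s₀, hs₀, hs⟩ := hlow x hx
  obtain ⟨t₀, ht₀, ht⟩ := hlow y hy
  have hz : a • x + b • y ∈ spt W := hcv hx hy ha.le hb.le hab
  simp only [smul_eq_mul] at hz ⊢
  refine sup_le ha hb hs₀ ht₀ ?_
  intro s t hs1 hs2 ht1 ht2
  obtain ⟨hss, hsx⟩ := hs s hs1 hs2
  obtain ⟨hts, hty⟩ := ht t ht1 ht2
  have h1 := hlt x hx s hss hsx
  have h2 := hlt y hy t hts hty
  have h3 := hconv.2 hss hts ha.le hb.le hab
  have h4 := hconv.1 hss hts ha.le hb.le hab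
  simp only [smul_eq_mul] at h3 h4
  have h5 : quant W (cdf μ (a * s + b * t)) < a * x + b * y := by nlinarith
  obtain ⟨h6, h7⟩ := hq (cdf μ (a * s + b * t)) ⟨h4.1, h4.2⟩
  by_contra hcon
  push Not at hcon
  have h8 := (hgal (cdf W (a * x + b * y)) hz.1 hz.2 (a * s + b * t)).1 hcon
  rw [← h7] at h8
  have h9 := (hle _ hz _ h6).1 h8
  linarith

end Pool.Agent.T2H99.QB
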