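import Pool.Agent.T2H99.QB.Stm

/-!
# Package EQ2: concave functions give laws preceding `W` in the convex order
-/

open MeasureTheory ProbabilityTheory Set Filter Topology

noncomputable section

namespace Pool.Agent.T2H99.QB

namespace PkgEQ2

/-- points strictly between -/
theorem comb {f : ℝ → ℝ} {S : Set ℝ} (hf : ConcaveOn ℝ S f) {x y z : ℝ} (hx : x ∈ S) (hz : z ∈ S)
    (hxy : x < y) (hyz : y < z) : (z - y) * f x + (y - x) * f z ≤ (z - x) * f y := by
  have hp : 0 < z - x := by linarith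
  have ha : 0 ≤ (z - y) / (z - x) := div_nonneg (by linarith) hp.le
  have hb : 0 ≤ (y - x) / (z - x) := div_nonneg (by linarith) hp.le
  have hab : (z - y) / (z - x) + (y - x) / (z - x) = 1 := by field_simp; ring
  have h := hf.2 hx hz ha hb hab
  simp only [smul_eq_mul] at h
  have e : (z - y) / (z - x) * x + (y - x) / (z - x) * z = y := by field_simp; ring
  rw [e] at h
  have h2 := mul_le_mul_of_nonneg_left h hp.le
  have e2 : (z - x) * ((z - y) / (z - x) * f x + (y - x) / (z - x) * f z) =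
      (z - y) * f x + (y - x) * f z := by field_simp
  rw [e2] at h2
  exact h2

end PkgEQ2

open PkgEQ2 in
theorem pEQ2 (hUNI : S_UNI) (hQNT : S_QNT) (hLAW : S_LAW) : S_EQ2 := by
  intro W hW g hg hmono hsq hsd
  obtain ⟨hnull, hopen, hord, -, hq, -, hle⟩ := hUNI W hW
  have hcont : ContinuousOn g (spt W) := hg.continuousOn hopen
  obtain ⟨hD, hqg, -, -, -⟩ := hLAW W hW g hmono hcont hsq hsd
  set μ : Measure ℝ := W.map g with hμ
  have hWp := hW.prob
  have hμp := hD.prob
  -- the Galois connection for `g`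
  have hgal : ∀ x ∈ spt W, ∀ t : ℝ, g x ≤ t ↔ cdf W x ≤ cdf μ t := by
    intro x hx t
    rw [← hqg x hx]
    exact (hQNT μ hD.prob).1 (cdf W x) hx.1 hx.2 t
  have hright : ∀ x ∈ spt W, ∃ y ∈ spt W, x < y := by
    intro x hx
    obtain ⟨e, he, hb⟩ := Metric.isOpen_iff.1 hopen x hx
    refine ⟨x + e / 2, hb ?_, by linarith⟩
    rw [Metric.mem_ball, Real.dist_eq]
    rw [show x + e / 2 - x = e / 2 by ring, abs_of_pos (by linarith)]
    linarith
  have hleft : ∀ x ∈ spt W, ∃ y ∈ spt W, y < x := by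
    intro x hx
    obtain ⟨e, he, hb⟩ := Metric.isOpen_iff.1 hopen x hx
    refine ⟨x - e / 2, hb ?_, by linarith⟩
    rw [Metric.mem_ball, Real.dist_eq]
    rw [show x - e / 2 - x = -(e / 2) by ring, abs_neg, abs_of_pos (by linarith)]
    linarith
  -- facts on `φ s = quant W (cdf μ s)`
  have hφ : ∀ s ∈ spt μ, quant W (cdf μ s) ∈ spt W ∧ cdf W (quant W (cdf μ s)) = cdf μ s :=
    fun s hs => hq _ ⟨hs.1, hs.2⟩
  have hφle : ∀ s ∈ spt μ, g (quant W (cdf μ s)) ≤ s := by
    intro s hs
    obtain ⟨h1, h2⟩ := hφ s hs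
    exact (hgal _ h1 s).2 h2.le
  have hφgt : ∀ s ∈ spt μ, ∀ x ∈ spt W, quant W (cdf μ s) < x → s < g x := by
    intro s hs x hx hlt
    obtain ⟨h1, h2⟩ := hφ s hs
    by_contra hcon
    push Not at hcon
    have h3 := (hgal x hx s).1 hcon
    rw [← h2] at h3
    have h4 := (hle x hx _ h1).1 h3
    linarith
  have hφge : ∀ s ∈ spt μ, s ≤ g (quant W (cdf μ s)) := by
    intro s hs
    obtain ⟨h1, h2⟩ := hφ s hs
    obtain ⟨y, hy, hlt⟩ := hright _ h1
    have hc : ContinuousWithinAt g (Ioo (quant W (cdf μ s)) y) (quant W (cdf μ s)) := by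
      refine (hcont _ h1).mono ?_
      intro x hx
      exact hord.out h1 hy ⟨hx.1.le, hx.2.le⟩
    have hne : (𝓝[Ioo (quant W (cdf μ s)) y] (quant W (cdf μ s))).NeBot := by
      rw [← mem_closure_iff_nhdsWithin_neBot, closure_Ioo hlt.ne]
      exact ⟨le_rfl, hlt.le⟩
    refine ge_of_tendsto hc ?_
    filter_upwards [self_mem_nhdsWithin] with x hx
    exact (hφgt s hs x (hord.out h1 hy ⟨hx.1.le, hx.2.le⟩) hx.1).le
  have hcvW : Convex ℝ (spt W) := hord.convex
  have hcvμ : Convex ℝ (spt μ) := by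
    have : (spt μ).OrdConnected := by
      constructor
      intro x hx y hy z hz
      exact ⟨hx.1.trans_le (monotone_cdf μ hz.1), (monotone_cdf μ hz.2).trans_lt hy.2⟩
    exact this.convex
  refine ⟨⟨hcvμ, ?_⟩, ?_⟩
  · intro s hs t ht a b ha hb hab
    have hr := hcvμ hs ht ha hb hab
    obtain ⟨hs1, -⟩ := hφ s hs
    obtain ⟨ht1, -⟩ := hφ t ht
    have hz := hcvW hs1 ht1 ha hb hab
    have hgz := hg.2 hs1 ht1 ha hb hab
    simp only [smul_eq_mul] at hr hz hgz ⊢
    obtain ⟨hr1, -⟩ := hφ _ hr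
    have h1 := mul_le_mul_of_nonneg_left (hφge s hs) ha
    have h2 := mul_le_mul_of_nonneg_left (hφge t ht) hb
    have h3 : a * s + b * t ≤ g (a * quant W (cdf μ s) + b * quant W (cdf μ t)) := by linarith
    by_contra hcon
    push Not at hcon
    obtain ⟨x, hx, hlt⟩ := hright _ hr1
    have h4 := hφgt _ hr x hx hlt
    have h5 := hφle _ hr
    have h6 := comb hg hz hx hcon hlt
    have h7 := mul_le_mul_of_nonneg_left h3 (sub_nonneg.2 hlt.le)
    have h8 := mul_lt_mul_of_pos_left h4 (sub_pos.2 hcon)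
    have h9 := mul_le_mul_of_nonneg_left h5 (sub_nonneg.2 (hcon.trans hlt).le)
    nlinarith
  · intro x₀ hx₀
    by_contra hne
    have hpos : 0 < cdf μ x₀ := lt_of_le_of_ne (cdf_nonneg μ x₀) (Ne.symm hne)
    have hle1 : cdf μ x₀ ≤ 1 := cdf_le_one μ x₀
    have hge : ∀ w ∈ spt W, x₀ ≤ g w := by
      intro w hw
      by_contra hcon
      push Not at hcon
      have h1 := (hgal w hw (g w)).1 le_rfl
      rw [hx₀ _ hcon] at h1
      exact absurd hw.1 (not_lt.2 h1)
    obtain ⟨hc1, hc2⟩ := hq (cdf μ x₀ / 2) ⟨by linarith, by linarith⟩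
    set c := quant W (cdf μ x₀ / 2) with hc
    have hgc : g c ≤ x₀ := (hgal c hc1 x₀).2 (by rw [hc2]; linarith)
    have hall : ∀ d ∈ spt W, g d = x₀ := by
      intro d hd
      rcases le_or_gt d c with hdc | hdc
      · exact le_antisymm ((hmono hd hc1 hdc).trans hgc) (hge d hd)
      · refine le_antisymm ?_ (hge d hd)
        obtain ⟨w, hw, hwc⟩ := hleft c hc1
        have h1 := comb hg hw hd hwc hdc
        have h2 := hge w hw
        have h3 := mul_le_mul_of_nonneg_left h2 (sub_nonneg.2 hdc.le)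
        have h4 := mul_le_mul_of_nonneg_left hgc (sub_nonneg.2 (hwc.trans hdc).le)
        by_contra hcon
        push Not at hcon
        have h5 := mul_lt_mul_of_pos_left hcon (sub_pos.2 hwc)
        nlinarith
    have hae : ∀ᵐ x ∂W, g x = x₀ := by
      have : ∀ᵐ x ∂W, x ∈ spt W := by
        rw [ae_iff]
        exact hnull
      filter_upwards [this] with x hx
      exact hall x hx
    have hint : ∫ y, g y ∂W = x₀ := by
      rw [integral_congr_ae hae]
      simp
    have hz : sdW W g = 0 := by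
      unfold sdW
      rw [hint]
      have : ∫ x, (g x - x₀) ^ 2 ∂W = 0 := by
        have h0 : (fun x => (g x - x₀) ^ 2) =ᵐ[W] fun _ => (0 : ℝ) := by
          filter_upwards [hae] with x hx
          rw [hx]; simp
        rw [integral_congr_ae h0]
        simp
      rw [this, Real.sqrt_zero]
    linarith

end Pool.Agent.T2H99.QB
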