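import Pool.Agent.T2H99.QB.Stm

/-!
# MP_c5814c_pr, package EQS: star shaped functions give laws preceding `W` in the star order
-/

open MeasureTheory ProbabilityTheory Set Filter Topology

noncomputable section

namespace Pool.Agent.T2H99.QB

theorem pEQS (hUNI : S_UNI) (hQNT : S_QNT) (hLAW : S_LAW) : S_EQS := by
  intro W hW hbdd g hg
  have hWp : IsProbabilityMeasure W := hW.prob
  obtain ⟨hnull, hopen, hord, -, hquant, -, hiff⟩ := hUNI W hW
  obtain ⟨hdist, hqg, hcdf, -, -⟩ := hLAW W hW g hg.mono hg.cont hg.sq hg.nondeg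
  set μ : Measure ℝ := W.map g with hμ
  have hμp : IsProbabilityMeasure μ := hdist.prob
  obtain ⟨hgal, -⟩ := hQNT μ hμp
  -- the support of the image law is contained in the positive half line
  have hneg : ∀ y : ℝ, y ≤ 0 → cdf μ y = 0 := by
    intro y hy
    rw [hcdf y]
    have : {x | x ∈ spt W ∧ g x ≤ y} = ∅ := by
      ext x
      simp only [mem_setOf_eq, mem_empty_iff_false, iff_false, not_and, not_le]
      intro hx
      exact hy.trans_lt (hg.pos x hx)
    rw [this]
    simp
  have hpos : ∀ y : ℝ, 0 < y → 0 < cdf μ y := by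
    intro y hy
    obtain ⟨x₀, hx₀, hgx₀⟩ := hg.lim y hy
    have h1 : quant μ (cdf W x₀) ≤ y := by rw [hqg x₀ hx₀]; exact hgx₀
    exact hx₀.1.trans_le ((hgal _ hx₀.1 hx₀.2 y).mp h1)
  have hset : {x | 0 < cdf μ x} = Ioi (0 : ℝ) := by
    ext y
    simp only [mem_setOf_eq, mem_Ioi]
    constructor
    · intro h
      by_contra hy
      rw [hneg y (not_lt.mp hy)] at h
      exact lt_irrefl _ h
    · exact hpos y
  have hlep : lep μ = 0 := by
    unfold lep
    rw [hset]
    exact csInf_Ioi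
  have hlW : ∀ x ∈ spt W, lep W < x := by
    intro x hx
    obtain ⟨ε, hε, hball⟩ := Metric.isOpen_iff.mp hopen x hx
    have hmem : x - ε / 2 ∈ spt W := by
      apply hball
      rw [Metric.mem_ball, Real.dist_eq]
      have : x - ε / 2 - x = -(ε / 2) := by ring
      rw [this, abs_neg, abs_of_pos (by linarith)]
      linarith
    have h1 : lep W ≤ x - ε / 2 := csInf_le hbdd hmem.1
    linarith
  -- the point with `g x = y`
  have key : ∀ y : ℝ, 0 < y → cdf μ y < 1 →
      quant W (cdf μ y) ∈ spt W ∧ cdf W (quant W (cdf μ y)) = cdf μ y ∧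
        g (quant W (cdf μ y)) = y := by
    intro y hy hy1
    have hu0 : 0 < cdf μ y := hpos y hy
    obtain ⟨hxs, hxe⟩ := hquant (cdf μ y) ⟨hu0, hy1⟩
    refine ⟨hxs, hxe, le_antisymm ?_ ?_⟩
    · have h1 := hqg _ hxs
      rw [hxe] at h1
      rw [← h1]
      exact (hgal _ hu0 hy1 y).mpr le_rfl
    · by_contra hlt
      have hlt : g (quant W (cdf μ y)) < y := not_le.mp hlt
      obtain ⟨x₁, hx₁, hgx₁⟩ : ∃ x₁ ∈ spt W, y < g x₁ := by
        by_contra hno
        push Not at hno
        have hs : {x | x ∈ spt W ∧ g x ≤ y} = spt W := by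
          ext x
          simp only [mem_setOf_eq, and_iff_left_iff_imp]
          exact hno x
        have h1 : W (spt W) = 1 := (prob_compl_eq_zero_iff hopen.measurableSet).mp hnull
        have h2 := hcdf y
        rw [hs, measureReal_def, h1, ENNReal.toReal_one] at h2
        rw [h2] at hy1
        exact lt_irrefl _ hy1
      have hle : quant W (cdf μ y) ≤ x₁ := by
        by_contra h
        have := hg.mono hx₁ hxs (not_le.mp h).le
        linarith
      obtain ⟨z, hz, hgz⟩ := intermediate_value_Icc hle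
        (hg.cont.mono (hord.out hxs hx₁)) ⟨hlt.le, hgx₁.le⟩
      have hzs : z ∈ spt W := hord.out hxs hx₁ hz
      have h3 : cdf W z ≤ cdf μ y := by
        refine (hgal _ hzs.1 hzs.2 y).mp ?_
        rw [hqg z hzs, hgz]
      rw [← hxe] at h3
      have h4 : z ≤ quant W (cdf μ y) := (hiff z hzs _ hxs).mp h3
      have h5 : z = quant W (cdf μ y) := le_antisymm h4 hz.1
      rw [h5] at hgz
      linarith
  refine ⟨?_, ?_⟩
  · rw [hset]
    exact bddBelow_Ioi
  · rw [hlep]
    intro y₁ hy₁ y₂ hy₂ h12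
    obtain ⟨hs1, he1, hg1⟩ := key y₁ hy₁.1 hy₁.2
    obtain ⟨hs2, he2, hg2⟩ := key y₂ hy₂.1 hy₂.2
    have hx12 : quant W (cdf μ y₁) ≤ quant W (cdf μ y₂) := by
      rw [← hiff _ hs1 _ hs2, he1, he2]
      exact monotone_cdf μ h12
    have hA := hg.anti hs1 hs2 hx12
    have hA' : g (quant W (cdf μ y₂)) / (quant W (cdf μ y₂) - lep W) ≤
      g (quant W (cdf μ y₁)) / (quant W (cdf μ y₁) - lep W) := hA
    rw [hg1, hg2] at hA'
    have p1 := hlW _ hs1
    have p2 := hlW _ hs2
    rw [div_le_div_iff₀ (by linarith) (by linarith)] at hA'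
    show (quant W (cdf μ y₁) - lep W) / (y₁ - 0) ≤ (quant W (cdf μ y₂) - lep W) / (y₂ - 0)
    have q1 : 0 < y₁ := hy₁.1
    have q2 : 0 < y₂ := hy₂.1
    rw [sub_zero, sub_zero, div_le_div_iff₀ q1 q2]
    linarith

end Pool.Agent.T2H99.QB
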