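import Pool.Agent.T2H99.QB.Stm

/-!
# QB package EXI: existence of the solution of the variational inequality

`k = P (h + c)`, `P` the projection onto the cone in `L²(W)` and `c = ∫ k` the fixed point of the
contraction `c ↦ ∫ P (h + c)` of the line.
-/

open MeasureTheory ProbabilityTheory Set Filter Topology

noncomputable section

namespace Pool.Agent.T2H99.QB

namespace PkgEXI

/-- the cone in `L²` -/
def KK (W : Measure ℝ) (p : ℝ) : Set (Lp ℝ 2 W) := {v | ∃ k : ℝ → ℝ, InK W p k ∧ v =ᵐ[W] k}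

lemma inner_eq (W : Measure ℝ) (u v : Lp ℝ 2 W) : inner ℝ u v = ∫ x, u x * v x ∂W := by
  rw [L2.inner_def]
  refine integral_congr_ae (Eventually.of_forall fun x => ?_)
  simp [mul_comm]

lemma normsq_eq (W : Measure ℝ) (u : Lp ℝ 2 W) : ‖u‖ ^ 2 = ∫ x, (u x) ^ 2 ∂W := by
  rw [← real_inner_self_eq_norm_sq, inner_eq]
  refine integral_congr_ae (Eventually.of_forall fun x => ?_)
  simp only []
  ring

lemma memLp (hMEA : S_MEA) (W : Measure ℝ) (hW : Ref W) (p : ℝ) (k : ℝ → ℝ) (hk : InK W p k) :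
    MemLp k 2 W :=
  (memLp_two_iff_integrable_sq (hMEA W hW k (Or.inr hk.anti))).2 hk.sq

lemma zero_mem (hUNI : S_UNI) (W : Measure ℝ) (hW : Ref W) (p : ℝ) :
    InK W p (fun _ => 0) where
  conv := convexOn_const 0 (hUNI W hW).2.2.1.convex
  anti := fun _ _ _ _ _ => le_rfl
  zero := fun _ _ _ => rfl
  sq := by simp

lemma comb_mem (hMEA : S_MEA) (W : Measure ℝ) (hW : Ref W) (p : ℝ) (k k' : ℝ → ℝ)
    (hk : InK W p k) (hk' : InK W p k') (a b : ℝ) (ha : 0 ≤ a) (hb : 0 ≤ b) :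
    InK W p (fun x => a * k x + b * k' x) where
  conv := by
    have h1 := (hk.conv.smul ha).add (hk'.conv.smul hb)
    simpa [smul_eq_mul, Pi.add_def] using h1
  anti := by
    intro x hx y hy hxy
    have h1 := hk.anti hx hy hxy
    have h2 := hk'.anti hx hy hxy
    have := mul_le_mul_of_nonneg_left h1 ha
    have := mul_le_mul_of_nonneg_left h2 hb
    simp only []
    linarith
  zero := by
    intro x hx hxw
    rw [hk.zero x hx hxw, hk'.zero x hx hxw]
    ring
  sq := by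
    have h1 := memLp hMEA W hW p k hk
    have h2 := memLp hMEA W hW p k' hk'
    have h3 : MemLp (fun x => a * k x + b * k' x) 2 W := (h1.const_mul a).add (h2.const_mul b)
    exact (memLp_two_iff_integrable_sq h3.1).1 h3

lemma KK_comb (hMEA : S_MEA) (W : Measure ℝ) (hW : Ref W) (p : ℝ) (u v : Lp ℝ 2 W)
    (hu : u ∈ KK W p) (hv : v ∈ KK W p) (a b : ℝ) (ha : 0 ≤ a) (hb : 0 ≤ b) :
    a • u + b • v ∈ KK W p := by
  obtain ⟨k, hk, hku⟩ := hu
  obtain ⟨k', hk', hkv⟩ := hv
  refine ⟨_, comb_mem hMEA W hW p k k' hk hk' a b ha hb, ?_⟩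
  filter_upwards [Lp.coeFn_add (a • u) (b • v), Lp.coeFn_smul a u, Lp.coeFn_smul b v, hku, hkv]
    with x h1 h2 h3 h4 h5
  rw [h1, Pi.add_apply, h2, h3, Pi.smul_apply, Pi.smul_apply, h4, h5, smul_eq_mul, smul_eq_mul]

lemma KK_zero (hUNI : S_UNI) (W : Measure ℝ) (hW : Ref W) (p : ℝ) : (0 : Lp ℝ 2 W) ∈ KK W p := by
  refine ⟨_, zero_mem hUNI W hW p, ?_⟩
  filter_upwards [Lp.coeFn_zero ℝ 2 W] with x hx
  rw [hx]
  rfl

lemma KK_closed (hCLO : S_CLO) (W : Measure ℝ) (hW : Ref W) (p : ℝ) (hp0 : 0 < p) (hp1 : p < 1) :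
    IsClosed (KK W p) := by
  refine IsSeqClosed.isClosed ?_
  intro v u hv hu
  choose k hk hvk using hv
  have ht : Tendsto (fun i => ∫ x, (k i x - u x) ^ 2 ∂W) atTop (𝓝 0) := by
    have h1 : Tendsto (fun i => ‖v i - u‖ ^ 2) atTop (𝓝 0) := by
      have := (tendsto_iff_norm_sub_tendsto_zero.1 hu).pow 2
      simpa using this
    refine h1.congr fun i => ?_
    rw [normsq_eq]
    refine integral_congr_ae ?_
    filter_upwards [Lp.coeFn_sub (v i) u, hvk i] with x h1 h2
    rw [h1, Pi.sub_apply, h2]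
  obtain ⟨k₀, hk₀, hk₀'⟩ := hCLO W hW p hp0 hp1 k hk u (Lp.aestronglyMeasurable u)
    ((memLp_two_iff_integrable_sq (Lp.aestronglyMeasurable u)).1 (Lp.memLp u)) ht
  exact ⟨k₀, hk₀, hk₀'.symm⟩

lemma proj (hUNI : S_UNI) (hMEA : S_MEA) (hCLO : S_CLO) (W : Measure ℝ) (hW : Ref W) (p : ℝ)
    (hp0 : 0 < p) (hp1 : p < 1) (x : Lp ℝ 2 W) :
    ∃ u ∈ KK W p, inner ℝ (x - u) u = 0 ∧ ∀ w ∈ KK W p, inner ℝ (x - u) w ≤ 0 := by
  have hc := KK_closed hCLO W hW p hp0 hp1
  have h0 := KK_zero hUNI W hW p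
  have hconv : Convex ℝ (KK W p) := by
    intro u hu v hv a b ha hb _
    exact KK_comb hMEA W hW p u v hu hv a b ha hb
  obtain ⟨u, hu, hmin⟩ := exists_norm_eq_iInf_of_complete_convex ⟨0, h0⟩ hc.isComplete hconv x
  have h1 := (norm_eq_iInf_iff_real_inner_le_zero hconv hu).1 hmin
  have h2 := h1 0 h0
  have h3 := h1 ((1 : ℝ) • u + (1 : ℝ) • u)
    (KK_comb hMEA W hW p u u hu hu 1 1 zero_le_one zero_le_one)
  rw [zero_sub, inner_neg_right] at h2
  have h4 : (1 : ℝ) • u + (1 : ℝ) • u - u = u := by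
    rw [one_smul, add_sub_cancel_right]
  rw [h4] at h3
  have h5 : inner ℝ (x - u) u = 0 := le_antisymm h3 (by linarith)
  refine ⟨u, hu, h5, fun w hw => ?_⟩
  have h6 := h1 w hw
  rw [inner_sub_right, h5, sub_zero] at h6
  exact h6

/-- Cauchy-Schwarz for the functions vanishing on the right. -/
lemma cs (hUNI : S_UNI) (W : Measure ℝ) (hW : Ref W) (p : ℝ)
    (hp0 : 0 < p) (hp1 : p < 1) (d : ℝ → ℝ) (hd : MemLp d 2 W)
    (h0 : ∀ x ∈ spt W, quant W p ≤ x → d x = 0) :
    (∫ x, d x ∂W) ^ 2 ≤ p * ∫ x, d x ^ 2 ∂W := by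
  have := hW.prob
  obtain ⟨hn, -, -, -, hq, -, -⟩ := hUNI W hW
  have hi : Integrable d W := hd.integrable (by norm_num)
  have hi2 : Integrable (fun x => d x ^ 2) W := (memLp_two_iff_integrable_sq hd.1).1 hd
  have hae : ∀ᵐ x ∂W, x ∈ spt W := by
    rw [ae_iff]
    exact hn
  set e := ∫ x, d x ∂W with he
  set w := quant W p with hw
  have hP : W.real (Iic w) = p := by
    rw [← cdf_eq_real]
    exact (hq p ⟨hp0, hp1⟩).2
  have h1 : 0 ≤ ∫ x, (d x - (e / p) * (Iic w).indicator (fun _ => (1 : ℝ)) x) ^ 2 ∂W :=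
    integral_nonneg fun x => sq_nonneg _
  have h2 : ∫ x, (d x - (e / p) * (Iic w).indicator (fun _ => (1 : ℝ)) x) ^ 2 ∂W =
      ∫ x, (d x ^ 2 - 2 * (e / p) * d x +
        (e / p) ^ 2 * (Iic w).indicator (fun _ => (1 : ℝ)) x) ∂W := by
    refine integral_congr_ae ?_
    filter_upwards [hae] with x hx
    by_cases hxw : x ≤ w
    · rw [indicator_of_mem (show x ∈ Iic w from hxw)]
      ring
    · rw [indicator_of_notMem (show x ∉ Iic w from hxw), h0 x hx (le_of_lt (not_le.1 hxw))]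
      ring
  have h3 : Integrable ((Iic w).indicator (fun _ => (1 : ℝ))) W :=
    (integrable_const 1).indicator measurableSet_Iic
  have g1 : Integrable (fun x => 2 * (e / p) * d x) W := hi.const_mul _
  have g2 : Integrable (fun x => (e / p) ^ 2 * (Iic w).indicator (fun _ => (1 : ℝ)) x) W :=
    h3.const_mul _
  have g3 : Integrable (fun x => d x ^ 2 - 2 * (e / p) * d x) W := hi2.sub g1
  rw [h2, integral_add g3 g2,
    integral_sub hi2 g1, integral_const_mul, integral_const_mul,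
    integral_indicator measurableSet_Iic, setIntegral_const, hP, ← he, smul_eq_mul, mul_one] at h1
  have h4 : e ^ 2 / p ≤ ∫ x, d x ^ 2 ∂W := by
    have h5 : 2 * (e / p) * e - (e / p) ^ 2 * p = e ^ 2 / p := by
      field_simp
      ring
    linarith
  rw [div_le_iff₀ hp0] at h4
  linarith

end PkgEXI

open PkgEXI in
theorem pEXI (hUNI : S_UNI) (hFF : S_FF) (hHH : S_HH) (hMEA : S_MEA) (hCLO : S_CLO) : S_EXI := by
  intro W hW n j p hpar
  have := hW.prob
  have hp0 := hpar.p0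
  have hp1 := hpar.p1
  obtain ⟨⟨C, hC⟩, -, hm, -, -, -, -⟩ := hHH W hW n j p hpar
  have hL : ∀ c : ℝ, MemLp (fun x => f n j (cdf W x) + c) 2 W := by
    intro c
    exact (MemLp.of_bound hm.aestronglyMeasurable C (Eventually.of_forall fun x => by
      simpa [Real.norm_eq_abs] using hC x)).add (memLp_const c)
  choose P hPK hP0 hPle using fun c : ℝ => proj hUNI hMEA hCLO W hW p hp0 hp1 ((hL c).toLp _)
  choose k hk hkP using hPK
  have hint : ∀ c, ∫ x, P c x ∂W = ∫ x, k c x ∂W := fun c => integral_congr_ae (hkP c)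
  -- inner products
  have hin : ∀ (c : ℝ) (w : Lp ℝ 2 W) (k' : ℝ → ℝ), w =ᵐ[W] k' →
      inner ℝ ((hL c).toLp _ - P c) w = ∫ x, k' x * (f n j (cdf W x) - k c x + c) ∂W := by
    intro c w k' hw
    rw [inner_eq]
    refine integral_congr_ae ?_
    filter_upwards [Lp.coeFn_sub ((hL c).toLp _) (P c), (hL c).coeFn_toLp, hkP c, hw]
      with x h1 h2 h3 h4
    rw [h1, Pi.sub_apply, h2, h3, h4]
    ring
  -- contraction
  have hcon : ∀ c c' : ℝ, |(∫ x, k c x ∂W) - ∫ x, k c' x ∂W| ≤ p * |c - c'| := by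
    intro c c'
    have hd : MemLp (fun x => k c x - k c' x) 2 W :=
      (memLp hMEA W hW p _ (hk c)).sub (memLp hMEA W hW p _ (hk c'))
    have h1 := cs hUNI W hW p hp0 hp1 _ hd (by
      intro x hx hxw
      rw [(hk c).zero x hx hxw, (hk c').zero x hx hxw, sub_zero])
    have hi1 : Integrable (k c) W := (memLp hMEA W hW p _ (hk c)).integrable (by norm_num)
    have hi2 : Integrable (k c') W := (memLp hMEA W hW p _ (hk c')).integrable (by norm_num)
    rw [integral_sub hi1 hi2] at h1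
    set e := (∫ x, k c x ∂W) - ∫ x, k c' x ∂W with he
    -- the norm
    have h2 : ∫ x, (k c x - k c' x) ^ 2 ∂W ≤ (c - c') * e := by
      have e1 := hP0 c
      have e2 := hP0 c'
      have e3 := hPle c (P c') ⟨_, hk c', hkP c'⟩
      have e4 := hPle c' (P c) ⟨_, hk c, hkP c⟩
      have e5 : inner ℝ (((hL c).toLp _ - P c) - ((hL c').toLp _ - P c')) (P c - P c') =
          (c - c') * e - ∫ x, (k c x - k c' x) ^ 2 ∂W := by
        rw [inner_eq, he, ← integral_sub hi1 hi2, ← integral_const_mul, ← integral_sub]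
        · refine integral_congr_ae ?_
          filter_upwards [Lp.coeFn_sub ((hL c).toLp _ - P c) ((hL c').toLp _ - P c'),
            Lp.coeFn_sub ((hL c).toLp _) (P c), Lp.coeFn_sub ((hL c').toLp _) (P c'),
            (hL c).coeFn_toLp, (hL c').coeFn_toLp, hkP c, hkP c', Lp.coeFn_sub (P c) (P c')]
            with x g1 g2 g3 g4 g5 g6 g7 g8
          rw [g1, g8, Pi.sub_apply, Pi.sub_apply, g2, g3, Pi.sub_apply, Pi.sub_apply, g4, g5, g6,
            g7]
          ring
        · exact (hi1.sub hi2).const_mul _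
        · exact (memLp_two_iff_integrable_sq hd.1).1 hd
      have e6 : 0 ≤ inner ℝ (((hL c).toLp _ - P c) - ((hL c').toLp _ - P c')) (P c - P c') := by
        rw [inner_sub_left, inner_sub_right, inner_sub_right]
        linarith
      linarith
    have h3 : e ^ 2 ≤ p * ((c - c') * e) := le_trans h1 (mul_le_mul_of_nonneg_left h2 hp0.le)
    rcases eq_or_ne e 0 with h | h
    · rw [h, abs_zero]
      positivity
    · have h4 : |e| * |e| ≤ (p * |c - c'|) * |e| := by
        calc |e| * |e| = e ^ 2 := by rw [← sq, sq_abs]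
          _ ≤ p * ((c - c') * e) := h3
          _ ≤ p * |(c - c') * e| := mul_le_mul_of_nonneg_left (le_abs_self _) hp0.le
          _ = (p * |c - c'|) * |e| := by rw [abs_mul]; ring
      exact le_of_mul_le_mul_right h4 (abs_pos.2 h)
  have hcw : ContractingWith (Real.toNNReal p) (fun c => ∫ x, k c x ∂W) := by
    refine ⟨?_, LipschitzWith.of_dist_le' fun c c' => ?_⟩
    · rw [← Real.toNNReal_one]
      exact (Real.toNNReal_lt_toNNReal_iff one_pos).2 hp1
    · rw [Real.dist_eq, Real.dist_eq]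
      exact hcon c c'
  obtain ⟨c, hc⟩ : ∃ c : ℝ, ∫ x, k c x ∂W = c := ⟨_, hcw.fixedPoint_isFixedPt⟩
  refine ⟨k c, hk c, fun k' hk' => ?_, ?_⟩
  · have hm' := memLp hMEA W hW p _ hk'
    have h1 := hPle c (hm'.toLp _) ⟨k', hk', hm'.coeFn_toLp⟩
    rw [hin c _ k' hm'.coeFn_toLp] at h1
    simpa only [res, hc] using h1
  · have h1 := hP0 c
    rw [hin c _ _ (hkP c)] at h1
    simpa only [res, hc] using h1

end Pool.Agent.T2H99.QB
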