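import Pool.Agent.T2H99.QB.Stm

/-!
# QB package FF: elementary facts on `f` and `G`
-/

open MeasureTheory ProbabilityTheory Set Filter Topology

noncomputable section

namespace Pool.Agent.T2H99.QB

namespace PkgFF

/-- `u ^ a (1 - u) ^ b` -/
def φ (a b : ℕ) (u : ℝ) : ℝ := u ^ a * (1 - u) ^ b

theorem hasDerivAt_φ (a b : ℕ) (u : ℝ) :
    HasDerivAt (φ a b) (a * u ^ (a - 1) * (1 - u) ^ b - u ^ a * (b * (1 - u) ^ (b - 1))) u := by
  have h1 : HasDerivAt (fun u : ℝ => u ^ a) (a * u ^ (a - 1)) u := hasDerivAt_pow a u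
  have h2 : HasDerivAt (fun u : ℝ => (1 - u) ^ b) (b * (1 - u) ^ (b - 1) * (-1)) u := by
    have h3 : HasDerivAt (fun u : ℝ => 1 - u) (-1) u := by
      simpa using (hasDerivAt_id u).const_sub 1
    exact (hasDerivAt_pow b (1 - u)).comp u h3
  have h4 := h1.mul h2
  refine h4.congr_deriv ?_
  ring

theorem deriv_form (a b : ℕ) (ha : 1 ≤ a) (hb : 1 ≤ b) (u : ℝ) :
    (a : ℝ) * u ^ (a - 1) * (1 - u) ^ b - u ^ a * (b * (1 - u) ^ (b - 1)) =
      u ^ (a - 1) * (1 - u) ^ (b - 1) * (a - (a + b) * u) := by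
  obtain ⟨a', rfl⟩ : ∃ a', a = a' + 1 := ⟨a - 1, by omega⟩
  obtain ⟨b', rfl⟩ : ∃ b', b = b' + 1 := ⟨b - 1, by omega⟩
  simp only [Nat.add_sub_cancel]
  rw [pow_succ, pow_succ]
  ring

theorem deriv_neg (a b : ℕ) (hb : 1 ≤ b) (u : ℝ) (hu0 : 0 < u) (hu1 : u < 1)
    (hu : (a : ℝ) / (a + b) < u) :
    (a : ℝ) * u ^ (a - 1) * (1 - u) ^ b - u ^ a * (b * (1 - u) ^ (b - 1)) < 0 := by
  have hb0 : (0 : ℝ) < b := by exact_mod_cast hb
  have h1u : 0 < 1 - u := by linarith
  rcases Nat.eq_zero_or_pos a with rfl | ha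
  · simp only [Nat.cast_zero, zero_mul, pow_zero, one_mul, zero_sub]
    have : 0 < (b : ℝ) * (1 - u) ^ (b - 1) := by positivity
    linarith
  · rw [deriv_form a b ha hb]
    have ha0 : (0 : ℝ) < a := by exact_mod_cast ha
    have h2 : (a : ℝ) - (a + b) * u < 0 := by
      rw [div_lt_iff₀ (by positivity)] at hu
      nlinarith
    have h3 : 0 < u ^ (a - 1) * (1 - u) ^ (b - 1) := by positivity
    exact mul_neg_of_pos_of_neg h3 h2

theorem deriv_nonneg (a b : ℕ) (hb : 1 ≤ b) (u : ℝ) (hu0 : 0 < u) (hu1 : u < 1)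
    (hu : u < (a : ℝ) / (a + b)) :
    0 ≤ (a : ℝ) * u ^ (a - 1) * (1 - u) ^ b - u ^ a * (b * (1 - u) ^ (b - 1)) := by
  have hb0 : (0 : ℝ) < b := by exact_mod_cast hb
  have h1u : 0 < 1 - u := by linarith
  rcases Nat.eq_zero_or_pos a with rfl | ha
  · exfalso
    simp only [Nat.cast_zero, zero_div] at hu
    linarith
  · rw [deriv_form a b ha hb]
    have ha0 : (0 : ℝ) < a := by exact_mod_cast ha
    have h2 : 0 ≤ (a : ℝ) - (a + b) * u := by
      rw [lt_div_iff₀ (by positivity)] at hu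
      nlinarith
    have h3 : 0 < u ^ (a - 1) * (1 - u) ^ (b - 1) := by positivity
    exact mul_nonneg h3.le h2

theorem f_eq (n j : ℕ) (u : ℝ) : f n j u = ((j : ℝ) * (n.choose j : ℝ)) * φ (j - 1) (n - j) u := by
  unfold f φ
  ring

end PkgFF

open PkgFF in
theorem pFF (hBET : S_BET) : S_FF := by
  intro n j p hP
  obtain ⟨hn2, hj1, hjn, hp0, hp1, hmp⟩ := hP
  obtain ⟨hG, hG0⟩ := hBET n j hj1 hjn
  have hn1 : (0 : ℝ) < (n : ℝ) - 1 := by
    have : (2 : ℝ) ≤ n := by exact_mod_cast hn2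
    linarith
  have hm1 : ((j : ℝ) - 1) / ((n : ℝ) - 1) < 1 := lt_of_le_of_lt hmp hp1
  have hj1' : (1 : ℝ) ≤ j := by exact_mod_cast hj1
  have hm0 : 0 ≤ ((j : ℝ) - 1) / ((n : ℝ) - 1) := div_nonneg (by linarith) hn1.le
  have hjn' : j < n := by
    rw [div_lt_one hn1] at hm1
    have : (j : ℝ) < n := by linarith
    exact_mod_cast this
  have hc : 0 < (j : ℝ) * (n.choose j : ℝ) := by
    have h1 : 0 < n.choose j := Nat.choose_pos hjn
    positivity
  have hb : 1 ≤ n - j := by omega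
  have hcast : ((j - 1 : ℕ) : ℝ) / (((j - 1 : ℕ) : ℝ) + ((n - j : ℕ) : ℝ)) =
      ((j : ℝ) - 1) / ((n : ℝ) - 1) := by
    rw [Nat.cast_sub hj1, Nat.cast_sub hjn]
    push_cast
    congr 1
    ring
  have hcont : Continuous (f n j) := by
    unfold f
    fun_prop
  have hpos : ∀ u ∈ Ioo (0 : ℝ) 1, 0 < f n j u := by
    intro u hu
    rw [f_eq]
    unfold φ
    have h1 : 0 < 1 - u := by linarith [hu.2]
    have h2 : 0 < u := hu.1
    positivity
  have hf1 : f n j 1 = 0 := by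
    unfold f
    rw [sub_self, zero_pow (by omega), mul_zero]
  have hderiv : ∀ u : ℝ, HasDerivAt (f n j) (((j : ℝ) * (n.choose j : ℝ)) *
      (((j - 1 : ℕ) : ℝ) * u ^ (j - 1 - 1) * (1 - u) ^ (n - j) -
        u ^ (j - 1) * (((n - j : ℕ) : ℝ) * (1 - u) ^ (n - j - 1)))) u := by
    intro u
    have h1 := (hasDerivAt_φ (j - 1) (n - j) u).const_mul ((j : ℝ) * (n.choose j : ℝ))
    have h2 : f n j = fun u => ((j : ℝ) * (n.choose j : ℝ)) * φ (j - 1) (n - j) u :=
      funext (f_eq n j)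
    rw [h2]
    exact h1
  refine ⟨hjn', hcont, ?_, hpos, ?_, ?_, ?_, ?_, hf1, ?_, hm0, hm1⟩
  · intro u hu
    unfold f
    have h1 : 0 ≤ 1 - u := by linarith [hu.2]
    have h2 : 0 ≤ u := hu.1
    positivity
  · refine strictAntiOn_of_deriv_neg (convex_Icc _ _) hcont.continuousOn fun u hu => ?_
    rw [interior_Icc] at hu
    rw [(hderiv u).deriv]
    refine mul_neg_of_pos_of_neg hc ?_
    refine deriv_neg (j - 1) (n - j) hb u (lt_of_le_of_lt hm0 hu.1) hu.2 ?_
    rw [hcast]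
    exact hu.1
  · refine monotoneOn_of_deriv_nonneg (convex_Icc _ _) hcont.continuousOn
      (fun u _ => (hderiv u).differentiableAt.differentiableWithinAt) fun u hu => ?_
    rw [interior_Icc] at hu
    rw [(hderiv u).deriv]
    refine mul_nonneg hc.le ?_
    refine deriv_nonneg (j - 1) (n - j) hb u hu.1 (hu.2.trans hm1) ?_
    rw [hcast]
    exact hu.2
  · rw [hG0 0, intervalIntegral.integral_same]
  · unfold G
    rw [Finset.sum_eq_single n]
    · simp
    · intro i hi hin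
      rw [Finset.mem_Ico] at hi
      rw [sub_self, zero_pow (by omega), mul_zero]
    · intro h
      exfalso
      apply h
      rw [Finset.mem_Ico]
      omega
  · refine strictMonoOn_of_deriv_pos (convex_Icc _ _)
      (fun u _ => (hG u).continuousAt.continuousWithinAt) fun u hu => ?_
    rw [interior_Icc] at hu
    rw [(hG u).deriv]
    exact hpos u hu

end Pool.Agent.T2H99.QB
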