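import Pool.Agent.T2H99.QB.Stm

/-!
# Package HH: the weight `h = f n j ∘ cdf W`
-/

set_option autoImplicit false

open MeasureTheory ProbabilityTheory Set Filter Topology

noncomputable section

namespace Pool.Agent.T2H99.QB

theorem pHH (hUNI : S_UNI) (hFF : S_FF) (hBET : S_BET) : S_HH := by
  intro W hW n j p hp
  haveI := hW.prob
  obtain ⟨hnull, hopen, hord, hmap, hqu, hxq, hle⟩ := hUNI W hW
  obtain ⟨hjn, hcont, hnn, hpos, hanti, hmono, hG0, hG1, hf1, hGm, hm0, hm1⟩ := hFF n j p hp
  obtain ⟨hder, hint⟩ := hBET n j hp.j1 hp.jn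
  have hcdf : Measurable (cdf W : ℝ → ℝ) := (monotone_cdf W).measurable
  have hmem : ∀ x, cdf W x ∈ Icc (0 : ℝ) 1 := fun x => ⟨cdf_nonneg W x, cdf_le_one W x⟩
  have hmeas : Measurable (fun x => f n j (cdf W x)) := hcont.measurable.comp hcdf
  obtain ⟨C, hC⟩ : ∃ C : ℝ, ∀ x, |f n j (cdf W x)| ≤ C := by
    obtain ⟨C, hC⟩ := isCompact_Icc.exists_bound_of_continuousOn (s := Icc (0 : ℝ) 1)
      (hcont.continuousOn)
    exact ⟨C, fun x => hC _ (hmem x)⟩
  have htr : ∀ φ : ℝ → ℝ, Measurable φ → ∫ x, φ (cdf W x) ∂W = ∫ u in (0 : ℝ)..1, φ u := by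
    intro φ hφ
    have h1 : ∫ x, φ (cdf W x) ∂W = ∫ u, φ u ∂(W.map (cdf W)) :=
      (integral_map hcdf.aemeasurable hφ.aestronglyMeasurable).symm
    rw [h1, hmap, intervalIntegral.integral_of_le zero_le_one, integral_Ioc_eq_integral_Ioo]
  have hone : ∫ x, f n j (cdf W x) ∂W = 1 := by
    rw [htr (f n j) hcont.measurable, ← hint 1, hG1]
  refine ⟨⟨C, hC⟩, fun x => hnn _ (hmem x), hmeas, htr, hone, ?_, ?_⟩
  · intro t
    set c : ℝ := cdf W t with hc
    have hc0 : 0 ≤ c := (hmem t).1
    have hc1 : c ≤ 1 := (hmem t).2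
    have h1 : ∫ x in Iic t, f n j (cdf W x) ∂W =
        ∫ x, (Iic c).indicator (f n j) (cdf W x) ∂W := by
      rw [← integral_indicator measurableSet_Iic]
      apply integral_congr_ae
      have h2 : ∀ᵐ x ∂W, x ∈ spt W := by
        have h3 := measure_eq_zero_iff_ae_notMem.1 hnull
        filter_upwards [h3] with x hx
        exact not_not.1 hx
      filter_upwards [h2] with x hx
      have h4 : x ∈ Iic t ↔ cdf W x ∈ Iic c := by
        constructor
        · intro h
          exact (monotone_cdf W) h
        · intro h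
          by_contra hlt
          have hlt' : t < x := not_le.1 hlt
          have h5 : cdf W t ≤ cdf W x := (monotone_cdf W) hlt'.le
          have h6 : cdf W t = cdf W x := le_antisymm h5 h
          have ht : t ∈ spt W := by
            refine ⟨?_, ?_⟩
            · rw [h6]
              exact hx.1
            · rw [h6]
              exact hx.2
          have h7 := hW.strict ht hx hlt'
          rw [h6] at h7
          exact lt_irrefl _ h7
      by_cases hxt : x ∈ Iic t
      · rw [indicator_of_mem hxt, indicator_of_mem (h4.1 hxt)]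
      · rw [indicator_of_notMem hxt, indicator_of_notMem (fun h => hxt (h4.2 h))]
    rw [h1, htr _ (hcont.measurable.indicator measurableSet_Iic),
      intervalIntegral.integral_of_le zero_le_one, integral_indicator measurableSet_Iic,
      Measure.restrict_restrict measurableSet_Iic]
    have h8 : Iic c ∩ Ioc (0 : ℝ) 1 = Ioc 0 c := by
      ext u
      constructor
      · rintro ⟨h9, h10⟩
        exact ⟨h10.1, h9⟩
      · rintro ⟨h9, h10⟩
        exact ⟨h10, h9, h10.trans hc1⟩
    rw [h8, ← intervalIntegral.integral_of_le hc0, ← hint c]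
  · intro g hg hg2
    have hL2 : MemLp g 2 W := (memLp_two_iff_integrable_sq hg).2 hg2
    have hgi : Integrable g W := hL2.integrable (by norm_num)
    have hgh : Integrable (fun x => g x * f n j (cdf W x)) W := by
      refine hgi.mul_bdd (c := C) hmeas.aestronglyMeasurable ?_
      exact Filter.Eventually.of_forall fun x => hC x
    have hhi : Integrable (fun x => f n j (cdf W x)) W := by
      refine (integrable_const C).mono' hmeas.aestronglyMeasurable ?_
      exact Filter.Eventually.of_forall fun x => hC x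
    refine ⟨hgi, hgh, ?_⟩
    have h1 : ∀ x, (g x - g (quant W p)) * f n j (cdf W x) =
        g x * f n j (cdf W x) - g (quant W p) * f n j (cdf W x) := fun x => sub_mul _ _ _
    simp_rw [h1]
    rw [integral_sub hgh (hhi.const_mul _), integral_const_mul, hone, mul_one]
    rfl

end Pool.Agent.T2H99.QB
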