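import Pool.Agent.T2H99.QB.Stm

/-! # Package HIN: reduction of the variational inequality to hinge functions -/

set_option autoImplicit false

open MeasureTheory ProbabilityTheory Set Filter Topology

noncomputable section

namespace Pool.Agent.T2H99.QB

namespace PkgHIN

/-- the functions of the cone are nonnegative on the support interval -/
theorem nonneg {W : Measure ℝ} {p : ℝ} {k : ℝ → ℝ} (h : InK W p k) (hw : quant W p ∈ spt W) {x : ℝ}
    (hx : x ∈ spt W) : 0 ≤ k x := by
  rcases le_total x (quant W p) with h1 | h1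
  · rw [← h.zero _ hw le_rfl]
    exact h.anti hx hw h1
  · rw [h.zero x hx h1]

theorem meas {W : Measure ℝ} {p : ℝ} {k : ℝ → ℝ} (h : InK W p k) (hw : quant W p ∈ spt W)
    (h0 : W (spt W)ᶜ = 0) : AEStronglyMeasurable k W := by
  have h1 : AEStronglyMeasurable (fun x => Real.sqrt (k x ^ 2)) W :=
    Real.continuous_sqrt.comp_aestronglyMeasurable h.sq.aestronglyMeasurable
  refine h1.congr ?_
  have h2 : ∀ᵐ x ∂W, x ∈ spt W := by
    rw [ae_iff]
    exact h0
  filter_upwards [h2] with x hx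
  exact Real.sqrt_sq (nonneg h hw hx)

/-- the invariant of the piecewise linear interpolation -/
structure Inv (W : Measure ℝ) (q : ℝ → ℝ) (S : Set ℝ) (k : ℝ → ℝ) (ε s σ : ℝ) (g : ℝ → ℝ) :
    Prop where
  int : Integrable (fun x => g x * q x) W
  le : ∫ x, g x * q x ∂W ≤ 0
  app : ∀ x ∈ S, s ≤ x → |g x - k x| ≤ ε
  lin : ∀ x, x ≤ s → g x = k s + σ * (s - x)
  nn : 0 ≤ σ
  bd : ∀ x ∈ S, x ≤ s → k s + σ * (s - x) ≤ k x

theorem step {W : Measure ℝ} {q : ℝ → ℝ} {S : Set ℝ} {k : ℝ → ℝ} (hk : ConvexOn ℝ S k)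
    (ha : AntitoneOn k S) {ε s σ : ℝ} {g : ℝ → ℝ} (h : Inv W q S k ε s σ g) (hs : s ∈ S)
    (hi : Integrable (fun x => max (s - x) 0 * q x) W) (hle : ∫ x, max (s - x) 0 * q x ∂W ≤ 0)
    {s' : ℝ} (hs' : s' ∈ S) (hlt : s' < s) (hε : k s' - k s ≤ ε) :
    ∃ (σ' : ℝ) (g' : ℝ → ℝ), Inv W q S k ε s' σ' g' := by
  set σ' : ℝ := (k s' - k s) / (s - s') with hσ'
  have hd : 0 < s - s' := by linarith
  have e1 : σ' * (s - s') = k s' - k s := by rw [hσ']; field_simp
  have e2 : σ ≤ σ' := by
    have := h.bd s' hs' hlt.le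
    rw [hσ', le_div_iff₀ hd]
    linarith
  have e0 : 0 ≤ σ' := h.nn.trans e2
  refine ⟨σ', fun x => g x + (σ' - σ) * max (s - x) 0, ?_, ?_, ?_, ?_, e0, ?_⟩
  · have h1 := h.int.add (hi.const_mul (σ' - σ))
    refine h1.congr (Eventually.of_forall fun x => ?_)
    simp only [Pi.add_apply]
    ring
  · have h1 : ∫ x, (g x + (σ' - σ) * max (s - x) 0) * q x ∂W =
        ∫ x, g x * q x ∂W + (σ' - σ) * ∫ x, max (s - x) 0 * q x ∂W := by
      rw [← integral_const_mul, ← integral_add h.int (hi.const_mul _)]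
      congr 1
      funext x
      ring
    rw [h1]
    have h2 : (σ' - σ) * ∫ x, max (s - x) 0 * q x ∂W ≤ 0 :=
      mul_nonpos_of_nonneg_of_nonpos (by linarith) hle
    linarith [h.le]
  · intro x hx hsx
    rcases le_total s x with h1 | h1
    · rw [max_eq_right (by linarith), mul_zero, add_zero]
      exact h.app x hx h1
    · rw [max_eq_left (by linarith), h.lin x h1]
      have h2 : k s ≤ k x := ha hx hs h1
      have h3 : k x ≤ k s' := ha hs' hx hsx
      have h4 : k s + σ * (s - x) + (σ' - σ) * (s - x) = k s + σ' * (s - x) := by ring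
      rw [h4]
      have h5 : 0 ≤ σ' * (s - x) := mul_nonneg e0 (by linarith)
      have h6 : σ' * (s - x) ≤ k s' - k s := by
        rw [← e1]
        exact mul_le_mul_of_nonneg_left (by linarith) e0
      rw [abs_le]
      constructor <;> linarith
  · intro x hx
    rw [max_eq_left (by linarith), h.lin x (by linarith)]
    have : σ' * (s - x) = σ' * (s - s') + σ' * (s' - x) := by ring
    linarith
  · intro x hx hxs
    rcases hxs.lt_or_eq with h1 | h1
    · have h2 := hk.slope_mono_adjacent hx hs h1 hlt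
      have h3 : (k s - k s') / (s - s') = -σ' := by rw [hσ']; ring
      rw [h3, div_le_iff₀ (by linarith)] at h2
      linarith
    · rw [h1]
      simp

theorem steps {W : Measure ℝ} {q : ℝ → ℝ} {S : Set ℝ} (hS : S.OrdConnected) {k : ℝ → ℝ}
    (hk : ConvexOn ℝ S k) (ha : AntitoneOn k S) {w a : ℝ} (hw : w ∈ S) (haS : a ∈ S) (haw : a < w)
    (hz : ∀ x ∈ S, w ≤ x → k x = 0) (hnn : ∀ x ∈ S, 0 ≤ k x)
    (hi : ∀ t ∈ S, t ≤ w → Integrable (fun x => max (t - x) 0 * q x) W)
    (hle : ∀ t ∈ S, t ≤ w → ∫ x, max (t - x) 0 * q x ∂W ≤ 0) {ε δ : ℝ} (hε : 0 < ε) (hδ : 0 < δ)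
    (N : ℕ) (hN : (N : ℝ) * δ = w - a)
    (hu : ∀ x ∈ Icc a w, ∀ y ∈ Icc a w, y - x = δ → k x - k y ≤ ε) :
    ∀ m : ℕ, m ≤ N → ∃ (σ : ℝ) (g : ℝ → ℝ), Inv W q S k ε (w - m * δ) σ g := by
  intro m
  induction m with
  | zero =>
    intro _
    refine ⟨0, fun _ => 0, ?_, ?_, ?_, ?_, le_rfl, ?_⟩
    · simp
    · simp
    · intro x hx hwx
      simp only [Nat.cast_zero, zero_mul, sub_zero] at hwx
      rw [hz x hx hwx]
      simpa using hε.le
    · intro x hx
      simp only [Nat.cast_zero, zero_mul, sub_zero]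
      rw [hz w hw le_rfl]
      simp
    · intro x hx _
      simp only [Nat.cast_zero, zero_mul, sub_zero]
      rw [hz w hw le_rfl]
      simpa using hnn x hx
  | succ m ih =>
    intro hm
    obtain ⟨σ, g, hg⟩ := ih (by omega)
    have hm' : ((m : ℝ) + 1) * δ ≤ w - a := by
      rw [← hN]
      have : ((m + 1 : ℕ) : ℝ) ≤ (N : ℝ) := by exact_mod_cast hm
      push_cast at this
      exact mul_le_mul_of_nonneg_right this hδ.le
    have hm0 : 0 ≤ (m : ℝ) * δ := by positivity
    have hI1 : w - m * δ ∈ Icc a w := ⟨by nlinarith, by linarith⟩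
    have hI2 : w - ((m + 1 : ℕ) : ℝ) * δ ∈ Icc a w := by
      push_cast
      exact ⟨by linarith, by nlinarith⟩
    have hsub : Icc a w ⊆ S := hS.out haS hw
    refine step hk ha hg (hsub hI1) (hi _ (hsub hI1) hI1.2) (hle _ (hsub hI1) hI1.2)
      (hsub hI2) ?_ ?_
    · push_cast
      nlinarith
    · refine hu _ hI2 _ hI1 ?_
      push_cast
      ring

/-- the approximation -/
theorem approx {W : Measure ℝ} {q : ℝ → ℝ} {S : Set ℝ} (hS : S.OrdConnected) (hSo : IsOpen S)
    {k : ℝ → ℝ}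
    (hk : ConvexOn ℝ S k) (ha : AntitoneOn k S) {w a : ℝ} (hw : w ∈ S) (haS : a ∈ S) (haw : a < w)
    (hz : ∀ x ∈ S, w ≤ x → k x = 0) (hnn : ∀ x ∈ S, 0 ≤ k x)
    (hi : ∀ t ∈ S, t ≤ w → Integrable (fun x => max (t - x) 0 * q x) W)
    (hle : ∀ t ∈ S, t ≤ w → ∫ x, max (t - x) 0 * q x ∂W ≤ 0) {ε : ℝ} (hε : 0 < ε) :
    ∃ g : ℝ → ℝ, Integrable (fun x => g x * q x) W ∧ ∫ x, g x * q x ∂W ≤ 0 ∧
      (∀ x ∈ S, a ≤ x → |g x - k x| ≤ ε) ∧ (∀ x ∈ S, |g x| ≤ k x + ε) := by
  have hc : ContinuousOn k S := hk.continuousOn hSo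
  have hsub : Icc a w ⊆ S := hS.out haS hw
  have huc : UniformContinuousOn k (Icc a w) :=
    isCompact_Icc.uniformContinuousOn_of_continuous (hc.mono hsub)
  rw [Metric.uniformContinuousOn_iff] at huc
  obtain ⟨δ₀, hδ₀, hu⟩ := huc ε hε
  obtain ⟨N, hN⟩ := exists_nat_gt ((w - a) / δ₀)
  have hN0 : (0 : ℝ) < N := lt_of_le_of_lt (div_nonneg (by linarith) hδ₀.le) hN
  set δ : ℝ := (w - a) / N with hδd
  have hδ : 0 < δ := div_pos (by linarith) hN0
  have hδ1 : δ < δ₀ := by
    rw [hδd, div_lt_iff₀ hN0]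
    rw [div_lt_iff₀ hδ₀] at hN
    linarith
  have hNδ : (N : ℝ) * δ = w - a := by
    rw [hδd]
    field_simp
  obtain ⟨σ, g, hg⟩ := steps (W := W) (q := q) hS hk ha hw haS haw hz hnn hi hle hε hδ N hNδ (by
    intro x hx y hy hxy
    have := hu x hx y hy (by
      rw [Real.dist_eq, abs_lt]
      constructor <;> linarith)
    rw [Real.dist_eq] at this
    exact (le_abs_self _).trans this.le) N le_rfl
  have hs : w - (N : ℝ) * δ = a := by rw [hNδ]; ring
  rw [hs] at hg
  refine ⟨g, hg.int, hg.le, hg.app, fun x hx => ?_⟩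
  rcases le_total a x with h1 | h1
  · have h2 := hg.app x hx h1
    have h3 := hnn x hx
    rw [abs_le] at h2 ⊢
    constructor <;> linarith
  · have h2 := hg.lin x h1
    have h3 := hg.bd x hx h1
    have h4 : 0 ≤ σ * (a - x) := mul_nonneg hg.nn (by linarith)
    have h5 := hnn a haS
    rw [abs_le]
    constructor <;> linarith

end PkgHIN

open PkgHIN

theorem pHIN (hUNI : S_UNI) : S_HIN := by
  intro W hW p hp0 hp1 q hq hq2 hh k hk
  obtain ⟨h0, hopen, hord, -, hqt, hqt2, hmono⟩ := hUNI W hW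
  haveI := hW.prob
  have hw : quant W p ∈ spt W := (hqt p ⟨hp0, hp1⟩).1
  have hae : ∀ᵐ x ∂W, x ∈ spt W := by
    rw [ae_iff]
    exact h0
  have hkm : AEStronglyMeasurable k W := meas hk hw h0
  have hkL : MemLp k 2 W := (memLp_two_iff_integrable_sq hkm).2 hk.sq
  have hqL : MemLp q 2 W := (memLp_two_iff_integrable_sq hq).2 hq2
  by_cases hz : ∀ x ∈ spt W, k x = 0
  · have : ∫ x, k x * q x ∂W = 0 := by
      rw [← integral_zero ℝ ℝ (μ := W)]
      refine integral_congr_ae ?_
      filter_upwards [hae] with x hx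
      rw [hz x hx, zero_mul]
    exact this.le
  push Not at hz
  obtain ⟨b, hb, hkb⟩ := hz
  have hkb0 : 0 < k b := lt_of_le_of_ne (nonneg hk hw hb) (Ne.symm hkb)
  have hbw : b < quant W p := by
    by_contra hcon
    exact hkb (hk.zero b hb (not_lt.1 hcon))
  set w := quant W p with hwd
  -- the hinge functions are square integrable
  have hhinge : ∀ t ∈ spt W, t ≤ w → Integrable (fun x => max (t - x) 0 * q x) W := by
    intro t ht htw
    have hm : AEStronglyMeasurable (fun x : ℝ => max (t - x) 0) W :=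
      (by fun_prop : Continuous fun x : ℝ => max (t - x) 0).aestronglyMeasurable
    have hL : MemLp (fun x : ℝ => max (t - x) 0) 2 W := by
      have hB : MemLp (fun x => (w - b) / k b * k x + (w - b)) 2 W :=
        (hkL.const_mul _).add (memLp_const _)
      refine hB.of_le hm ?_
      filter_upwards [hae] with x hx
      have hkx := nonneg hk hw hx
      have hwb : 0 < w - b := by linarith
      have h1 : 0 ≤ (w - b) / k b * k x := by positivity
      rw [Real.norm_eq_abs, Real.norm_eq_abs, abs_of_nonneg (le_max_right _ _),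
        abs_of_nonneg (by linarith)]
      refine max_le ?_ (by linarith)
      rcases le_or_gt b x with h2 | h2
      · linarith
      · have h3 := hk.conv.slope_mono_adjacent hx hw h2 hbw
        rw [hk.zero w hw le_rfl, div_le_div_iff₀ (by linarith) hwb] at h3
        have h4 : (b - x) * k b ≤ (k x - k b) * (w - b) := by nlinarith
        have h5 : b - x ≤ (w - b) / k b * (k x - k b) := by
          rw [div_mul_eq_mul_div, le_div_iff₀ hkb0]
          linarith
        have h6 : (w - b) / k b * (k x - k b) = (w - b) / k b * k x - (w - b) := by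
          field_simp
        linarith
    exact hL.integrable_mul hqL
  -- the approximating sequence
  have hex : ∀ n : ℕ, ∃ g : ℝ → ℝ, Integrable (fun x => g x * q x) W ∧ ∫ x, g x * q x ∂W ≤ 0 ∧
      (∀ x ∈ spt W, quant W (p / (n + 2)) ≤ x → |g x - k x| ≤ 1 / ((n : ℝ) + 1)) ∧
      (∀ x ∈ spt W, |g x| ≤ k x + 1 / ((n : ℝ) + 1)) := by
    intro n
    have hn : (0 : ℝ) < (n : ℝ) + 2 := by positivity
    have hu : p / (n + 2) ∈ Ioo (0 : ℝ) 1 := by
      refine ⟨by positivity, ?_⟩
      rw [div_lt_one hn]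
      have : (0 : ℝ) ≤ n := Nat.cast_nonneg n
      linarith
    have hlt : p / (n + 2) < p := by
      rw [div_lt_iff₀ hn]
      have : (0 : ℝ) ≤ n := Nat.cast_nonneg n
      nlinarith
    have haS := (hqt _ hu).1
    have haw : quant W (p / (n + 2)) < w := by
      by_contra hcon
      rw [not_lt] at hcon
      have := (hmono _ hw _ haS).2 hcon
      rw [(hqt _ hu).2, (hqt p ⟨hp0, hp1⟩).2] at this
      linarith
    exact approx hord hopen hk.conv hk.anti hw haS haw hk.zero (fun x hx => nonneg hk hw hx)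
      hhinge hh (by positivity)
  choose g hgi hgle hga hgb using hex
  have hlim : Tendsto (fun n => ∫ x, g n x * q x ∂W) atTop (𝓝 (∫ x, k x * q x ∂W)) := by
    refine tendsto_integral_of_dominated_convergence (fun x => (k x + 1) * |q x|)
      (fun n => (hgi n).aestronglyMeasurable) ?_ ?_ ?_
    · have h1 : MemLp (fun x => k x + 1) 2 W := hkL.add (memLp_const _)
      have h2 : MemLp (fun x => |q x|) 2 W := by simpa [Real.norm_eq_abs] using hqL.norm
      exact h1.integrable_mul h2
    · intro n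
      filter_upwards [hae] with x hx
      rw [norm_mul, Real.norm_eq_abs, Real.norm_eq_abs]
      refine mul_le_mul_of_nonneg_right ((hgb n x hx).trans ?_) (abs_nonneg _)
      have : 1 / ((n : ℝ) + 1) ≤ 1 := by
        rw [div_le_one (by positivity)]
        have : (0 : ℝ) ≤ n := Nat.cast_nonneg n
        linarith
      linarith
    · filter_upwards [hae] with x hx
      refine Tendsto.mul_const _ ?_
      rw [tendsto_iff_dist_tendsto_zero]
      have hx0 : 0 < cdf W x := hx.1
      obtain ⟨N, hN⟩ := exists_nat_gt (p / cdf W x)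
      refine squeeze_zero' (Eventually.of_forall fun n => dist_nonneg) ?_
        tendsto_one_div_add_atTop_nhds_zero_nat
      filter_upwards [eventually_ge_atTop N] with n hn
      rw [Real.dist_eq]
      refine hga n x hx ?_
      have hn2 : (0 : ℝ) < (n : ℝ) + 2 := by positivity
      have hu : p / (n + 2) ∈ Ioo (0 : ℝ) 1 := by
        refine ⟨by positivity, ?_⟩
        rw [div_lt_one hn2]
        have : (0 : ℝ) ≤ n := Nat.cast_nonneg n
        linarith
      refine (hmono _ (hqt _ hu).1 x hx).1 ?_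
      rw [(hqt _ hu).2, div_le_iff₀ hn2]
      rw [div_lt_iff₀ hx0] at hN
      have h3 : (N : ℝ) ≤ n := by exact_mod_cast hn
      nlinarith
  exact le_of_tendsto' hlim hgle

end Pool.Agent.T2H99.QB
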