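import Pool.Agent.T2H99.QB.Stm

/-! # Package LAW of project QB -/

set_option autoImplicit false

open MeasureTheory ProbabilityTheory Set Filter Topology

noncomputable section

namespace Pool.Agent.T2H99.QB

open Set in
theorem pLAW (hUNI : S_UNI) (hQNT : S_QNT) (hMEA : S_MEA) (hTRF : S_TRF) : S_LAW := by
  intro W hW g hmono hcont hsq hsd
  obtain ⟨u1, u2, u3, u4, u5, u6, u7⟩ := hUNI W hW
  have := hW.prob
  have hgm : AEStronglyMeasurable g W := hMEA W hW g (Or.inl hmono)
  have hga : AEMeasurable g W := hgm.aemeasurable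
  set μ : Measure ℝ := W.map g with hμ
  have hprob : IsProbabilityMeasure μ := Measure.isProbabilityMeasure_map hga
  have hae : ∀ᵐ x ∂W, x ∈ spt W := by
    rw [ae_iff]
    exact u1
  have hmom : Integrable (fun x => x ^ 2) μ := by
    rw [hμ, integrable_map_measure (by fun_prop) hga]
    exact hsq
  have hmean : ∫ y, y ∂μ = ∫ x, g x ∂W := by
    rw [hμ, integral_map hga (by fun_prop)]
  have hsdeq : sd μ = sdW W g := by
    rw [sd, sdW, sdW]
    congr 1
    rw [hmean, hμ, integral_map hga (by fun_prop)]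
  have hdist : Dist μ := ⟨hprob, hmom, by rw [hsdeq]; exact hsd⟩
  have hcdf : ∀ y, cdf μ y = W.real {x | x ∈ spt W ∧ g x ≤ y} := by
    intro y
    rw [cdf_eq_real, measureReal_def, measureReal_def, hμ,
      Measure.map_apply_of_aemeasurable hga measurableSet_Iic]
    congr 1
    refine measure_congr ?_
    filter_upwards [hae] with x hx
    apply propext
    change g x ≤ y ↔ (x ∈ spt W ∧ g x ≤ y)
    exact ⟨fun h => ⟨hx, h⟩, fun h => h.2⟩
  have hq : ∀ x ∈ spt W, quant μ (cdf W x) = g x := by
    intro x hx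
    have hq1 := (hQNT μ hprob).1 (cdf W x) hx.1 hx.2
    apply le_antisymm
    · rw [hq1, hcdf, cdf_eq_real, measureReal_def, measureReal_def]
      refine ENNReal.toReal_mono (measure_ne_top _ _) ?_
      refine measure_mono_ae ?_
      filter_upwards [hae] with x' hx' hxx
      exact ⟨hx', hmono hx' hx hxx⟩
    · by_contra hlt
      push Not at hlt
      set t := quant μ (cdf W x) with ht
      have h1 : cdf W x ≤ cdf μ t := (hq1 t).mp le_rfl
      have h2 : ∀ᶠ x' in 𝓝[spt W] x, t < g x' := (hcont x hx).eventually (lt_mem_nhds hlt)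
      have h3 : ∀ᶠ x' in 𝓝 x, x' ∈ spt W ∧ t < g x' := by
        rw [u2.nhdsWithin_eq hx] at h2
        filter_upwards [h2, u2.mem_nhds hx] with x' ha hb
        exact ⟨hb, ha⟩
      obtain ⟨ε, hε, hball⟩ := Metric.eventually_nhds_iff.mp h3
      have h4 := @hball (x - ε / 2) (by rw [Real.dist_eq]; rw [abs_of_neg (by linarith)]; linarith)
      have h5 : cdf μ t ≤ cdf W (x - ε / 2) := by
        rw [hcdf, cdf_eq_real, measureReal_def, measureReal_def]
        refine ENNReal.toReal_mono (measure_ne_top _ _) (measure_mono ?_)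
        rintro x' ⟨hx', hgx'⟩
        by_contra hcon
        have hcon' : x - ε / 2 < x' := by
          simpa using hcon
        have h6 := hmono h4.1 hx' hcon'.le
        linarith [h4.2]
      have h6 : cdf W (x - ε / 2) < cdf W x := hW.strict h4.1 hx (by linarith)
      linarith
  refine ⟨hdist, hq, hcdf, hsdeq, ?_⟩
  intro n j p hpar
  rw [(hTRF W hW μ hdist).2.2.2.2 n j p hpar, hsdeq]
  congr 1
  rw [T, T]
  have hw := u5 p ⟨hpar.p0, hpar.p1⟩
  congr 1
  · refine integral_congr_ae ?_
    filter_upwards [hae] with x hx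
    rw [hq x hx]
  · rw [hq _ hw.1]

end Pool.Agent.T2H99.QB
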