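import Pool.Agent.T2H99.QB.Stm

/-!
# QB package MAX: the unique maximum of `N / √V`
-/

open MeasureTheory ProbabilityTheory Set Filter Topology

noncomputable section

namespace Pool.Agent.T2H99.QB

theorem pMAX (hUNI : S_UNI) (hFF : S_FF) (hNV : S_NV) (hMON : S_MON) : S_MAX := by
  intro W hW hIM n j p hP t' ht' hwt' hD
  obtain ⟨-, -, hOC, -, -, -, -⟩ := hUNI W hW
  obtain ⟨-, -, -, -, -, -, -, hG1, -, hGm, -, -⟩ := hFF n j p hP
  have hpos : ∀ t ∈ spt W, 0 < 1 - cdf W t ∧ 0 < 1 - G n j (cdf W t) ∧ 0 < Vt W t ∧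
      0 < t - Mt W t := by
    intro t ht
    obtain ⟨-, -, -, h4⟩ := hNV W hW hIM n j p hP t
    obtain ⟨h5, h6⟩ := h4 ht
    have h7 : cdf W t < 1 := ht.2
    have h8 : 0 < cdf W t := ht.1
    refine ⟨by linarith, ?_, h5, by linarith⟩
    have := hGm ⟨h8.le, h7.le⟩ ⟨zero_le_one, le_refl 1⟩ h7
    linarith
  -- sign of `Dt`
  have hneg : ∀ t ∈ spt W, t' < t → Dt W n j p t < 0 := fun t ht htt =>
    hMON W hW hIM n j p hP t' ht' t ht hwt' htt hD.le
  have hpos' : ∀ t ∈ spt W, quant W p < t → t < t' → 0 < Dt W n j p t := by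
    intro t ht hwt htt
    by_contra hcon
    push Not at hcon
    have := hMON W hW hIM n j p hP t ht t' ht' hwt htt hcon
    linarith
  -- the derivative
  have hder : ∀ t ∈ spt W, ∃ c : ℝ, 0 < c ∧
      HasDerivAt (fun t => Nt W n j p t / Real.sqrt (Vt W t)) (Dt W n j p t * c) t := by
    intro t ht
    obtain ⟨h1, h2, h3, -⟩ := hNV W hW hIM n j p hP t
    obtain ⟨-, -, hV, -⟩ := hpos t ht
    have hs : 0 < Real.sqrt (Vt W t) := Real.sqrt_pos.2 hV
    have hsq : Real.sqrt (Vt W t) ^ 2 = Vt W t := Real.sq_sqrt hV.le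
    have h4 := h3.div (h2.sqrt hV.ne') hs.ne'
    refine ⟨1 / (Real.sqrt (Vt W t) ^ 3), by positivity, h4.congr_deriv ?_⟩
    unfold Dt
    field_simp
    rw [hsq]
  have hcontOn : ∀ a b : ℝ, a ∈ spt W → b ∈ spt W →
      ContinuousOn (fun t => Nt W n j p t / Real.sqrt (Vt W t)) (Icc a b) := by
    intro a b ha hb t ht
    obtain ⟨c, -, h⟩ := hder t (hOC.out ha hb ht)
    exact h.continuousAt.continuousWithinAt
  refine ⟨?_, ?_, ?_⟩
  · obtain ⟨h1, h2, h3, h4⟩ := hpos t' ht'
    unfold Dt at hD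
    have h5 : 0 < (1 - G n j (cdf W t')) * Vt W t' := mul_pos h2 h3
    have h6 : 0 < (1 - cdf W t') * (t' - Mt W t') := mul_pos h1 h4
    by_contra hcon
    push Not at hcon
    have h7 : (1 - cdf W t') * (t' - Mt W t') * Nt W n j p t' ≤ 0 :=
      mul_nonpos_of_nonneg_of_nonpos h6.le hcon
    linarith
  · intro t ht hwt hne
    rcases lt_or_gt_of_ne hne with h | h
    · have hmono : StrictMonoOn (fun t => Nt W n j p t / Real.sqrt (Vt W t)) (Icc t t') := by
        refine strictMonoOn_of_deriv_pos (convex_Icc _ _) (hcontOn t t' ht ht') fun x hx => ?_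
        rw [interior_Icc] at hx
        have hxs : x ∈ spt W := hOC.out ht ht' ⟨hx.1.le, hx.2.le⟩
        obtain ⟨c, hc, hd⟩ := hder x hxs
        rw [hd.deriv]
        exact mul_pos (hpos' x hxs (hwt.trans hx.1) hx.2) hc
      exact hmono (left_mem_Icc.2 h.le) (right_mem_Icc.2 h.le) h
    · have hanti : StrictAntiOn (fun t => Nt W n j p t / Real.sqrt (Vt W t)) (Icc t' t) := by
        refine strictAntiOn_of_deriv_neg (convex_Icc _ _) (hcontOn t' t ht' ht) fun x hx => ?_
        rw [interior_Icc] at hx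
        have hxs : x ∈ spt W := hOC.out ht' ht ⟨hx.1.le, hx.2.le⟩
        obtain ⟨c, hc, hd⟩ := hder x hxs
        rw [hd.deriv]
        exact mul_neg_of_neg_of_pos (hneg x hxs hx.1) hc
      exact hanti (left_mem_Icc.2 h.le) (right_mem_Icc.2 h.le) h
  · intro t ht hwt h0
    rcases lt_trichotomy t t' with h | h | h
    · have := hpos' t ht hwt h
      linarith
    · exact h
    · have := hneg t ht h
      linarith

end Pool.Agent.T2H99.QB
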