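import Pool.Agent.T2H99.QB.Stm

open MeasureTheory ProbabilityTheory Set Filter Topology

noncomputable section

namespace Pool.Agent.T2H99.QB

theorem pMEA (hUNI : S_UNI) : S_MEA := by
  intro W hW g hg
  obtain ⟨h0, hop, -⟩ := hUNI W hW
  have hres : W.restrict (spt W) = W := by
    refine Measure.restrict_eq_self_of_ae_mem ?_
    exact h0
  have hm : AEMeasurable g (W.restrict (spt W)) := by
    rcases hg with hg | hg
    · exact aemeasurable_restrict_of_monotoneOn hop.measurableSet hg
    · exact aemeasurable_restrict_of_antitoneOn hop.measurableSet hg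
  rw [hres] at hm
  exact hm.aestronglyMeasurable

end Pool.Agent.T2H99.QB
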