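import Pool.Agent.T2H99.QB.DFS

set_option autoImplicit false

open MeasureTheory ProbabilityTheory Set Filter Topology

noncomputable section

namespace Pool.Agent.T2H99.QB

open H35 DFSx in
theorem pNA1 (hUNI : S_UNI) (hFF : S_FF) (hHH : S_HH) (hMEA : S_MEA) (hCON : S_CON) : S_NA1 := by
  intro W hW n j p hp g hmono hcont hsq hpos
  have := hW.prob
  obtain ⟨A, R, ψ, hψ, hA0, hR0, hT, hV, hR, hRi⟩ := chain hUNI hFF hHH hMEA hCON hW hp hmono hsq
  obtain ⟨-, -, -, -, -, -, -, hG1, -, hGmono, -, -⟩ := hFF n j p hp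
  obtain ⟨hw, hwp⟩ := w_mem hUNI hW hp
  obtain ⟨-, hopen, hOC, -⟩ := hUNI W hW
  have hp0 := hp.p0
  have hp1 := hp.p1
  have h1p : 0 < 1 - p := by linarith
  have hGp : G n j p < 1 := by
    rw [← hG1]
    exact hGmono ⟨hp0.le, hp1.le⟩ ⟨zero_le_one, le_rfl⟩ hp1
  have h4 : 0 < 1 - G n j p := by linarith
  have hs : 0 < Real.sqrt (p * (1 - p)) := Real.sqrt_pos.2 (by positivity)
  have hss : Real.sqrt (p * (1 - p)) ^ 2 = p * (1 - p) := Real.sq_sqrt (by positivity)
  refine lt_of_le_of_lt hT ?_
  unfold Bsup
  set w := quant W p with hwdef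
  have h2 : A * Real.sqrt (p * (1 - p)) < (1 - p) * sdW W g := by
    rcases hA0.eq_or_lt with hA | hA
    · rw [← hA, zero_mul]
      positivity
    · -- the residual is positive
      set c := A / (1 - p) with hc
      have hc0 : 0 < c := div_pos hA h1p
      have hca : ContinuousAt g w := hcont.continuousAt (hopen.mem_nhds hw)
      have hev : ∀ᶠ y in 𝓝 w, g y < g w + c / 2 ∧ y ∈ spt W :=
        (hca.eventually_lt continuousAt_const (by linarith)).and (hopen.mem_nhds hw)
      obtain ⟨ε, hε, hball⟩ := Metric.eventually_nhds_iff.1 hev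
      have hy : w + ε / 2 ∈ spt W := (hball (by rw [Real.dist_eq, abs_lt]; constructor <;> linarith)).2
      have hposI := pos_Ioo hUNI hW hw hy (by linarith)
      have hRpos : 0 < R := by
        rcases hR0.eq_or_lt with h | h
        · exfalso
          rw [← h] at hR
          have h5 := (setIntegral_eq_zero_iff_of_nonneg_ae (Eventually.of_forall fun _ => sq_nonneg _) hRi).1 hR.symm
          have h6 : ∀ᵐ x ∂(W.restrict (Ioi w)), ψ x = c := by
            filter_upwards [h5] with x hx
            have : ψ x - c = 0 := by simpa using hx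
            linarith
          rw [ae_restrict_iff' measurableSet_Ioi] at h6
          have h7 : W {x | ¬ (x ∈ Ioi w → ψ x = c)} = 0 := h6
          have h8 : Ioo w (w + ε / 2) ⊆ {x | ¬ (x ∈ Ioi w → ψ x = c)} := by
            intro x hx h9
            have h10 := h9 hx.1
            have h11 := (hball (show dist x w < ε by
              rw [Real.dist_eq, abs_lt]; constructor <;> linarith [hx.1, hx.2])).1
            rw [hψ] at h10
            have : max (g x - g w) 0 < c := max_lt (by linarith) hc0
            linarith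
          exact hposI.ne' (measure_mono_null h8 h7)
        · exact h
      have h3 : A ^ 2 * p / (1 - p) < sdW W g ^ 2 := by linarith
      rw [div_lt_iff₀ h1p] at h3
      by_contra hcon
      have h12 := pow_le_pow_left₀ (mul_nonneg h1p.le (sd_nonneg g)) (not_lt.1 hcon) 2
      rw [mul_pow, mul_pow, hss] at h12
      have h13 : (A ^ 2 * p) * (1 - p) < (sdW W g ^ 2 * (1 - p)) * (1 - p) := mul_lt_mul_of_pos_right h3 h1p
      linarith
  rw [div_mul_eq_mul_div, div_mul_eq_mul_div, div_lt_div_iff₀ h1p hs]
  calc (1 - G n j p) * A * Real.sqrt (p * (1 - p)) = (1 - G n j p) * (A * Real.sqrt (p * (1 - p))) := by ring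
    _ < (1 - G n j p) * ((1 - p) * sdW W g) := mul_lt_mul_of_pos_left h2 h4
    _ = _ := by ring

end Pool.Agent.T2H99.QB
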