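import Pool.Agent.T2H99.QB.Stm

/-! # Package NA2 of project QB -/

set_option autoImplicit false

open MeasureTheory ProbabilityTheory Set Filter Topology

noncomputable section

namespace Pool.Agent.T2H99.QB

namespace PkgNA2

theorem piece (φ ψ : ℝ → ℝ) (a b : ℝ) (hab : a ≤ b) (hψ : Continuous ψ)
    (h : ∀ u ∈ Ioo a b, φ u = ψ u) :
    IntervalIntegrable φ volume a b ∧ ∫ u in a..b, φ u = ∫ u in a..b, ψ u := by
  have hi : IntegrableOn ψ (Ioo a b) volume :=
    (intervalIntegrable_iff_integrableOn_Ioo_of_le hab).mp (hψ.intervalIntegrable a b)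
  refine ⟨?_, ?_⟩
  · rw [intervalIntegrable_iff_integrableOn_Ioo_of_le hab]
    exact hi.congr_fun (fun u hu => (h u hu).symm) measurableSet_Ioo
  · rw [intervalIntegral.integral_of_le hab, intervalIntegral.integral_of_le hab,
      integral_Ioc_eq_integral_Ioo, integral_Ioc_eq_integral_Ioo]
    exact setIntegral_congr_fun measurableSet_Ioo h

theorem split3 (φ φ1 φ2 φ3 : ℝ → ℝ) (r p : ℝ) (h0 : 0 ≤ r) (h1 : r ≤ p) (h2 : p ≤ 1)
    (c1 : Continuous φ1) (c2 : Continuous φ2) (c3 : Continuous φ3)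
    (e1 : ∀ u ∈ Ioo 0 r, φ u = φ1 u) (e2 : ∀ u ∈ Ioo r p, φ u = φ2 u)
    (e3 : ∀ u ∈ Ioo p 1, φ u = φ3 u) :
    ∫ u in (0 : ℝ)..1, φ u = (∫ u in (0 : ℝ)..r, φ1 u) + (∫ u in r..p, φ2 u) +
      ∫ u in p..1, φ3 u := by
  obtain ⟨i1, j1⟩ := piece φ φ1 0 r h0 c1 e1
  obtain ⟨i2, j2⟩ := piece φ φ2 r p h1 c2 e2
  obtain ⟨i3, j3⟩ := piece φ φ3 p 1 h2 c3 e3
  rw [← intervalIntegral.integral_add_adjacent_intervals (i1.trans i2) i3,
    ← intervalIntegral.integral_add_adjacent_intervals i1 i2, j1, j2, j3]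

theorem exists_ae (W : Measure ℝ) (hW : Ref W) (P : ℝ → Prop) (hP : ∀ᵐ x ∂W, P x) (x1 x2 : ℝ)
    (h1 : x1 ∈ spt W) (h2 : x2 ∈ spt W) (h12 : x1 < x2) : ∃ x ∈ Ioc x1 x2, P x := by
  have := hW.prob
  by_contra hcon
  push Not at hcon
  have h3 : W (Ioc x1 x2) = 0 := measure_mono_null (fun x hx => hcon x hx) (ae_iff.mp hP)
  have h4 : cdf W x2 ≤ cdf W x1 := by
    rw [cdf_eq_real, cdf_eq_real, ← Iic_union_Ioc_eq_Iic h12.le]
    have h5 : W.real (Ioc x1 x2) = 0 := by rw [measureReal_def, h3, ENNReal.toReal_zero]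
    have h6 := measureReal_union_le (μ := W) (Iic x1) (Ioc x1 x2)
    linarith
  have h7 := hW.strict h1 h2 h12
  linarith

/-- the step function with the density -/
def Fb (n j : ℕ) (r u : ℝ) : ℝ := if u ≤ r then G n j r / r else f n j u

def ph0 (n j : ℕ) (r p c u : ℝ) : ℝ := if u < p then -(Fb n j r u + c) else 0

theorem measurable_Fb (n j : ℕ) (r : ℝ) (hf : Continuous (f n j)) : Measurable (Fb n j r) := by
  unfold Fb
  exact Measurable.ite measurableSet_Iic measurable_const hf.measurable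

theorem measurable_ph0 (n j : ℕ) (r p c : ℝ) (hf : Continuous (f n j)) :
    Measurable (ph0 n j r p c) := by
  unfold ph0
  exact Measurable.ite measurableSet_Iio ((measurable_Fb n j r hf).add_const c).neg
    measurable_const

theorem memLp_of_sq (W : Measure ℝ) (g : ℝ → ℝ) (hg : AEStronglyMeasurable g W)
    (hs : Integrable (fun x => g x ^ 2) W) : MemLp g 2 W :=
  (memLp_two_iff_integrable_sq hg).mpr hs

theorem sdW_sq (W : Measure ℝ) (g : ℝ → ℝ) : sdW W g ^ 2 = ∫ x, (g x - ∫ y, g y ∂W) ^ 2 ∂W := by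
  rw [sdW, Real.sq_sqrt (integral_nonneg fun x => by positivity)]

/-- equality in the triangle inequality for the standard deviation -/
theorem equality (W : Measure ℝ) [IsProbabilityMeasure W] (g g0 : ℝ → ℝ)
    (hg : AEStronglyMeasurable g W) (hg0 : AEStronglyMeasurable g0 W)
    (hs : Integrable (fun x => g x ^ 2) W) (hs0 : Integrable (fun x => g0 x ^ 2) W)
    (h : sdW W g + sdW W g0 ≤ sdW W (fun x => g x + g0 x)) :
    ∀ᵐ x ∂W, sdW W g0 * (g x - ∫ y, g y ∂W) = sdW W g * (g0 x - ∫ y, g0 y ∂W) := by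
  have m1 := memLp_of_sq W g hg hs
  have m0 := memLp_of_sq W g0 hg0 hs0
  set mg := ∫ y, g y ∂W with hmg
  set m0' := ∫ y, g0 y ∂W with hm0
  set a := sdW W g with ha
  set b := sdW W g0 with hb
  have A1 : MemLp (fun x => g x - mg) 2 W := m1.sub (memLp_const mg)
  have A0 : MemLp (fun x => g0 x - m0') 2 W := m0.sub (memLp_const m0')
  have A2 : MemLp (fun x => (g x - mg) + (g0 x - m0')) 2 W := A1.add A0
  have I1 : Integrable (fun x => (g x - mg) ^ 2) W := A1.integrable_sq
  have I0 : Integrable (fun x => (g0 x - m0') ^ 2) W := A0.integrable_sq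
  have I2 : Integrable (fun x => ((g x - mg) + (g0 x - m0')) ^ 2) W := A2.integrable_sq
  have I3 : Integrable (fun x => (g x - mg) * (g0 x - m0')) W := by
    have h1 := ((I2.sub I1).sub I0).const_mul (1 / 2)
    refine h1.congr (Filter.Eventually.of_forall fun x => ?_)
    simp only [Pi.sub_apply]
    ring
  have ea : a ^ 2 = ∫ x, (g x - mg) ^ 2 ∂W := sdW_sq W g
  have eb : b ^ 2 = ∫ x, (g0 x - m0') ^ 2 ∂W := sdW_sq W g0
  have hmean : ∫ y, (g y + g0 y) ∂W = mg + m0' :=
    integral_add (m1.integrable (by norm_num)) (m0.integrable (by norm_num))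
  have ec : sdW W (fun x => g x + g0 x) ^ 2 = a ^ 2 + b ^ 2 +
      2 * ∫ x, (g x - mg) * (g0 x - m0') ∂W := by
    rw [sdW_sq, hmean]
    have h1 : ∀ x, (g x + g0 x - (mg + m0')) ^ 2 =
        ((g x - mg) ^ 2 + (g0 x - m0') ^ 2) + 2 * ((g x - mg) * (g0 x - m0')) := by
      intro x
      ring
    have I10 : Integrable (fun x => (g x - mg) ^ 2 + (g0 x - m0') ^ 2) W := I1.add I0
    rw [integral_congr_ae (Filter.Eventually.of_forall h1), integral_add I10
      (I3.const_mul 2), integral_add I1 I0, integral_const_mul, ← ea, ← eb]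
  have ha0 : 0 ≤ a := Real.sqrt_nonneg _
  have hb0 : 0 ≤ b := Real.sqrt_nonneg _
  have hcov : a * b ≤ ∫ x, (g x - mg) * (g0 x - m0') ∂W := by
    have h1 : (a + b) ^ 2 ≤ sdW W (fun x => g x + g0 x) ^ 2 :=
      pow_le_pow_left₀ (by linarith) h 2
    rw [ec] at h1
    nlinarith
  have hzero : ∫ x, (b * (g x - mg) - a * (g0 x - m0')) ^ 2 ∂W ≤ 0 := by
    have h1 : ∀ x, (b * (g x - mg) - a * (g0 x - m0')) ^ 2 =
        (b ^ 2 * (g x - mg) ^ 2 + a ^ 2 * (g0 x - m0') ^ 2) -
          (2 * a * b) * ((g x - mg) * (g0 x - m0')) := by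
      intro x
      ring
    have I10 : Integrable (fun x => b ^ 2 * (g x - mg) ^ 2 + a ^ 2 * (g0 x - m0') ^ 2) W :=
      (I1.const_mul _).add (I0.const_mul _)
    rw [integral_congr_ae (Filter.Eventually.of_forall h1),
      integral_sub I10 (I3.const_mul _),
      integral_add (I1.const_mul _) (I0.const_mul _), integral_const_mul, integral_const_mul,
      integral_const_mul, ← ea, ← eb]
    have h2 : 0 ≤ a * b := mul_nonneg ha0 hb0
    nlinarith
  have hI : Integrable (fun x => (b * (g x - mg) - a * (g0 x - m0')) ^ 2) W :=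
    ((A1.const_mul b).sub (A0.const_mul a)).integrable_sq
  have h3 : ∫ x, (b * (g x - mg) - a * (g0 x - m0')) ^ 2 ∂W = 0 :=
    le_antisymm hzero (integral_nonneg fun x => by positivity)
  have h4 := (integral_eq_zero_iff_of_nonneg (fun x => by positivity) hI).mp h3
  filter_upwards [h4] with x hx
  have h5 : (b * (g x - mg) - a * (g0 x - m0')) ^ 2 = 0 := hx
  have h6 := pow_eq_zero_iff (two_ne_zero) |>.mp h5
  linarith

end PkgNA2

open PkgNA2 in
theorem pNA2 (hUNI : S_UNI) (hFF : S_FF) (hHH : S_HH) (hMEA : S_MEA) (hBET : S_BET)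
    (hDFI : S_DFI) : S_NA2 := by
  intro W hW n j p hpar s hs1 hs2 hs3 g hmono hcont hsq hsd
  obtain ⟨u1, u2, u3, u4, u5, u6, u7⟩ := hUNI W hW
  have hprob := hW.prob
  obtain ⟨hjn, fc, f0, fpos, fanti, -, G0, G1, f1, Gm, m0, m1⟩ := hFF n j p hpar
  obtain ⟨⟨Cf, hCf⟩, hh0, hhm, hcv, hh1, hhG, hT⟩ := hHH W hW n j p hpar
  obtain ⟨-, hGint⟩ := hBET n j hpar.j1 hpar.jn
  have p0 := hpar.p0
  have p1 := hpar.p1
  have hs0 : 0 ≤ s := m0.trans hs1
  set r := min s p with hr
  have hr0 : 0 ≤ r := le_min hs0 p0.le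
  have hrp : r ≤ p := min_le_right _ _
  have hGp : 0 < G n j p := by
    rw [← G0]
    exact Gm ⟨le_rfl, zero_le_one⟩ ⟨p0.le, p1.le⟩ p0
  have hGr : 0 ≤ G n j r := by
    rw [← G0]
    exact Gm.monotoneOn ⟨le_rfl, zero_le_one⟩ ⟨hr0, hrp.trans p1.le⟩ hr0
  set c : ℝ := G n j p / (1 - p) with hc
  have hcpos : 0 < c := div_pos hGp (by linarith)
  have hcp : c * (1 - p) = G n j p := by
    rw [hc]
    have : 1 - p ≠ 0 := by linarith
    field_simp
  have hae : ∀ᵐ x ∂W, x ∈ spt W := by
    rw [ae_iff]; exact u1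
  have hw := u5 p ⟨p0, p1⟩
  set w := quant W p with hwd
  -- the extremal function
  have Fb_nonneg : ∀ u, 0 < u → u < 1 → 0 ≤ Fb n j r u := by
    intro u hu0 hu1
    rw [Fb]
    split_ifs
    · exact div_nonneg hGr hr0
    · exact f0 u ⟨hu0.le, hu1.le⟩
  have Fb_anti : ∀ u u', 0 < u → u ≤ u' → u' < p → Fb n j r u' ≤ Fb n j r u := by
    intro u u' hu huu hup
    rw [Fb, Fb]
    by_cases h1 : u' ≤ r
    · rw [if_pos h1, if_pos (huu.trans h1)]
    · push Not at h1
      have hrs : r = s := by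
        rcases min_choice s p with h | h
        · rw [hr, h]
        · exfalso
          rw [hr, h] at h1
          linarith
      rw [if_neg (not_le.mpr h1)]
      by_cases h2 : u ≤ r
      · rw [if_pos h2, hrs]
        have hspos : 0 < s := by rw [← hrs]; linarith
        have h3 : G n j s / s = f n j s := by
          rw [← hs3]
          field_simp
        rw [h3]
        exact fanti.antitoneOn ⟨hs1, hs2.le⟩ ⟨by rw [hrs] at h1; linarith, by linarith⟩
          (by rw [hrs] at h1; exact h1.le)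
      · rw [if_neg h2]
        push Not at h2
        exact fanti.antitoneOn ⟨by rw [hrs] at h2; linarith, by linarith⟩
          ⟨by rw [hrs] at h1; linarith, by linarith⟩ huu
  set φ := ph0 n j r p c with hφ
  have hφm : Measurable φ := measurable_ph0 n j r p c fc
  have hφmono : ∀ u u', 0 < u → u ≤ u' → u' < 1 → φ u ≤ φ u' := by
    intro u u' hu huu hu1
    rw [hφ, ph0, ph0]
    by_cases h1 : u' < p
    · rw [if_pos h1, if_pos (huu.trans_lt h1)]
      have := Fb_anti u u' hu huu h1
      linarith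
    · rw [if_neg h1]
      split_ifs with h2
      · have := Fb_nonneg u hu (by linarith)
        linarith
      · exact le_rfl
  set g0 : ℝ → ℝ := fun x => φ (cdf W x) with hg0
  have hcWm : Measurable (cdf W) := hW.cont.measurable
  have hg0m : Measurable g0 := hφm.comp hcWm
  have hg0mono : MonotoneOn g0 (spt W) := by
    intro x hx y hy hxy
    exact hφmono _ _ hx.1 (monotone_cdf W hxy) hy.2
  have hg0bd : ∀ x, |g0 x| ≤ |G n j r / r| + Cf + c := by
    intro x
    rw [hg0, hφ]
    simp only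
    rw [ph0]
    have hCf0 : 0 ≤ Cf := (abs_nonneg _).trans (hCf x)
    have hfb : |Fb n j r (cdf W x)| ≤ |G n j r / r| + Cf := by
      rw [Fb]
      split_ifs
      · linarith
      · have := hCf x
        have := abs_nonneg (G n j r / r)
        linarith
    split_ifs
    · rw [abs_neg]
      refine (abs_add_le _ _).trans ?_
      rw [abs_of_pos hcpos]
      linarith
    · rw [abs_zero]
      positivity
  have hg0sq : Integrable (fun x => g0 x ^ 2) W := by
    refine Integrable.of_bound (hg0m.pow_const 2).aestronglyMeasurable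
      ((|G n j r / r| + Cf + c) ^ 2) (Filter.Eventually.of_forall fun x => ?_)
    rw [Real.norm_eq_abs, abs_pow]
    exact pow_le_pow_left₀ (abs_nonneg _) (hg0bd x) 2
  have hGint' : ∀ a b : ℝ, ∫ u in a..b, f n j u = G n j b - G n j a := by
    intro a b
    rw [hGint b, hGint a]
    exact (intervalIntegral.integral_interval_sub_left (fc.intervalIntegrable _ _)
      (fc.intervalIntegrable _ _)).symm
  have hrr : G n j r / r * r = G n j r := by
    by_cases h : r = 0
    · rw [h, G0]; simp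
    · field_simp
  -- the three integrals
  have hmean : ∫ x, g0 x ∂W = -c := by
    have h1 := hcv φ hφm
    rw [hg0, h1, split3 φ (fun _ => -(G n j r / r + c)) (fun u => -(f n j u + c)) (fun _ => 0) r p hr0
      hrp p1.le (by fun_prop) (by fun_prop) (by fun_prop) ?_ ?_ ?_]
    · have e1 : ∫ u in r..p, (-(f n j u + c)) = -((G n j p - G n j r) + c * (p - r)) := by
        rw [intervalIntegral.integral_neg, intervalIntegral.integral_add
          (fc.intervalIntegrable _ _) (by simp), hGint']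
        simp
        ring
      rw [e1]
      simp only [intervalIntegral.integral_const, smul_eq_mul, sub_zero, mul_zero, add_zero]
      linear_combination (-1 : ℝ) * hrr + hcp
    · intro u hu
      rw [hφ, ph0, if_pos (lt_of_lt_of_le hu.2 hrp), Fb, if_pos hu.2.le]
    · intro u hu
      rw [hφ, ph0, if_pos hu.2, Fb, if_neg (not_le.mpr hu.1)]
    · intro u hu
      rw [hφ, ph0, if_neg (not_lt.mpr hu.1.le)]
  set B : ℝ := Binf n j p s with hB
  have hBarg : 0 < G n j r ^ 2 / r + (∫ u in r..p, f n j u ^ 2) + G n j p ^ 2 / (1 - p) := by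
    have h1 : 0 ≤ G n j r ^ 2 / r := div_nonneg (by positivity) hr0
    have h2 : 0 ≤ ∫ u in r..p, f n j u ^ 2 :=
      intervalIntegral.integral_nonneg hrp fun u _ => by positivity
    have h3 : 0 < G n j p ^ 2 / (1 - p) := div_pos (by positivity) (by linarith)
    linarith
  have hBpos : 0 < B := Real.sqrt_pos.mpr hBarg
  have hBsq : B ^ 2 = G n j r ^ 2 / r + (∫ u in r..p, f n j u ^ 2) + G n j p ^ 2 / (1 - p) :=
    Real.sq_sqrt hBarg.le
  have hGr2 : G n j r ^ 2 / r = (G n j r / r) ^ 2 * r := by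
    by_cases h : r = 0
    · rw [h]; simp
    · field_simp
  have hGp2 : G n j p ^ 2 / (1 - p) = c ^ 2 * (1 - p) := by
    rw [hc]
    have : 1 - p ≠ 0 := by linarith
    field_simp
  have hsd0 : sdW W g0 = B := by
    rw [hB, Binf, ← hr, sdW, hmean]
    congr 1
    have h1 := hcv (fun u => (φ u - -c) ^ 2) ((hφm.sub_const _).pow_const 2)
    rw [hg0]
    simp only at h1 ⊢
    rw [h1, split3 (fun u => (φ u - -c) ^ 2) (fun _ => (G n j r / r) ^ 2) (fun u => f n j u ^ 2)
      (fun _ => c ^ 2) r p hr0 hrp p1.le (by fun_prop) (by fun_prop) (by fun_prop) ?_ ?_ ?_]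
    · simp only [intervalIntegral.integral_const, smul_eq_mul, sub_zero]
      rw [hGr2, hGp2]
      ring
    · intro u hu
      rw [hφ, ph0, if_pos (lt_of_lt_of_le hu.2 hrp), Fb, if_pos hu.2.le]
      ring
    · intro u hu
      rw [hφ, ph0, if_pos hu.2, Fb, if_neg (not_le.mpr hu.1)]
      ring
    · intro u hu
      rw [hφ, ph0, if_neg (not_lt.mpr hu.1.le)]
      ring
  have hg0w : g0 w = 0 := by
    rw [hg0]
    simp only
    rw [hw.2, hφ, ph0, if_neg (lt_irrefl p)]
  have hT0 : T W n j p g0 = -B ^ 2 := by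
    rw [T, ← hwd, hg0w, sub_zero]
    have h1 := hcv (fun u => φ u * f n j u) (hφm.mul fc.measurable)
    rw [hg0]
    simp only at h1 ⊢
    rw [h1, split3 (fun u => φ u * f n j u) (fun u => -(G n j r / r + c) * f n j u)
      (fun u => -(f n j u ^ 2 + c * f n j u)) (fun _ => 0) r p hr0 hrp p1.le (by fun_prop)
      (by fun_prop) (by fun_prop) ?_ ?_ ?_]
    · have e1 : ∫ u in r..p, (-(f n j u ^ 2 + c * f n j u)) =
          -((∫ u in r..p, f n j u ^ 2) + c * (G n j p - G n j r)) := by
        have i1 : IntervalIntegrable (fun u => f n j u ^ 2) volume r p :=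
          (fc.pow 2).intervalIntegrable _ _
        have i2 : IntervalIntegrable (fun u => c * f n j u) volume r p :=
          (continuous_const.mul fc).intervalIntegrable _ _
        rw [intervalIntegral.integral_neg, intervalIntegral.integral_add i1 i2,
          intervalIntegral.integral_const_mul, hGint']
      rw [e1, intervalIntegral.integral_const_mul, hGint', G0, hBsq, hGp2, hGr2]
      simp only [intervalIntegral.integral_const, smul_eq_mul, sub_zero, mul_zero, add_zero]
      linear_combination (G n j r / r) * hrr + c * hcp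
    · intro u hu
      rw [hφ, ph0, if_pos (lt_of_lt_of_le hu.2 hrp), Fb, if_pos hu.2.le]
    · intro u hu
      rw [hφ, ph0, if_pos hu.2, Fb, if_neg (not_le.mpr hu.1)]
      ring
    · intro u hu
      rw [hφ, ph0, if_neg (not_lt.mpr hu.1.le), zero_mul]
  -- the contradiction
  have hgm : AEStronglyMeasurable g W := hMEA W hW g (Or.inl hmono)
  have hg0ae : AEStronglyMeasurable g0 W := hg0m.aestronglyMeasurable
  by_contra hcon
  push Not at hcon
  have hsum : T W n j p (fun x => g x + g0 x) = T W n j p g + T W n j p g0 := by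
    rw [T, T, T]
    have h1 := (hT g hgm hsq).2.1
    have h2 := (hT g0 hg0ae hg0sq).2.1
    have h3 : ∫ x, (g x + g0 x) * f n j (cdf W x) ∂W =
        (∫ x, g x * f n j (cdf W x) ∂W) + ∫ x, g0 x * f n j (cdf W x) ∂W := by
      rw [← integral_add h1 h2]
      exact integral_congr_ae (Filter.Eventually.of_forall fun x => by simp only; ring)
    rw [h3]
    ring
  have hsqsum : Integrable (fun x => (g x + g0 x) ^ 2) W :=
    ((memLp_of_sq W g hgm hsq).add (memLp_of_sq W g0 hg0ae hg0sq)).integrable_sq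
  have hdf := hDFI W hW n j p hpar s hs1 hs2 hs3 (fun x => g x + g0 x) (hmono.add hg0mono) hsqsum
  rw [hsum, hT0, ← hB] at hdf
  have htri : sdW W g + sdW W g0 ≤ sdW W (fun x => g x + g0 x) := by
    rw [hsd0]
    have h1 : B * (sdW W g + B) ≤ B * sdW W (fun x => g x + g0 x) := by nlinarith
    exact le_of_mul_le_mul_left h1 hBpos
  have heq := equality W g g0 hgm hg0ae hsq hg0sq htri
  rw [hsd0] at heq
  set a := sdW W g with ha
  set mg := ∫ y, g y ∂W with hmg
  set K : ℝ := B * mg - a * ∫ y, g0 y ∂W with hK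
  have hP : ∀ᵐ x ∂W, x ∈ spt W ∧ B * g x = K + a * g0 x := by
    filter_upwards [heq, hae] with x hx hx2
    refine ⟨hx2, ?_⟩
    rw [hK]
    linarith
  obtain ⟨δ, hδ, hball⟩ := Metric.isOpen_iff.mp u2 w hw.1
  set ε : ℝ := a * c / (4 * B) with hε
  have hεpos : 0 < ε := by positivity
  have hεe : B * ε * 4 = a * c := by
    rw [hε]; field_simp
  have hcw : ContinuousAt g w := (hcont w hw.1).continuousAt (u2.mem_nhds hw.1)
  obtain ⟨η, hη, hgη⟩ := Metric.continuousAt_iff.mp hcw ε hεpos
  set ρ := min δ η with hρ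
  have hρ0 : 0 < ρ := lt_min hδ hη
  have hρδ : ρ ≤ δ := min_le_left _ _
  have hρη : ρ ≤ η := min_le_right _ _
  have hmem : ∀ x, |x - w| < δ → x ∈ spt W := fun x hx => hball (by
    rw [Metric.mem_ball, Real.dist_eq]; exact hx)
  obtain ⟨x, hx, hxs, hxP⟩ := exists_ae W hW _ hP w (w + ρ / 2) hw.1
    (hmem _ (by rw [abs_of_pos (by linarith)]; linarith)) (by linarith)
  obtain ⟨y, hy, hys, hyP⟩ := exists_ae W hW _ hP (w - ρ / 2) (w - ρ / 4)
    (hmem _ (by rw [abs_of_neg (by linarith)]; linarith))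
    (hmem _ (by rw [abs_of_neg (by linarith)]; linarith)) (by linarith)
  have hx1 := @hgη x (by rw [Real.dist_eq, abs_of_pos (by linarith [hx.1])]; linarith [hx.2])
  have hy1 := @hgη y (by rw [Real.dist_eq, abs_of_neg (by linarith [hy.2])]; linarith [hy.1])
  rw [Real.dist_eq, abs_lt] at hx1 hy1
  have hg0x : g0 x = 0 := by
    have h1 : p ≤ cdf W x := by
      rw [← hw.2]; exact monotone_cdf W hx.1.le
    rw [hg0, hφ]
    simp only
    rw [ph0, if_neg (not_lt.mpr h1)]
  have hg0y : g0 y ≤ -c := by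
    have h1 : cdf W y < p := by
      rw [← hw.2]
      exact hW.strict hys hw.1 (by linarith [hy.2])
    rw [hg0, hφ]
    simp only
    rw [ph0, if_pos h1]
    have := Fb_nonneg (cdf W y) hys.1 hys.2
    linarith
  rw [hg0x, mul_zero, add_zero] at hxP
  have h1 : a * g0 y ≤ a * (-c) := mul_le_mul_of_nonneg_left hg0y hsd.le
  nlinarith [mul_lt_mul_of_pos_left hx1.2 hBpos, mul_lt_mul_of_pos_left hy1.1 hBpos]

end Pool.Agent.T2H99.QB
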