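import Pool.Agent.T2H99.QB.H35

set_option autoImplicit false

open MeasureTheory ProbabilityTheory Set Filter Topology

noncomputable section

namespace Pool.Agent.T2H99.QB

namespace NVx

open H35

variable {W : Measure ℝ}

theorem noatom (hW : Ref W) (t : ℝ) : W {t} = 0 := by
  have := hW.prob
  conv_lhs => rw [← measure_cdf W]
  rw [StieltjesFunction.measure_singleton]
  have h : Function.leftLim (cdf W) t = cdf W t :=
    (hW.cont.continuousAt (x := t)).continuousWithinAt.leftLim_eq
  rw [h, sub_self, ENNReal.ofReal_zero]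

theorem ae_ne (hW : Ref W) (t : ℝ) : ∀ᵐ x ∂W, x ≠ t := by
  have := noatom hW t
  rw [ae_iff]
  simpa using this

theorem minL2 (hW : Ref W) (hI : IM W) (t : ℝ) : L2 W (fun x => min x t) := by
  have := hW.prob
  refine ⟨(measurable_id.min measurable_const).aestronglyMeasurable, ?_⟩
  have h1 : Integrable (fun x : ℝ => (min x 0) ^ 2 + t ^ 2) W := Integrable.add hI (integrable_const _)
  refine h1.mono' ((measurable_id.min measurable_const).pow_const 2).aestronglyMeasurable
    (Eventually.of_forall fun x => ?_)
  rw [Real.norm_of_nonneg (sq_nonneg _)]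
  rcases le_total x t with h | h
  · rw [min_eq_left h]
    rcases le_total x 0 with h0 | h0
    · rw [min_eq_left h0]; nlinarith [sq_nonneg t]
    · rw [min_eq_right h0]; nlinarith
  · rw [min_eq_right h]; nlinarith [sq_nonneg (min x 0)]

theorem min_lip (x s s' : ℝ) : |min x s - min x s'| ≤ |s - s'| := by
  rcases le_total x s with h | h <;> rcases le_total x s' with h' | h' <;>
    simp only [h, h', min_eq_left, min_eq_right] <;> rw [abs_le] <;>
    constructor <;> cases abs_cases (s - s') <;> linarith

theorem min_deriv {x t : ℝ} (h : x ≠ t) :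
    HasDerivAt (fun s => min x s) (if t < x then 1 else 0) t := by
  rcases lt_or_gt_of_ne h with h1 | h1
  · rw [if_neg (not_lt.2 h1.le)]
    have : (fun s => min x s) =ᶠ[𝓝 t] fun _ => x := by
      filter_upwards [eventually_gt_nhds h1] with s hs
      exact min_eq_left hs.le
    exact (hasDerivAt_const t x).congr_of_eventuallyEq this
  · rw [if_pos h1]
    have : (fun s => min x s) =ᶠ[𝓝 t] fun s => s := by
      filter_upwards [eventually_lt_nhds h1] with s hs
      exact min_eq_right hs.le
    exact (hasDerivAt_id t).congr_of_eventuallyEq this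

/-- the derivative of `∫ min(x,t) φ(x)` for bounded `φ` -/
theorem dmin (hW : Ref W) (hI : IM W) {φ : ℝ → ℝ} (hφ : Measurable φ) {C : ℝ} (hC : ∀ x, |φ x| ≤ C)
    (t : ℝ) : HasDerivAt (fun t => ∫ x, min x t * φ x ∂W) (∫ x in Ioi t, φ x ∂W) t := by
  have := hW.prob
  have hC0 : 0 ≤ C := (abs_nonneg _).trans (hC 0)
  have Lφ : L2 W φ := by
    refine ⟨hφ.aestronglyMeasurable, ?_⟩
    refine Integrable.of_bound (hφ.pow_const 2).aestronglyMeasurable (C ^ 2) (Eventually.of_forall fun x => ?_)
    rw [Real.norm_eq_abs, abs_pow]
    exact pow_le_pow_left₀ (abs_nonneg _) (hC x) 2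
  have h := hasDerivAt_integral_of_dominated_loc_of_lip (μ := W) (𝕜 := ℝ)
    (F := fun t x => min x t * φ x) (F' := fun x => (if t < x then 1 else 0) * φ x) (x₀ := t)
    (s := univ) (bound := fun _ => C) univ_mem
    (Eventually.of_forall fun s => ((measurable_id.min measurable_const).mul hφ).aestronglyMeasurable)
    ((minL2 hW hI t).mul Lφ)
    ((Measurable.ite measurableSet_Ioi measurable_const measurable_const).mul hφ).aestronglyMeasurable
    (Eventually.of_forall fun x => by
      apply LipschitzWith.lipschitzOnWith
      apply LipschitzWith.of_dist_le_mul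
      intro s s'
      rw [Real.dist_eq, Real.dist_eq, ← sub_mul, abs_mul, Real.coe_nnabs, abs_of_nonneg hC0]
      calc |min x s - min x s'| * |φ x| ≤ |s - s'| * C :=
            mul_le_mul (min_lip x s s') (hC x) (abs_nonneg _) (abs_nonneg _)
        _ = C * |s - s'| := mul_comm _ _)
    (integrable_const _)
    (by
      filter_upwards [ae_ne hW t] with x hx
      exact (min_deriv hx).mul_const (φ x))
  have h2 : ∫ x, (if t < x then (1 : ℝ) else 0) * φ x ∂W = ∫ x in Ioi t, φ x ∂W := by
    rw [← integral_indicator measurableSet_Ioi]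
    refine integral_congr_ae (Eventually.of_forall fun x => ?_)
    by_cases hx : t < x
    · simp [indicator, hx]
    · simp [indicator, hx]
  rw [← h2]
  exact h.2

theorem sq_lip (x s s' B : ℝ) (hs : |s| ≤ B) (hs' : |s'| ≤ B) :
    |(min x s) ^ 2 - (min x s') ^ 2| ≤ 2 * B * |s - s'| := by
  have hB : 0 ≤ B := (abs_nonneg _).trans hs
  rw [abs_le] at hs hs'
  by_cases h : x ≤ s ∧ x ≤ s'
  · rw [min_eq_left h.1, min_eq_left h.2, sub_self, abs_zero]
    positivity
  · have h1 : |min x s| ≤ B ∧ |min x s'| ≤ B := by
      have hx : s < x ∨ s' < x := by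
        by_contra hcon
        push Not at hcon
        exact h hcon
      have hx2 : -B ≤ x := by
        rcases hx with hx | hx <;> linarith
      constructor
      · rw [abs_le]
        exact ⟨le_min hx2 hs.1, (min_le_right _ _).trans hs.2⟩
      · rw [abs_le]
        exact ⟨le_min hx2 hs'.1, (min_le_right _ _).trans hs'.2⟩
    have h2 : (min x s) ^ 2 - (min x s') ^ 2 = (min x s + min x s') * (min x s - min x s') := by ring
    rw [h2, abs_mul]
    have h3 : |min x s + min x s'| ≤ 2 * B := (abs_add_le _ _).trans (by linarith [h1.1, h1.2])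
    exact mul_le_mul h3 (min_lip x s s') (abs_nonneg _) (by positivity)

/-- the derivative of the second moment -/
theorem dsq (hW : Ref W) (hI : IM W) (t : ℝ) :
    HasDerivAt (fun t => ∫ x, (min x t) ^ 2 ∂W) (2 * t * (1 - cdf W t)) t := by
  have := hW.prob
  have h := hasDerivAt_integral_of_dominated_loc_of_lip (μ := W) (𝕜 := ℝ)
    (F := fun t x => (min x t) ^ 2) (F' := fun x => 2 * min x t * (if t < x then 1 else 0)) (x₀ := t)
    (s := Metric.ball t 1) (bound := fun _ => 2 * (|t| + 1)) (Metric.ball_mem_nhds t one_pos)
    (Eventually.of_forall fun s => ((measurable_id.min measurable_const).pow_const 2).aestronglyMeasurable)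
    (minL2 hW hI t).i
    (((measurable_id.min measurable_const).const_mul 2).mul
      (Measurable.ite measurableSet_Ioi measurable_const measurable_const)).aestronglyMeasurable
    (Eventually.of_forall fun x => by
      apply LipschitzOnWith.of_dist_le_mul
      intro s hs s' hs'
      rw [Metric.mem_ball, Real.dist_eq] at hs hs'
      have hb : |2 * (|t| + 1)| = 2 * (|t| + 1) := abs_of_nonneg (by positivity)
      rw [Real.dist_eq, Real.dist_eq, Real.coe_nnabs, hb]
      apply sq_lip
      · have := abs_sub_abs_le_abs_sub s t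
        linarith
      · have := abs_sub_abs_le_abs_sub s' t
        linarith)
    (integrable_const _)
    (by
      filter_upwards [ae_ne hW t] with x hx
      exact ((min_deriv hx).pow 2).congr_deriv (by norm_num))
  have h2 : ∫ x, 2 * min x t * (if t < x then (1 : ℝ) else 0) ∂W = 2 * t * (1 - cdf W t) := by
    have h3 : ∫ x, 2 * min x t * (if t < x then (1 : ℝ) else 0) ∂W = ∫ x in Ioi t, 2 * t ∂W := by
      rw [← integral_indicator measurableSet_Ioi]
      refine integral_congr_ae (Eventually.of_forall fun x => ?_)
      by_cases hx : t < x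
      · simp [indicator, hx, min_eq_right hx.le]
      · simp [indicator, hx]
    rw [h3, setIntegral_const, real_Ioi hW, smul_eq_mul]
    ring
  rw [← h2]
  exact h.2

end NVx

open H35 NVx in
theorem pNV (hUNI : S_UNI) (hFF : S_FF) (hHH : S_HH) : S_NV := by
  intro W hW hI n j p hp t
  have := hW.prob
  obtain ⟨⟨C, hC⟩, hh0, hm, -, htot, hIic, -⟩ := hHH W hW n j p hp
  have Lh := L2h hHH hW hp
  have hM : HasDerivAt (Mt W) (1 - cdf W t) t := by
    have h := dmin hW hI (φ := fun _ => 1) measurable_const (C := 1) (fun _ => by simp) t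
    simp only [mul_one] at h
    rw [setIntegral_const, real_Ioi hW, smul_eq_mul, mul_one] at h
    exact h
  have hVeq : Vt W = fun t => (∫ x, (min x t) ^ 2 ∂W) - Mt W t ^ 2 := by
    funext s
    have h1 := sd_sq_eq (minL2 hW hI s)
    rw [sd_sq] at h1
    exact h1
  refine ⟨hM, ?_, ?_, fun ht => ?_⟩
  · rw [hVeq]
    exact ((dsq hW hI t).sub (hM.pow 2)).congr_deriv (by norm_num; ring)
  · have h := (dmin hW hI hm hC t).sub_const (quant W p)
    have h1 := integral_add_compl (μ := W) (f := fun x => f n j (cdf W x)) (measurableSet_Iic (a := t)) Lh.int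
    rw [compl_Iic, hIic t, htot] at h1
    have h2 : ∫ x in Ioi t, f n j (cdf W x) ∂W = 1 - G n j (cdf W t) := by linarith
    rw [h2] at h
    exact h
  · have hmt : Mt W t < t := by
      have h1 : 0 < ∫ x, (t - min x t) ∂W := by
        rw [integral_pos_iff_support_of_nonneg (fun x => sub_nonneg.2 (min_le_right _ _))
          ((integrable_const t).sub (minL2 hW hI t).int)]
        have h2 : Iio t ⊆ Function.support (fun x => t - min x t) := by
          intro x hx
          have hx' : x < t := hx
          rw [Function.mem_support, min_eq_left hx'.le]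
          exact (sub_pos.2 hx').ne'
        refine lt_of_lt_of_le ?_ (measure_mono h2)
        have h3 : W (Iic t) ≤ W (Iio t) := by
          rw [← Iio_union_right]
          exact (measure_union_le _ _).trans (by rw [noatom hW t, add_zero])
        refine lt_of_lt_of_le ?_ h3
        have h4 := real_Iic hW t
        have h5 : 0 < W.real (Iic t) := by rw [h4]; exact ht.1
        rw [Measure.real, ENNReal.toReal_pos_iff] at h5
        exact h5.1
      rw [integral_sub (integrable_const _) (minL2 hW hI t).int] at h1
      simp at h1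
      exact h1
    refine ⟨?_, hmt⟩
    have hL := ((minL2 hW hI t).sub (L2.const (Mt W t))).i
    have h0 : 0 ≤ Vt W t := integral_nonneg fun _ => sq_nonneg _
    rcases h0.eq_or_lt with h | h
    · exfalso
      have h1 := (integral_eq_zero_iff_of_nonneg (fun x => sq_nonneg _) hL).1 h.symm
      have h2 : W {x | ¬ ((min x t - Mt W t) ^ 2 = (0 : ℝ → ℝ) x)} = 0 := h1
      have h3 : Ioi t ⊆ {x | ¬ ((min x t - Mt W t) ^ 2 = (0 : ℝ → ℝ) x)} := by
        intro x hx h4
        have hx' : t < x := hx
        rw [min_eq_right hx'.le, Pi.zero_apply] at h4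
        have := pow_eq_zero_iff (two_ne_zero) |>.1 h4
        linarith
      exact (pos_Ioi hW ht).ne' (measure_mono_null h3 h2)
    · exact h

end Pool.Agent.T2H99.QB
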