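import Pool.Agent.T2H99.QB.Stm

open MeasureTheory ProbabilityTheory Set Filter Topology

noncomputable section

namespace Pool.Agent.T2H99.QB

namespace PkgORD

theorem f_cont (n j : ℕ) : Continuous (f n j) := by
  unfold f
  fun_prop

theorem f_nonneg (n j : ℕ) {u : ℝ} (h0 : 0 ≤ u) (h1 : u ≤ 1) : 0 ≤ f n j u := by
  unfold f
  have : 0 ≤ 1 - u := by linarith
  positivity

theorem G_one (n j : ℕ) (hjn : j ≤ n) : G n j 1 = 1 := by
  unfold G
  rw [Finset.sum_eq_single n]
  · simp
  · intro i hi hin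
    rw [Finset.mem_Ico] at hi
    have : n - i ≠ 0 := by omega
    rw [sub_self, zero_pow this, mul_zero]
  · intro h
    exact absurd (Finset.mem_Ico.2 ⟨hjn, Nat.lt_succ_self n⟩) h

/-- the Lebesgue integral of `f` over `(-∞, c] ∩ (0, 1)` -/
theorem lint (hBET : S_BET) (n j : ℕ) (hj : 1 ≤ j) (hjn : j ≤ n) (c : ℝ) (h0 : 0 ≤ c) (h1 : c ≤ 1) :
    ∫⁻ u in Iic c ∩ Ioo (0 : ℝ) 1, ENNReal.ofReal (f n j u) = ENNReal.ofReal (G n j c) := by
  have hae : (Iic c ∩ Ioo (0 : ℝ) 1 : Set ℝ) =ᵐ[volume] Ioc 0 c := by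
    rcases h1.eq_or_lt with h | h
    · subst h
      have : (Iic 1 ∩ Ioo (0 : ℝ) 1 : Set ℝ) = Ioo 0 1 := by
        ext x
        simp only [mem_inter_iff, mem_Iic, mem_Ioo]
        constructor
        · exact fun h => h.2
        · exact fun h => ⟨h.2.le, h⟩
      rw [this]
      exact Ioo_ae_eq_Ioc
    · have : (Iic c ∩ Ioo (0 : ℝ) 1 : Set ℝ) = Ioc 0 c := by
        ext x
        simp only [mem_inter_iff, mem_Iic, mem_Ioo, mem_Ioc]
        constructor
        · exact fun h => ⟨h.2.1, h.1⟩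
        · exact fun h' => ⟨h'.2, h'.1, by linarith [h'.2]⟩
      rw [this]
  rw [setLIntegral_congr hae, ← ofReal_integral_eq_lintegral_ofReal]
  · rw [(hBET n j hj hjn).2 c, intervalIntegral.integral_of_le h0]
  · exact (f_cont n j).integrableOn_Ioc
  · refine (ae_restrict_iff' measurableSet_Ioc).2 (Eventually.of_forall fun u hu => ?_)
    exact f_nonneg n j hu.1.le (hu.2.trans h1)

end PkgORD

open PkgORD in
theorem pORD (hCNT : S_CNT) (hBET : S_BET) (hOST : S_OST) (hQNT : S_QNT) : S_ORD := by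
  intro μ hμ n j hj hjn
  obtain ⟨hq, hqm⟩ := hQNT μ hμ
  obtain ⟨hO1, hO2⟩ := hOST n j hj hjn
  set ρ : Measure ℝ := volume.restrict (Ioo 0 1) with hρ
  set lam : Measure ℝ := ρ.withDensity (fun u => ENNReal.ofReal (f n j u)) with hlam
  have hfm : Measurable (fun u => ENNReal.ofReal (f n j u)) := (f_cont n j).measurable.ennreal_ofReal
  have hlamIic : ∀ c : ℝ, 0 ≤ c → c ≤ 1 → lam (Iic c) = ENNReal.ofReal (G n j c) := by
    intro c h0 h1
    rw [hlam, withDensity_apply _ measurableSet_Iic, hρ, Measure.restrict_restrict measurableSet_Iic]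
    exact lint hBET n j hj hjn c h0 h1
  have hac : lam ≪ ρ := withDensity_absolutelyContinuous _ _
  have hlam1 : lam univ = 1 := by
    have h1 := hlamIic 1 zero_le_one le_rfl
    rw [G_one n j hjn, ENNReal.ofReal_one] at h1
    rw [← h1]
    refine measure_congr ?_
    refine hac.ae_eq ?_
    have : ∀ᵐ u ∂ρ, u ∈ Ioo (0 : ℝ) 1 := ae_restrict_mem measurableSet_Ioo
    filter_upwards [this] with u hu
    exact propext ⟨fun _ => hu.2.le, fun _ => trivial⟩
  have hlamP : IsProbabilityMeasure lam := ⟨hlam1⟩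
  have hqae : AEMeasurable (quant μ) lam :=
    (aemeasurable_restrict_of_monotoneOn measurableSet_Ioo hqm).mono_ac hac
  set ν₁ : Measure ℝ := (Measure.pi (fun _ : Fin n => μ)).map (ordStat n j) with hν₁
  set ν₂ : Measure ℝ := lam.map (quant μ) with hν₂
  have hP₁ : IsProbabilityMeasure ν₁ := Measure.isProbabilityMeasure_map hO2.aemeasurable
  have hP₂ : IsProbabilityMeasure ν₂ := Measure.isProbabilityMeasure_map hqae
  have hν : ν₁ = ν₂ := by
    refine Measure.eq_of_cdf ν₁ ν₂ ?_
    ext t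
    have hc0 := cdf_nonneg μ t
    have hc1 := cdf_le_one μ t
    have e1 : cdf ν₁ t = G n j (cdf μ t) := by
      rw [cdf_eq_real, measureReal_def, hν₁, Measure.map_apply hO2 measurableSet_Iic, ← measureReal_def,
        ← hCNT μ hμ n j t]
      congr 1
      ext x
      exact hO1 x t
    have hG0 : 0 ≤ G n j (cdf μ t) := by
      rw [(hBET n j hj hjn).2]
      exact intervalIntegral.integral_nonneg hc0 fun u hu => f_nonneg n j hu.1 (hu.2.trans hc1)
    have e2 : cdf ν₂ t = G n j (cdf μ t) := by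
      rw [cdf_eq_real, measureReal_def, hν₂, Measure.map_apply_of_aemeasurable hqae measurableSet_Iic]
      have h3 : lam (quant μ ⁻¹' Iic t) = lam (Iic (cdf μ t)) := by
        refine measure_congr ?_
        refine hac.ae_eq ?_
        have : ∀ᵐ u ∂ρ, u ∈ Ioo (0 : ℝ) 1 := ae_restrict_mem measurableSet_Ioo
        filter_upwards [this] with u hu
        exact propext (hq u hu.1 hu.2 t)
      rw [h3, hlamIic _ hc0 hc1, ENNReal.toReal_ofReal hG0]
    rw [e1, e2]
  have hl : meanOrd μ n j = ∫ x, x ∂ν₁ := by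
    unfold meanOrd
    rw [hν₁, integral_map hO2.aemeasurable (by fun_prop)]
  have hr : ∫ x, x ∂ν₂ = ∫ u in (0 : ℝ)..1, quant μ u * f n j u := by
    rw [hν₂, integral_map hqae (by fun_prop), hlam,
      integral_withDensity_eq_integral_toReal_smul hfm (Eventually.of_forall fun u => ENNReal.ofReal_lt_top), hρ,
      intervalIntegral.integral_of_le zero_le_one, integral_Ioc_eq_integral_Ioo]
    refine setIntegral_congr_fun measurableSet_Ioo fun u hu => ?_
    rw [ENNReal.toReal_ofReal (f_nonneg n j hu.1.le hu.2.le), smul_eq_mul, mul_comm]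
  rw [hl, hν, hr]

end Pool.Agent.T2H99.QB
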