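import Pool.Agent.T2H99.QB.Stm

open MeasureTheory ProbabilityTheory Set Filter Topology

noncomputable section

namespace Pool.Agent.T2H99.QB

namespace PkgOST

/-- the number of the coordinates `≤ t` -/
def N {n : ℕ} (x : Fin n → ℝ) (t : ℝ) : ℕ := (Finset.univ.filter (fun i => x i ≤ t)).card

lemma N_mono {n : ℕ} (x : Fin n → ℝ) : Monotone (N x) := by
  intro s t h
  refine Finset.card_le_card fun i hi => ?_
  rw [Finset.mem_filter] at hi ⊢
  exact ⟨hi.1, hi.2.trans h⟩

lemma key {n j : ℕ} (h1 : 1 ≤ j) (hn : j ≤ n) (x : Fin n → ℝ) (t : ℝ) :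
    sInf {t | j ≤ N x t} ≤ t ↔ j ≤ N x t := by
  have hbdd : BddBelow {t | j ≤ N x t} := by
    obtain ⟨m, hm⟩ := (Set.finite_range x).bddBelow
    refine ⟨m, fun s hs => ?_⟩
    by_contra hlt
    push Not at hlt
    have h0 : N x s = 0 := by
      unfold N
      rw [Finset.card_eq_zero, Finset.filter_eq_empty_iff]
      intro i _ hi
      have := hm (mem_range_self i)
      linarith
    have hs' : j ≤ N x s := hs
    omega
  have hne : {t | j ≤ N x t}.Nonempty := by
    obtain ⟨m, hm⟩ := (Set.finite_range x).bddAbove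
    refine ⟨m, ?_⟩
    have : N x m = n := by
      unfold N
      rw [Finset.filter_true_of_mem fun i _ => hm (mem_range_self i), Finset.card_univ,
        Fintype.card_fin]
    change j ≤ N x m
    omega
  constructor
  · intro h
    have hev : ∀ᶠ s in 𝓝[>] t, ∀ i, x i ≤ s → x i ≤ t := by
      rw [eventually_all]
      intro i
      by_cases hi : x i ≤ t
      · exact Eventually.of_forall fun s _ => hi
      · have : ∀ᶠ s in 𝓝 t, s < x i := eventually_lt_nhds (not_le.1 hi)
        filter_upwards [eventually_nhdsWithin_of_eventually_nhds this] with s hs hs'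
        exact absurd hs' (not_le.2 hs)
    obtain ⟨s, hs, hst⟩ := (hev.and (self_mem_nhdsWithin : Ioi t ∈ 𝓝[>] t)).exists
    have hst' : t < s := hst
    obtain ⟨a, ha, has⟩ := exists_lt_of_csInf_lt hne (lt_of_le_of_lt h hst')
    have h2 : j ≤ N x s := le_trans ha (N_mono x has.le)
    refine h2.trans (Finset.card_le_card fun i hi => ?_)
    rw [Finset.mem_filter] at hi ⊢
    exact ⟨hi.1, hs i hi.2⟩
  · intro h
    exact csInf_le hbdd h

end PkgOST

open PkgOST in
theorem pOST : S_OST := by
  intro n j h1 hn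
  have h0 : ∀ (x : Fin n → ℝ) (t : ℝ),
      ordStat n j x ≤ t ↔ j ≤ (Finset.univ.filter (fun i => x i ≤ t)).card :=
    fun x t => key h1 hn x t
  refine ⟨h0, ?_⟩
  refine measurable_of_Iic fun t => ?_
  have hset : ordStat n j ⁻¹' Iic t =
      {x : Fin n → ℝ | j ≤ ∑ i : Fin n, if x i ≤ t then 1 else 0} := by
    ext x
    rw [mem_preimage, mem_Iic, h0, Finset.card_filter]
    rfl
  rw [hset]
  have hm : Measurable fun x : Fin n → ℝ => ∑ i : Fin n, if x i ≤ t then (1 : ℕ) else 0 := by
    refine Finset.measurable_sum _ fun i _ => ?_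
    exact Measurable.ite (measurableSet_le (measurable_pi_apply i) measurable_const)
      measurable_const measurable_const
  exact measurableSet_le measurable_const hm

end Pool.Agent.T2H99.QB
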