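import Pool.Agent.T2H99.QB.Stm

open MeasureTheory ProbabilityTheory Set Filter Topology

noncomputable section

namespace Pool.Agent.T2H99.QB

namespace PkgCON

theorem memLp {W : Measure ℝ} {g : ℝ → ℝ} (hg : AEStronglyMeasurable g W)
    (h : Integrable (fun x => g x ^ 2) W) : MemLp g 2 W :=
  (memLp_two_iff_integrable_sq hg).mpr h

theorem expand {W : Measure ℝ} [IsProbabilityMeasure W] {g : ℝ → ℝ} (hg : MemLp g 2 W) (c : ℝ) :
    Integrable (fun x => (g x - c) ^ 2) W ∧
    ∫ x, (g x - c) ^ 2 ∂W = ∫ x, (g x - ∫ y, g y ∂W) ^ 2 ∂W + ((∫ y, g y ∂W) - c) ^ 2 := by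
  set m := ∫ y, g y ∂W with hm
  have hg1 : Integrable g W := hg.integrable (by norm_num)
  have hc : ∀ c : ℝ, Integrable (fun x => (g x - c) ^ 2) W := fun c => (hg.sub (memLp_const c)).integrable_sq
  refine ⟨hc c, ?_⟩
  have h0 : ∫ x, (g x - m) ∂W = 0 := by
    rw [integral_sub hg1 (integrable_const m), integral_const]
    simp [hm]
  have hgm : Integrable (fun x => g x - m) W := hg1.sub (integrable_const m)
  have e : ∀ x, (g x - c) ^ 2 = (g x - m) ^ 2 + (2 * (m - c) * (g x - m) + (m - c) ^ 2) := fun x => by ring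
  have h1 : Integrable (fun x => 2 * (m - c) * (g x - m)) W := hgm.const_mul _
  have h2 : Integrable (fun x => 2 * (m - c) * (g x - m) + (m - c) ^ 2) W := h1.add (integrable_const _)
  rw [integral_congr_ae (Filter.Eventually.of_forall e), integral_add (hc m) h2,
    integral_add h1 (integrable_const _), integral_const_mul, h0, integral_const]
  simp

end PkgCON

open PkgCON in
theorem pCON (hUNI : S_UNI) : S_CON := by
  intro W hW g g' hg hg' hint hcon
  have := hW.prob
  obtain ⟨hnull, -⟩ := hUNI W hW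
  have hae : ∀ᵐ x ∂W, x ∈ spt W := by
    rw [ae_iff]
    exact hnull
  obtain ⟨x0, hx0⟩ : ∃ x, x ∈ spt W := hae.exists
  have hL := memLp hg hint
  have hL' : MemLp g' 2 W := by
    have hb : MemLp (fun x => |g x - g x0| + |g' x0|) 2 W :=
      ((hL.sub (memLp_const (g x0))).abs).add (memLp_const _)
    refine hb.mono' hg' ?_
    filter_upwards [hae] with x hx
    have h := hcon x hx x0 hx0
    rw [Real.norm_eq_abs]
    have h2 := abs_sub_abs_le_abs_sub (g' x) (g' x0)
    linarith
  refine ⟨hL'.integrable_sq, ?_⟩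
  unfold sdW
  refine Real.sqrt_le_sqrt ?_
  set V := ∫ x, (g x - ∫ y, g y ∂W) ^ 2 ∂W with hV
  set V' := ∫ x, (g' x - ∫ y, g' y ∂W) ^ 2 ∂W with hV'
  have key : ∀ᵐ y ∂W, V' + ((∫ z, g' z ∂W) - g' y) ^ 2 ≤ V + ((∫ z, g z ∂W) - g y) ^ 2 := by
    filter_upwards [hae] with y hy
    obtain ⟨i1, e1⟩ := expand hL (g y)
    obtain ⟨i2, e2⟩ := expand hL' (g' y)
    rw [← e1, ← e2]
    refine integral_mono_ae i2 i1 ?_
    filter_upwards [hae] with x hx
    have h := hcon x hx y hy
    rw [← sq_abs (g' x - g' y), ← sq_abs (g x - g y)]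
    exact pow_le_pow_left₀ (abs_nonneg _) h 2
  obtain ⟨j1, -⟩ := expand hL (∫ z, g z ∂W)
  obtain ⟨j2, -⟩ := expand hL' (∫ z, g' z ∂W)
  have j1' : Integrable (fun y => ((∫ z, g z ∂W) - g y) ^ 2) W := by
    refine j1.congr (Filter.Eventually.of_forall fun y => ?_)
    ring
  have j2' : Integrable (fun y => ((∫ z, g' z ∂W) - g' y) ^ 2) W := by
    refine j2.congr (Filter.Eventually.of_forall fun y => ?_)
    ring
  have h3 := integral_mono_ae ((integrable_const V').add j2') ((integrable_const V).add j1') key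
  simp only [Pi.add_apply] at h3
  rw [integral_add (integrable_const V') j2', integral_add (integrable_const V) j1', integral_const,
    integral_const] at h3
  have s1 : ∫ y, ((∫ z, g z ∂W) - g y) ^ 2 ∂W = V := by
    rw [hV]
    refine integral_congr_ae (Filter.Eventually.of_forall fun y => ?_)
    ring
  have s2 : ∫ y, ((∫ z, g' z ∂W) - g' y) ^ 2 ∂W = V' := by
    rw [hV']
    refine integral_congr_ae (Filter.Eventually.of_forall fun y => ?_)
    ring
  rw [s1, s2] at h3
  simp at h3
  linarith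

end Pool.Agent.T2H99.QB
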