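import Pool.Agent.T2H99.QB.Stm

open MeasureTheory ProbabilityTheory Set Filter Topology

noncomputable section

namespace Pool.Agent.T2H99.QB

theorem pQNT : S_QNT := by
  intro μ hμ
  have gal : ∀ u : ℝ, 0 < u → u < 1 → ∀ t : ℝ, quant μ u ≤ t ↔ u ≤ cdf μ t := by
    intro u h0 h1 t
    have hne : {x | u ≤ cdf μ x}.Nonempty := by
      obtain ⟨x, hx⟩ := ((tendsto_cdf_atTop μ).eventually (lt_mem_nhds h1)).exists
      exact ⟨x, hx.le⟩
    have hbdd : BddBelow {x | u ≤ cdf μ x} := by
      obtain ⟨x, hx⟩ := ((tendsto_cdf_atBot μ).eventually (gt_mem_nhds h0)).exists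
      refine ⟨x, fun y hy => ?_⟩
      by_contra hlt
      push Not at hlt
      have h2 : cdf μ y ≤ cdf μ x := monotone_cdf μ hlt.le
      have hy' : u ≤ cdf μ y := hy
      exact absurd (lt_of_le_of_lt (hy'.trans h2) hx) (lt_irrefl u)
    constructor
    · intro h
      have hlim : Tendsto (cdf μ) (𝓝[>] t) (𝓝 (cdf μ t)) :=
        ((cdf μ).right_continuous t).mono_left (nhdsWithin_mono t Ioi_subset_Ici_self)
      refine ge_of_tendsto hlim ?_
      filter_upwards [self_mem_nhdsWithin] with s hs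
      obtain ⟨a, ha, has⟩ := exists_lt_of_csInf_lt hne (lt_of_le_of_lt h hs)
      exact le_trans ha (monotone_cdf μ has.le)
    · intro h
      exact csInf_le hbdd h
  refine ⟨gal, ?_⟩
  intro u hu v hv huv
  rw [gal u hu.1 hu.2]
  exact huv.trans ((gal v hv.1 hv.2 _).1 le_rfl)

end Pool.Agent.T2H99.QB
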