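import Pool.Agent.T2H99.QB.Stm

/-! # Package SC of project QB -/

set_option autoImplicit false

open MeasureTheory ProbabilityTheory Set Filter Topology

noncomputable section

namespace Pool.Agent.T2H99.QB

theorem pSC (hUNI : S_UNI) (hQNT : S_QNT) : S_SC := by
  intro W hW hbd μ hμ hstar
  obtain ⟨u1, u2, u3, u4, u5, u6, u7⟩ := hUNI W hW
  obtain ⟨q1, q2⟩ := hQNT μ hμ.prob
  obtain ⟨sb, sm⟩ := hstar
  have hcW : Monotone (cdf W) := monotone_cdf W
  have hgm : ∀ x ∈ spt W, ∀ y ∈ spt W, x ≤ y → quant μ (cdf W x) ≤ quant μ (cdf W y) :=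
    fun x hx y hy hxy => q2 ⟨hx.1, hx.2⟩ ⟨hy.1, hy.2⟩ (hcW hxy)
  intro x0 hx0
  refine ContinuousAt.continuousWithinAt ?_
  have hnhds : spt W ∈ 𝓝 x0 := u2.mem_nhds hx0
  obtain ⟨δ, hδ, hball⟩ := Metric.isOpen_iff.mp u2 x0 hx0
  have hin : ∀ x, |x - x0| < δ → x ∈ spt W := fun x hx => hball (by
    rw [Metric.mem_ball, Real.dist_eq]; exact hx)
  have hcont : Tendsto (cdf W) (𝓝 x0) (𝓝 (cdf W x0)) := hW.cont.tendsto x0
  refine tendsto_order.mpr ⟨?_, ?_⟩
  · intro a ha
    by_contra hcon
    have h1 : ∀ x ∈ spt W, x < x0 → quant μ (cdf W x) ≤ a := by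
      intro x hx hxx
      by_contra h2
      push Not at h2
      apply hcon
      filter_upwards [hnhds, Ioi_mem_nhds hxx] with y hy hyx
      exact h2.trans_le (hgm x hx y hy (le_of_lt hyx))
    have h2 : ∀ x ∈ spt W, x < x0 → cdf W x ≤ cdf μ a := fun x hx hxx =>
      (q1 _ hx.1 hx.2 a).mp (h1 x hx hxx)
    have h3 : cdf W x0 ≤ cdf μ a := by
      refine le_of_tendsto (hcont.mono_left (nhdsWithin_le_nhds (s := Iio x0))) ?_
      filter_upwards [self_mem_nhdsWithin, nhdsWithin_le_nhds hnhds] with x hx hxs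
      exact h2 x hxs hx
    have h4 := (q1 _ hx0.1 hx0.2 a).mpr h3
    linarith
  · intro a ha
    by_contra hcon
    have h1 : ∀ x ∈ spt W, x0 < x → a ≤ quant μ (cdf W x) := by
      intro x hx hxx
      by_contra h2
      push Not at h2
      apply hcon
      filter_upwards [hnhds, Iio_mem_nhds hxx] with y hy hyx
      exact (hgm y hy x hx (le_of_lt hyx)).trans_lt h2
    have hc : ∀ y, quant μ (cdf W x0) < y → y < a → cdf μ y = cdf W x0 := by
      intro y hy1 hy2
      apply le_antisymm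
      · have h2 : ∀ x ∈ spt W, x0 < x → cdf μ y ≤ cdf W x := by
          intro x hx hxx
          by_contra h3
          push Not at h3
          have h4 := (q1 _ hx.1 hx.2 y).mpr h3.le
          have h5 := h1 x hx hxx
          linarith
        refine ge_of_tendsto (hcont.mono_left (nhdsWithin_le_nhds (s := Ioi x0))) ?_
        filter_upwards [self_mem_nhdsWithin, nhdsWithin_le_nhds hnhds] with x hx hxs
        exact h2 x hxs hx
      · exact (q1 _ hx0.1 hx0.2 y).mp hy1.le
    set g0 := quant μ (cdf W x0) with hg0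
    set y0 := g0 + (a - g0) / 4 with hy0
    set y1 := g0 + (a - g0) / 3 with hy1
    set y2 := g0 + (a - g0) / 2 with hy2
    have e0 : cdf μ y0 = cdf W x0 := hc y0 (by linarith) (by linarith)
    have e1 : cdf μ y1 = cdf W x0 := hc y1 (by linarith) (by linarith)
    have e2 : cdf μ y2 = cdf W x0 := hc y2 (by linarith) (by linarith)
    have hlep : lep μ ≤ y0 := csInf_le sb (by
      change 0 < cdf μ y0
      rw [e0]; exact hx0.1)
    have hl1 : lep μ < y1 := by linarith
    have hl2 : lep μ < y2 := by linarith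
    have hm := sm (show y1 ∈ {x | lep μ < x ∧ cdf μ x < 1} from ⟨hl1, by rw [e1]; exact hx0.2⟩)
      (show y2 ∈ {x | lep μ < x ∧ cdf μ x < 1} from ⟨hl2, by rw [e2]; exact hx0.2⟩)
      (by linarith)
    simp only at hm
    rw [e1, e2, u6 x0 hx0] at hm
    have hlW : lep W < x0 := by
      have h2 : x0 - δ / 2 ∈ spt W := hin _ (by rw [abs_of_neg (by linarith)]; linarith)
      have h3 : lep W ≤ x0 - δ / 2 := csInf_le hbd h2.1
      linarith
    have hN : 0 < x0 - lep W := by linarith
    have h5 : (x0 - lep W) / (y2 - lep μ) < (x0 - lep W) / (y1 - lep μ) :=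
      div_lt_div_of_pos_left hN (by linarith) (by linarith)
    linarith

end Pool.Agent.T2H99.QB
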