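import Pool.Agent.T2H99.QB.Stm2

/-!
# QB package SHA: where the residual is positive the projection is affine
-/

open MeasureTheory ProbabilityTheory Set Filter Topology

noncomputable section

namespace Pool.Agent.T2H99.QB

namespace PkgSHA

theorem int_mul {W : Measure ℝ} {a b : ℝ → ℝ} (ha : AEStronglyMeasurable a W)
    (hb : AEStronglyMeasurable b W) (ha2 : Integrable (fun x => a x ^ 2) W)
    (hb2 : Integrable (fun x => b x ^ 2) W) : Integrable (fun x => a x * b x) W := by
  refine Integrable.mono' (ha2.add hb2) (ha.mul hb) (ae_of_all _ fun x => ?_)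
  rw [Real.norm_eq_abs]
  simp only [Pi.add_apply]
  rw [abs_le]
  constructor
  · nlinarith [sq_nonneg (a x + b x), sq_nonneg (a x), sq_nonneg (b x)]
  · nlinarith [sq_nonneg (a x - b x), sq_nonneg (a x), sq_nonneg (b x)]

theorem pos_Ioc {W : Measure ℝ} (hp : IsProbabilityMeasure W) {a b : ℝ} (h : cdf W a < cdf W b) :
    W (Ioc a b) ≠ 0 := by
  have h1 : W (Ioc a b) = ENNReal.ofReal (cdf W b - cdf W a) := by
    conv_lhs => rw [← measure_cdf W]
    rw [StieltjesFunction.measure_Ioc]
  rw [h1]
  simp only [ne_eq, ENNReal.ofReal_eq_zero, not_le]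
  linarith

end PkgSHA

open PkgSHA in
theorem pSHA (hUNI : S_UNI) (hHH : S_HH) (hMEA : S_MEA) : S_SHA := by
  intro W hW n j p hP k hVI α hα β hβ hαβ hβw hres
  obtain ⟨hnull, hopen, hOC, -, hqu, -, hcdf⟩ := hUNI W hW
  obtain ⟨⟨C, hC⟩, -, hmeas, -⟩ := hHH W hW n j p hP
  obtain ⟨hK, hVIle, hVI0⟩ := hVI
  have hprob := hW.prob
  have hspt : ∀ᵐ x ∂W, x ∈ spt W := by
    rw [ae_iff]
    exact hnull
  have hw : quant W p ∈ spt W := (hqu p ⟨hP.p0, hP.p1⟩).1
  have hknn : ∀ x ∈ spt W, 0 ≤ k x := by
    intro x hx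
    rcases le_total (quant W p) x with h | h
    · rw [hK.zero x hx h]
    · have h1 := hK.anti hx hw h
      rw [hK.zero _ hw le_rfl] at h1
      exact h1
  set s : ℝ := (k β - k α) / (β - α) with hs
  have hba : 0 < β - α := by linarith
  have hs0 : s ≤ 0 := by
    rw [hs]
    refine div_nonpos_of_nonpos_of_nonneg ?_ hba.le
    have := hK.anti hα hβ hαβ.le
    linarith
  have hsβ : k α + s * (β - α) = k β := by
    rw [hs]
    field_simp
    ring
  set l : ℝ → ℝ := fun x => k α + s * (x - α) with hl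
  have hin : ∀ x ∈ Icc α β, k x ≤ l x := by
    intro x hx
    have hxs : x ∈ spt W := hOC.out hα hβ hx
    have ht0 : 0 ≤ (x - α) / (β - α) := div_nonneg (by linarith [hx.1]) hba.le
    have ht1 : 0 ≤ (β - x) / (β - α) := div_nonneg (by linarith [hx.2]) hba.le
    have ht : (β - x) / (β - α) + (x - α) / (β - α) = 1 := by
      rw [← add_div, show β - x + (x - α) = β - α by ring, div_self hba.ne']
    have h1 := hK.conv.2 hα hβ ht1 ht0 ht
    have h2 : ((β - x) / (β - α)) • α + ((x - α) / (β - α)) • β = x := by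
      simp only [smul_eq_mul]
      field_simp
      ring
    rw [h2] at h1
    refine h1.trans (le_of_eq ?_)
    rw [hl, hs]
    simp only [smul_eq_mul]
    field_simp
    ring
  have hout : ∀ x ∈ spt W, x ∉ Icc α β → l x ≤ k x := by
    intro x hx hxn
    rcases lt_or_ge x α with h | h
    · have h1 := hK.conv.slope_mono_adjacent hx hβ h hαβ
      rw [← hs, div_le_iff₀ (by linarith)] at h1
      change k α + s * (x - α) ≤ k x
      nlinarith
    · have hxβ : β < x := by
        by_contra hcon
        exact hxn ⟨h, not_lt.1 hcon⟩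
      have h1 := hK.conv.slope_mono_adjacent hα hx hαβ hxβ
      rw [← hs, le_div_iff₀ (by linarith)] at h1
      change k α + s * (x - α) ≤ k x
      nlinarith
  set kc : ℝ → ℝ := fun x => max (k x) (l x) with hkc
  have hlconv : ConvexOn ℝ (spt W) l := by
    refine ⟨hK.conv.1, fun x _ y _ a b _ _ hab => ?_⟩
    rw [hl]
    simp only [smul_eq_mul]
    have hb : b = 1 - a := by linarith
    rw [hb]
    apply le_of_eq
    ring
  have hlanti : AntitoneOn l (spt W) := by
    intro x _ y _ hxy
    change k α + s * (y - α) ≤ k α + s * (x - α)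
    nlinarith
  have hkcconv : ConvexOn ℝ (spt W) kc := hK.conv.sup hlconv
  have hkcanti : AntitoneOn kc (spt W) := by
    intro x hx y hy hxy
    exact max_le_max (hK.anti hx hy hxy) (hlanti hx hy hxy)
  have hkceq : ∀ x ∈ spt W, x ∉ Icc α β → kc x = k x := fun x hx hxn =>
    max_eq_left (hout x hx hxn)
  have hkczero : ∀ x ∈ spt W, quant W p ≤ x → kc x = 0 := by
    intro x hx hwx
    rcases eq_or_lt_of_le (hβw.trans hwx) with h | h
    · change max (k x) (l x) = 0
      have h1 : k x = 0 := hK.zero x hx hwx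
      have h2 : l x = 0 := by
        change k α + s * (x - α) = 0
        rw [← h, hsβ, h, h1]
      rw [h1, h2, max_self]
    · rw [hkceq x hx (fun hmem => absurd hmem.2 (not_le.2 h))]
      exact hK.zero x hx hwx
  have mk : AEStronglyMeasurable k W := hMEA W hW k (Or.inr hK.anti)
  have mkc : AEStronglyMeasurable kc W := hMEA W hW kc (Or.inr hkcanti)
  have hlb : ∀ x ∈ Icc α β, 0 ≤ l x ∧ l x ≤ k α := by
    intro x hx
    constructor
    · exact (hknn x (hOC.out hα hβ hx)).trans (hin x hx)
    · change k α + s * (x - α) ≤ k α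
      nlinarith [hx.1]
  have hkcsq : Integrable (fun x => kc x ^ 2) W := by
    refine Integrable.mono' (hK.sq.add (integrable_const ((k α) ^ 2))) (mkc.pow 2) ?_
    filter_upwards [hspt] with x hx
    rw [Real.norm_eq_abs, abs_of_nonneg (sq_nonneg _)]
    simp only [Pi.add_apply]
    by_cases hxm : x ∈ Icc α β
    · have h1 : kc x = l x := max_eq_right (hin x hxm)
      obtain ⟨h2, h3⟩ := hlb x hxm
      rw [h1]
      nlinarith [sq_nonneg (k x)]
    · rw [hkceq x hx hxm]
      nlinarith [sq_nonneg (k α)]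
  have hKc : InK W p kc := ⟨hkcconv, hkcanti, hkczero, hkcsq⟩
  -- the residual
  have mres : AEStronglyMeasurable (res W n j k) W := by
    unfold res
    exact (hmeas.aestronglyMeasurable.sub mk).add aestronglyMeasurable_const
  have hres2 : Integrable (fun x => res W n j k x ^ 2) W := by
    set E := ∫ y, k y ∂W with hE
    refine Integrable.mono' (((integrable_const (3 * C ^ 2 + 3 * E ^ 2)).add (hK.sq.const_mul 3)))
      (mres.pow 2) (ae_of_all _ fun x => ?_)
    rw [Real.norm_eq_abs, abs_of_nonneg (sq_nonneg _)]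
    simp only [Pi.add_apply]
    unfold res
    rw [← hE]
    have h1 := hC x
    have h2 : f n j (cdf W x) ^ 2 ≤ C ^ 2 := by
      rw [← sq_abs]
      exact pow_le_pow_left₀ (abs_nonneg _) h1 2
    nlinarith [sq_nonneg (f n j (cdf W x) + k x), sq_nonneg (f n j (cdf W x) - E),
      sq_nonneg (k x + E)]
  have i1 : Integrable (fun x => kc x * res W n j k x) W := int_mul mkc mres hkcsq hres2
  have i2 : Integrable (fun x => k x * res W n j k x) W := int_mul mk mres hK.sq hres2
  have hle : ∫ x, (kc x - k x) * res W n j k x ∂W ≤ 0 := by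
    have h1 : ∫ x, (kc x - k x) * res W n j k x ∂W =
        (∫ x, kc x * res W n j k x ∂W) - ∫ x, k x * res W n j k x ∂W := by
      rw [← integral_sub i1 i2]
      refine integral_congr_ae (ae_of_all _ fun x => ?_)
      simp only
      ring
    rw [h1, hVI0, sub_zero]
    exact hVIle kc hKc
  have hnn : 0 ≤ᵐ[W] fun x => (kc x - k x) * res W n j k x := by
    filter_upwards [hspt] with x hx
    simp only [Pi.zero_apply]
    by_cases hxm : x ∈ Icc α β
    · refine mul_nonneg ?_ (hres x hxm).le
      have : k x ≤ kc x := le_max_left _ _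
      linarith
    · rw [hkceq x hx hxm, sub_self, zero_mul]
  have hint : Integrable (fun x => (kc x - k x) * res W n j k x) W := by
    refine (i1.sub i2).congr (ae_of_all _ fun x => ?_)
    simp only [Pi.sub_apply]
    ring
  have hzero : (fun x => (kc x - k x) * res W n j k x) =ᵐ[W] 0 := by
    rw [← integral_eq_zero_iff_of_nonneg_ae hnn hint]
    exact le_antisymm hle (integral_nonneg_of_ae hnn)
  have hae : ∀ᵐ x ∂W, x ∈ Icc α β → l x = k x := by
    filter_upwards [hzero] with x hx hxm
    simp only [Pi.zero_apply] at hx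
    have h1 : kc x = l x := max_eq_right (hin x hxm)
    rcases mul_eq_zero.1 hx with h | h
    · linarith
    · have := hres x hxm
      linarith
  -- continuity
  have hkcont : ContinuousOn k (spt W) := hK.conv.continuousOn hopen
  have hlcont : Continuous l := by
    rw [hl]
    fun_prop
  have hall : ∀ x ∈ Icc α β, k x = l x := by
    by_contra hcon
    push Not at hcon
    obtain ⟨x0, hx0, hne⟩ := hcon
    have hlt : k x0 < l x0 := lt_of_le_of_ne (hin x0 hx0) hne
    have hx0α : x0 ≠ α := by
      rintro rfl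
      change k x0 < k x0 + s * (x0 - x0) at hlt
      rw [sub_self, mul_zero, add_zero] at hlt
      exact lt_irrefl _ hlt
    have hx0β : x0 ≠ β := by
      rintro rfl
      change k x0 < k α + s * (x0 - α) at hlt
      rw [hsβ] at hlt
      exact lt_irrefl _ hlt
    have hx0' : x0 ∈ Ioo α β := ⟨lt_of_le_of_ne hx0.1 (Ne.symm hx0α), lt_of_le_of_ne hx0.2 hx0β⟩
    have hx0s : x0 ∈ spt W := hOC.out hα hβ hx0
    have hev : ∀ᶠ x in 𝓝 x0, k x < l x :=
      (hkcont.continuousAt (hopen.mem_nhds hx0s)).eventually_lt hlcont.continuousAt hlt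
    have hev2 : ∀ᶠ x in 𝓝 x0, x ∈ Ioo α β := isOpen_Ioo.mem_nhds hx0'
    obtain ⟨δ, hδ, hball⟩ := Metric.eventually_nhds_iff.1 (hev.and hev2)
    have hsub : ∀ x ∈ Ioc (x0 - δ / 2) (x0 + δ / 2), k x < l x ∧ x ∈ Ioo α β := by
      intro x hx
      apply hball
      rw [Real.dist_eq, abs_lt]
      constructor <;> linarith [hx.1, hx.2]
    have ha : x0 - δ / 4 ∈ Ioo α β := (hsub _ ⟨by linarith, by linarith⟩).2
    have hb : x0 + δ / 4 ∈ Ioo α β := (hsub _ ⟨by linarith, by linarith⟩).2
    have has : x0 - δ / 4 ∈ spt W := hOC.out hα hβ ⟨ha.1.le, ha.2.le⟩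
    have hbs : x0 + δ / 4 ∈ spt W := hOC.out hα hβ ⟨hb.1.le, hb.2.le⟩
    have hc : cdf W (x0 - δ / 4) < cdf W (x0 + δ / 4) := by
      by_contra hcon
      have h1 := (hcdf _ hbs _ has).1 (not_lt.1 hcon)
      linarith
    apply pos_Ioc hprob hc
    refine measure_mono_null ?_ (ae_iff.1 hae)
    intro x hx
    have h1 := hsub x ⟨by linarith [hx.1], by linarith [hx.2]⟩
    simp only [mem_ofPred_eq, not_forall]
    exact ⟨⟨h1.2.1.le, h1.2.2.le⟩, fun h => by linarith [h1.1]⟩
  refine ⟨s, k α - s * α, fun x hx => ?_⟩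
  rw [hall x hx]
  change k α + s * (x - α) = _
  ring

end Pool.Agent.T2H99.QB
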