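import Pool.Agent.T2H99.QB.Stm2

/-!
# SHB: where the residual is negative the projection has at most one kink
-/

open MeasureTheory ProbabilityTheory Set Filter Topology

noncomputable section

namespace Pool.Agent.T2H99.QB

namespace PkgSHB

/-- supporting line of a convex function on an open set -/
lemma supp {S : Set ℝ} (hS : IsOpen S) {k : ℝ → ℝ} (hk : ConvexOn ℝ S k) {a : ℝ} (ha : a ∈ S) :
    ∃ s : ℝ, ∀ x ∈ S, k a + s * (x - a) ≤ k x := by
  obtain ⟨ε, hε, hball⟩ := Metric.isOpen_iff.mp hS a ha
  have hx0 : a - ε / 2 ∈ S := hball (by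
    rw [Metric.mem_ball, Real.dist_eq, abs_lt]; constructor <;> linarith)
  have hy0 : a + ε / 2 ∈ S := hball (by
    rw [Metric.mem_ball, Real.dist_eq, abs_lt]; constructor <;> linarith)
  set R : Set ℝ := {t | ∃ y ∈ S, a < y ∧ t = (k y - k a) / (y - a)} with hR
  have hne : R.Nonempty := ⟨_, a + ε / 2, hy0, by linarith, rfl⟩
  have hlow : ∀ x ∈ S, x < a → ∀ t ∈ R, (k a - k x) / (a - x) ≤ t := by
    rintro x hx hxa t ⟨y, hy, hay, rfl⟩
    exact hk.slope_mono_adjacent hx hy hxa hay
  have hbdd : BddBelow R := ⟨_, fun t ht => hlow (a - ε / 2) hx0 (by linarith) t ht⟩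
  refine ⟨sInf R, fun x hx => ?_⟩
  rcases lt_trichotomy x a with hxa | hxa | hxa
  · have h1 : (k a - k x) / (a - x) ≤ sInf R := le_csInf hne (hlow x hx hxa)
    rw [div_le_iff₀ (by linarith)] at h1
    linarith
  · rw [hxa]; simp
  · have h1 : sInf R ≤ (k x - k a) / (x - a) := csInf_le hbdd ⟨x, hx, hxa, rfl⟩
    rw [le_div_iff₀ (by linarith)] at h1
    linarith

/-- glue a supporting line on the right -/
lemma glueR {S : Set ℝ} {k : ℝ → ℝ} (hk : ConvexOn ℝ S k) {a s : ℝ} (ha : a ∈ S)
    (hs : ∀ x ∈ S, k a + s * (x - a) ≤ k x) :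
    ConvexOn ℝ S (fun x => if x ≤ a then k x else k a + s * (x - a)) := by
  apply convexOn_of_slope_mono_adjacent hk.1
  intro x y z hx hz hxy hyz
  have hyS : y ∈ S := hk.1.ordConnected.out hx hz ⟨hxy.le, hyz.le⟩
  by_cases hza : z ≤ a
  · have hya : y ≤ a := by linarith
    have hxa : x ≤ a := by linarith
    simp only [hza, hya, hxa, if_true]
    exact hk.slope_mono_adjacent hx hz hxy hyz
  · by_cases hya : y ≤ a
    · have hxa : x ≤ a := by linarith
      simp only [hza, hya, hxa, if_true, if_false]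
      push Not at hza
      rcases eq_or_lt_of_le hya with rfl | hya'
      · have h1 := hs x hx
        rw [div_le_div_iff₀ (by linarith) (by linarith)]
        have h2 : k y - k x ≤ s * (y - x) := by linarith
        nlinarith
      · have h1 := hk.slope_mono_adjacent hx ha hxy hya'
        refine h1.trans ?_
        have h2 := hs y hyS
        rw [div_le_div_iff₀ (by linarith) (by linarith)]
        have h3 : (k a - k y) * (z - a) ≤ (s * (a - y)) * (z - a) :=
          mul_le_mul_of_nonneg_right (by linarith) (by linarith)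
        nlinarith
    · simp only [hza, hya, if_false]
      push Not at hza hya
      have hR : (k a + s * (z - a) - (k a + s * (y - a))) / (z - y) = s := by
        have : z - y ≠ 0 := by linarith
        field_simp
        ring
      rw [hR]
      by_cases hxa : x ≤ a
      · simp only [hxa, if_true]
        rw [div_le_iff₀ (by linarith)]
        have h1 := hs x hx
        linarith
      · simp only [hxa, if_false]
        rw [div_le_iff₀ (by linarith)]
        linarith

/-- glue a supporting line on the left -/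
lemma glueL {S : Set ℝ} {k : ℝ → ℝ} (hk : ConvexOn ℝ S k) {b s : ℝ} (hb : b ∈ S)
    (hs : ∀ x ∈ S, k b + s * (x - b) ≤ k x) :
    ConvexOn ℝ S (fun x => if b ≤ x then k x else k b + s * (x - b)) := by
  apply convexOn_of_slope_mono_adjacent hk.1
  intro x y z hx hz hxy hyz
  have hyS : y ∈ S := hk.1.ordConnected.out hx hz ⟨hxy.le, hyz.le⟩
  by_cases hbx : b ≤ x
  · have hby : b ≤ y := by linarith
    have hbz : b ≤ z := by linarith
    simp only [hbx, hby, hbz, if_true]
    exact hk.slope_mono_adjacent hx hz hxy hyz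
  · by_cases hby : b ≤ y
    · have hbz : b ≤ z := by linarith
      simp only [hbx, hby, hbz, if_true, if_false]
      push Not at hbx
      rcases eq_or_lt_of_le hby with rfl | hby'
      · have h1 := hs z hz
        rw [div_le_div_iff₀ (by linarith) (by linarith)]
        have h2 : s * (z - b) ≤ k z - k b := by linarith
        nlinarith
      · have h1 := hk.slope_mono_adjacent hb hz hby' hyz
        refine le_trans ?_ h1
        have h2 := hs y hyS
        rw [div_le_div_iff₀ (by linarith) (by linarith)]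
        have h3 : (s * (y - b)) * (b - x) ≤ (k y - k b) * (b - x) :=
          mul_le_mul_of_nonneg_right (by linarith) (by linarith)
        nlinarith
    · simp only [hbx, hby, if_false]
      push Not at hbx hby
      have hL : (k b + s * (y - b) - (k b + s * (x - b))) / (y - x) = s := by
        have : y - x ≠ 0 := by linarith
        field_simp
        ring
      rw [hL]
      by_cases hbz : b ≤ z
      · simp only [hbz, if_true]
        rw [le_div_iff₀ (by linarith)]
        have h1 := hs z hz
        linarith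
      · simp only [hbz, if_false]
        rw [le_div_iff₀ (by linarith)]
        linarith

end PkgSHB

open PkgSHB in
/-- SHB -/
theorem pSHB (hUNI : S_UNI) (hFF : S_FF) (hHH : S_HH) (hMEA : S_MEA) : S_SHB := by
  intro W hW n j p hpar k hVI α hα β hβ hαβ hβp hneg
  obtain ⟨hU1, hopen, hord, hU4, hU5, hU6, hU7⟩ := hUNI W hW
  obtain ⟨⟨Ch, hCh⟩, hh0, hhm, -, -, -, hH7⟩ := hHH W hW n j p hpar
  have := hW.prob
  obtain ⟨hK, hVI1, hVI2⟩ := hVI
  set S := spt W with hS
  obtain ⟨s, hs⟩ := supp hopen hK.conv hα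
  obtain ⟨s2, hs2⟩ := supp hopen hK.conv hβ
  have hp : p ∈ Ioo (0 : ℝ) 1 := ⟨hpar.p0, hpar.p1⟩
  have hq := (hU5 p hp).1
  -- slopes are nonpositive
  have hs0 : s ≤ 0 := by
    have h1 := hs β hβ
    have h2 := hK.anti hα hβ hαβ.le
    by_contra hc
    push Not at hc
    nlinarith [mul_pos hc (sub_pos.mpr hαβ)]
  have hs20 : s2 ≤ 0 := by
    obtain ⟨ε, hε, hball⟩ := Metric.isOpen_iff.mp hopen β hβ
    have hy0 : β + ε / 2 ∈ S := hball (by
      rw [Metric.mem_ball, Real.dist_eq, abs_lt]; constructor <;> linarith)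
    have h1 := hs2 _ hy0
    have h2 := hK.anti hβ hy0 (by linarith)
    by_contra hc
    push Not at hc
    nlinarith [mul_pos hc (half_pos hε)]
  set kA : ℝ → ℝ := fun x => if x ≤ α then k x else k α + s * (x - α) with hkA
  set kB : ℝ → ℝ := fun x => if β ≤ x then k x else k β + s2 * (x - β) with hkB
  set kt : ℝ → ℝ := kA ⊔ kB with hkt
  have hconv : ConvexOn ℝ S kt := (glueR hK.conv hα hs).sup (glueL hK.conv hβ hs2)
  have ktv : ∀ x, kt x = max (kA x) (kB x) := fun x => rfl
  have e1 : ∀ x ∈ S, x ≤ α → kt x = k x := by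
    intro x hx hxα
    rw [ktv]
    simp only [hkA, hkB, hxα, if_true, if_neg (by linarith : ¬ β ≤ x)]
    exact max_eq_left (hs2 x hx)
  have e2 : ∀ x ∈ S, β ≤ x → kt x = k x := by
    intro x hx hxβ
    rw [ktv]
    simp only [hkA, hkB, hxβ, if_true, if_neg (by linarith : ¬ x ≤ α)]
    exact max_eq_right (hs x hx)
  have e3 : ∀ x, α < x → x < β → kt x = max (k α + s * (x - α)) (k β + s2 * (x - β)) := by
    intro x h1 h2
    rw [ktv]
    simp only [hkA, hkB, if_neg (not_le.mpr h1), if_neg (not_le.mpr h2)]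
  have hle : ∀ x ∈ S, kt x ≤ k x := by
    intro x hx
    by_cases h1 : x ≤ α
    · exact (e1 x hx h1).le
    · by_cases h2 : β ≤ x
      · exact (e2 x hx h2).le
      · rw [e3 x (not_le.mp h1) (not_le.mp h2)]
        exact max_le (hs x hx) (hs2 x hx)
  -- antitone
  have hantiA : AntitoneOn kA S := by
    intro x hx y hy hxy
    simp only [hkA]
    by_cases hyα : y ≤ α
    · rw [if_pos hyα, if_pos (hxy.trans hyα)]
      exact hK.anti hx hy hxy
    · rw [if_neg hyα]
      push Not at hyα
      by_cases hxα : x ≤ α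
      · rw [if_pos hxα]
        have h1 := hK.anti hx hα hxα
        nlinarith [mul_nonneg (neg_nonneg.mpr hs0) (sub_nonneg.mpr hyα.le)]
      · rw [if_neg hxα]
        nlinarith [mul_nonneg (neg_nonneg.mpr hs0) (sub_nonneg.mpr hxy)]
  have hantiB : AntitoneOn kB S := by
    intro x hx y hy hxy
    simp only [hkB]
    by_cases hxβ : β ≤ x
    · rw [if_pos hxβ, if_pos (hxβ.trans hxy)]
      exact hK.anti hx hy hxy
    · rw [if_neg hxβ]
      push Not at hxβ
      by_cases hyβ : β ≤ y
      · rw [if_pos hyβ]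
        have h1 := hK.anti hβ hy hyβ
        nlinarith [mul_nonneg (neg_nonneg.mpr hs20) (sub_nonneg.mpr hxβ.le)]
      · rw [if_neg hyβ]
        nlinarith [mul_nonneg (neg_nonneg.mpr hs20) (sub_nonneg.mpr hxy)]
  have hanti : AntitoneOn kt S := by
    intro x hx y hy hxy
    rw [ktv, ktv]
    exact max_le_max (hantiA hx hy hxy) (hantiB hx hy hxy)
  have hzero : ∀ x ∈ S, quant W p ≤ x → kt x = 0 := by
    intro x hx hxp
    rw [e2 x hx (hβp.trans hxp)]
    exact hK.zero x hx hxp
  -- nonnegativity of `k` and `kt` on the left of the quantile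
  have hkβ0 : 0 ≤ k β := by
    have h1 := hK.anti hβ hq hβp
    rw [hK.zero _ hq le_rfl] at h1
    exact h1
  have hsq_le : ∀ x ∈ S, kt x ^ 2 ≤ k x ^ 2 := by
    intro x hx
    by_cases h1 : x ≤ α
    · rw [e1 x hx h1]
    · by_cases h2 : β ≤ x
      · rw [e2 x hx h2]
      · push Not at h1 h2
        have h3 := hle x hx
        have h4 : 0 ≤ kt x := by
          have h5 := hanti hx hβ h2.le
          rw [e2 β hβ le_rfl] at h5
          linarith
        exact pow_le_pow_left₀ h4 h3 2
  have hae : ∀ᵐ x ∂W, x ∈ S := by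
    rw [ae_iff]
    exact hU1
  have hkm : AEStronglyMeasurable k W := hMEA W hW k (Or.inr hK.anti)
  have hktm : AEStronglyMeasurable kt W := hMEA W hW kt (Or.inr hanti)
  have hktsq : Integrable (fun x => kt x ^ 2) W := by
    refine hK.sq.mono' (hktm.pow 2) ?_
    filter_upwards [hae] with x hx
    rw [Real.norm_of_nonneg (sq_nonneg _)]
    exact hsq_le x hx
  have hInK : InK W p kt := ⟨hconv, hanti, hzero, hktsq⟩
  obtain ⟨ik, ikh, -⟩ := hH7 k hkm hK.sq
  obtain ⟨ikt, ikth, -⟩ := hH7 kt hktm hktsq
  have ikk : Integrable (fun x => k x * k x) W := by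
    refine hK.sq.congr (Eventually.of_forall fun x => ?_)
    simp only
    ring
  have iktk : Integrable (fun x => kt x * k x) W := by
    refine (hktsq.add hK.sq).mono' (hktm.mul hkm) (Eventually.of_forall fun x => ?_)
    rw [Real.norm_eq_abs, abs_mul]
    simp only [Pi.add_apply]
    nlinarith [sq_nonneg (|kt x| - |k x|), sq_abs (kt x), sq_abs (k x), abs_nonneg (kt x),
      abs_nonneg (k x)]
  have er : ∀ g : ℝ → ℝ, (fun x => g x * res W n j k x) =
      fun x => g x * f n j (cdf W x) - g x * k x + g x * ∫ y, k y ∂W := by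
    intro g
    funext x
    unfold res
    ring
  have i1 : Integrable (fun x => k x * res W n j k x) W := by
    rw [er k]
    exact (ikh.sub ikk).add (ik.mul_const _)
  have i2 : Integrable (fun x => kt x * res W n j k x) W := by
    rw [er kt]
    exact (ikth.sub iktk).add (ikt.mul_const _)
  have hint : ∫ x, (kt x - k x) * res W n j k x ∂W ≤ 0 := by
    have h1 : ∫ x, (kt x - k x) * res W n j k x ∂W =
        (∫ x, kt x * res W n j k x ∂W) - ∫ x, k x * res W n j k x ∂W := by
      rw [← integral_sub i2 i1]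
      refine integral_congr_ae (Eventually.of_forall fun x => ?_)
      simp only
      ring
    rw [h1, hVI2, sub_zero]
    exact hVI1 kt hInK
  have hnn : 0 ≤ᵐ[W] fun x => (kt x - k x) * res W n j k x := by
    filter_upwards [hae] with x hx
    simp only [Pi.zero_apply]
    by_cases h1 : x ≤ α
    · rw [e1 x hx h1, sub_self, zero_mul]
    · by_cases h2 : β ≤ x
      · rw [e2 x hx h2, sub_self, zero_mul]
      · push Not at h1 h2
        exact mul_nonneg_of_nonpos_of_nonpos (by linarith [hle x hx]) (hneg x ⟨h1, h2⟩).le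
  have i3 : Integrable (fun x => (kt x - k x) * res W n j k x) W := by
    refine (i2.sub i1).congr (Eventually.of_forall fun x => ?_)
    simp only [Pi.sub_apply]
    ring
  have hz : (fun x => (kt x - k x) * res W n j k x) =ᵐ[W] 0 :=
    (integral_eq_zero_iff_of_nonneg_ae hnn i3).mp
      (le_antisymm hint (integral_nonneg_of_ae hnn))
  have hIcc : Icc α β ⊆ S := hord.out hα hβ
  -- equality on the open interval
  have heq : ∀ x, α < x → x < β → kt x = k x := by
    intro x0 h1 h2
    by_contra hne
    have hc : ContinuousOn (fun x => kt x - k x) S :=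
      (hconv.continuousOn hopen).sub (hK.conv.continuousOn hopen)
    have hx0S : x0 ∈ S := hIcc ⟨h1.le, h2.le⟩
    have hca : ContinuousAt (fun x => kt x - k x) x0 := hc.continuousAt (hopen.mem_nhds hx0S)
    have hev : ∀ᶠ x in 𝓝 x0, kt x - k x ≠ 0 := hca.eventually_ne (sub_ne_zero.mpr hne)
    have hev2 : ∀ᶠ x in 𝓝 x0, x ∈ Ioo α β := isOpen_Ioo.mem_nhds ⟨h1, h2⟩
    obtain ⟨ε, hε, hball⟩ := Metric.eventually_nhds_iff_ball.mp (hev.and hev2)
    have hcS : x0 - ε / 2 ∈ S := by
      have h3 := (hball (x0 - ε / 2) (by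
        rw [Metric.mem_ball, Real.dist_eq, abs_lt]; constructor <;> linarith)).2
      exact hIcc ⟨h3.1.le, h3.2.le⟩
    have hlt : cdf W (x0 - ε / 2) < cdf W x0 := by
      by_contra hcon
      push Not at hcon
      have := (hU7 x0 hx0S _ hcS).mp hcon
      linarith
    have hpos : 0 < W (Ioc (x0 - ε / 2) x0) := by
      have h3 : W (Ioc (x0 - ε / 2) x0) = ENNReal.ofReal (cdf W x0 - cdf W (x0 - ε / 2)) := by
        conv_lhs => rw [← measure_cdf W]
        exact StieltjesFunction.measure_Ioc _ _ _
      rw [h3]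
      exact ENNReal.ofReal_pos.mpr (by linarith)
    have hsub : Ioc (x0 - ε / 2) x0 ⊆ {x | ¬ (kt x - k x) * res W n j k x = (0 : ℝ → ℝ) x} := by
      intro x hx
      obtain ⟨h3, h4⟩ := hball x (by
        rw [Metric.mem_ball, Real.dist_eq, abs_lt]; constructor <;> linarith [hx.1, hx.2])
      simp only [mem_setOf_eq, Pi.zero_apply]
      exact mul_ne_zero h3 (hneg x h4).ne
    have h0 : W {x | ¬ (kt x - k x) * res W n j k x = (0 : ℝ → ℝ) x} = 0 := ae_iff.mp hz
    exact absurd (measure_mono_null hsub h0) hpos.ne'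
  refine ⟨s, k α - s * α, s2, k β - s2 * β, fun x hx => ?_⟩
  have hxS : x ∈ S := hIcc hx
  rw [show s * x + (k α - s * α) = k α + s * (x - α) by ring,
    show s2 * x + (k β - s2 * β) = k β + s2 * (x - β) by ring]
  rcases eq_or_lt_of_le hx.1 with h1 | h1
  · subst h1
    rw [sub_self, mul_zero, add_zero]
    exact (max_eq_left (hs2 α hα)).symm
  · rcases eq_or_lt_of_le hx.2 with h2 | h2
    · subst h2
      rw [sub_self x, mul_zero, add_zero]
      exact (max_eq_right (hs x hxS)).symm
    · rw [← e3 x h1 h2, heq x h1 h2]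

end Pool.Agent.T2H99.QB
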