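import Pool.Agent.T2H99.QB.Stm

/-!
# Package SST: the point `s` with `s f(s) = G(s)`
-/

set_option autoImplicit false

open MeasureTheory ProbabilityTheory Set Filter Topology

noncomputable section

namespace Pool.Agent.T2H99.QB

theorem pSST (hFF : S_FF) (hBET : S_BET) : S_SST := by
  intro n j p hp
  obtain ⟨hjn, hcont, hnn, hpos, hanti, hmono, hG0, hG1, hf1, hGm, hm0, hm1⟩ := hFF n j p hp
  obtain ⟨hder, hint⟩ := hBET n j hp.j1 hp.jn
  set m : ℝ := ((j : ℝ) - 1) / ((n : ℝ) - 1) with hm
  have hGc : Continuous (G n j) := by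
    rw [continuous_iff_continuousAt]
    intro u
    exact (hder u).continuousAt
  have hii : ∀ a b : ℝ, IntervalIntegrable (f n j) volume a b := fun a b =>
    hcont.intervalIntegrable a b
  -- part 1
  have hpart1 : ∀ u ∈ Icc (0 : ℝ) m, G n j u ≤ u * f n j u := by
    intro u hu
    rw [hint u]
    have h1 : ∫ s in (0 : ℝ)..u, f n j s ≤ ∫ s in (0 : ℝ)..u, f n j u := by
      apply intervalIntegral.integral_mono_on hu.1 (hii 0 u) intervalIntegrable_const
      intro x hx
      exact hmono ⟨hx.1, hx.2.trans hu.2⟩ hu hx.2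
    rw [intervalIntegral.integral_const, smul_eq_mul, sub_zero] at h1
    exact h1
  -- part 2
  have hpart2 : StrictAntiOn (fun u => u * f n j u - G n j u) (Icc m 1) := by
    intro u hu v hv huv
    have hu0 : 0 ≤ u := hm0.trans hu.1
    have h1 : (v - u) * f n j v < ∫ s in u..v, f n j s := by
      have h2 : ∫ s in u..v, f n j v < ∫ s in u..v, f n j s := by
        apply intervalIntegral.integral_lt_integral_of_continuousOn_of_le_of_exists_lt huv
          continuousOn_const hcont.continuousOn
        · intro x hx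
          have hxm : x ∈ Icc m 1 := ⟨hu.1.trans hx.1.le, hx.2.trans hv.2⟩
          exact hanti.antitoneOn hxm hv hx.2
        · exact ⟨u, ⟨le_refl u, huv.le⟩, hanti hu hv huv⟩
      rw [intervalIntegral.integral_const, smul_eq_mul] at h2
      exact h2
    have h3 : G n j v - G n j u = ∫ s in u..v, f n j s := by
      rw [hint v, hint u, intervalIntegral.integral_interval_sub_left (hii 0 v) (hii 0 u)]
    have h4 : f n j v < f n j u := hanti hu hv huv
    change v * f n j v - G n j v < u * f n j u - G n j u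
    nlinarith [mul_nonneg hu0 (sub_nonneg.2 h4.le)]
  have hφc : ContinuousOn (fun u => u * f n j u - G n j u) (Icc m 1) :=
    ((continuous_id.mul hcont).sub hGc).continuousOn
  have hφm : 0 ≤ m * f n j m - G n j m := sub_nonneg.2 (hpart1 m ⟨hm0, le_refl m⟩)
  have hφ1 : (1 : ℝ) * f n j 1 - G n j 1 = -1 := by
    rw [hf1, hG1]
    ring
  have hiv : (0 : ℝ) ∈ (fun u => u * f n j u - G n j u) '' Icc m 1 := by
    apply intermediate_value_Icc' hm1.le hφc
    constructor
    · change (1 : ℝ) * f n j 1 - G n j 1 ≤ 0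
      rw [hφ1]
      norm_num
    · exact hφm
  obtain ⟨s, hs, hs0⟩ := hiv
  have hs0' : s * f n j s - G n j s = 0 := hs0
  have hs1 : s < 1 := by
    rcases hs.2.lt_or_eq with h | h
    · exact h
    · exfalso
      rw [h, hφ1] at hs0'
      norm_num at hs0'
  refine ⟨s, ⟨hs.1, hs1, sub_eq_zero.1 hs0'⟩, ?_, ?_, ?_⟩
  · intro s' hs' he
    apply hpart2.injOn hs' hs
    change s' * f n j s' - G n j s' = s * f n j s - G n j s
    rw [hs0', he, sub_self]
  · intro u hu
    rcases le_total u m with h | h
    · exact hpart1 u ⟨hu.1, h⟩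
    · have h1 := hpart2.antitoneOn ⟨h, hu.2.trans hs.2⟩ hs hu.2
      change s * f n j s - G n j s ≤ u * f n j u - G n j u at h1
      rw [hs0'] at h1
      linarith
  · intro u hu
    have h1 := hpart2.antitoneOn hs ⟨hs.1.trans hu.1, hu.2⟩ hu.1
    change u * f n j u - G n j u ≤ s * f n j s - G n j s at h1
    rw [hs0'] at h1
    linarith

end Pool.Agent.T2H99.QB
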