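import Pool.Agent.T2H99.QB.STS

/-! Package STI of project QB: stability of the distribution free lower bound. -/

set_option autoImplicit false

open MeasureTheory ProbabilityTheory Set Filter Topology

noncomputable section

namespace Pool.Agent.T2H99.QB

namespace PkgSTI

open PkgSTS

/-- The extremal function on the unit interval (strict inequality at `p`). -/
def ee (ρ : ℝ → ℝ) (c p B : ℝ) (u : ℝ) : ℝ := (c - (if u < p then ρ u + c else 0)) / B

theorem ae_lt_le (p : ℝ) (F : ℝ → ℝ) :
    ∀ᵐ u : ℝ, (if u < p then F u else 0) = (if u ≤ p then F u else 0) := by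
  have h : ∀ᵐ u : ℝ, u ≠ p := by
    rw [ae_iff]
    simp
  filter_upwards [h] with u hu
  by_cases h1 : u < p
  · rw [if_pos h1, if_pos h1.le]
  · rw [if_neg h1, if_neg (fun h2 => h1 (lt_of_le_of_ne h2 hu))]

theorem int_lt (F : ℝ → ℝ) (q : ℝ) (hq0 : 0 < q) (hq1 : q < 1) :
    ∫ u in (0 : ℝ)..1, (if u < q then F u else 0) = ∫ u in (0 : ℝ)..q, F u := by
  rw [← int_ite F q hq0 hq1]
  apply intervalIntegral.integral_congr_ae
  filter_upwards [ae_lt_le q F] with u hu _
  exact hu

theorem lt_ii (F : ℝ → ℝ) (hF : Continuous F) (q : ℝ) :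
    IntervalIntegrable (fun u => if u < q then F u else 0) volume 0 1 := by
  have : (fun u => if u < q then F u else 0) = (Iio q).indicator F := by
    ext u
    simp [Set.indicator, Set.mem_Iio]
  rw [this, intervalIntegrable_iff]
  exact (intervalIntegrable_iff.1 (hF.intervalIntegrable _ _)).indicator measurableSet_Iio

theorem core (hUNI : S_UNI) (hQNT : S_QNT) (hHH : S_HH) (hMEA : S_MEA) (hBET : S_BET)
    (hTRF : S_TRF) (W : Measure ℝ) (hW : Ref W) (n j : ℕ) (p : ℝ) (hP : Par n j p)
    (μ : Measure ℝ) (hμ : Dist μ) (ρ : ℝ → ℝ) (hρ : Continuous ρ)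
    (ha : AntitoneOn ρ (Icc 0 1)) (h0 : ∀ u ∈ Icc (0 : ℝ) 1, 0 ≤ ρ u) (hG : 0 ≤ G n j p)
    (B1 B : ℝ)
    (h1 : ∫ u in (0 : ℝ)..p, ρ u = G n j p) (h2 : ∫ u in (0 : ℝ)..p, ρ u ^ 2 = B1)
    (h3 : ∫ u in (0 : ℝ)..p, ρ u * f n j u = B1) (hB : B ^ 2 = B1 + G n j p ^ 2 / (1 - p))
    (hBpos : 0 < B)
    (hDF : ∀ g : ℝ → ℝ, MonotoneOn g (spt W) → Integrable (fun x => g x ^ 2) W →
      -(T W n j p g) ≤ B * sdW W g) :
    ∫ u in (0 : ℝ)..1, (stq μ u - (G n j p / (1 - p) -
      (if u ≤ p then ρ u + G n j p / (1 - p) else 0)) / B) ^ 2 ≤ 4 * (1 + bias μ n j p / B) := by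
  have hp1 := hP.p1
  have hp0 := hP.p0
  have hp : 0 < 1 - p := by linarith
  obtain ⟨c, hc⟩ : ∃ c : ℝ, c = G n j p / (1 - p) := ⟨_, rfl⟩
  have hc0 : 0 ≤ c := by rw [hc]; exact div_nonneg hG hp.le
  have hcp : c * (1 - p) = G n j p := by rw [hc]; field_simp
  have := hW.prob
  obtain ⟨hu1, hu2, hu3, hu4, hu5, hu6, hu7⟩ := hUNI W hW
  obtain ⟨hh1, hh2, hh3, hh4, hh5, hh6, hh7⟩ := hHH W hW n j p hP
  have hfc : Continuous (f n j) := by
    unfold f
    fun_prop
  have hGp : ∫ u in (0 : ℝ)..p, f n j u = G n j p := ((hBET n j hP.j1 hP.jn).2 p).symm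
  have hf1 : ∫ u in (0 : ℝ)..1, f n j u = 1 := by
    rw [← hh4 (f n j) hfc.measurable, hh5]
  have hem : Measurable (ee ρ c p B) := by
    unfold ee
    exact (measurable_const.sub (Measurable.ite measurableSet_Iio (hρ.measurable.add_const c)
      measurable_const)).div_const _
  have hmain := stab hUNI hQNT hHH hMEA hTRF W hW n j p hP μ hμ (ee ρ c p B) hem ?_ ?_ ?_ (-1)
    B hBpos.le ?_ ?_
  · have e1 : ∫ u in (0 : ℝ)..1, (stq μ u - (G n j p / (1 - p) -
        (if u ≤ p then ρ u + G n j p / (1 - p) else 0)) / B) ^ 2 =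
        ∫ u in (0 : ℝ)..1, (stq μ u - ee ρ c p B u) ^ 2 := by
      apply intervalIntegral.integral_congr_ae
      filter_upwards [ae_lt_le p (fun u => ρ u + c)] with u hu _
      unfold ee
      rw [hu, hc]
    rw [e1]
    refine hmain.trans (le_of_eq ?_)
    ring
  · intro x _ y _ hxy
    have hcx := monotone_cdf W hxy
    have mx : cdf W x ∈ Icc (0 : ℝ) 1 := ⟨cdf_nonneg W x, cdf_le_one W x⟩
    have my : cdf W y ∈ Icc (0 : ℝ) 1 := ⟨cdf_nonneg W y, cdf_le_one W y⟩
    have h4 := ha mx my hcx
    have h5 := h0 _ mx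
    simp only [ee]
    apply div_le_div_of_nonneg_right _ hBpos.le
    split_ifs with k1 k2 k2
    · linarith
    · linarith
    · exact absurd (hcx.trans_lt k2) k1
    · exact le_rfl
  · have e1 : ee ρ c p B = fun u => (c - (if u < p then ρ u + c else 0)) / B := rfl
    rw [e1, intervalIntegral.integral_div, intervalIntegral.integral_sub intervalIntegrable_const
      (lt_ii (fun u => ρ u + c) (by fun_prop) p), int_lt _ p hp0 hp1,
      intervalIntegral.integral_add (hρ.intervalIntegrable _ _) intervalIntegrable_const, h1,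
      intervalIntegral.integral_const, intervalIntegral.integral_const, smul_eq_mul, smul_eq_mul]
    have : (1 - 0) * c - (G n j p + (p - 0) * c) = 0 := by linarith
    rw [this, zero_div]
  · have e1 : (fun u => ee ρ c p B u ^ 2) = fun u =>
        (c ^ 2 + (if u < p then (ρ u ^ 2 - c ^ 2) else 0)) / B ^ 2 := by
      funext u
      unfold ee
      split_ifs <;> ring
    have k1 : Continuous fun u => ρ u ^ 2 := hρ.pow 2
    rw [e1, intervalIntegral.integral_div, intervalIntegral.integral_add intervalIntegrable_const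
      (lt_ii (fun u => ρ u ^ 2 - c ^ 2) (by fun_prop) p), int_lt _ p hp0 hp1,
      intervalIntegral.integral_sub (k1.intervalIntegrable _ _) intervalIntegrable_const, h2,
      intervalIntegral.integral_const, intervalIntegral.integral_const, smul_eq_mul, smul_eq_mul]
    have e2 : (1 - 0) * c ^ 2 + (B1 - (p - 0) * c ^ 2) = B ^ 2 := by
      rw [hB, hc]
      field_simp
      ring
    rw [e2]
    field_simp
  · have hpI : p ∈ Ioo (0 : ℝ) 1 := ⟨hp0, hp1⟩
    unfold T
    show -1 * ((∫ x, ee ρ c p B (cdf W x) * f n j (cdf W x) ∂W) -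
      ee ρ c p B (cdf W (quant W p))) = B
    rw [(hu5 p hpI).2, hh4 (fun u => ee ρ c p B u * f n j u) (hem.mul hfc.measurable)]
    have e0 : ee ρ c p B p = c / B := by
      unfold ee
      rw [if_neg (lt_irrefl p), sub_zero]
    have e1 : (fun u => ee ρ c p B u * f n j u) = fun u =>
        (c * f n j u - (if u < p then (ρ u * f n j u + c * f n j u) else 0)) / B := by
      funext u
      unfold ee
      split_ifs <;> ring
    have k1 : Continuous fun u => c * f n j u := continuous_const.mul hfc
    have k2 : Continuous fun u => ρ u * f n j u := hρ.mul hfc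
    rw [e0, e1, intervalIntegral.integral_div, intervalIntegral.integral_sub
      (k1.intervalIntegrable _ _) (lt_ii (fun u => ρ u * f n j u + c * f n j u) (k2.add k1) p),
      int_lt _ p hp0 hp1,
      intervalIntegral.integral_add (k2.intervalIntegrable _ _) (k1.intervalIntegrable _ _), h3,
      intervalIntegral.integral_const_mul, intervalIntegral.integral_const_mul, hGp, hf1]
    have e2 : B1 + c * G n j p = B ^ 2 := by
      rw [hB, hc]
      ring
    field_simp
    linarith
  · intro g hg hg2
    have := hDF g hg hg2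
    linarith

end PkgSTI

open PkgSTI in
theorem pSTI (hUNI : S_UNI) (hQNT : S_QNT) (hFF : S_FF) (hHH : S_HH) (hMEA : S_MEA)
    (hBET : S_BET) (_hSST : S_SST) (hTRF : S_TRF) (hDFI : S_DFI) : S_STI := by
  intro W hW n j p hP s hms hs1 hsf μ hμ
  obtain ⟨hf1, hf2, hf3, hf4, hf5, hf6, hf7, hf8, hf9, hf10, hf11, hf12⟩ := hFF n j p hP
  have hp1 := hP.p1
  have hp0 := hP.p0
  have hp : 0 < 1 - p := by linarith
  have hGp : 0 < G n j p := by
    have := hf10 (left_mem_Icc.2 zero_le_one) ⟨hp0.le, hp1.le⟩ hp0
    rwa [hf7] at this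
  have hs0 : 0 ≤ s := hf11.trans hms
  have hBET' := (hBET n j hP.j1 hP.jn).2
  have hii : ∀ a b : ℝ, IntervalIntegrable (f n j) volume a b :=
    fun a b => hf2.intervalIntegrable a b
  have hsub : ∀ a b : ℝ, ∫ u in a..b, f n j u = G n j b - G n j a := by
    intro a b
    rw [hBET' b, hBET' a, intervalIntegral.integral_interval_sub_left (hii _ _) (hii _ _)]
  have hDF := hDFI W hW n j p hP s hms hs1 hsf
  rcases le_or_gt s p with hsp | hsp
  · -- case A
    have hmin : min s p = s := min_eq_left hsp
    set B1 : ℝ := s * f n j s ^ 2 + ∫ u in s..p, f n j u ^ 2 with hB1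
    have hcρ : Continuous fun u : ℝ => f n j (max u s) := hf2.comp (by fun_prop)
    have hleft : ∀ u ∈ uIcc (0 : ℝ) s, f n j (max u s) = f n j s := by
      intro u hu
      rw [uIcc_of_le hs0] at hu
      rw [max_eq_right hu.2]
    have hright : ∀ u ∈ uIcc s p, f n j (max u s) = f n j u := by
      intro u hu
      rw [uIcc_of_le hsp] at hu
      rw [max_eq_left hu.1]
    have hGs : G n j s ^ 2 / s = s * f n j s ^ 2 := by
      rcases hs0.eq_or_lt with h | h
      · rw [← h]; simp
      · rw [← hsf]; field_simp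
    have hBsq : Binf n j p s ^ 2 = B1 + G n j p ^ 2 / (1 - p) := by
      unfold Binf
      rw [hmin, Real.sq_sqrt, hGs]
      rw [hGs]
      have : 0 ≤ ∫ u in s..p, f n j u ^ 2 :=
        intervalIntegral.integral_nonneg hsp (fun u _ => sq_nonneg _)
      positivity
    have hBpos : 0 < Binf n j p s := by
      unfold Binf
      rw [hmin, hGs]
      apply Real.sqrt_pos.2
      have : 0 ≤ ∫ u in s..p, f n j u ^ 2 :=
        intervalIntegral.integral_nonneg hsp (fun u _ => sq_nonneg _)
      have h2 : 0 < G n j p ^ 2 / (1 - p) := by positivity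
      have h3 : 0 ≤ s * f n j s ^ 2 := by positivity
      linarith
    have hmain := core hUNI hQNT hHH hMEA hBET hTRF W hW n j p hP μ hμ (fun u => f n j (max u s)) hcρ
      ?_ ?_ hGp.le B1 (Binf n j p s) ?_ ?_ ?_ hBsq hBpos hDF
    · refine le_trans (le_of_eq ?_) hmain
      apply intervalIntegral.integral_congr_ae
      filter_upwards with u hu
      rw [uIoc_of_le zero_le_one] at hu
      unfold eInf
      rw [hmin]
      have e1 : (if u ≤ s then G n j s / s else f n j u) = f n j (max u s) := by
        split_ifs with h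
        · rw [max_eq_right h]
          have hs0' : 0 < s := hu.1.trans_le h
          rw [← hsf]
          field_simp
        · rw [max_eq_left (not_le.1 h).le]
      rw [e1]
    · intro u hu v hv huv
      have hmu : max u s ∈ Icc (((j : ℝ) - 1) / ((n : ℝ) - 1)) 1 :=
        ⟨hms.trans (le_max_right _ _), max_le hu.2 hs1.le⟩
      have hmv : max v s ∈ Icc (((j : ℝ) - 1) / ((n : ℝ) - 1)) 1 :=
        ⟨hms.trans (le_max_right _ _), max_le hv.2 hs1.le⟩
      exact hf5.antitoneOn hmu hmv (max_le_max_right s huv)
    · intro u hu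
      exact hf3 _ ⟨hu.1.trans (le_max_left _ _), max_le hu.2 hs1.le⟩
    · rw [← intervalIntegral.integral_add_adjacent_intervals
        (hcρ.intervalIntegrable 0 s) (hcρ.intervalIntegrable s p),
        intervalIntegral.integral_congr (g := fun _ => f n j s) hleft,
        intervalIntegral.integral_congr (g := fun u => f n j u) hright, hsub,
        intervalIntegral.integral_const, smul_eq_mul, sub_zero, hsf]
      ring
    · have k1 : Continuous fun u : ℝ => f n j (max u s) ^ 2 := by fun_prop
      have e1 : ∫ u in (0 : ℝ)..s, f n j (max u s) ^ 2 = ∫ _u in (0 : ℝ)..s, f n j s ^ 2 :=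
        intervalIntegral.integral_congr (fun u hu => by simp only [hleft u hu])
      have e2 : ∫ u in s..p, f n j (max u s) ^ 2 = ∫ u in s..p, f n j u ^ 2 :=
        intervalIntegral.integral_congr (fun u hu => by simp only [hright u hu])
      rw [← intervalIntegral.integral_add_adjacent_intervals
        (k1.intervalIntegrable 0 s) (k1.intervalIntegrable s p), e1, e2,
        intervalIntegral.integral_const, smul_eq_mul, sub_zero]
    · have k1 : Continuous fun u : ℝ => f n j (max u s) * f n j u := by fun_prop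
      have e1 : ∫ u in (0 : ℝ)..s, f n j (max u s) * f n j u
          = ∫ u in (0 : ℝ)..s, f n j s * f n j u :=
        intervalIntegral.integral_congr (fun u hu => by simp only [hleft u hu])
      have e2 : ∫ u in s..p, f n j (max u s) * f n j u = ∫ u in s..p, f n j u ^ 2 :=
        intervalIntegral.integral_congr (fun u hu => by simp only [hright u hu]; ring)
      rw [← intervalIntegral.integral_add_adjacent_intervals
        (k1.intervalIntegrable 0 s) (k1.intervalIntegrable s p), e1, e2,
        intervalIntegral.integral_const_mul, hsub, hf7, sub_zero, ← hsf, hB1]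
      ring
  · -- case B
    have hmin : min s p = p := min_eq_right hsp.le
    set B1 : ℝ := G n j p ^ 2 / p with hB1
    have hBsq : Binf n j p s ^ 2 = B1 + G n j p ^ 2 / (1 - p) := by
      unfold Binf
      rw [hmin, Real.sq_sqrt, intervalIntegral.integral_same, add_zero]
      rw [intervalIntegral.integral_same]
      positivity
    have hBpos : 0 < Binf n j p s := by
      unfold Binf
      rw [hmin, intervalIntegral.integral_same]
      apply Real.sqrt_pos.2
      positivity
    have hmain := core hUNI hQNT hHH hMEA hBET hTRF W hW n j p hP μ hμ (fun _ => G n j p / p)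
      continuous_const ?_ ?_ hGp.le B1 (Binf n j p s) ?_ ?_ ?_ hBsq hBpos hDF
    · refine le_trans (le_of_eq ?_) hmain
      apply intervalIntegral.integral_congr_ae
      filter_upwards with u _
      unfold eInf
      rw [hmin]
      by_cases h : u ≤ p
      · simp only [if_pos h]
      · simp only [if_neg h]
    · intro u _ v _ _
      exact le_rfl
    · intro u _
      positivity
    · rw [intervalIntegral.integral_const, smul_eq_mul, sub_zero]
      field_simp
    · rw [intervalIntegral.integral_const, smul_eq_mul, sub_zero, hB1]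
      field_simp
    · rw [intervalIntegral.integral_const_mul, hsub, hf7, sub_zero, hB1]
      ring

end Pool.Agent.T2H99.QB
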