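import Pool.Agent.T2H99.QB.Stm3

/-! Package STS of project QB: stability of the distribution free upper bound. -/

set_option autoImplicit false

open MeasureTheory ProbabilityTheory Set Filter Topology

noncomputable section

namespace Pool.Agent.T2H99.QB

namespace PkgSTS

/-- The abstract stability argument. -/
theorem stab (hUNI : S_UNI) (hQNT : S_QNT) (hHH : S_HH) (hMEA : S_MEA) (hTRF : S_TRF)
    (W : Measure ℝ) (hW : Ref W) (n j : ℕ) (p : ℝ) (hP : Par n j p) (μ : Measure ℝ) (hμ : Dist μ)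
    (e : ℝ → ℝ) (he : Measurable e) (hmono : MonotoneOn (fun x => e (cdf W x)) (spt W))
    (h0 : ∫ u in (0 : ℝ)..1, e u = 0) (h2 : ∫ u in (0 : ℝ)..1, e u ^ 2 = 1) (ζ B : ℝ) (hB : 0 ≤ B)
    (hTe : ζ * T W n j p (fun x => e (cdf W x)) = B)
    (hDF : ∀ g : ℝ → ℝ, MonotoneOn g (spt W) → Integrable (fun x => g x ^ 2) W →
      ζ * T W n j p g ≤ B * sdW W g) :
    ∫ u in (0 : ℝ)..1, (stq μ u - e u) ^ 2 ≤ 4 * (1 - ζ * bias μ n j p / B) := by
  have hprob := hW.prob
  have hprobμ := hμ.prob
  obtain ⟨hu1, hu2, hu3, hu4, hu5, hu6, hu7⟩ := hUNI W hW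
  obtain ⟨hh1, hh2, hh3, hh4, hh5, hh6, hh7⟩ := hHH W hW n j p hP
  obtain ⟨hm, hmap, hsq, hsd, hbias⟩ := hTRF W hW μ hμ
  have hcm : Measurable (cdf W) := (monotone_cdf W).measurable
  obtain ⟨g, hg⟩ : ∃ g : ℝ → ℝ, g = fun x => quant μ (cdf W x) := ⟨_, rfl⟩
  rw [← hg] at hm hmap hsd
  have hsq' : Integrable (fun x => g x ^ 2) W := by rw [hg]; exact hsq
  have hbias' : bias μ n j p = T W n j p g / sd μ := by rw [hg]; exact hbias n j p hP
  have hgm : AEStronglyMeasurable g W := hMEA W hW g (Or.inl hm)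
  obtain ⟨hgi, hghi, hTg⟩ := hh7 g hgm hsq'
  have hσ : 0 < sd μ := hμ.nondeg
  obtain ⟨σ, hσd⟩ : ∃ σ, σ = sd μ := ⟨_, rfl⟩
  obtain ⟨M, hM⟩ : ∃ M : ℝ, M = ∫ x, x ∂μ := ⟨_, rfl⟩
  have hmean : M = ∫ x, g x ∂W := by
    rw [hM]
    conv_lhs => rw [← hmap]
    exact integral_map hgm.aemeasurable aestronglyMeasurable_id
  rw [← hσd] at hσ hsd hbias'
  -- the two functions
  obtain ⟨φ, hφ⟩ : ∃ φ : ℝ → ℝ, φ = fun x => (g x - M) / σ := ⟨_, rfl⟩
  obtain ⟨ψ, hψ⟩ : ∃ ψ : ℝ → ℝ, ψ = fun x => e (cdf W x) := ⟨_, rfl⟩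
  rw [← hψ] at hmono hTe
  have hφst : ∀ x, stq μ (cdf W x) = φ x := by
    intro x
    rw [hφ, hg, hM, hσd]
    rfl
  have hφm : AEStronglyMeasurable φ W := by
    rw [hφ]
    have : (fun x => (g x - M) / σ) = fun x => (g x - M) * σ⁻¹ := by
      funext x
      rw [div_eq_mul_inv]
    rw [this]
    exact (hgm.sub aestronglyMeasurable_const).mul_const _
  have hψm : AEStronglyMeasurable ψ W := by
    rw [hψ]
    exact (he.comp hcm).aestronglyMeasurable
  have hφmono : MonotoneOn φ (spt W) := by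
    intro x hx y hy hxy
    rw [hφ]
    have := hm hx hy hxy
    simp only
    gcongr
  have hvar : ∫ x, (g x - M) ^ 2 ∂W = σ ^ 2 := by
    have h1 : Real.sqrt (∫ x, (g x - M) ^ 2 ∂W) = σ := by
      rw [← hsd, hmean]
      rfl
    rw [← h1, Real.sq_sqrt (integral_nonneg fun x => sq_nonneg _)]
  have hφ0 : ∫ x, φ x ∂W = 0 := by
    rw [hφ]
    rw [integral_div, integral_sub hgi (integrable_const _), integral_const, ← hmean]
    simp
  have hφ2 : ∫ x, φ x ^ 2 ∂W = 1 := by
    rw [hφ]
    have : (fun x => ((g x - M) / σ) ^ 2) = fun x => (g x - M) ^ 2 / σ ^ 2 := by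
      funext x
      rw [div_pow]
    rw [this, integral_div, hvar]
    field_simp
  have hψ0 : ∫ x, ψ x ∂W = 0 := by
    rw [hψ, hh4 e he, h0]
  have hψ2 : ∫ x, ψ x ^ 2 ∂W = 1 := by
    rw [hψ, hh4 (fun u => e u ^ 2) (he.pow_const 2), h2]
  have iφ2 : Integrable (fun x => φ x ^ 2) W := integrable_of_integral_eq_one hφ2
  have iψ2 : Integrable (fun x => ψ x ^ 2) W := integrable_of_integral_eq_one hψ2
  obtain ⟨iφ, iφh, hTφ⟩ := hh7 φ hφm iφ2
  obtain ⟨iψ, iψh, hTψ⟩ := hh7 ψ hψm iψ2
  have hTφ' : T W n j p φ = bias μ n j p := by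
    rw [hbias', hTφ, hTg, hφ]
    rw [← integral_div]
    apply integral_congr_ae
    filter_upwards with x
    ring
  have hTadd : T W n j p (fun x => φ x + ψ x) = T W n j p φ + T W n j p ψ := by
    unfold T
    have : (fun x => (φ x + ψ x) * f n j (cdf W x)) =
        fun x => φ x * f n j (cdf W x) + ψ x * f n j (cdf W x) := by
      funext x
      ring
    rw [this, integral_add iφh iψh]
    ring
  -- the sum
  have ism : AEStronglyMeasurable (fun x => (φ x + ψ x) ^ 2) W := (hφm.add hψm).pow 2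
  have idm : AEStronglyMeasurable (fun x => (φ x - ψ x) ^ 2) W := (hφm.sub hψm).pow 2
  have ib : Integrable (fun x => 2 * φ x ^ 2 + 2 * ψ x ^ 2) W :=
    (iφ2.const_mul 2).add (iψ2.const_mul 2)
  have is2 : Integrable (fun x => (φ x + ψ x) ^ 2) W :=
    ib.mono' ism (Eventually.of_forall fun x => by
      rw [Real.norm_eq_abs, abs_of_nonneg (sq_nonneg _)]
      nlinarith [sq_nonneg (φ x - ψ x)])
  have id2 : Integrable (fun x => (φ x - ψ x) ^ 2) W :=
    ib.mono' idm (Eventually.of_forall fun x => by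
      rw [Real.norm_eq_abs, abs_of_nonneg (sq_nonneg _)]
      nlinarith [sq_nonneg (φ x + ψ x)])
  have hpar : ∫ x, (φ x - ψ x) ^ 2 ∂W + ∫ x, (φ x + ψ x) ^ 2 ∂W = 4 := by
    rw [← integral_add id2 is2]
    have : (fun x => (φ x - ψ x) ^ 2 + (φ x + ψ x) ^ 2) = fun x => 2 * φ x ^ 2 + 2 * ψ x ^ 2 := by
      funext x
      ring
    rw [this, integral_add (iφ2.const_mul 2) (iψ2.const_mul 2), integral_const_mul,
      integral_const_mul, hφ2, hψ2]
    norm_num
  have hS : sdW W (fun x => φ x + ψ x) ^ 2 = ∫ x, (φ x + ψ x) ^ 2 ∂W := by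
    unfold sdW
    rw [Real.sq_sqrt (integral_nonneg fun x => sq_nonneg _), integral_add iφ iψ, hφ0, hψ0]
    simp
  have hS0 : 0 ≤ sdW W (fun x => φ x + ψ x) := Real.sqrt_nonneg _
  have hkey := hDF (fun x => φ x + ψ x) (hφmono.add hmono) is2
  rw [hTadd, mul_add, hTe, hTφ'] at hkey
  -- transfer to the unit interval
  have htr : ∫ u in (0 : ℝ)..1, (stq μ u - e u) ^ 2 = ∫ x, (φ x - ψ x) ^ 2 ∂W := by
    rw [intervalIntegral.integral_of_le zero_le_one, integral_Ioc_eq_integral_Ioo, ← hu4,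
      integral_map hcm.aemeasurable]
    · apply integral_congr_ae
      filter_upwards with x
      rw [hφst, hψ]
    · rw [hu4]
      have h1 : AEMeasurable (quant μ) (volume.restrict (Ioo 0 1)) :=
        aemeasurable_restrict_of_monotoneOn measurableSet_Ioo (hQNT μ hprobμ).2
      have h3 : AEMeasurable (stq μ) (volume.restrict (Ioo 0 1)) := by
        have : stq μ = fun u => (quant μ u - ∫ x, x ∂μ) / sd μ := by
          funext u
          rfl
        rw [this]
        exact (h1.sub_const _).div_const _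
      exact ((h3.sub he.aemeasurable).pow_const 2).aestronglyMeasurable
  rw [htr]
  obtain ⟨D, hD⟩ : ∃ D, D = ∫ x, (φ x - ψ x) ^ 2 ∂W := ⟨_, rfl⟩
  obtain ⟨S, hSd⟩ : ∃ S, S = sdW W (fun x => φ x + ψ x) := ⟨_, rfl⟩
  obtain ⟨t, ht⟩ : ∃ t, t = ζ * bias μ n j p := ⟨_, rfl⟩
  rw [← hSd] at hS hS0 hkey
  rw [← hD, ← hS] at hpar
  rw [← ht] at hkey ⊢
  rw [← hD]
  rcases hB.eq_or_lt with hB0 | hB0
  · rw [← hB0, div_zero]
    nlinarith
  · obtain ⟨r, hr⟩ : ∃ r, r = t / B := ⟨_, rfl⟩
    have htr : t = r * B := by rw [hr]; field_simp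
    rw [← hr]
    have h1 : 1 + r ≤ S := by
      rw [htr] at hkey
      have : B * (1 + r) ≤ B * S := by linarith
      exact le_of_mul_le_mul_left this hB0
    rcases le_or_gt 0 (1 + r) with h | h
    · nlinarith [sq_nonneg (1 - r), mul_self_le_mul_self h h1]
    · nlinarith [sq_nonneg S]

/-- Integrals of functions of the form `F 1_{u ≤ q}` on the unit interval. -/
theorem int_ite (F : ℝ → ℝ) (q : ℝ) (hq0 : 0 < q) (hq1 : q < 1) :
    ∫ u in (0 : ℝ)..1, (if u ≤ q then F u else 0) = ∫ u in (0 : ℝ)..q, F u := by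
  rw [intervalIntegral.integral_of_le zero_le_one, intervalIntegral.integral_of_le hq0.le]
  have : (fun u => if u ≤ q then F u else 0) = (Iic q).indicator F := by
    ext u
    simp [Set.indicator, Set.mem_Iic]
  rw [this, setIntegral_indicator measurableSet_Iic]
  congr 1
  have : Ioc (0 : ℝ) 1 ∩ Iic q = Ioc 0 q := by
    ext u
    simp only [mem_inter_iff, mem_Ioc, mem_Iic]
    constructor
    · rintro ⟨⟨h1, h2⟩, h3⟩
      exact ⟨h1, h3⟩
    · rintro ⟨h1, h3⟩
      exact ⟨⟨h1, by linarith⟩, h3⟩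
  rw [this]

theorem ite_ii (F : ℝ → ℝ) (hF : Continuous F) (q : ℝ) :
    IntervalIntegrable (fun u => if u ≤ q then F u else 0) volume 0 1 := by
  have : (fun u => if u ≤ q then F u else 0) = (Iic q).indicator F := by
    ext u
    simp [Set.indicator, Set.mem_Iic]
  rw [this, intervalIntegrable_iff]
  exact (intervalIntegrable_iff.1 (hF.intervalIntegrable _ _)).indicator measurableSet_Iic

end PkgSTS

open PkgSTS in
theorem pSTS (hUNI : S_UNI) (hQNT : S_QNT) (hHH : S_HH) (hMEA : S_MEA) (hTRF : S_TRF)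
    (hDFS : S_DFS) : S_STS := by
  intro W hW n j p hP μ hμ
  have hprob := hW.prob
  obtain ⟨hu1, hu2, hu3, hu4, hu5, hu6, hu7⟩ := hUNI W hW
  obtain ⟨⟨C, hC⟩, hh2, hh3, hh4, hh5, hh6, hh7⟩ := hHH W hW n j p hP
  have hp0 := hP.p0
  have hp1 := hP.p1
  have hq0 : 0 < 1 - p := by linarith
  obtain ⟨hwm, hcdf⟩ := hu5 p ⟨hp0, hp1⟩
  obtain ⟨w, hw⟩ : ∃ w, w = quant W p := ⟨_, rfl⟩
  rw [← hw] at hcdf hwm
  obtain ⟨R, hR⟩ : ∃ R, R = Real.sqrt (p * (1 - p)) := ⟨_, rfl⟩
  have hR0 : 0 < R := by rw [hR]; exact Real.sqrt_pos.2 (by positivity)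
  have hR2 : R ^ 2 = p * (1 - p) := by rw [hR]; exact Real.sq_sqrt (by positivity)
  have hA : Real.sqrt ((1 - p) / p) = R / p := by
    rw [show (1 - p) / p = (p * (1 - p)) / p ^ 2 by field_simp, Real.sqrt_div (by positivity),
      Real.sqrt_sq hp0.le, hR]
  have hA' : Real.sqrt (p / (1 - p)) = R / (1 - p) := by
    rw [show p / (1 - p) = (p * (1 - p)) / (1 - p) ^ 2 by field_simp, Real.sqrt_div (by positivity),
      Real.sqrt_sq hq0.le, hR]
  have he : eSup p = fun u => if u ≤ p then -(R / p) else R / (1 - p) := by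
    funext u
    unfold eSup
    rw [hA, hA']
  have hAB : -(R / p) ≤ R / (1 - p) := by
    have h1 : 0 < R / p := by positivity
    have h2 : 0 < R / (1 - p) := by positivity
    linarith
  have hem : Measurable (eSup p) := by
    rw [he]
    exact Measurable.ite measurableSet_Iic measurable_const measurable_const
  have hG1 : G n j p ≤ 1 := by
    have hhi : Integrable (fun x => f n j (cdf W x)) W :=
      Integrable.of_bound hh3.aestronglyMeasurable C (Eventually.of_forall fun x => by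
        rw [Real.norm_eq_abs]
        exact hC x)
    rw [← hh5, ← hcdf, ← hh6 w]
    exact setIntegral_le_integral hhi (Eventually.of_forall hh2)
  have hmain := stab hUNI hQNT hHH hMEA hTRF W hW n j p hP μ hμ (eSup p) hem ?_ ?_ ?_ 1
    (Bsup n j p) ?_ ?_ ?_
  · rw [one_mul] at hmain
    exact hmain
  · intro x _ y _ hxy
    have hc := monotone_cdf W hxy
    simp only [he]
    split_ifs with h1 h2 h2
    · exact le_rfl
    · exact hAB
    · exact absurd (hc.trans h2) h1
    · exact le_rfl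
  · have : eSup p = fun u => R / (1 - p) + (if u ≤ p then (-(R / p) - R / (1 - p)) else 0) := by
      rw [he]
      funext u
      split_ifs <;> ring
    rw [this, intervalIntegral.integral_add (by simp) (ite_ii _ continuous_const p),
      int_ite (fun _ => -(R / p) - R / (1 - p)) p hp0 hp1, intervalIntegral.integral_const,
      intervalIntegral.integral_const, smul_eq_mul, smul_eq_mul]
    field_simp
    ring
  · have : (fun u => eSup p u ^ 2) = fun u => (R / (1 - p)) ^ 2 +
        (if u ≤ p then ((R / p) ^ 2 - (R / (1 - p)) ^ 2) else 0) := by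
      rw [he]
      funext u
      dsimp only
      split_ifs <;> ring
    rw [this, intervalIntegral.integral_add (by simp) (ite_ii _ continuous_const p),
      int_ite (fun _ => (R / p) ^ 2 - (R / (1 - p)) ^ 2) p hp0 hp1, intervalIntegral.integral_const,
      intervalIntegral.integral_const, smul_eq_mul, smul_eq_mul, div_pow, div_pow, hR2]
    field_simp
    ring
  · unfold Bsup
    exact div_nonneg (by linarith) (Real.sqrt_nonneg _)
  · rw [one_mul]
    unfold T
    have hhi : Integrable (fun x => f n j (cdf W x)) W :=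
      Integrable.of_bound hh3.aestronglyMeasurable C (Eventually.of_forall fun x => by
        rw [Real.norm_eq_abs]
        exact hC x)
    have hae : ∀ᵐ x ∂W, x ∈ spt W := by
      rw [ae_iff]
      exact hu1
    have h1 : ∀ᵐ x ∂W, eSup p (cdf W x) * f n j (cdf W x) = R / (1 - p) * f n j (cdf W x) -
        (R / p + R / (1 - p)) * (Iic w).indicator (fun x => f n j (cdf W x)) x := by
      filter_upwards [hae] with x hx
      have key : x ≤ w ↔ cdf W x ≤ p := by
        rw [← hu7 x hx w hwm, hcdf]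
      rw [he]
      by_cases hxw : x ≤ w
      · rw [indicator_of_mem (by simpa using hxw)]
        simp only [if_pos (key.1 hxw)]
        ring
      · rw [indicator_of_notMem (by simpa using hxw)]
        simp only [if_neg (fun h => hxw (key.2 h))]
        ring
    have hval : eSup p (cdf W (quant W p)) = -(R / p) := by
      rw [← hw, hcdf, he]
      simp
    show (∫ x, eSup p (cdf W x) * f n j (cdf W x) ∂W) - eSup p (cdf W (quant W p)) = _
    rw [hval, integral_congr_ae h1, integral_sub (hhi.const_mul _)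
      ((hhi.indicator measurableSet_Iic).const_mul _), integral_const_mul, integral_const_mul,
      integral_indicator measurableSet_Iic, hh5, hh6 w, hcdf]
    unfold Bsup
    rw [← hR]
    have hpR : R / p + R / (1 - p) = 1 / R := by
      field_simp
      rw [hR2]
      ring
    have : R / (1 - p) * 1 - (R / p + R / (1 - p)) * G n j p - -(R / p) =
        (R / p + R / (1 - p)) * (1 - G n j p) := by ring
    rw [this, hpR]
    ring
  · intro g hg hg2
    rw [one_mul]
    exact hDFS W hW n j p hP g hg hg2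

end Pool.Agent.T2H99.QB
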