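import Pool.Agent.T2H99.QB.Stm

/-! Project QB, package TRF: transfer from laws to functions. -/

open MeasureTheory ProbabilityTheory Set Filter Topology

noncomputable section

namespace Pool.Agent.T2H99.QB

namespace PkgTRF

theorem quant_aem (hQNT : S_QNT) (μ : Measure ℝ) [IsProbabilityMeasure μ] :
    AEMeasurable (quant μ) (volume.restrict (Ioo 0 1)) :=
  aemeasurable_restrict_of_monotoneOn measurableSet_Ioo (hQNT μ inferInstance).2

theorem map_quant (hQNT : S_QNT) (μ : Measure ℝ) [IsProbabilityMeasure μ] :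
    (volume.restrict (Ioo (0 : ℝ) 1)).map (quant μ) = μ := by
  have haem := quant_aem hQNT μ
  have hp : IsProbabilityMeasure (volume.restrict (Ioo (0 : ℝ) 1)) := ⟨by simp⟩
  have hp2 : IsProbabilityMeasure ((volume.restrict (Ioo (0 : ℝ) 1)).map (quant μ)) :=
    Measure.isProbabilityMeasure_map haem
  apply Measure.eq_of_cdf
  ext t
  rw [cdf_eq_real, map_measureReal_apply_of_aemeasurable haem measurableSet_Iic]
  have h0 : 0 ≤ cdf μ t := cdf_nonneg μ t
  have h1 : cdf μ t ≤ 1 := cdf_le_one μ t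
  have e : (volume.restrict (Ioo (0 : ℝ) 1)).real (quant μ ⁻¹' Iic t) =
      (volume.restrict (Ioo (0 : ℝ) 1)).real (Iic (cdf μ t)) := by
    apply measureReal_congr
    filter_upwards [ae_restrict_mem measurableSet_Ioo] with u hu
    exact propext ((hQNT μ inferInstance).1 u hu.1 hu.2 t)
  rw [e, measureReal_def, Measure.restrict_apply measurableSet_Iic]
  rcases eq_or_lt_of_le h1 with h2 | h2
  · have : Iic (cdf μ t) ∩ Ioo 0 1 = Ioo 0 1 := by
      rw [inter_eq_right]
      intro u hu
      rw [mem_Iic, h2]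
      exact hu.2.le
    rw [this, Real.volume_Ioo, h2]
    simp
  · have : Iic (cdf μ t) ∩ Ioo 0 1 = Ioc 0 (cdf μ t) := by
      ext u
      constructor
      · rintro ⟨a, b⟩
        exact ⟨b.1, a⟩
      · rintro ⟨a, b⟩
        exact ⟨b, a, lt_of_le_of_lt b h2⟩
    rw [this, Real.volume_Ioc, sub_zero, ENNReal.toReal_ofReal h0]

end PkgTRF

theorem pTRF (hUNI : S_UNI) (hQNT : S_QNT) (hORD : S_ORD) : S_TRF := by
  intro W hW μ hμ
  obtain ⟨hspt, -, -, hmap, hq, -, hmono⟩ := hUNI W hW
  have hWp := hW.prob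
  have hμp := hμ.prob
  set g : ℝ → ℝ := fun x => quant μ (cdf W x) with hg
  have hcm : Measurable (cdf W) := hW.cont.measurable
  have haem : AEMeasurable (quant μ) (W.map (cdf W)) := by
    rw [hmap]
    exact PkgTRF.quant_aem hQNT μ
  have hgm : AEMeasurable g W := haem.comp_measurable hcm
  have hlaw : W.map g = μ := by
    have h1 := haem.map_map_of_aemeasurable hcm.aemeasurable
    rw [hmap, PkgTRF.map_quant hQNT μ] at h1
    exact h1.symm
  have hint : ∀ φ : ℝ → ℝ, Measurable φ → ∫ x, φ x ∂μ = ∫ x, φ (g x) ∂W := by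
    intro φ hφ
    conv_lhs => rw [← hlaw]
    exact integral_map hgm hφ.aestronglyMeasurable
  refine ⟨?_, hlaw, ?_, ?_, ?_⟩
  · intro x hx y hy hxy
    exact (hQNT μ hμp).2 ⟨hx.1, hx.2⟩ ⟨hy.1, hy.2⟩ (monotone_cdf W hxy)
  · have h1 := hμ.mom
    rw [← hlaw] at h1
    exact (integrable_map_measure (by fun_prop) hgm).mp h1
  · rw [sd, sdW, sdW]
    congr 1
    have e1 : ∫ y, y ∂μ = ∫ y, g y ∂W := hint (fun y => y) measurable_id
    rw [e1]
    exact (hint (fun x => (x - ∫ y, g y ∂W) ^ 2) (by fun_prop)).symm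
  · intro n j p hpar
    rw [bias, T]
    congr 1
    have e1 : g (quant W p) = quant μ p := by
      rw [hg]
      simp only
      rw [(hq p ⟨hpar.p0, hpar.p1⟩).2]
    rw [e1]
    congr 1
    rw [hORD μ hμp n j hpar.j1 hpar.jn]
    have hφ : AEStronglyMeasurable (fun u => quant μ u * f n j u) (W.map (cdf W)) := by
      apply AEStronglyMeasurable.mul haem.aestronglyMeasurable
      apply Continuous.aestronglyMeasurable
      unfold f
      fun_prop
    have e2 := integral_map hcm.aemeasurable hφ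
    rw [hmap] at e2
    rw [intervalIntegral.integral_of_le zero_le_one, integral_Ioc_eq_integral_Ioo, e2]

end Pool.Agent.T2H99.QB
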