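import Pool.Agent.T2H99.QB.Stm

/-!
# QB package UNI: basic facts on a reference distribution
-/

open MeasureTheory ProbabilityTheory Set Filter Topology

noncomputable section

namespace Pool.Agent.T2H99.QB

namespace PkgUNI

lemma cdf_quant (hQNT : S_QNT) (W : Measure ℝ) (hW : Ref W) (u : ℝ) (hu : u ∈ Ioo (0 : ℝ) 1) :
    cdf W (quant W u) = u := by
  have hq := (hQNT W hW.prob).1 u hu.1 hu.2
  apply le_antisymm
  · have hc : Tendsto (cdf W) (𝓝[<] (quant W u)) (𝓝 (cdf W (quant W u))) :=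
      (hW.cont.continuousAt).mono_left nhdsWithin_le_nhds
    refine le_of_tendsto hc ?_
    filter_upwards [self_mem_nhdsWithin] with t ht
    by_contra hcon
    exact absurd ((hq t).2 (le_of_lt (not_le.1 hcon))) (not_le.2 ht)
  · exact (hq _).1 le_rfl

lemma set_eq (hQNT : S_QNT) (W : Measure ℝ) (hW : Ref W) (u : ℝ) (hu : u ∈ Ioo (0 : ℝ) 1) :
    {x | cdf W x ≤ u} = Iic (quant W u) := by
  have hc := cdf_quant hQNT W hW u hu
  ext x
  simp only [mem_setOf_eq, mem_Iic]
  constructor
  · intro hx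
    by_contra hcon
    have hlt := not_le.1 hcon
    have h1 : cdf W (quant W u) ≤ cdf W x := monotone_cdf W hlt.le
    have h2 : cdf W x = u := le_antisymm hx (by rw [← hc]; exact h1)
    have h3 : quant W u ∈ spt W := by
      refine ⟨?_, ?_⟩
      · rw [hc]; exact hu.1
      · rw [hc]; exact hu.2
    have h4 : x ∈ spt W := by
      refine ⟨?_, ?_⟩
      · rw [h2]; exact hu.1
      · rw [h2]; exact hu.2
    have := hW.strict h3 h4 hlt
    rw [hc, h2] at this
    exact lt_irrefl _ this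
  · intro hx
    rw [← hc]
    exact monotone_cdf W hx

lemma meas_set (hQNT : S_QNT) (W : Measure ℝ) (hW : Ref W) (u : ℝ) (hu : u ∈ Ioo (0 : ℝ) 1) :
    W {x | cdf W x ≤ u} = ENNReal.ofReal u := by
  haveI := hW.prob
  rw [set_eq hQNT W hW u hu, ← ofReal_cdf W, cdf_quant hQNT W hW u hu]

lemma map_eq (hQNT : S_QNT) (W : Measure ℝ) (hW : Ref W) :
    W.map (cdf W) = volume.restrict (Ioo 0 1) := by
  haveI := hW.prob
  have hm : Measurable (cdf W) := hW.cont.measurable
  haveI : IsProbabilityMeasure (W.map (cdf W)) := Measure.isProbabilityMeasure_map hm.aemeasurable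
  refine Measure.ext_of_Iic _ _ fun a => ?_
  rw [Measure.map_apply hm measurableSet_Iic, Measure.restrict_apply measurableSet_Iic]
  have hpre : (cdf W) ⁻¹' (Iic a) = {x | cdf W x ≤ a} := rfl
  rw [hpre]
  rcases le_or_gt a 0 with ha | ha
  · have h0 : Iic a ∩ Ioo (0 : ℝ) 1 = ∅ := by
      ext x
      simp only [mem_inter_iff, mem_Iic, mem_Ioo, mem_empty_iff_false, iff_false, not_and]
      intro h1 h2
      linarith
    rw [h0, measure_empty]
    have h1 : ∀ b : ℝ, b ∈ Ioo (0 : ℝ) 1 → W {x | cdf W x ≤ a} ≤ ENNReal.ofReal b := by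
      intro b hb
      rw [← meas_set hQNT W hW b hb]
      exact measure_mono fun x hx => le_trans hx (le_trans ha hb.1.le)
    refine le_antisymm ?_ (by simp)
    refine ENNReal.le_of_forall_pos_le_add fun ε hε _ => ?_
    rw [zero_add]
    have hb : min (ε : ℝ) (1 / 2) ∈ Ioo (0 : ℝ) 1 := by
      constructor
      · exact lt_min (by exact_mod_cast hε) (by norm_num)
      · exact lt_of_le_of_lt (min_le_right _ _) (by norm_num)
    refine le_trans (h1 _ hb) ?_
    rw [← ENNReal.ofReal_coe_nnreal]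
    exact ENNReal.ofReal_le_ofReal (min_le_left _ _)
  · rcases lt_or_ge a 1 with ha1 | ha1
    · have h0 : Iic a ∩ Ioo (0 : ℝ) 1 = Ioc 0 a := by
        ext x
        simp only [mem_inter_iff, mem_Iic, mem_Ioo, mem_Ioc]
        constructor
        · rintro ⟨h1, h2, h3⟩
          exact ⟨h2, h1⟩
        · rintro ⟨h1, h2⟩
          exact ⟨h2, h1, by linarith⟩
      rw [h0, Real.volume_Ioc, meas_set hQNT W hW a ⟨ha, ha1⟩, sub_zero]
    · have h0 : Iic a ∩ Ioo (0 : ℝ) 1 = Ioo 0 1 := by
        ext x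
        simp only [mem_inter_iff, mem_Iic, mem_Ioo]
        constructor
        · rintro ⟨h1, h2, h3⟩
          exact ⟨h2, h3⟩
        · rintro ⟨h1, h2⟩
          exact ⟨by linarith, h1, h2⟩
      have h1 : {x | cdf W x ≤ a} = univ := by
        ext x
        simp only [mem_setOf_eq, mem_univ, iff_true]
        exact le_trans (cdf_le_one W x) ha1
      rw [h0, h1, Real.volume_Ioo, measure_univ, sub_zero, ENNReal.ofReal_one]

lemma spt_eq (W : Measure ℝ) : spt W = (cdf W) ⁻¹' (Ioo 0 1) := rfl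

end PkgUNI

theorem pUNI (hQNT : S_QNT) : S_UNI := by
  intro W hW
  haveI := hW.prob
  have hmap := PkgUNI.map_eq hQNT W hW
  have hm : Measurable (cdf W) := hW.cont.measurable
  have hq : ∀ u ∈ Ioo (0 : ℝ) 1, quant W u ∈ spt W ∧ cdf W (quant W u) = u := by
    intro u hu
    have hc := PkgUNI.cdf_quant hQNT W hW u hu
    refine ⟨⟨?_, ?_⟩, hc⟩
    · rw [hc]; exact hu.1
    · rw [hc]; exact hu.2
  refine ⟨?_, ?_, ?_, hmap, hq, ?_, ?_⟩
  · have h1 : (spt W)ᶜ = (cdf W) ⁻¹' (Ioo 0 1)ᶜ := rfl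
    rw [h1, ← Measure.map_apply hm measurableSet_Ioo.compl, hmap,
      Measure.restrict_apply measurableSet_Ioo.compl, compl_inter_self, measure_empty]
  · exact isOpen_Ioo.preimage hW.cont
  · exact (ordConnected_Ioo (a := (0 : ℝ)) (b := 1)).preimage_mono (monotone_cdf W)
  · intro x hx
    have h1 := hq (cdf W x) ⟨hx.1, hx.2⟩
    exact hW.strict.injOn h1.1 hx h1.2
  · intro x hx y hy
    exact hW.strict.le_iff_le hx hy

end Pool.Agent.T2H99.QB
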