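import Pool.Agent.T2H99.QB.Stm

open MeasureTheory ProbabilityTheory Set Filter Topology

noncomputable section

namespace Pool.Agent.T2H99.QB

namespace PkgAFF

/-- convexity of the modified function -/
theorem cv (s : Set ℝ) (k : ℝ → ℝ) (hk : ConvexOn ℝ s k) (z β : ℝ) (hz : z ∈ s)
    (hR : ∀ y ∈ s, z < y → k z - β * (y - z) ≤ k y) :
    ConvexOn ℝ s (fun x => if x ≤ z then k z + β * (z - x) else k x) := by
  apply convexOn_of_slope_mono_adjacent hk.1
  intro x y t hx ht hxy hyt
  have hyx : 0 < y - x := by linarith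
  have hty : 0 < t - y := by linarith
  have hy : y ∈ s := hk.1.ordConnected.out hx ht ⟨hxy.le, hyt.le⟩
  by_cases h1 : t ≤ z
  · rw [if_pos h1, if_pos (hyt.le.trans h1), if_pos ((hxy.trans hyt).le.trans h1)]
    rw [div_le_div_iff₀ hyx hty]
    nlinarith
  · push Not at h1
    by_cases h2 : y ≤ z
    · rw [if_neg (not_le.mpr h1), if_pos h2, if_pos (hxy.le.trans h2)]
      have h3 := hR t ht h1
      rw [div_le_div_iff₀ hyx hty]
      have h4 : k z + β * (z - y) - (k z + β * (z - x)) = -β * (y - x) := by ring
      rw [h4]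
      have h5 : -β * (t - y) ≤ k t - (k z + β * (z - y)) := by nlinarith
      nlinarith
    · push Not at h2
      by_cases h3 : x ≤ z
      · rw [if_neg (not_le.mpr h1), if_neg (not_le.mpr h2), if_pos h3]
        have h4 := hk.slope_mono_adjacent hz ht h2 hyt
        set S := (k t - k y) / (t - y) with hS
        rw [div_le_iff₀ (by linarith)] at h4
        have h5 := hR y hy h2
        have hyz : 0 < y - z := by linarith
        have h6 : -β ≤ S := by
          by_contra hcon
          push Not at hcon
          nlinarith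
        rw [div_le_iff₀ hyx]
        nlinarith [mul_nonneg (sub_nonneg.mpr h3) (sub_nonneg.mpr h6)]
      · rw [if_neg (not_le.mpr h1), if_neg (not_le.mpr h2), if_neg h3]
        exact hk.slope_mono_adjacent hx ht hxy hyt

/-- points with negative difference lie to the left -/
theorem left_of (s : Set ℝ) (k : ℝ → ℝ) (hk : ConvexOn ℝ s k) (z β x y : ℝ) (hz : z ∈ s) (_hx : x ∈ s) (hy : y ∈ s)
    (hxz : x ≤ z) (_hyz : y ≤ z) (h1 : β * (z - x) - (k x - k z) < 0) (h2 : 0 ≤ β * (z - y) - (k y - k z)) :
    x < y := by
  by_contra hcon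
  push Not at hcon
  rcases eq_or_lt_of_le hcon with h | h
  · subst h
    linarith
  rcases eq_or_lt_of_le hxz with h' | h'
  · subst h'
    simp at h1
  have h3 := hk.slope_mono_adjacent hy hz h h'
  have h4 : (k z - k x) / (z - x) < -β := by
    rw [div_lt_iff₀ (by linarith)]
    linarith
  have h5 : (k x - k y) / (x - y) < -β := lt_of_le_of_lt h3 h4
  rw [div_lt_iff₀ (by linarith)] at h5
  nlinarith

end PkgAFF

open PkgAFF in
theorem pAFF (hUNI : S_UNI) (hFF : S_FF) (hHH : S_HH) (hMEA : S_MEA) : S_AFF := by
  intro W hW n j p hP k hVI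
  obtain ⟨hnull, hopen, hord, -, hq, -, hiff⟩ := hUNI W hW
  obtain ⟨-, -, hf0, -, -, hfm, -, -, -, -, hm0, hm1⟩ := hFF n j p hP
  obtain ⟨⟨Cb, hCb⟩, hh0, hhm, -, -, -, -⟩ := hHH W hW n j p hP
  obtain ⟨hK, hV1, hV2⟩ := hVI
  have hprob := hW.prob
  set m : ℝ := ((j : ℝ) - 1) / ((n : ℝ) - 1) with hm
  rcases eq_or_lt_of_le hm0 with hmz | hmp
  · refine ⟨0, 0, fun x hx hle => ?_⟩
    exfalso
    have : 0 < cdf W x := hx.1
    linarith
  obtain ⟨hzs, hcz⟩ := hq m ⟨hmp, hm1⟩
  set z : ℝ := quant W m with hz
  obtain ⟨hws, hcw⟩ := hq p ⟨hP.p0, hP.p1⟩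
  set w : ℝ := quant W p with hw
  have hzw : z ≤ w := by
    rw [← hiff z hzs w hws, hcz, hcw]
    exact hP.mp
  have hlez : ∀ x ∈ spt W, (cdf W x ≤ m ↔ x ≤ z) := by
    intro x hx
    rw [← hiff x hx z hzs, hcz]
  by_cases hconst : ∀ x ∈ spt W, x ≤ z → k x = k z
  · refine ⟨0, k z, fun x hx hle => ?_⟩
    rw [hconst x hx ((hlez x hx).mp hle)]
    ring
  push Not at hconst
  obtain ⟨y0, hy0s, hy0z, hy0k⟩ := hconst
  have hkc := hK.conv
  have hka := hK.anti
  have hy0lt : y0 < z := lt_of_le_of_ne hy0z (by rintro rfl; exact hy0k rfl)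
  have hy0gt : k z < k y0 := lt_of_le_of_ne (hka hy0s hzs hy0z) (Ne.symm hy0k)
  set σ : ℝ := (k y0 - k z) / (z - y0) with hσ
  have hσp : 0 < σ := div_pos (by linarith) (by linarith)
  have hgrow : ∀ x ∈ spt W, x < y0 → σ * (y0 - x) ≤ k x - k y0 := by
    intro x hx hlt
    have h1 := hkc.slope_mono_adjacent hx hzs hlt hy0lt
    have h2 : (k z - k y0) / (z - y0) = -σ := by rw [hσ]; ring
    rw [h2, div_le_iff₀ (by linarith)] at h1
    linarith
  have haes : ∀ᵐ x ∂W, x ∈ spt W := by
    rw [ae_iff]
    exact hnull
  have hkm : AEStronglyMeasurable k W := hMEA W hW k (Or.inr hka)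
  have hk2 : MemLp k 2 W := (memLp_two_iff_integrable_sq hkm).mpr hK.sq
  -- the function `a`
  set a : ℝ → ℝ := fun x => max (z - x) 0 with ha
  have ham : AEStronglyMeasurable a W := by
    apply Continuous.aestronglyMeasurable
    fun_prop
  have ha2 : MemLp a 2 W := by
    have hB : MemLp (fun x => (z - y0) + (|k x| + |k y0|) * σ⁻¹) 2 W := by
      apply (memLp_const (z - y0)).add
      apply MemLp.mul_const
      exact hk2.abs.add (memLp_const _)
    refine hB.mono' ham ?_
    filter_upwards [haes] with x hx
    rw [ha]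
    simp only
    rw [Real.norm_of_nonneg (le_max_right _ _)]
    have hnn : 0 ≤ (|k x| + |k y0|) * σ⁻¹ := by positivity
    apply max_le
    · rcases lt_or_ge x y0 with hlt | hge
      · have h1 := hgrow x hx hlt
        have h2 : y0 - x ≤ (|k x| + |k y0|) * σ⁻¹ := by
          rw [← div_eq_mul_inv, le_div_iff₀ hσp]
          have := le_abs_self (k x)
          have := neg_abs_le (k y0)
          nlinarith
        linarith
      · linarith
    · linarith
  -- the function `u`
  set u : ℝ → ℝ := (Iic z).indicator (fun x => k x - k z) with hu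
  have hu2 : MemLp u 2 W := (hk2.sub (memLp_const _)).indicator measurableSet_Iic
  have haI : Integrable a W := ha2.integrable one_le_two
  have huI : Integrable u W := hu2.integrable one_le_two
  have ha0 : ∀ x, 0 ≤ a x := fun x => le_max_right _ _
  have hapos : 0 < ∫ x, a x ∂W := by
    rw [integral_pos_iff_support_of_nonneg ha0 haI]
    have hsub : Iic y0 ⊆ Function.support a := by
      intro x hx
      have hx' : x ≤ y0 := hx
      rw [Function.mem_support, ha]
      simp only
      rw [max_eq_left (by linarith)]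
      have : 0 < z - x := by linarith
      exact this.ne'
    refine lt_of_lt_of_le ?_ (measure_mono hsub)
    have h1 : 0 < cdf W y0 := hy0s.1
    rw [cdf_eq_real] at h1
    by_contra hcon
    have h2 : W (Iic y0) = 0 := by
      simpa using hcon
    rw [measureReal_def, h2] at h1
    simp at h1
  set β : ℝ := (∫ x, u x ∂W) / ∫ x, a x ∂W with hβ
  have hule : ∀ x, x ≤ z → u x = k x - k z := fun x hx => by
    rw [hu, indicator_of_mem (show x ∈ Iic z from hx)]
  have hugt : ∀ x, z < x → u x = 0 := fun x hx => by
    rw [hu, indicator_of_notMem (show x ∉ Iic z from not_le.mpr hx)]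
  have hale : ∀ x, x ≤ z → a x = z - x := fun x hx => by
    rw [ha]; exact max_eq_left (by linarith)
  have hagt : ∀ x, z < x → a x = 0 := fun x hx => by
    rw [ha]; exact max_eq_right (by linarith)
  have hu0 : ∀ x ∈ spt W, 0 ≤ u x := by
    intro x hx
    rcases le_or_gt x z with h | h
    · rw [hule x h]
      linarith [hka hx hzs h]
    · rw [hugt x h]
  have hβa : (∫ x, u x ∂W) = β * ∫ x, a x ∂W := by
    rw [hβ]; field_simp
  have hβ0 : 0 ≤ β := by
    apply div_nonneg _ hapos.le
    apply integral_nonneg_of_ae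
    filter_upwards [haes] with x hx
    exact hu0 x hx
  have hR : ∀ y ∈ spt W, z < y → k z - β * (y - z) ≤ k y := by
    intro y hy hzy
    set S : ℝ := (k y - k z) / (y - z) with hS
    have h1 : ∀ x ∈ spt W, -S * a x ≤ u x := by
      intro x hx
      rcases lt_trichotomy x z with h | h | h
      · rw [hule x h.le, hale x h.le]
        have h2 := hkc.slope_mono_adjacent hx hy h hzy
        rw [← hS, div_le_iff₀ (by linarith)] at h2
        linarith
      · rw [hule x h.le, hale x h.le, h]
        simp
      · rw [hugt x h, hagt x h]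
        simp
    have h3 : -S * (∫ x, a x ∂W) ≤ ∫ x, u x ∂W := by
      rw [← integral_const_mul]
      apply integral_mono_ae (haI.const_mul _) huI
      filter_upwards [haes] with x hx
      exact h1 x hx
    rw [hβa] at h3
    have h4 : -S ≤ β := le_of_mul_le_mul_right h3 hapos
    have h5 : k y - k z = S * (y - z) := by
      rw [hS, div_mul_cancel₀ _ (sub_pos.mpr hzy).ne']
    nlinarith [mul_nonneg (by linarith : 0 ≤ β + S) (by linarith : 0 ≤ y - z)]
  -- the modified function
  set k' : ℝ → ℝ := fun x => if x ≤ z then k z + β * (z - x) else k x with hk'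
  set δ : ℝ → ℝ := fun x => β * a x - u x with hδ
  have hkd : ∀ x, k' x = k x + δ x := by
    intro x
    rw [hk', hδ]
    simp only
    split_ifs with h
    · rw [hule x h, hale x h]; ring
    · rw [hugt x (not_le.mp h), hagt x (not_le.mp h)]; ring
  have hδ2 : MemLp δ 2 W := (ha2.const_mul β).sub hu2
  have hk'2 : MemLp k' 2 W := by
    have : k' = k + δ := by funext x; exact hkd x
    rw [this]
    exact hk2.add hδ2
  have hcv : ConvexOn ℝ (spt W) k' := cv (spt W) k hkc z β hzs hR
  have hk'K : InK W p k' := by
    refine ⟨hcv, ?_, ?_, (memLp_two_iff_integrable_sq hk'2.1).mp hk'2⟩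
    · intro x hx y hy hxy
      rw [hk']
      simp only
      rcases le_or_gt y z with h | h
      · rw [if_pos h, if_pos (hxy.trans h)]
        nlinarith
      · rw [if_neg (not_le.mpr h)]
        rcases le_or_gt x z with h' | h'
        · rw [if_pos h']
          have := hka hzs hy h.le
          nlinarith [mul_nonneg hβ0 (sub_nonneg.mpr h')]
        · rw [if_neg (not_le.mpr h')]
          exact hka hx hy hxy
    · intro x hx hwx
      rw [hk']
      simp only
      rcases le_or_gt x z with h | h
      · have hxz : x = z := le_antisymm h (hzw.trans hwx)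
        have hkz : k z = 0 := hK.zero z hzs (by rw [← hxz]; exact hwx)
        rw [if_pos h, hkz, hxz]
        ring
      · rw [if_neg (not_le.mpr h)]
        exact hK.zero x hx hwx
  -- integrals
  have hδI : Integrable δ W := hδ2.integrable one_le_two
  have hδint : (∫ x, δ x ∂W) = 0 := by
    rw [hδ, integral_sub (haI.const_mul β) huI, integral_const_mul, hβa]
    ring
  set h : ℝ → ℝ := fun x => f n j (cdf W x) with hh
  have hh2 : MemLp h 2 W := by
    apply MemLp.of_bound hhm.aestronglyMeasurable Cb
    exact Eventually.of_forall fun x => hCb x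
  have hδh : Integrable (fun x => δ x * h x) W := hδ2.integrable_mul hh2
  have hδk : Integrable (fun x => δ x * k x) W := hδ2.integrable_mul hk2
  have hδδ : Integrable (fun x => δ x * δ x) W := hδ2.integrable_mul hδ2
  set E : ℝ := ∫ y, k y ∂W with hE
  have hres2 : MemLp (res W n j k) 2 W := by
    have : res W n j k = fun x => h x - k x + E := by funext x; rfl
    rw [this]
    exact (hh2.sub hk2).add (memLp_const _)
  have hVIδ : (∫ x, δ x * h x ∂W) - (∫ x, δ x * k x ∂W) ≤ 0 := by
    have h1 := hV1 k' hk'K
    have h2 : (∫ x, k' x * res W n j k x ∂W) = (∫ x, k x * res W n j k x ∂W) + ∫ x, δ x * res W n j k x ∂W := by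
      have i1 : Integrable (fun x => k x * res W n j k x) W := hk2.integrable_mul hres2
      have i2 : Integrable (fun x => δ x * res W n j k x) W := hδ2.integrable_mul hres2
      rw [← integral_add i1 i2]
      apply integral_congr_ae
      refine Eventually.of_forall fun x => ?_
      simp only
      rw [hkd x]
      ring
    have h3 : (∫ x, δ x * res W n j k x ∂W) = (∫ x, δ x * h x ∂W) - (∫ x, δ x * k x ∂W) + E * ∫ x, δ x ∂W := by
      have i1 : Integrable (fun x => δ x * h x - δ x * k x) W := hδh.sub hδk
      rw [← integral_sub hδh hδk, ← integral_const_mul, ← integral_add i1 (hδI.const_mul E)]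
      apply integral_congr_ae
      refine Eventually.of_forall fun x => ?_
      change δ x * (h x - k x + E) = _
      ring
    rw [h2, hV2, h3, hδint] at h1
    linarith
  -- δ is a.e. zero
  have hδae : δ =ᵐ[W] 0 := by
    by_cases hA : ∀ x ∈ spt W, x ≤ z → 0 ≤ δ x
    · rw [← integral_eq_zero_iff_of_nonneg_ae _ hδI]
      · exact hδint
      · filter_upwards [haes] with x hx
        rcases le_or_gt x z with h1 | h1
        · exact hA x hx h1
        · simp only [Pi.zero_apply]
          rw [hδ]
          simp only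
          rw [hugt x h1, hagt x h1]
          simp
    · push Not at hA
      obtain ⟨x1, hx1s, hx1z, hx1⟩ := hA
      have hδle : ∀ x, x ≤ z → δ x = β * (z - x) - (k x - k z) := fun x hx => by
        rw [hδ]; simp only; rw [hule x hx, hale x hx]
      have hδgt : ∀ x, z < x → δ x = 0 := fun x hx => by
        rw [hδ]; simp only; rw [hugt x hx, hagt x hx]; ring
      set P : Set ℝ := {x | x ∈ spt W ∧ x ≤ z ∧ 0 ≤ δ x} with hPdef
      have hzP : z ∈ P := ⟨hzs, le_refl _, by rw [hδle z le_rfl]; simp⟩
      have hsep : ∀ x ∈ spt W, x ≤ z → δ x < 0 → ∀ y ∈ P, x < y := by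
        intro x hx hxz hneg y hy
        have e1 := hδle x hxz
        have e2 := hδle y hy.2.1
        exact left_of (spt W) k hkc z β x y hzs hx hy.1 hxz hy.2.1 (by rw [← e1]; exact hneg)
          (by rw [← e2]; exact hy.2.2)
      -- first inequality
      have hhmono : ∀ x ∈ spt W, ∀ y ∈ spt W, x ≤ y → y ≤ z → h x ≤ h y := by
        intro x hx y hy hxy hyz
        rw [hh]
        simp only
        apply hfm
        · exact ⟨hx.1.le, (hlez x hx).mpr (hxy.trans hyz)⟩
        · exact ⟨hy.1.le, (hlez y hy).mpr hyz⟩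
        · exact (hiff x hx y hy).mpr hxy
      set c : ℝ := sInf (h '' P) with hc
      have hbb : BddBelow (h '' P) := ⟨0, by rintro _ ⟨x, _, rfl⟩; exact hh0 x⟩
      have hI1 : 0 ≤ ∫ x, δ x * h x ∂W := by
        have h1 : 0 ≤ ∫ x, δ x * (h x - c) ∂W := by
          apply integral_nonneg_of_ae
          filter_upwards [haes] with x hx
          simp only [Pi.zero_apply]
          rcases le_or_gt x z with h1 | h1
          · rcases lt_or_ge (δ x) 0 with h2 | h2
            · have h3 : h x ≤ c := by
                apply le_csInf (Set.Nonempty.image h ⟨z, hzP⟩)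
                rintro _ ⟨y, hy, rfl⟩
                exact hhmono x hx y hy.1 (hsep x hx h1 h2 y hy).le hy.2.1
              exact mul_nonneg_of_nonpos_of_nonpos h2.le (by linarith)
            · have h3 : c ≤ h x := csInf_le hbb ⟨x, ⟨hx, h1, h2⟩, rfl⟩
              exact mul_nonneg h2 (by linarith)
          · rw [hδgt x h1, zero_mul]
        have h2 : (∫ x, δ x * (h x - c) ∂W) = (∫ x, δ x * h x ∂W) - c * ∫ x, δ x ∂W := by
          rw [← integral_const_mul, ← integral_sub hδh (hδI.const_mul c)]
          apply integral_congr_ae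
          exact Eventually.of_forall fun x => by simp only; ring
        rw [h2, hδint] at h1
        linarith
      -- second inequality
      set K : ℝ → ℝ := fun x => k' x + k x with hKdef
      have hKanti : ∀ x ∈ spt W, ∀ y ∈ spt W, x ≤ y → K y ≤ K x := by
        intro x hx y hy hxy
        rw [hKdef]
        exact add_le_add (hk'K.anti hx hy hxy) (hka hx hy hxy)
      set C : ℝ := sSup (K '' P) with hC
      have hba : BddAbove (K '' P) := by
        refine ⟨K x1, ?_⟩
        rintro _ ⟨y, hy, rfl⟩
        exact hKanti x1 hx1s y hy.1 (hsep x1 hx1s hx1z hx1 y hy).le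
      have hI2 : (∫ x, δ x * δ x ∂W) + 2 * ∫ x, δ x * k x ∂W ≤ 0 := by
        have h1 : (∫ x, δ x * (K x - C) ∂W) ≤ 0 := by
          apply integral_nonpos_of_ae
          filter_upwards [haes] with x hx
          simp only [Pi.zero_apply]
          rcases le_or_gt x z with h1 | h1
          · rcases lt_or_ge (δ x) 0 with h2 | h2
            · have h3 : C ≤ K x := by
                apply csSup_le (Set.Nonempty.image K ⟨z, hzP⟩)
                rintro _ ⟨y, hy, rfl⟩
                exact hKanti x hx y hy.1 (hsep x hx h1 h2 y hy).le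
              exact mul_nonpos_of_nonpos_of_nonneg h2.le (by linarith)
            · have h3 : K x ≤ C := le_csSup hba ⟨x, ⟨hx, h1, h2⟩, rfl⟩
              exact mul_nonpos_of_nonneg_of_nonpos h2 (by linarith)
          · rw [hδgt x h1, zero_mul]
        have h2 : (∫ x, δ x * (K x - C) ∂W) = (∫ x, δ x * δ x ∂W) + 2 * (∫ x, δ x * k x ∂W) - C * ∫ x, δ x ∂W := by
          have i1 : Integrable (fun x => δ x * δ x + 2 * (δ x * k x)) W := hδδ.add (hδk.const_mul 2)
          rw [← integral_const_mul, ← integral_const_mul, ← integral_add hδδ (hδk.const_mul 2),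
            ← integral_sub i1 (hδI.const_mul C)]
          apply integral_congr_ae
          refine Eventually.of_forall fun x => ?_
          simp only [hKdef]
          rw [hkd x]
          ring
        rw [h2, hδint] at h1
        linarith
      have hsq : (∫ x, δ x * δ x ∂W) = 0 := by
        apply le_antisymm
        · linarith
        · exact integral_nonneg fun x => mul_self_nonneg _
      rw [integral_eq_zero_iff_of_nonneg_ae (Eventually.of_forall fun x => mul_self_nonneg _) hδδ] at hsq
      filter_upwards [hsq] with x hx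
      simpa using hx
  -- continuity
  have hcont : ContinuousOn δ (spt W) := by
    have h1 : ContinuousOn (fun x => k' x - k x) (spt W) :=
      (hcv.continuousOn hopen).sub (hkc.continuousOn hopen)
    apply h1.congr
    intro x _
    change δ x = k' x - k x
    rw [hkd x]
    ring
  refine ⟨-β, k z + β * z, fun x hx hle => ?_⟩
  have hxz := (hlez x hx).mp hle
  have hδx : δ x = 0 := by
    by_contra hne
    have h1 : ∀ᶠ y in 𝓝 x, y ∈ spt W ∧ δ y ≠ 0 := by
      have h2 : ContinuousAt δ x := hcont.continuousAt (hopen.mem_nhds hx)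
      exact Filter.Eventually.and (hopen.eventually_mem hx) (h2.eventually_ne hne)
    obtain ⟨l, r, ⟨hl, hr⟩, hlr⟩ := mem_nhds_iff_exists_Ioo_subset.mp h1
    -- two points
    obtain ⟨y1, hy1a, hy1b⟩ := exists_between hl
    obtain ⟨y2, hy2a, hy2b⟩ := exists_between hr
    have hy1 := hlr ⟨hy1a, hy1b.trans hr⟩
    have hy2 := hlr ⟨hl.trans hy2a, hy2b⟩
    have hcdf : cdf W y1 < cdf W y2 := hW.strict hy1.1 hy2.1 (hy1b.trans hy2a)
    have hz0 : W (Ioc y1 y2) = 0 := by
      have h3 : W {y | ¬ (δ y = (0 : ℝ → ℝ) y)} = 0 := ae_iff.mp hδae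
      apply measure_mono_null _ h3
      intro y hy
      have := hlr ⟨hy1a.trans hy.1, hy.2.trans_lt hy2b⟩
      exact this.2
    have h4 : W.real (Iic y2) = W.real (Iic y1) := by
      have h5 : Iic y2 = Iic y1 ∪ Ioc y1 y2 := (Iic_union_Ioc_eq_Iic (hy1b.trans hy2a).le).symm
      have h6 : W (Iic y2) = W (Iic y1) := by
        apply le_antisymm
        · rw [h5]
          refine (measure_union_le _ _).trans ?_
          rw [hz0, add_zero]
        · exact measure_mono (Iic_subset_Iic.mpr (hy1b.trans hy2a).le)
      rw [measureReal_def, measureReal_def, h6]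
    rw [cdf_eq_real, cdf_eq_real, h4] at hcdf
    exact lt_irrefl _ hcdf
  have h1 : δ x = β * (z - x) - (k x - k z) := by
    rw [hδ]; simp only; rw [hule x hxz, hale x hxz]
  rw [hδx] at h1
  linarith

end Pool.Agent.T2H99.QB
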