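import Pool.Agent.T2H99.QB.H35

set_option autoImplicit false

open MeasureTheory ProbabilityTheory Set Filter Topology

noncomputable section

namespace Pool.Agent.T2H99.QB

open H35 in
theorem pDB (hUNI : S_UNI) (hFF : S_FF) (hHH : S_HH) (hMEA : S_MEA) (hCON : S_CON) : S_DB := by
  intro W hW n j p hp k hk g hconc hmono hsq
  have := hW.prob
  obtain ⟨hk1, hk2, hk3⟩ := hk
  have L : L2 W k := ⟨hMEA W hW k (Or.inr hk1.anti), hk1.sq⟩
  have Lg : L2 W g := ⟨hMEA W hW g (Or.inl hmono), hsq⟩
  have Lh := L2h hHH hW hp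
  obtain ⟨hw, hwp⟩ := w_mem hUNI hW hp
  have hopen := (hUNI W hW).2.1
  set w := quant W p with hwdef
  set v := g w with hv
  set k1 : ℝ → ℝ := fun x => v - min (g x) v with hk1def
  have hmax : ∀ x, k1 x = max (v - g x) 0 := by
    intro x
    simp only [hk1def]
    rcases le_total (g x) v with h | h
    · rw [min_eq_left h, max_eq_left (by linarith)]
    · rw [min_eq_right h, max_eq_right (by linarith), sub_self]
  have hcontr : ∀ x ∈ spt W, ∀ y ∈ spt W, |k1 x - k1 y| ≤ |g x - g y| := by
    intro x _ y _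
    simp only [hk1def]
    rcases le_total (g x) v with h | h <;> rcases le_total (g y) v with h' | h' <;>
      simp only [h, h', min_eq_left, min_eq_right] <;> rw [abs_le] <;>
      constructor <;> cases abs_cases (g x - g y) <;> linarith
  have hk1anti : AntitoneOn k1 (spt W) := by
    intro x hx y hy hxy
    simp only [hk1def]
    have := min_le_min_right v (hmono hx hy hxy)
    linarith
  have hmeas1 : AEStronglyMeasurable k1 W := hMEA W hW k1 (Or.inr hk1anti)
  obtain ⟨hsq1, hsd1⟩ := hCON W hW g k1 Lg.m hmeas1 hsq hcontr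
  have hInK : InK W p k1 := by
    refine ⟨?_, hk1anti, ?_, hsq1⟩
    · have h1 : ConvexOn ℝ (spt W) (fun x => v - g x) := (convexOn_const v hconc.1).sub hconc
      have h2 := h1.sup (convexOn_const 0 hconc.1)
      have h3 : k1 = (fun x => v - g x) ⊔ fun _ => 0 := by
        funext x
        rw [hmax x]
        rfl
      rw [h3]
      exact h2
    · intro x hx hwx
      simp only [hk1def]
      rw [min_eq_right (hmono hw hx hwx), sub_self]
  have L1 : L2 W k1 := ⟨hmeas1, hsq1⟩
  have e1 := hk2 k1 hInK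
  rw [resint hW L1 L Lh] at e1
  rw [resint hW L L Lh] at hk3
  have s1 : ∫ x, k x * k x ∂W = ∫ x, k x ^ 2 ∂W := integral_congr_ae (Eventually.of_forall fun x => (sq _).symm)
  rw [s1] at hk3
  have v1 := sd_sq_eq L
  have hsdk : Real.sqrt (∫ x, k x * f n j (cdf W x) ∂W) = sdW W k := by
    have : ∫ x, k x * f n j (cdf W x) ∂W = sdW W k ^ 2 := by linarith
    rw [this, Real.sqrt_sq (sd_nonneg k)]
  have hcov := cov_le L1 L
  obtain ⟨-, hh0, -, -, -, -, hT⟩ := hHH W hW n j p hp
  obtain ⟨-, -, hTg⟩ := hT g Lg.m hsq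
  have hTneg : -(T W n j p g) = ∫ x, (v - g x) * f n j (cdf W x) ∂W := by
    rw [hTg, ← integral_neg]
    refine integral_congr_ae (Eventually.of_forall fun x => ?_)
    simp only [← hwdef, ← hv]
    ring
  have Lvg : L2 W (fun x => v - g x) := (L2.const v).sub Lg
  have i1 : Integrable (fun x => (v - g x) * f n j (cdf W x)) W := Lvg.mul Lh
  have i2 : Integrable (fun x => k1 x * f n j (cdf W x)) W := L1.mul Lh
  have hle : ∀ x, (v - g x) * f n j (cdf W x) ≤ k1 x * f n j (cdf W x) := by
    intro x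
    apply mul_le_mul_of_nonneg_right _ (hh0 x)
    rw [hmax]
    exact le_max_left _ _
  have hT1 : -(T W n j p g) ≤ ∫ x, k1 x * f n j (cdf W x) ∂W := by
    rw [hTneg]
    exact integral_mono i1 i2 hle
  have hs : sdW W k1 * sdW W k ≤ sdW W g * sdW W k := mul_le_mul_of_nonneg_right hsd1 (sd_nonneg k)
  rw [hsdk]
  refine ⟨by linarith, fun hpos heq => ?_⟩
  -- equality case
  have q1 : ∫ x, (k1 x * f n j (cdf W x) - (v - g x) * f n j (cdf W x)) ∂W = 0 := by
    rw [integral_sub i2 i1, ← hTneg]
    linarith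
  have q2 := (integral_eq_zero_iff_of_nonneg (fun x => sub_nonneg.2 (hle x)) (i2.sub i1)).1 q1
  obtain ⟨-, -, -, hfpos, -⟩ := hFF n j p hp
  have hae1 : ∀ᵐ x ∂W, k1 x = v - g x := by
    filter_upwards [q2, ae_spt hUNI hW] with x hx hxs
    have h1 : k1 x * f n j (cdf W x) - (v - g x) * f n j (cdf W x) = 0 := by simpa using hx
    have h2 : 0 < f n j (cdf W x) := hfpos _ ⟨hxs.1, hxs.2⟩
    have h3 : (k1 x - (v - g x)) * f n j (cdf W x) = 0 := by linarith
    have := (mul_eq_zero.1 h3).resolve_right h2.ne'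
    linarith
  have hkpos : 0 < sdW W k := by
    by_contra hcon
    have h0 : sdW W k = 0 := le_antisymm (not_lt.1 hcon) (sd_nonneg k)
    have h1 : ∫ x, k1 x * f n j (cdf W x) ∂W = 0 := by
      rw [h0, mul_zero] at hs hcov
      rw [h0] at heq
      have h2 : 0 ≤ ∫ x, k1 x * f n j (cdf W x) ∂W := integral_nonneg fun x => by
        have : 0 ≤ k1 x := by rw [hmax]; exact le_max_right _ _
        exact mul_nonneg this (hh0 x)
      linarith
    have h2 := (integral_eq_zero_iff_of_nonneg (fun x => mul_nonneg (by rw [hmax]; exact le_max_right _ _)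
      (hh0 x)) i2).1 h1
    have h3 : ∀ᵐ x ∂W, g x = v := by
      filter_upwards [h2, hae1, ae_spt hUNI hW] with x hx hx2 hxs
      have h4 : k1 x * f n j (cdf W x) = 0 := by simpa using hx
      have h5 : 0 < f n j (cdf W x) := hfpos _ ⟨hxs.1, hxs.2⟩
      have := (mul_eq_zero.1 h4).resolve_right h5.ne'
      linarith
    have h4 : ∫ y, g y ∂W = v := by
      rw [integral_congr_ae h3]
      simp
    have h5 : sdW W g ^ 2 = 0 := by
      rw [sd_sq, h4]
      rw [integral_congr_ae (g := fun _ => (0 : ℝ))]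
      · simp
      · filter_upwards [h3] with x hx
        rw [hx]; ring
    have := pow_pos hpos 2
    linarith
  have hsdeq : sdW W k1 = sdW W g := by
    have h1 : sdW W k1 * sdW W k = sdW W g * sdW W k := by linarith
    exact mul_right_cancel₀ hkpos.ne' h1
  have hcoveq : (∫ x, k1 x * k x ∂W) - (∫ y, k1 y ∂W) * ∫ y, k y ∂W = sdW W k1 * sdW W k := by
    apply le_antisymm hcov
    linarith
  have hae2 := cov_eq_case L1 L hcoveq
  have hae3 : ∀ᵐ x ∂W, sdW W k * k1 x - sdW W k1 * k x =
      sdW W k * (∫ y, k1 y ∂W) - sdW W k1 * ∫ y, k y ∂W := by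
    filter_upwards [hae2] with x hx
    linarith
  have hc := const_zero hUNI hW hw hae3 (fun x hx hwx => by
    rw [hInK.zero x hx hwx, hk1.zero x hx hwx]; ring)
  have hcont : ContinuousOn (fun x => sdW W k * (v - g x) - sdW W k1 * k x) (spt W) :=
    (continuousOn_const.mul (continuousOn_const.sub (hconc.continuousOn hopen))).sub
      (continuousOn_const.mul (hk1.conv.continuousOn hopen))
  have hall := zero_of_ae hUNI hW hcont (by
    filter_upwards [hae3, hae1] with x hx hx2
    rw [← hx2, hx, hc])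
  refine ⟨sdW W k1 / sdW W k, v, div_pos (by rw [hsdeq]; exact hpos) hkpos, fun x hx => ?_⟩
  have h1 := hall x hx
  field_simp
  linarith

end Pool.Agent.T2H99.QB
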