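import Mathlib

/-!
# Bias of order statistic quantile estimates (problem MP_c5814c_pr): definitions
-/

open MeasureTheory ProbabilityTheory Set

noncomputable section

namespace Pool.Agent.T2H99.QB

/-- Left continuous inverse `F⁻¹(u) = inf {x : F(x) ≥ u}` of the distribution function of `μ`. -/
def quant (μ : Measure ℝ) (u : ℝ) : ℝ := sInf {x | u ≤ cdf μ x}

/-- The `j`-th smallest of the numbers `x 0, ..., x (n-1)`: the least `t` such that at least `j`
of them are `≤ t`. -/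
def ordStat (n j : ℕ) (x : Fin n → ℝ) : ℝ :=
  sInf {t | j ≤ (Finset.univ.filter (fun i => x i ≤ t)).card}

/-- `E_F X_{j:n}` for an i.i.d. sample of size `n` from `μ`. -/
def meanOrd (μ : Measure ℝ) (n j : ℕ) : ℝ :=
  ∫ x, ordStat n j x ∂(Measure.pi (fun _ : Fin n => μ))

/-- Standard deviation of the function `g` under `W`. -/
def sdW (W : Measure ℝ) (g : ℝ → ℝ) : ℝ := Real.sqrt (∫ x, (g x - ∫ y, g y ∂W) ^ 2 ∂W)

/-- Standard deviation `σ_F`. -/
def sd (μ : Measure ℝ) : ℝ := sdW μ (fun x => x)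

/-- The normalised bias `β_F(j,n,p)`. -/
def bias (μ : Measure ℝ) (n j : ℕ) (p : ℝ) : ℝ := (meanOrd μ n j - quant μ p) / sd μ

/-- Distributions with finite nonzero variance. -/
structure Dist (μ : Measure ℝ) : Prop where
  prob : IsProbabilityMeasure μ
  mom : Integrable (fun x => x ^ 2) μ
  nondeg : 0 < sd μ

/-- The open support interval `{x : 0 < F(x) < 1}`. -/
def spt (μ : Measure ℝ) : Set ℝ := {x | 0 < cdf μ x ∧ cdf μ x < 1}

/-- The reference distribution: continuous, strictly increasing on its support interval. -/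
structure Ref (W : Measure ℝ) : Prop where
  prob : IsProbabilityMeasure W
  cont : Continuous (cdf W)
  strict : StrictMonoOn (cdf W) (spt W)

/-- Convex order `F ≼_c W`: `W⁻¹ ∘ F` is convex on the support interval of `F`
(and `F` has no atom at its left endpoint). -/
def ConvLE (μ W : Measure ℝ) : Prop :=
  ConvexOn ℝ (spt μ) (fun x => quant W (cdf μ x)) ∧
    ∀ x, (∀ y < x, cdf μ y = 0) → cdf μ x = 0

/-- Left endpoint of the support. -/
def lep (μ : Measure ℝ) : ℝ := sInf {x | 0 < cdf μ x}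

/-- Star order `F ≼_* W`: the left endpoint of `F` is finite and
`(W⁻¹(F(x)) - a) / (x - a_F)` is nondecreasing in `x > a_F` (while `F(x) < 1`). -/
def StarLE (μ W : Measure ℝ) : Prop :=
  BddBelow {x | 0 < cdf μ x} ∧
    MonotoneOn (fun x => (quant W (cdf μ x) - lep W) / (x - lep μ)) {x | lep μ < x ∧ cdf μ x < 1}

/-- `F_{j:n}(u) = P(Bin(n,u) ≥ j)`. -/
def G (n j : ℕ) (u : ℝ) : ℝ :=
  ∑ i ∈ Finset.Ico j (n + 1), (n.choose i : ℝ) * u ^ i * (1 - u) ^ (n - i)

/-- The density of the `j`-th smallest of `n` independent uniform variables. -/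
def f (n j : ℕ) (u : ℝ) : ℝ := (j : ℝ) * (n.choose j : ℝ) * u ^ (j - 1) * (1 - u) ^ (n - j)

/-- The functional `T(g) = E g(W_{j:n}) - g(w_p)`. -/
def T (W : Measure ℝ) (n j : ℕ) (p : ℝ) (g : ℝ → ℝ) : ℝ :=
  (∫ x, g x * f n j (cdf W x) ∂W) - g (quant W p)

/-- Mean of `min(ξ,t)`, `ξ ∼ W`. -/
def Mt (W : Measure ℝ) (t : ℝ) : ℝ := ∫ x, min x t ∂W

/-- Variance of `min(ξ,t)`. -/
def Vt (W : Measure ℝ) (t : ℝ) : ℝ := ∫ x, (min x t - Mt W t) ^ 2 ∂W

/-- `N(t) = E min(W_{j:n},t) - w_p`. -/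
def Nt (W : Measure ℝ) (n j : ℕ) (p t : ℝ) : ℝ :=
  (∫ x, min x t * f n j (cdf W x) ∂W) - quant W p

/-- `D(t) = (1-F_{j:n}(W(t))) V(t) - (1-W(t)) (t-M(t)) N(t)`. -/
def Dt (W : Measure ℝ) (n j : ℕ) (p t : ℝ) : ℝ :=
  (1 - G n j (cdf W t)) * Vt W t - (1 - cdf W t) * (t - Mt W t) * Nt W n j p t

/-- The standing assumptions on `n, j, p`. -/
structure Par (n j : ℕ) (p : ℝ) : Prop where
  n2 : 2 ≤ n
  j1 : 1 ≤ j
  jn : j ≤ n
  p0 : 0 < p
  p1 : p < 1
  mp : ((j : ℝ) - 1) / ((n : ℝ) - 1) ≤ p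

/-- The distribution free upper bound. -/
def Bsup (n j : ℕ) (p : ℝ) : ℝ := (1 - G n j p) / Real.sqrt (p * (1 - p))

/-- The distribution free lower bound is `-Binf n j p s`, where `s` is the point of
`[(j-1)/(n-1), 1)` with `s f(s) = F_{j:n}(s)`. -/
def Binf (n j : ℕ) (p s : ℝ) : ℝ :=
  Real.sqrt (G n j (min s p) ^ 2 / (min s p) + (∫ u in (min s p)..p, f n j u ^ 2) +
    G n j p ^ 2 / (1 - p))

/-- The cone of the convex nonincreasing square integrable functions on the support interval of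
`W` vanishing to the right of the quantile `w_p`. -/
structure InK (W : Measure ℝ) (p : ℝ) (k : ℝ → ℝ) : Prop where
  conv : ConvexOn ℝ (spt W) k
  anti : AntitoneOn k (spt W)
  zero : ∀ x ∈ spt W, quant W p ≤ x → k x = 0
  sq : Integrable (fun x => k x ^ 2) W

/-- The residual `h - k + E k`, `h = f_{j:n} ∘ W`. -/
def res (W : Measure ℝ) (n j : ℕ) (k : ℝ → ℝ) (x : ℝ) : ℝ :=
  f n j (cdf W x) - k x + ∫ y, k y ∂W

/-- `k` solves the variational inequality (it is the projection onto the cone). -/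
def VI (W : Measure ℝ) (n j : ℕ) (p : ℝ) (k : ℝ → ℝ) : Prop :=
  InK W p k ∧ (∀ k', InK W p k' → ∫ x, k' x * res W n j k x ∂W ≤ 0) ∧
    ∫ x, k x * res W n j k x ∂W = 0

end Pool.Agent.T2H99.QB
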