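import Pool.Agent.T2H99.QB.Stm2

/-!
# MP_c5814c_pr: assembly
-/

open MeasureTheory ProbabilityTheory Set Filter Topology

noncomputable section

namespace Pool.Agent.T2H99.QB

/-- The first order conditions: `k` is in the cone, the residual `h - k + E k` is orthogonal to
`k` and has nonpositive integral against all hinge functions `(t-x)_+`, `t ≤ w_p`. -/
def Sol (W : Measure ℝ) (n j : ℕ) (p : ℝ) (k : ℝ → ℝ) : Prop :=
  InK W p k ∧
    (∀ t ∈ spt W, t ≤ quant W p → ∫ x, max (t - x) 0 * res W n j k x ∂W ≤ 0) ∧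
    ∫ x, k x * res W n j k x ∂W = 0

/-- Values of the normalised bias over the convex order family. -/
def convVals (W : Measure ℝ) (n j : ℕ) (p : ℝ) : Set ℝ :=
  {b | ∃ μ, Dist μ ∧ ConvLE μ W ∧ bias μ n j p = b}

/-- Values of the normalised bias over the star order family. -/
def starVals (W : Measure ℝ) (n j : ℕ) (p : ℝ) : Set ℝ :=
  {b | ∃ μ, Dist μ ∧ StarLE μ W ∧ bias μ n j p = b}

section basics

variable {W : Measure ℝ} {n j : ℕ} {p : ℝ}

theorem concave_cont (hUNI : S_UNI) (hW : Ref W) {g : ℝ → ℝ} (hg : ConcaveOn ℝ (spt W) g) :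
    ContinuousOn g (spt W) :=
  hg.continuousOn (hUNI W hW).2.1

/-- transfer for the convex family -/
theorem conv_transfer (hTRF : S_TRF) (hEQ1 : S_EQ1) (hW : Ref W) (hp : Par n j p)
    {μ : Measure ℝ} (hμ : Dist μ) (hc : ConvLE μ W) :
    ∃ g : ℝ → ℝ, ConcaveOn ℝ (spt W) g ∧ MonotoneOn g (spt W) ∧
      Integrable (fun x => g x ^ 2) W ∧ 0 < sdW W g ∧ W.map g = μ ∧
      bias μ n j p = T W n j p g / sdW W g := by
  obtain ⟨h1, h2, h3, h4, h5⟩ := hTRF W hW μ hμ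
  refine ⟨_, hEQ1 W hW μ hμ hc, h1, h3, ?_, h2, ?_⟩
  · rw [h4]; exact hμ.nondeg
  · rw [h4]; exact h5 n j p hp

/-- laws of concave functions are members -/
theorem conv_member (hUNI : S_UNI) (hLAW : S_LAW) (hEQ2 : S_EQ2) (hW : Ref W) (hp : Par n j p)
    {g : ℝ → ℝ} (hg : ConcaveOn ℝ (spt W) g) (hm : MonotoneOn g (spt W))
    (hi : Integrable (fun x => g x ^ 2) W) (hs : 0 < sdW W g) :
    Dist (W.map g) ∧ ConvLE (W.map g) W ∧ bias (W.map g) n j p = T W n j p g / sdW W g := by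
  obtain ⟨h1, -, -, -, h5⟩ := hLAW W hW g hm (concave_cont hUNI hW hg) hi hs
  exact ⟨h1, hEQ2 W hW g hg hm hi hs, h5 n j p hp⟩

theorem cu (hp : Par n j p) : p ∈ Ioo (0 : ℝ) 1 := ⟨hp.p0, hp.p1⟩

theorem w_mem (hUNI : S_UNI) (hW : Ref W) (hp : Par n j p) : quant W p ∈ spt W :=
  ((hUNI W hW).2.2.2.2.1 p (cu hp)).1

/-- concavity etc of `min · t` -/
theorem min_conc (hUNI : S_UNI) (hW : Ref W) (t : ℝ) :
    ConcaveOn ℝ (spt W) (fun x => min x t) := by
  have hc : Convex ℝ (spt W) := (hUNI W hW).2.2.1.convex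
  exact (concaveOn_id hc).inf (concaveOn_const t hc)

theorem min_mono (t : ℝ) : MonotoneOn (fun x : ℝ => min x t) (spt W) :=
  fun _ _ _ _ h => min_le_min_right _ h

theorem min_sq (hW : Ref W) (hIM : IM W) (t : ℝ) :
    Integrable (fun x : ℝ => (min x t) ^ 2) W := by
  haveI := hW.prob
  have h1 : Integrable (fun x : ℝ => (min x 0) ^ 2 + t ^ 2) W := hIM.add (integrable_const _)
  refine h1.mono' ((measurable_id.min measurable_const).pow_const 2).aestronglyMeasurable ?_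
  filter_upwards with x
  simp only [Real.norm_eq_abs, abs_pow, sq_abs, id]
  rcases le_total x t with h | h
  · rw [min_eq_left h]
    rcases le_total x 0 with h0 | h0
    · rw [min_eq_left h0]; nlinarith [sq_nonneg t]
    · rw [min_eq_right h0]; nlinarith
  · rw [min_eq_right h]; nlinarith [sq_nonneg (min x 0)]

theorem sd_min (t : ℝ) : sdW W (fun x => min x t) = Real.sqrt (Vt W t) := rfl

theorem T_min {t : ℝ} (ht : quant W p < t) :
    T W n j p (fun x => min x t) = Nt W n j p t := by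
  simp only [T, Nt]
  rw [min_eq_left ht.le]

theorem sd_affine (hW : Ref W) {g : ℝ → ℝ} (hi : Integrable g W) {α : ℝ} (b : ℝ) (hα : 0 < α) :
    sdW W (fun x => α * g x + b) = α * sdW W g := by
  have := hW.prob
  have h1 : ∫ y, (α * g y + b) ∂W = α * (∫ y, g y ∂W) + b := by
    rw [integral_add (hi.const_mul α) (integrable_const b), integral_const_mul]
    simp
  unfold sdW
  rw [h1]
  have h2 : ∀ x, (α * g x + b - (α * (∫ y, g y ∂W) + b)) ^ 2 = α ^ 2 * (g x - ∫ y, g y ∂W) ^ 2 := by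
    intro x; ring
  simp_rw [h2]
  rw [integral_const_mul, Real.sqrt_mul (sq_nonneg α), Real.sqrt_sq hα.le]

theorem sq_affine (hHH : S_HH) (hW : Ref W) (hp : Par n j p) {g : ℝ → ℝ}
    (hm : AEStronglyMeasurable g W) (hi : Integrable (fun x => g x ^ 2) W) (α b : ℝ) :
    Integrable (fun x => (α * g x + b) ^ 2) W := by
  have := hW.prob
  have h1 : Integrable g W := ((hHH W hW n j p hp).2.2.2.2.2.2 g hm hi).1
  have h2 : Integrable (fun x => α ^ 2 * g x ^ 2 + (2 * α * b) * g x + b ^ 2) W :=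
    ((hi.const_mul _).add (h1.const_mul _)).add (integrable_const _)
  refine h2.congr (Eventually.of_forall fun x => ?_)
  simp only
  ring

theorem T_affine (hHH : S_HH) (hW : Ref W) (hp : Par n j p) {g : ℝ → ℝ}
    (hm : AEStronglyMeasurable g W) (hi : Integrable (fun x => g x ^ 2) W) (α b : ℝ) :
    T W n j p (fun x => α * g x + b) = α * T W n j p g := by
  have h1 := ((hHH W hW n j p hp).2.2.2.2.2.2 g hm hi).2.2
  have h2 := ((hHH W hW n j p hp).2.2.2.2.2.2 (fun x => α * g x + b)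
    ((hm.const_mul α).add_const b) (sq_affine hHH hW hp hm hi α b)).2.2
  rw [h2, h1, ← integral_const_mul]
  refine integral_congr_ae (Eventually.of_forall fun x => ?_)
  simp only
  ring

/-- members given by affine images of a concave function -/
theorem conv_affine (hUNI : S_UNI) (hLAW : S_LAW) (hEQ2 : S_EQ2) (hHH : S_HH) (hMEA : S_MEA)
    (hW : Ref W) (hp : Par n j p) {g : ℝ → ℝ} (hg : ConcaveOn ℝ (spt W) g)
    (hm : MonotoneOn g (spt W)) (hi : Integrable (fun x => g x ^ 2) W) (hs : 0 < sdW W g)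
    {α : ℝ} (b : ℝ) (hα : 0 < α) :
    Dist (W.map (fun x => α * g x + b)) ∧ ConvLE (W.map (fun x => α * g x + b)) W ∧
      bias (W.map (fun x => α * g x + b)) n j p = T W n j p g / sdW W g := by
  have hme := hMEA W hW g (Or.inl hm)
  have h1 : Integrable g W := ((hHH W hW n j p hp).2.2.2.2.2.2 g hme hi).1
  have hsd := sd_affine hW h1 b hα
  have hc : ConcaveOn ℝ (spt W) (fun x => α * g x + b) := by
    have := (hg.smul hα.le).add (concaveOn_const b hg.1)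
    exact this
  have hmo : MonotoneOn (fun x => α * g x + b) (spt W) := fun x hx y hy hxy =>
    add_le_add_left (mul_le_mul_of_nonneg_left (hm hx hy hxy) hα.le) b
  have hs' : 0 < sdW W (fun x => α * g x + b) := by rw [hsd]; exact mul_pos hα hs
  obtain ⟨h2, h3, h4⟩ := conv_member hUNI hLAW hEQ2 hW hp hc hmo
    (sq_affine hHH hW hp hme hi α b) hs'
  refine ⟨h2, h3, ?_⟩
  rw [h4, hsd, T_affine hHH hW hp hme hi, mul_div_mul_left _ _ hα.ne']

/-- two functions equal on `spt W` have the same law -/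
theorem map_eq (hUNI : S_UNI) (hW : Ref W) {g g' : ℝ → ℝ} (h : ∀ x ∈ spt W, g x = g' x) :
    W.map g = W.map g' := by
  refine Measure.map_congr ?_
  have h0 : W (spt W)ᶜ = 0 := (hUNI W hW).1
  filter_upwards [compl_mem_ae_iff.2 h0] with x hx
  rw [compl_compl] at hx
  exact h x hx

/-- bounds from `N ≤ c √V` -/
theorem conv_upper (hUNI : S_UNI) (hTRF : S_TRF) (hEQ1 : S_EQ1) (hCRL : S_CRL) (hCRR : S_CRR)
    (hW : Ref W) (hp : Par n j p) {c : ℝ} (hc : 0 ≤ c)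
    (h : ∀ t ∈ spt W, quant W p < t → Nt W n j p t ≤ c * Real.sqrt (Vt W t)) :
    ∀ b ∈ convVals W n j p, b ≤ c := by
  rintro b ⟨μ, hμ, hcv, rfl⟩
  obtain ⟨g, hg, hm, hi, hs, -, hb⟩ := conv_transfer hTRF hEQ1 hW hp hμ hcv
  obtain ⟨s, g', hs0, hl, hr, hle, hm', hi', hT, hsd⟩ := hCRL W hW n j p hp g hg hm hi
  rw [hb, div_le_iff₀ hs]
  have hw : g' (quant W p) = g (quant W p) := hr _ (w_mem hUNI hW hp) le_rfl
  have h1 := hCRR W hW n j p hp c hc h s g' hs0 (fun x hx hxw => by rw [hw]; exact hl x hx hxw)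
    (fun x hx hxw => by rw [hw, hr x hx hxw]; exact hle x hx) hm' hi'
  calc T W n j p g ≤ T W n j p g' := hT
    _ ≤ c * sdW W g' := h1
    _ ≤ c * sdW W g := mul_le_mul_of_nonneg_left hsd hc

/-- the case of a nonpositive upper bound -/
theorem conv_sup_zero (hUNI : S_UNI) (hTRF : S_TRF) (hLAW : S_LAW) (hEQ1 : S_EQ1) (hEQ2 : S_EQ2)
    (hCRL : S_CRL) (hCRR : S_CRR) (hC0B : S_C0B) (hW : Ref W) (hp : Par n j p) (hIM : IM W)
    (h : ∀ t ∈ spt W, quant W p < t → Nt W n j p t ≤ 0) : IsLUB (convVals W n j p) 0 := by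
  refine ⟨conv_upper hUNI hTRF hEQ1 hCRL hCRR hW hp le_rfl
    (fun t ht hwt => by rw [zero_mul]; exact h t ht hwt), ?_⟩
  intro c hc
  by_contra hlt
  push Not at hlt
  obtain ⟨t, ht, htw, hs, hT⟩ := hC0B W hW hIM n j p hp (-c) (by linarith)
  obtain ⟨h1, h2, h3⟩ := conv_member hUNI hLAW hEQ2 hW hp (min_conc hUNI hW t) (min_mono t)
    (min_sq hW hIM t) hs
  have := hc ⟨_, h1, h2, h3⟩
  linarith

/-- the case of a zero of `Dt` -/
theorem conv_sup_zeroD (hUNI : S_UNI) (hHH : S_HH) (hMEA : S_MEA) (hTRF : S_TRF) (hLAW : S_LAW)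
    (hEQ1 : S_EQ1) (hEQ2 : S_EQ2) (hCRL : S_CRL) (hCRR : S_CRR) (hNV : S_NV) (hMAX : S_MAX) (hCE1 : S_CE1)
    (hW : Ref W) (hp : Par n j p) (hIM : IM W)
    {t' : ℝ} (ht' : t' ∈ spt W) (hwt : quant W p < t') (hD : Dt W n j p t' = 0) :
    0 < Nt W n j p t' ∧ (∀ t ∈ spt W, quant W p < t → Dt W n j p t = 0 → t = t') ∧
    IsGreatest (convVals W n j p) (Nt W n j p t' / Real.sqrt (Vt W t')) ∧
    ∀ μ, Dist μ → ConvLE μ W → (bias μ n j p = Nt W n j p t' / Real.sqrt (Vt W t') ↔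
      ∃ α b : ℝ, 0 < α ∧ μ = W.map (fun x => α * min x t' + b)) := by
  obtain ⟨hN, hmax, huniq⟩ := hMAX W hW hIM n j p hp t' ht' hwt hD
  have hV : ∀ t ∈ spt W, 0 < Vt W t := fun t ht => ((hNV W hW hIM n j p hp t).2.2.2 ht).1
  have hsV : ∀ t ∈ spt W, 0 < Real.sqrt (Vt W t) := fun t ht => Real.sqrt_pos.2 (hV t ht)
  have hc : 0 ≤ Nt W n j p t' / Real.sqrt (Vt W t') := (div_pos hN (hsV t' ht')).le
  have hval : ∀ α b : ℝ, 0 < α → Dist (W.map (fun x => α * min x t' + b)) ∧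
      ConvLE (W.map (fun x => α * min x t' + b)) W ∧
      bias (W.map (fun x => α * min x t' + b)) n j p =
        Nt W n j p t' / Real.sqrt (Vt W t') := by
    intro α b hα
    have hs : 0 < sdW W (fun x => min x t') := hsV t' ht'
    obtain ⟨h1, h2, h3⟩ := conv_affine hUNI hLAW hEQ2 hHH hMEA hW hp (min_conc hUNI hW t')
      (min_mono t') (min_sq hW hIM t') hs b hα
    refine ⟨h1, h2, ?_⟩
    rw [h3, T_min hwt, sd_min]
  refine ⟨hN, huniq, ⟨?_, ?_⟩, ?_⟩
  · obtain ⟨h1, h2, h3⟩ := hval 1 0 one_pos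
    exact ⟨_, h1, h2, h3⟩
  · refine conv_upper hUNI hTRF hEQ1 hCRL hCRR hW hp hc ?_
    intro t ht hwt'
    rcases eq_or_ne t t' with rfl | hne
    · rw [div_mul_cancel₀ _ (hsV t ht).ne']
    · rw [← div_le_iff₀ (hsV t ht)]
      exact (hmax t ht hwt' hne).le
  · intro μ hμ hcv
    constructor
    · intro hb
      obtain ⟨g, hg, hm, hi, hs, hgμ, hb'⟩ := conv_transfer hTRF hEQ1 hW hp hμ hcv
      obtain ⟨α, b, hα, hgg⟩ := hCE1 W hW hIM n j p hp t' ht' hwt hD g hg hm hi hs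
        (hb'.symm.trans hb)
      refine ⟨α, b, hα, ?_⟩
      rw [← hgμ]
      exact map_eq hUNI hW hgg
    · rintro ⟨α, b, hα, rfl⟩
      exact (hval α b hα).2.2

/-- the case of no zero of `Dt` -/
theorem conv_sup_noD (hUNI : S_UNI) (hHH : S_HH) (hMEA : S_MEA) (hTRF : S_TRF) (hLAW : S_LAW)
    (hEQ1 : S_EQ1) (hEQ2 : S_EQ2) (hCRL : S_CRL) (hCRR : S_CRR) (hNV : S_NV) (hEND : S_END)
    (hCE2 : S_CE2) (hW : Ref W) (hp : Par n j p) (hIM : IM W)
    (hD : ∀ t ∈ spt W, quant W p < t → Dt W n j p t ≠ 0)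
    (hN : ∃ t ∈ spt W, quant W p < t ∧ 0 < Nt W n j p t) :
    Integrable (fun x : ℝ => x ^ 2) W ∧
    IsGreatest (convVals W n j p) (bias W n j p) ∧
    ∀ μ, Dist μ → ConvLE μ W → (bias μ n j p = bias W n j p ↔
      ∃ α b : ℝ, 0 < α ∧ μ = W.map (fun x => α * x + b)) := by
  obtain ⟨hx2, hs, hT, hlt⟩ := hEND W hW hIM n j p hp hD hN
  have hc : Convex ℝ (spt W) := (hUNI W hW).2.2.1.convex
  have hV : ∀ t ∈ spt W, 0 < Vt W t := fun t ht => ((hNV W hW hIM n j p hp t).2.2.2 ht).1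
  have hval : ∀ α b : ℝ, 0 < α → Dist (W.map (fun x => α * x + b)) ∧
      ConvLE (W.map (fun x => α * x + b)) W ∧
      bias (W.map (fun x => α * x + b)) n j p =
        T W n j p (fun x => x) / sdW W (fun x => x) := fun α b hα =>
    conv_affine hUNI hLAW hEQ2 hHH hMEA hW hp (concaveOn_id hc) monotoneOn_id hx2 hs b hα
  have hself : bias W n j p = T W n j p (fun x => x) / sdW W (fun x => x) := by
    have h1 := (hval 1 0 one_pos).2.2
    have h2 : W.map (fun x : ℝ => 1 * x + 0) = W := by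
      simp
    rwa [h2] at h1
  have hcpos : 0 ≤ T W n j p (fun x => x) / sdW W (fun x => x) := (div_pos hT hs).le
  refine ⟨hx2, ⟨?_, ?_⟩, ?_⟩
  · obtain ⟨h1, h2, h3⟩ := hval 1 0 one_pos
    exact ⟨_, h1, h2, by rw [h3, hself]⟩
  · rw [hself]
    refine conv_upper hUNI hTRF hEQ1 hCRL hCRR hW hp hcpos ?_
    intro t ht hwt'
    rw [← div_le_iff₀ (Real.sqrt_pos.2 (hV t ht))]
    exact (hlt t ht hwt').le
  · intro μ hμ hcv
    constructor
    · intro hb
      obtain ⟨g, hg, hm, hi, hs', hgμ, hb'⟩ := conv_transfer hTRF hEQ1 hW hp hμ hcv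
      obtain ⟨α, b, hα, hgg⟩ := hCE2 W hW hIM n j p hp hD hN g hg hm hi hs'
        ((hb'.symm.trans hb).trans hself)
      refine ⟨α, b, hα, ?_⟩
      rw [← hgμ]
      exact map_eq hUNI hW hgg
    · rintro ⟨α, b, hα, rfl⟩
      rw [hself]
      exact (hval α b hα).2.2

/-- if the square of the negative part is not integrable the family is empty -/
theorem conv_empty (hTRF : S_TRF) (hEQ1 : S_EQ1) (hEMP : S_EMP) (hW : Ref W) (hp : Par n j p)
    (h : ¬ IM W) : ∀ μ, Dist μ → ¬ ConvLE μ W := by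
  intro μ hμ hcv
  obtain ⟨g, hg, hm, hi, hs, -, -⟩ := conv_transfer hTRF hEQ1 hW hp hμ hcv
  exact h (hEMP W hW g hg hm hi hs)

/-- the lower bound over the convex order family -/
theorem conv_inf (hUNI : S_UNI) (hHH : S_HH) (hMEA : S_MEA) (hTRF : S_TRF) (hLAW : S_LAW)
    (hEQ1 : S_EQ1) (hEQ2 : S_EQ2) (hDB : S_DB) (hDAT : S_DAT)
    (hW : Ref W) (hp : Par n j p) (hIM : IM W) {k : ℝ → ℝ} (hk : VI W n j p k) :
    0 < ∫ x, k x * f n j (cdf W x) ∂W ∧
    IsLeast (convVals W n j p) (-Real.sqrt (∫ x, k x * f n j (cdf W x) ∂W)) ∧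
    ∀ μ, Dist μ → ConvLE μ W →
      (bias μ n j p = -Real.sqrt (∫ x, k x * f n j (cdf W x) ∂W) ↔
        ∃ α b : ℝ, 0 < α ∧ μ = W.map (fun x => b - α * k x)) := by
  obtain ⟨hpos, hsd, hT⟩ := hDAT W hW hIM n j p hp k hk
  have hsq : 0 < Real.sqrt (∫ x, k x * f n j (cdf W x) ∂W) := Real.sqrt_pos.2 hpos
  have hval : ∀ α b : ℝ, 0 < α → Dist (W.map (fun x => b - α * k x)) ∧
      ConvLE (W.map (fun x => b - α * k x)) W ∧
      bias (W.map (fun x => b - α * k x)) n j p =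
        -Real.sqrt (∫ x, k x * f n j (cdf W x) ∂W) := by
    intro α b hα
    have hs : 0 < sdW W (fun x => -k x) := by rw [hsd]; exact hsq
    have hi : Integrable (fun x => (-k x) ^ 2) W := by
      simpa only [neg_sq] using hk.1.sq
    obtain ⟨h1, h2, h3⟩ := conv_affine hUNI hLAW hEQ2 hHH hMEA hW hp (g := fun x => -k x)
      hk.1.conv.neg hk.1.anti.neg hi hs b hα
    have he : (fun x => α * -k x + b) = fun x => b - α * k x := by
      funext x; ring
    rw [he] at h1 h2 h3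
    refine ⟨h1, h2, ?_⟩
    rw [h3, hsd, hT, neg_div, Real.div_sqrt]
  refine ⟨hpos, ⟨?_, ?_⟩, ?_⟩
  · obtain ⟨h1, h2, h3⟩ := hval 1 0 one_pos
    exact ⟨_, h1, h2, h3⟩
  · rintro b ⟨μ, hμ, hcv, rfl⟩
    obtain ⟨g, hg, hm, hi, hs, -, hb⟩ := conv_transfer hTRF hEQ1 hW hp hμ hcv
    have := (hDB W hW n j p hp k hk g hg hm hi).1
    rw [hb, le_div_iff₀ hs]
    linarith
  · intro μ hμ hcv
    constructor
    · intro hb
      obtain ⟨g, hg, hm, hi, hs, hgμ, hb'⟩ := conv_transfer hTRF hEQ1 hW hp hμ hcv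
      obtain ⟨α, b, hα, hgg⟩ := (hDB W hW n j p hp k hk g hg hm hi).2 hs (by
        rw [hb', div_eq_iff hs.ne'] at hb
        linarith)
      refine ⟨α, b, hα, ?_⟩
      rw [← hgμ]
      exact map_eq hUNI hW hgg
    · rintro ⟨α, b, hα, rfl⟩
      exact (hval α b hα).2.2

/-- hinge functions are in the cone -/
theorem hinge_inK (hUNI : S_UNI) (hW : Ref W) (hIM : IM W) {t : ℝ} (ht : t ≤ quant W p) :
    InK W p (fun x => max (t - x) 0) := by
  have hc : Convex ℝ (spt W) := (hUNI W hW).2.2.1.convex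
  have := hW.prob
  refine ⟨?_, ?_, ?_, ?_⟩
  · exact ((convexOn_const t hc).sub (concaveOn_id hc)).sup (convexOn_const 0 hc)
  · intro x _ y _ hxy
    exact max_le_max_right _ (by linarith)
  · intro x _ hx
    exact max_eq_right (by linarith)
  · have h1 : Integrable (fun x : ℝ => 2 * (t ^ 2 + (min x t) ^ 2)) W :=
      ((integrable_const _).add (min_sq hW hIM t)).const_mul 2
    refine h1.mono' (((measurable_const.sub measurable_id).max
      measurable_const).pow_const 2).aestronglyMeasurable ?_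
    filter_upwards with x
    simp only [Real.norm_eq_abs, abs_pow, sq_abs, id]
    rcases le_total x t with h | h
    · rw [min_eq_left h, max_eq_left (by linarith)]; nlinarith [sq_nonneg (t + x)]
    · rw [min_eq_right h, max_eq_right (by linarith)]; nlinarith [sq_nonneg t]

theorem res_meas (hHH : S_HH) (hMEA : S_MEA) (hW : Ref W) (hp : Par n j p) {k : ℝ → ℝ}
    (hk : InK W p k) : AEStronglyMeasurable (res W n j k) W ∧
      Integrable (fun x => res W n j k x ^ 2) W := by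
  have := hW.prob
  obtain ⟨⟨C, hC⟩, h0, hm, -⟩ := hHH W hW n j p hp
  have hmk := hMEA W hW k (Or.inr hk.anti)
  have hmr : AEStronglyMeasurable (res W n j k) W :=
    (hm.aestronglyMeasurable.sub hmk).add_const _
  refine ⟨hmr, ?_⟩
  have h1 : Integrable (fun x : ℝ => 2 * ((C + |∫ y, k y ∂W|) ^ 2 + k x ^ 2)) W :=
    ((integrable_const _).add hk.sq).const_mul 2
  refine h1.mono' (hmr.pow 2) ?_
  filter_upwards with x
  simp only [Real.norm_eq_abs, abs_pow, sq_abs, res]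
  have h2 : |f n j (cdf W x) + ∫ y, k y ∂W| ≤ C + |∫ y, k y ∂W| :=
    (abs_add_le _ _).trans (add_le_add (hC x) le_rfl)
  have h3 : (f n j (cdf W x) + ∫ y, k y ∂W) ^ 2 ≤ (C + |∫ y, k y ∂W|) ^ 2 := by
    rw [← sq_abs]
    exact pow_le_pow_left₀ (abs_nonneg _) h2 2
  nlinarith [sq_nonneg (f n j (cdf W x) + (∫ y, k y ∂W) + k x)]

theorem sol_iff (hUNI : S_UNI) (hHH : S_HH) (hMEA : S_MEA) (hHIN : S_HIN) (hW : Ref W)
    (hp : Par n j p) (hIM : IM W) (k : ℝ → ℝ) : Sol W n j p k ↔ VI W n j p k := by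
  constructor
  · rintro ⟨h1, h2, h3⟩
    obtain ⟨hm, hi⟩ := res_meas hHH hMEA hW hp h1
    exact ⟨h1, hHIN W hW p hp.p0 hp.p1 _ hm hi h2, h3⟩
  · rintro ⟨h1, h2, h3⟩
    exact ⟨h1, fun t _ ht => h2 _ (hinge_inK hUNI hW hIM ht), h3⟩

/-- the star family -/
theorem star_close (hUNI : S_UNI) (hLAW : S_LAW) (hAPX : S_APX) (hCOL : S_COL) (hEQS : S_EQS)
    (hW : Ref W) (hb : BddBelow {x | 0 < cdf W x}) (hp : Par n j p) {φ : ℝ → ℝ} (hφ : Tame φ)
    (hs : 0 < sdW W φ) {ε : ℝ} (hε : 0 < ε) :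
    ∃ b ∈ starVals W n j p, |b - T W n j p φ / sdW W φ| < ε := by
  obtain ⟨ψ, hψ, hL, hsψ, h1⟩ := hAPX W hW n j p hp φ hφ hs (ε / 2) (by linarith)
  obtain ⟨g, hg, h2⟩ := hCOL W hW hb n j p hp ψ hψ hL hsψ (ε / 2) (by linarith)
  obtain ⟨h3, -, -, -, h4⟩ := hLAW W hW g hg.mono hg.cont hg.sq hg.nondeg
  refine ⟨_, ⟨W.map g, h3, hEQS W hW hb g hg, rfl⟩, ?_⟩
  rw [h4 n j p hp]
  calc |T W n j p g / sdW W g - T W n j p φ / sdW W φ| ≤
      |T W n j p g / sdW W g - T W n j p ψ / sdW W ψ| +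
        |T W n j p ψ / sdW W ψ - T W n j p φ / sdW W φ| := abs_sub_le _ _ _
    _ < ε := by linarith

theorem df_bounds (hTRF : S_TRF) (hDFS : S_DFS) (hDFI : S_DFI) (hW : Ref W)
    (hp : Par n j p) {s : ℝ} (hs0 : ((j : ℝ) - 1) / ((n : ℝ) - 1) ≤ s) (hs1 : s < 1)
    (hs : s * f n j s = G n j s) {μ : Measure ℝ} (hμ : Dist μ) :
    -Binf n j p s ≤ bias μ n j p ∧ bias μ n j p ≤ Bsup n j p := by
  obtain ⟨h1, h2, h3, h4, h5⟩ := hTRF W hW μ hμ
  have h6 := hDFS W hW n j p hp _ h1 h3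
  have h7 := hDFI W hW n j p hp s hs0 hs1 hs _ h1 h3
  rw [h4] at h6 h7
  rw [h5 n j p hp, le_div_iff₀ hμ.nondeg, div_le_iff₀ hμ.nondeg]
  exact ⟨by linarith, h6⟩

theorem star_strict (hTRF : S_TRF) (hNA1 : S_NA1) (hNA2 : S_NA2) (hSC : S_SC)
    (hW : Ref W) (hb : BddBelow {x | 0 < cdf W x})
    (hp : Par n j p) {s : ℝ} (hs0 : ((j : ℝ) - 1) / ((n : ℝ) - 1) ≤ s) (hs1 : s < 1)
    (hs : s * f n j s = G n j s) {μ : Measure ℝ} (hμ : Dist μ) (hst : StarLE μ W) :
    -Binf n j p s < bias μ n j p ∧ bias μ n j p < Bsup n j p := by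
  obtain ⟨h1, h2, h3, h4, h5⟩ := hTRF W hW μ hμ
  have hc := hSC W hW hb μ hμ hst
  have hsd : 0 < sdW W (fun x => quant μ (cdf W x)) := by rw [h4]; exact hμ.nondeg
  have h6 := hNA1 W hW n j p hp _ h1 hc h3 hsd
  have h7 := hNA2 W hW n j p hp s hs0 hs1 hs _ h1 hc h3 hsd
  rw [h4] at h6 h7
  rw [h5 n j p hp, lt_div_iff₀ hμ.nondeg, div_lt_iff₀ hμ.nondeg]
  exact ⟨by linarith, h6⟩

theorem star_lub (hUNI : S_UNI) (hTRF : S_TRF) (hLAW : S_LAW) (hAS1 : S_AS1) (hAPX : S_APX)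
    (hCOL : S_COL) (hEQS : S_EQS) (hDFS : S_DFS) (hDFI : S_DFI)
    (hW : Ref W) (hb : BddBelow {x | 0 < cdf W x})
    (hp : Par n j p) {s : ℝ} (hs0 : ((j : ℝ) - 1) / ((n : ℝ) - 1) ≤ s) (hs1 : s < 1)
    (hs : s * f n j s = G n j s) : IsLUB (starVals W n j p) (Bsup n j p) := by
  refine ⟨?_, ?_⟩
  · rintro b ⟨μ, hμ, -, rfl⟩
    exact (df_bounds hTRF hDFS hDFI hW hp hs0 hs1 hs hμ).2
  · intro c hc
    by_contra hlt
    push Not at hlt
    obtain ⟨φ, hφ, hsφ, hT⟩ := hAS1 W hW n j p hp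
    obtain ⟨b, hb', h1⟩ := star_close hUNI hLAW hAPX hCOL hEQS hW hb hp hφ hsφ
      (ε := Bsup n j p - c) (by linarith)
    rw [hT] at h1
    have := hc hb'
    have := (abs_lt.1 h1).1
    linarith

theorem star_glb (hUNI : S_UNI) (hTRF : S_TRF) (hLAW : S_LAW) (hAS2 : S_AS2) (hAPX : S_APX)
    (hCOL : S_COL) (hEQS : S_EQS) (hDFS : S_DFS) (hDFI : S_DFI)
    (hW : Ref W) (hb : BddBelow {x | 0 < cdf W x})
    (hp : Par n j p) {s : ℝ} (hs0 : ((j : ℝ) - 1) / ((n : ℝ) - 1) ≤ s) (hs1 : s < 1)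
    (hs : s * f n j s = G n j s) : IsGLB (starVals W n j p) (-Binf n j p s) := by
  refine ⟨?_, ?_⟩
  · rintro b ⟨μ, hμ, -, rfl⟩
    exact (df_bounds hTRF hDFS hDFI hW hp hs0 hs1 hs hμ).1
  · intro c hc
    by_contra hlt
    push Not at hlt
    obtain ⟨φ, hφ, hsφ, hT⟩ := hAS2 W hW n j p hp s hs0 hs1 hs ((c + Binf n j p s) / 2)
      (by linarith)
    obtain ⟨b, hb', h1⟩ := star_close hUNI hLAW hAPX hCOL hEQS hW hb hp hφ hsφ
      (ε := (c + Binf n j p s) / 2) (by linarith)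
    have := hc hb'
    have := (abs_lt.1 h1).2
    linarith

/-- the case `p = (j-1)/(n-1)` -/
theorem edge_case (hUNI : S_UNI) (hAFF : S_AFF) (hW : Ref W) (hp : Par n j p) {k : ℝ → ℝ}
    (hk : VI W n j p k) (hpos : 0 < ∫ x, k x * f n j (cdf W x) ∂W)
    (hpe : p = ((j : ℝ) - 1) / ((n : ℝ) - 1)) :
    ∃ c : ℝ, 0 < c ∧ ∀ x ∈ spt W, k x = c * (quant W p - min x (quant W p)) := by
  obtain ⟨α, b, hab⟩ := hAFF W hW n j p hp k hk
  have hwm := w_mem hUNI hW hp
  obtain ⟨h0, -, -, -, h4, h5, h6⟩ := hUNI W hW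
  have hcw : cdf W (quant W p) = p := (h4 p (cu hp)).2
  have hkw : k (quant W p) = 0 := hk.1.zero _ hwm le_rfl
  have h7 : α * quant W p + b = 0 := by
    rw [← hkw]; exact (hab _ hwm (by rw [hcw, ← hpe])).symm
  have h8 : ∀ x ∈ spt W, k x = (-α) * (quant W p - min x (quant W p)) := by
    intro x hx
    rcases le_total x (quant W p) with h | h
    · have h9 : cdf W x ≤ ((j : ℝ) - 1) / ((n : ℝ) - 1) := by
        rw [← hpe, ← hcw]; exact monotone_cdf W h
      rw [min_eq_left h, hab x hx h9]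
      linarith
    · rw [min_eq_right h, hk.1.zero x hx h]; ring
  refine ⟨-α, ?_, h8⟩
  by_contra hneg
  push Not at hneg
  have h10 : ∀ᵐ x ∂W, k x * f n j (cdf W x) = 0 := by
    filter_upwards [compl_mem_ae_iff.2 h0] with x hx
    rw [compl_compl] at hx
    have h11 : k x ≤ 0 := by
      rw [h8 x hx]
      exact mul_nonpos_of_nonpos_of_nonneg hneg (by
        have := min_le_right x (quant W p); linarith)
    have h12 : 0 ≤ k x := by
      rcases le_total x (quant W p) with h | h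
      · rw [← hkw]; exact hk.1.anti hx hwm h
      · rw [hk.1.zero x hx h]
    rw [le_antisymm h11 h12, zero_mul]
  rw [integral_congr_ae h10] at hpos
  simp at hpos

end basics

end Pool.Agent.T2H99.QB
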