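import Pool.Agent.T2H99.QB.Stm

set_option autoImplicit false

open MeasureTheory ProbabilityTheory Set Filter Topology

noncomputable section

namespace Pool.Agent.T2H99.QB

namespace H35

variable {W : Measure ℝ}

/-- square integrable -/
structure L2 (W : Measure ℝ) (g : ℝ → ℝ) : Prop where
  m : AEStronglyMeasurable g W
  i : Integrable (fun x => g x ^ 2) W

theorem L2.int [IsProbabilityMeasure W] {g : ℝ → ℝ} (h : L2 W g) : Integrable g W :=
  ((memLp_two_iff_integrable_sq h.m).2 h.i).integrable (by norm_num)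

theorem L2.mul {a b : ℝ → ℝ} (ha : L2 W a) (hb : L2 W b) : Integrable (fun x => a x * b x) W := by
  refine (ha.i.add hb.i).mono' (ha.m.mul hb.m) (Eventually.of_forall fun x => ?_)
  rw [Real.norm_eq_abs, Pi.add_apply, abs_le]
  constructor <;> nlinarith [sq_nonneg (a x + b x), sq_nonneg (a x - b x)]

theorem L2.add {a b : ℝ → ℝ} (ha : L2 W a) (hb : L2 W b) : L2 W (fun x => a x + b x) := by
  refine ⟨ha.m.add hb.m, ?_⟩
  have h := (ha.i.add hb.i).add ((ha.mul hb).const_mul 2)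
  refine h.congr (Eventually.of_forall fun x => ?_)
  simp only [Pi.add_apply]
  ring

theorem L2.smul {a : ℝ → ℝ} (ha : L2 W a) (c : ℝ) : L2 W (fun x => c * a x) := by
  refine ⟨ha.m.const_mul c, ?_⟩
  refine (ha.i.const_mul (c ^ 2)).congr (Eventually.of_forall fun x => ?_)
  ring

theorem L2.neg {a : ℝ → ℝ} (ha : L2 W a) : L2 W (fun x => -a x) := by
  refine ⟨ha.m.neg, ?_⟩
  refine ha.i.congr (Eventually.of_forall fun x => ?_)
  ring

theorem L2.sub {a b : ℝ → ℝ} (ha : L2 W a) (hb : L2 W b) : L2 W (fun x => a x - b x) := by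
  have := ha.add hb.neg
  simpa [sub_eq_add_neg] using this

theorem L2.const [IsProbabilityMeasure W] (c : ℝ) : L2 W (fun _ => c) :=
  ⟨aestronglyMeasurable_const, integrable_const _⟩

theorem sd_sq (g : ℝ → ℝ) : sdW W g ^ 2 = ∫ x, (g x - ∫ y, g y ∂W) ^ 2 ∂W :=
  Real.sq_sqrt (integral_nonneg fun _ => sq_nonneg _)

theorem sd_nonneg (g : ℝ → ℝ) : 0 ≤ sdW W g := Real.sqrt_nonneg _

theorem cov_eq [IsProbabilityMeasure W] {a b : ℝ → ℝ} (ha : L2 W a) (hb : L2 W b) :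
    ∫ x, (a x - ∫ y, a y ∂W) * (b x - ∫ y, b y ∂W) ∂W = (∫ x, a x * b x ∂W) - (∫ y, a y ∂W) * ∫ y, b y ∂W := by
  set A := ∫ y, a y ∂W with hA
  set B := ∫ y, b y ∂W with hB
  have h1 : ∀ x, (a x - A) * (b x - B) = a x * b x - B * a x - A * b x + A * B := fun x => by ring
  simp_rw [h1]
  have i1 : Integrable (fun x => a x * b x) W := ha.mul hb
  have i2 : Integrable (fun x => B * a x) W := ha.int.const_mul B
  have i3 : Integrable (fun x => A * b x) W := hb.int.const_mul A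
  have i4 : Integrable (fun x => a x * b x - B * a x) W := i1.sub i2
  have i5 : Integrable (fun x => a x * b x - B * a x - A * b x) W := i4.sub i3
  rw [integral_add i5 (integrable_const _), integral_sub i4 i3, integral_sub i1 i2, integral_const_mul,
    integral_const_mul, ← hA, ← hB]
  simp
  ring

theorem sd_sq_eq [IsProbabilityMeasure W] {a : ℝ → ℝ} (ha : L2 W a) :
    sdW W a ^ 2 = (∫ x, a x ^ 2 ∂W) - (∫ y, a y ∂W) ^ 2 := by
  rw [sd_sq]
  have h := cov_eq ha ha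
  simp_rw [← sq] at h
  rw [h]

theorem quad [IsProbabilityMeasure W] {a b : ℝ → ℝ} (ha : L2 W a) (hb : L2 W b) (l m : ℝ) :
    ∫ x, (m * (a x - ∫ y, a y ∂W) - l * (b x - ∫ y, b y ∂W)) ^ 2 ∂W =
      m ^ 2 * sdW W a ^ 2 - 2 * l * m * ((∫ x, a x * b x ∂W) - (∫ y, a y ∂W) * ∫ y, b y ∂W) +
        l ^ 2 * sdW W b ^ 2 := by
  rw [sd_sq, sd_sq, ← cov_eq ha hb]
  set A := ∫ y, a y ∂W with hA
  set B := ∫ y, b y ∂W with hB
  have ha' : L2 W (fun x => a x - A) := ha.sub (L2.const A)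
  have hb' : L2 W (fun x => b x - B) := hb.sub (L2.const B)
  have h1 : ∀ x, (m * (a x - A) - l * (b x - B)) ^ 2 =
      m ^ 2 * (a x - A) ^ 2 - (2 * l * m) * ((a x - A) * (b x - B)) + l ^ 2 * (b x - B) ^ 2 := fun x => by ring
  simp_rw [h1]
  have i1 : Integrable (fun x => m ^ 2 * (a x - A) ^ 2) W := ha'.i.const_mul _
  have i2 : Integrable (fun x => (2 * l * m) * ((a x - A) * (b x - B))) W := (ha'.mul hb').const_mul _
  have i3 : Integrable (fun x => l ^ 2 * (b x - B) ^ 2) W := hb'.i.const_mul _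
  have i4 : Integrable (fun x => m ^ 2 * (a x - A) ^ 2 - (2 * l * m) * ((a x - A) * (b x - B))) W := i1.sub i2
  rw [integral_add i4 i3, integral_sub i1 i2, integral_const_mul, integral_const_mul,
    integral_const_mul]

theorem cov_le [IsProbabilityMeasure W] {a b : ℝ → ℝ} (ha : L2 W a) (hb : L2 W b) :
    (∫ x, a x * b x ∂W) - (∫ y, a y ∂W) * ∫ y, b y ∂W ≤ sdW W a * sdW W b := by
  set C := (∫ x, a x * b x ∂W) - (∫ y, a y ∂W) * ∫ y, b y ∂W with hC
  have h : ∀ l : ℝ, 0 ≤ sdW W b ^ 2 * (l * l) + (-2 * C) * l + sdW W a ^ 2 := by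
    intro l
    have h1 := quad ha hb l 1
    have h2 : 0 ≤ ∫ x, (1 * (a x - ∫ y, a y ∂W) - l * (b x - ∫ y, b y ∂W)) ^ 2 ∂W :=
      integral_nonneg fun _ => sq_nonneg _
    rw [h1, ← hC] at h2
    linarith
  have h3 := discrim_le_zero h
  unfold discrim at h3
  have h4 : C ^ 2 ≤ (sdW W a * sdW W b) ^ 2 := by nlinarith
  exact (abs_le_of_sq_le_sq' h4 (mul_nonneg (sd_nonneg _) (sd_nonneg _))).2

/-- equality in Cauchy-Schwarz -/
theorem cov_eq_case [IsProbabilityMeasure W] {a b : ℝ → ℝ} (ha : L2 W a) (hb : L2 W b)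
    (h : (∫ x, a x * b x ∂W) - (∫ y, a y ∂W) * ∫ y, b y ∂W = sdW W a * sdW W b) :
    ∀ᵐ x ∂W, sdW W b * (a x - ∫ y, a y ∂W) = sdW W a * (b x - ∫ y, b y ∂W) := by
  have h1 := quad ha hb (sdW W a) (sdW W b)
  rw [h] at h1
  have h2 : sdW W b ^ 2 * sdW W a ^ 2 - 2 * sdW W a * sdW W b * (sdW W a * sdW W b) +
      sdW W a ^ 2 * sdW W b ^ 2 = 0 := by ring
  rw [h2] at h1
  have hL : L2 W (fun x => sdW W b * (a x - ∫ y, a y ∂W) - sdW W a * (b x - ∫ y, b y ∂W)) :=
    ((ha.sub (L2.const _)).smul _).sub ((hb.sub (L2.const _)).smul _)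
  have h3 := (integral_eq_zero_iff_of_nonneg (fun x => sq_nonneg _) hL.i).1 h1
  filter_upwards [h3] with x hx
  have : sdW W b * (a x - ∫ y, a y ∂W) - sdW W a * (b x - ∫ y, b y ∂W) = 0 := by
    simpa using hx
  linarith

theorem sd_zero_case [IsProbabilityMeasure W] {a : ℝ → ℝ} (ha : L2 W a) (h : sdW W a ≤ 0) :
    ∀ᵐ x ∂W, a x = ∫ y, a y ∂W := by
  have h0 : sdW W a = 0 := le_antisymm h (sd_nonneg _)
  have h1 : ∫ x, (a x - ∫ y, a y ∂W) ^ 2 ∂W = 0 := by rw [← sd_sq, h0]; norm_num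
  have h3 := (integral_eq_zero_iff_of_nonneg (fun x => sq_nonneg _) (ha.sub (L2.const _)).i).1 h1
  filter_upwards [h3] with x hx
  have : a x - ∫ y, a y ∂W = 0 := by simpa using hx
  linarith

/-! ### masses -/

theorem ae_spt (hU : S_UNI) (hW : Ref W) : ∀ᵐ x ∂W, x ∈ spt W := (hU W hW).1

theorem real_Iic (hW : Ref W) (x : ℝ) : W.real (Iic x) = cdf W x := by
  have := hW.prob
  rw [cdf_eq_real]

theorem real_Ioi (hW : Ref W) (x : ℝ) : W.real (Ioi x) = 1 - cdf W x := by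
  have := hW.prob
  rw [← compl_Iic, probReal_compl_eq_one_sub measurableSet_Iic, real_Iic hW]

theorem pos_Ioc (hW : Ref W) {x y : ℝ} (hx : x ∈ spt W) (hy : y ∈ spt W) (hxy : x < y) : 0 < W (Ioc x y) := by
  have := hW.prob
  have h : W (Ioc x y) = ENNReal.ofReal (cdf W y - cdf W x) := by
    conv_lhs => rw [← measure_cdf W]
    rw [StieltjesFunction.measure_Ioc]
  rw [h, ENNReal.ofReal_pos]
  have := hW.strict hx hy hxy
  linarith

theorem pos_Ioo (hU : S_UNI) (hW : Ref W) {x y : ℝ} (hx : x ∈ spt W) (hy : y ∈ spt W) (hxy : x < y) :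
    0 < W (Ioo x y) := by
  obtain ⟨-, -, hO, -⟩ := hU W hW
  have hm : (x + y) / 2 ∈ spt W := hO.out hx hy ⟨by linarith, by linarith⟩
  refine lt_of_lt_of_le (pos_Ioc hW hx hm (by linarith)) (measure_mono ?_)
  intro z hz
  exact ⟨hz.1, lt_of_le_of_lt hz.2 (by linarith)⟩

theorem pos_Ioi (hW : Ref W) {x : ℝ} (hx : x ∈ spt W) : 0 < W (Ioi x) := by
  have := hW.prob
  have h := real_Ioi hW x
  have h2 : 0 < W.real (Ioi x) := by rw [h]; linarith [hx.2]
  rw [Measure.real, ENNReal.toReal_pos_iff] at h2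
  exact h2.1

/-- a.e. zero continuous functions vanish -/
theorem zero_of_ae (hU : S_UNI) (hW : Ref W) {F : ℝ → ℝ} (hF : ContinuousOn F (spt W))
    (h : ∀ᵐ x ∂W, F x = 0) : ∀ x ∈ spt W, F x = 0 := by
  obtain ⟨-, hopen, -, -⟩ := hU W hW
  intro x hx
  by_contra hne
  have hc : ContinuousAt F x := hF.continuousAt (hopen.mem_nhds hx)
  have h1 : ∀ᶠ y in 𝓝 x, F y ≠ 0 ∧ y ∈ spt W := (hc.eventually_ne hne).and (hopen.mem_nhds hx)
  obtain ⟨ε, hε, hball⟩ := Metric.eventually_nhds_iff.1 h1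
  have hy : x + ε / 2 ∈ spt W := (hball (by rw [Real.dist_eq, abs_lt]; constructor <;> linarith)).2
  have hpos := pos_Ioo hU hW hx hy (by linarith)
  have h2 : W {x | ¬ F x = 0} = 0 := h
  have h3 : Ioo x (x + ε / 2) ⊆ {x | ¬ F x = 0} := by
    intro y hy
    exact (hball (by rw [Real.dist_eq, abs_lt]; constructor <;> linarith [hy.1, hy.2])).1
  have h4 := measure_mono_null h3 h2
  exact hpos.ne' h4

/-- a function a.e. equal to `c` which vanishes right of a point of the support -/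
theorem const_zero (hU : S_UNI) (hW : Ref W) {F : ℝ → ℝ} {c w : ℝ} (hw : w ∈ spt W)
    (h : ∀ᵐ x ∂W, F x = c) (h0 : ∀ x ∈ spt W, w ≤ x → F x = 0) : c = 0 := by
  by_contra hc
  have h1 : W {x | ¬ (F x = c ∧ x ∈ spt W)} = 0 := h.and (ae_spt hU hW)
  have h2 : Ioi w ⊆ {x | ¬ (F x = c ∧ x ∈ spt W)} := by
    intro x hx h3
    have h4 := h0 x h3.2 (le_of_lt hx)
    exact hc (by rw [← h3.1, h4])
  exact (pos_Ioi hW hw).ne' (measure_mono_null h2 h1)

theorem L2h (hHH : S_HH) (hW : Ref W) {n j : ℕ} {p : ℝ} (hp : Par n j p) :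
    L2 W (fun x => f n j (cdf W x)) := by
  have := hW.prob
  obtain ⟨⟨C, hC⟩, -, hm, -⟩ := hHH W hW n j p hp
  refine ⟨hm.aestronglyMeasurable, ?_⟩
  refine Integrable.of_bound (hm.pow_const 2).aestronglyMeasurable (C ^ 2) (Eventually.of_forall fun x => ?_)
  rw [Real.norm_eq_abs, abs_pow]
  exact pow_le_pow_left₀ (abs_nonneg _) (hC x) 2

theorem resint (hW : Ref W) {n j : ℕ} {u k : ℝ → ℝ} (hu : L2 W u) (hk : L2 W k)
    (hh : L2 W (fun x => f n j (cdf W x))) :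
    ∫ x, u x * res W n j k x ∂W = (∫ x, u x * f n j (cdf W x) ∂W) -
      ((∫ x, u x * k x ∂W) - (∫ x, u x ∂W) * ∫ x, k x ∂W) := by
  have := hW.prob
  have h1 : ∀ x, u x * res W n j k x = u x * f n j (cdf W x) - u x * k x + (∫ x, k x ∂W) * u x := fun x => by
    unfold res; ring
  simp_rw [h1]
  have i1 : Integrable (fun x => u x * f n j (cdf W x)) W := hu.mul hh
  have i2 : Integrable (fun x => u x * k x) W := hu.mul hk
  have i3 : Integrable (fun x => (∫ x, k x ∂W) * u x) W := hu.int.const_mul _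
  have i4 : Integrable (fun x => u x * f n j (cdf W x) - u x * k x) W := i1.sub i2
  rw [integral_add i4 i3, integral_sub i1 i2, integral_const_mul]
  ring

theorem w_mem (hU : S_UNI) (hW : Ref W) {n j : ℕ} {p : ℝ} (hp : Par n j p) :
    quant W p ∈ spt W ∧ cdf W (quant W p) = p := (hU W hW).2.2.2.2.1 p ⟨hp.p0, hp.p1⟩

end H35

end Pool.Agent.T2H99.QB
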