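import Pool.Agent.T2H99.QB.Stm

/-! # Project QB, package MON -/

open MeasureTheory ProbabilityTheory Set Filter Topology

noncomputable section

namespace Pool.Agent.T2H99.QB

namespace PkgMON

/-- the mean of a decreasing density over `(u, 1)` is decreasing in `u` -/
theorem mean_lt {G f : ℝ → ℝ} {m u v : ℝ} (hG : ∀ u, HasDerivAt G (f u) u)
    (hf : StrictAntiOn f (Icc m 1)) (hG1 : G 1 = 1) (hm : m ≤ u) (huv : u < v) (hv : v < 1) :
    (1 - G v) * (1 - u) < (1 - G u) * (1 - v) := by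
  have hcont : Continuous G := continuous_iff_continuousAt.2 fun x => (hG x).continuousAt
  have hv0 : 0 < 1 - v := by linarith
  have hvm : v ∈ Icc m 1 := ⟨by linarith, hv.le⟩
  have h1 : 1 - G v ≤ f v * (1 - v) := by
    have hanti : AntitoneOn (fun x => G x - f v * x) (Icc v 1) := by
      refine antitoneOn_of_deriv_nonpos (convex_Icc v 1) (by fun_prop) ?_ ?_
      · intro x _
        exact ((hG x).sub ((hasDerivAt_id x).const_mul (f v))).differentiableAt.differentiableWithinAt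
      · intro x hx
        rw [interior_Icc] at hx
        have hd : HasDerivAt (fun x => G x - f v * x) (f x - f v * 1) x :=
          (hG x).sub ((hasDerivAt_id x).const_mul (f v))
        rw [hd.deriv]
        have := hf hvm ⟨by linarith [hx.1], hx.2.le⟩ hx.1
        linarith
    have := hanti (left_mem_Icc.2 hv.le) (right_mem_Icc.2 hv.le) hv.le
    simp only at this
    rw [hG1] at this
    linarith
  set H : ℝ := (1 - G v) / (1 - v) with hH
  have hHv : H * (1 - v) = 1 - G v := by rw [hH]; field_simp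
  have hHf : H ≤ f v := by
    rw [hH, div_le_iff₀ hv0]
    exact h1
  have hmono : StrictMonoOn (fun x => G x - H * x) (Icc u v) := by
    refine strictMonoOn_of_deriv_pos (convex_Icc u v) (by fun_prop) ?_
    intro x hx
    rw [interior_Icc] at hx
    have hd : HasDerivAt (fun x => G x - H * x) (f x - H * 1) x :=
      (hG x).sub ((hasDerivAt_id x).const_mul H)
    rw [hd.deriv]
    have := hf ⟨by linarith [hx.1], by linarith [hx.2]⟩ hvm hx.2
    linarith
  have h2 := hmono (left_mem_Icc.2 huv.le) (right_mem_Icc.2 huv.le) huv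
  simp only at h2
  have h3 : H * (1 - u) < 1 - G u := by nlinarith [hHv]
  calc (1 - G v) * (1 - u) = H * (1 - u) * (1 - v) := by rw [← hHv]; ring
    _ < (1 - G u) * (1 - v) := mul_lt_mul_of_pos_right h3 hv0

theorem mean_le {G f : ℝ → ℝ} {m u v : ℝ} (hG : ∀ u, HasDerivAt G (f u) u)
    (hf : StrictAntiOn f (Icc m 1)) (hG1 : G 1 = 1) (hm : m ≤ u) (huv : u ≤ v) (hv : v < 1) :
    (1 - G v) * (1 - u) ≤ (1 - G u) * (1 - v) := by
  rcases huv.eq_or_lt with rfl | h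
  · exact le_rfl
  · exact (mean_lt hG hf hG1 hm h hv).le

/-- the final computation -/
theorem alg {a1 a2 g1 g2 V1 V2 y1 y2 N1 N2 M1 M2 : ℝ} (ha1 : 0 < a1) (hg2 : 0 ≤ g2)
    (hV1 : 0 < V1) (hy1 : 0 < y1) (hy2 : 0 < y2) (h1 : g1 * V1 ≤ a1 * y1 * N1) (h2 : g2 * a1 < g1 * a2)
    (ha2 : 0 < a2) (h3 : g2 * (M2 - M1) ≤ (N2 - N1) * a2)
    (h4 : V2 * y1 ≤ V1 * y2 + (M2 - M1) * y1 * y2) : g2 * V2 - a2 * y2 * N2 < 0 := by
  have e1 : y2 * a2 * (g1 * V1) ≤ y2 * a2 * (a1 * y1 * N1) :=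
    mul_le_mul_of_nonneg_left h1 (by positivity)
  have e2 : y2 * V1 * (g2 * a1) < y2 * V1 * (g1 * a2) := mul_lt_mul_of_pos_left h2 (by positivity)
  have e3 : a1 * y1 * y2 * (g2 * (M2 - M1)) ≤ a1 * y1 * y2 * ((N2 - N1) * a2) :=
    mul_le_mul_of_nonneg_left h3 (by positivity)
  have e4 : a1 * g2 * (V2 * y1) ≤ a1 * g2 * (V1 * y2 + (M2 - M1) * y1 * y2) :=
    mul_le_mul_of_nonneg_left h4 (by positivity)
  have e5 : a1 * y1 * (g2 * V2 - a2 * y2 * N2) < a1 * y1 * 0 := by nlinarith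
  exact lt_of_mul_lt_mul_left e5 (by positivity)

end PkgMON

open PkgMON in
theorem pMON (hUNI : S_UNI) (hFF : S_FF) (hBET : S_BET) (hNV : S_NV) (hCS : S_CS) : S_MON := by
  intro W hW hIM n j p hP t₁ ht₁ t₂ ht₂ hw ht hD
  obtain ⟨-, -, hord, -, hq, -, hle⟩ := hUNI W hW
  obtain ⟨-, -, -, -, hanti, -, -, hG1, -, hGm, hm0, hm1⟩ := hFF n j p hP
  obtain ⟨hG, -⟩ := hBET n j hP.j1 hP.jn
  obtain ⟨hqp, hqc⟩ := hq p ⟨hP.p0, hP.p1⟩
  set m : ℝ := ((j : ℝ) - 1) / ((n : ℝ) - 1) with hm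
  have hmp : m ≤ p := hP.mp
  have hsub : Icc t₁ t₂ ⊆ spt W := hord.out ht₁ ht₂
  -- the distribution function on the interval
  have hF1 : p < cdf W t₁ := by
    rw [← hqc]
    by_contra hcon
    exact absurd ((hle t₁ ht₁ _ hqp).1 (not_lt.1 hcon)) (not_le.2 hw)
  have hF12 : cdf W t₁ < cdf W t₂ := by
    by_contra hcon
    exact absurd ((hle t₂ ht₂ t₁ ht₁).1 (not_lt.1 hcon)) (not_le.2 ht)
  have hFx : ∀ x ∈ Icc t₁ t₂, m ≤ cdf W x ∧ cdf W x ≤ cdf W t₂ := by
    intro x hx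
    have h1 := (hle t₁ ht₁ x (hsub hx)).2 hx.1
    have h2 := (hle x (hsub hx) t₂ ht₂).2 hx.2
    exact ⟨by linarith, h2⟩
  have hF2 : cdf W t₂ < 1 := ht₂.2
  obtain ⟨hV1, hM1⟩ := (hNV W hW hIM n j p hP t₁).2.2.2 ht₁
  obtain ⟨hV2, hM2⟩ := (hNV W hW hIM n j p hP t₂).2.2.2 ht₂
  -- (1)
  have hR : AntitoneOn (fun x => Vt W x / (x - Mt W x) - Mt W x) (Icc t₁ t₂) := by
    have hd : ∀ x ∈ Icc t₁ t₂, HasDerivAt (fun x => Vt W x / (x - Mt W x) - Mt W x)
        ((2 * (1 - cdf W x) * (x - Mt W x) * (x - Mt W x) - Vt W x * (1 - (1 - cdf W x))) /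
          (x - Mt W x) ^ 2 - (1 - cdf W x)) x := by
      intro x hx
      obtain ⟨a, b, -, d⟩ := hNV W hW hIM n j p hP x
      have hne : x - Mt W x ≠ 0 := by
        have := (d (hsub hx)).2
        exact (by linarith : 0 < x - Mt W x).ne'
      exact (b.div ((hasDerivAt_id x).sub a) hne).sub a
    refine antitoneOn_of_deriv_nonpos (convex_Icc _ _)
      (fun x hx => (hd x hx).continuousAt.continuousWithinAt) ?_ ?_
    · intro x hx
      rw [interior_Icc] at hx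
      exact (hd x ⟨hx.1.le, hx.2.le⟩).differentiableAt.differentiableWithinAt
    · intro x hx
      rw [interior_Icc] at hx
      have hx' : x ∈ Icc t₁ t₂ := ⟨hx.1.le, hx.2.le⟩
      rw [(hd x hx').deriv]
      have hy : 0 < x - Mt W x := by
        have := ((hNV W hW hIM n j p hP x).2.2.2 (hsub hx')).2
        linarith
      have hc := hCS W hW hIM x
      rw [sub_nonpos, div_le_iff₀ (by positivity)]
      nlinarith
  have hR12 := hR (left_mem_Icc.2 ht.le) (right_mem_Icc.2 ht.le) ht.le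
  simp only at hR12
  have hy1 : 0 < t₁ - Mt W t₁ := by linarith
  have hy2 : 0 < t₂ - Mt W t₂ := by linarith
  have h4 : Vt W t₂ * (t₁ - Mt W t₁) ≤ Vt W t₁ * (t₂ - Mt W t₂) +
      (Mt W t₂ - Mt W t₁) * (t₁ - Mt W t₁) * (t₂ - Mt W t₂) := by
    have e1 : Vt W t₂ / (t₂ - Mt W t₂) ≤ Vt W t₁ / (t₁ - Mt W t₁) + (Mt W t₂ - Mt W t₁) := by linarith
    have e2 := mul_le_mul_of_nonneg_right e1 (mul_pos hy1 hy2).le
    have e3 : Vt W t₂ / (t₂ - Mt W t₂) * ((t₁ - Mt W t₁) * (t₂ - Mt W t₂)) =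
        Vt W t₂ * (t₁ - Mt W t₁) := by
      field_simp
    have e4 : (Vt W t₁ / (t₁ - Mt W t₁) + (Mt W t₂ - Mt W t₁)) *
        ((t₁ - Mt W t₁) * (t₂ - Mt W t₂)) = Vt W t₁ * (t₂ - Mt W t₂) +
      (Mt W t₂ - Mt W t₁) * (t₁ - Mt W t₁) * (t₂ - Mt W t₂) := by
      field_simp
    rw [e3, e4] at e2
    exact e2
  -- (2)
  have hS : MonotoneOn (fun x => Nt W n j p x * (1 - cdf W t₂) - (1 - G n j (cdf W t₂)) * Mt W x)
      (Icc t₁ t₂) := by
    have hd : ∀ x, HasDerivAt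
        (fun x => Nt W n j p x * (1 - cdf W t₂) - (1 - G n j (cdf W t₂)) * Mt W x)
        ((1 - G n j (cdf W x)) * (1 - cdf W t₂) - (1 - G n j (cdf W t₂)) * (1 - cdf W x)) x := by
      intro x
      obtain ⟨a, -, c, -⟩ := hNV W hW hIM n j p hP x
      exact (c.mul_const _).sub (a.const_mul _)
    refine monotoneOn_of_deriv_nonneg (convex_Icc _ _)
      (fun x _ => (hd x).continuousAt.continuousWithinAt)
      (fun x _ => (hd x).differentiableAt.differentiableWithinAt) ?_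
    intro x hx
    rw [interior_Icc] at hx
    obtain ⟨b1, b2⟩ := hFx x ⟨hx.1.le, hx.2.le⟩
    rw [(hd x).deriv]
    have := mean_le hG hanti hG1 b1 b2 hF2
    linarith
  have hS12 := hS (left_mem_Icc.2 ht.le) (right_mem_Icc.2 ht.le) ht.le
  simp only at hS12
  have hg2 : 0 ≤ 1 - G n j (cdf W t₂) := by
    have := hGm.monotoneOn ⟨by linarith [hFx t₂ (right_mem_Icc.2 ht.le)], hF2.le⟩
      (right_mem_Icc.2 zero_le_one) hF2.le
    linarith
  have h2 := mean_lt hG hanti hG1 (by linarith : m ≤ cdf W t₁) hF12 hF2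
  have hfin := alg (a1 := 1 - cdf W t₁) (a2 := 1 - cdf W t₂) (g1 := 1 - G n j (cdf W t₁))
    (g2 := 1 - G n j (cdf W t₂)) (V1 := Vt W t₁) (V2 := Vt W t₂) (y1 := t₁ - Mt W t₁)
    (y2 := t₂ - Mt W t₂) (N1 := Nt W n j p t₁) (N2 := Nt W n j p t₂) (M1 := Mt W t₁)
    (M2 := Mt W t₂) (by linarith) hg2 hV1 hy1 hy2 (by unfold Dt at hD; linarith) h2 (by linarith)
    (by nlinarith) h4
  unfold Dt
  exact hfin

end Pool.Agent.T2H99.QB
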