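import Pool.Agent.T2H99.QB.Defs

/-!
# MP_c5814c_pr: packages (exact statements, proofs in the docstrings)

Notation of the docstrings: `h = f n j ∘ cdf W`, `w = quant W p` (the point `w_p`),
`m = (j-1)/(n-1)`, `a = lep W`. Everything takes place on the open interval `spt W`, which carries
the full mass of `W`. A function `g` on `spt W` corresponds to the law `W.map g`.
-/

open MeasureTheory ProbabilityTheory Set Filter Topology

noncomputable section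

namespace Pool.Agent.T2H99.QB

/-- CNT (30 min). The number of `i` with `x i ≤ t` is binomial. (Expand the event over the finsets
`S = {i : x i ≤ t}`, `Measure.pi` of a box is a product, count finsets of given cardinality;
`Finset.sum_powerset_apply_card` or induction on `n`.) -/
def S_CNT : Prop := ∀ μ : Measure ℝ, IsProbabilityMeasure μ → ∀ (n j : ℕ) (t : ℝ),
  (Measure.pi (fun _ : Fin n => μ)).real
    {x | j ≤ (Finset.univ.filter (fun i => x i ≤ t)).card} = G n j (cdf μ t)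

/-- BET (25 min). `G' = f` (telescoping sum: `(n choose i) i = n (n-1 choose i-1)` and
`(n choose i)(n-i) = n (n-1 choose i)`, `j (n choose j) = n (n-1 choose j-1)`), `G(0) = 0`. -/
def S_BET : Prop := ∀ n j : ℕ, 1 ≤ j → j ≤ n →
  (∀ u : ℝ, HasDerivAt (G n j) (f n j u) u) ∧ ∀ u : ℝ, G n j u = ∫ s in (0 : ℝ)..u, f n j s

/-- OST (25 min). The infimum in `ordStat` is attained. Measurability: the sets
`{x | ordStat n j x ≤ t}` are measurable. -/
def S_OST : Prop := ∀ n j : ℕ, 1 ≤ j → j ≤ n →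
  (∀ (x : Fin n → ℝ) (t : ℝ),
    ordStat n j x ≤ t ↔ j ≤ (Finset.univ.filter (fun i => x i ≤ t)).card) ∧
  Measurable (ordStat n j)

/-- QNT (20 min). Galois connection of the quantile function. -/
def S_QNT : Prop := ∀ μ : Measure ℝ, IsProbabilityMeasure μ →
  (∀ u : ℝ, 0 < u → u < 1 → ∀ t : ℝ, quant μ u ≤ t ↔ u ≤ cdf μ t) ∧
  MonotoneOn (quant μ) (Ioo 0 1)

/-- ORD (40 min). Both sides are the integral of the identity with respect to the law with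
distribution function `t ↦ G n j (cdf μ t)`: the law of `ordStat` under the product measure
(OST, CNT) and the image under `quant μ` of the probability measure with density `f n j` on
`(0,1)` (QNT, BET). Two probability measures on the line with the same cdf agree. -/
def S_ORD : Prop := ∀ μ : Measure ℝ, IsProbabilityMeasure μ → ∀ n j : ℕ, 1 ≤ j → j ≤ n →
  meanOrd μ n j = ∫ u in (0 : ℝ)..1, quant μ u * f n j u

/-- UNI (35 min). Basic facts on a continuous distribution function strictly increasing on its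
support interval. -/
def S_UNI : Prop := ∀ W : Measure ℝ, Ref W →
  W (spt W)ᶜ = 0 ∧ IsOpen (spt W) ∧ (spt W).OrdConnected ∧
  W.map (cdf W) = volume.restrict (Ioo 0 1) ∧
  (∀ u ∈ Ioo (0 : ℝ) 1, quant W u ∈ spt W ∧ cdf W (quant W u) = u) ∧
  (∀ x ∈ spt W, quant W (cdf W x) = x) ∧
  (∀ x ∈ spt W, ∀ y ∈ spt W, cdf W x ≤ cdf W y ↔ x ≤ y)

/-- FF (35 min). Elementary facts on `f` and `G` (on `(0,1)` the derivative of `f` has the sign of
`(j-1) - (n-1) u`). -/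
def S_FF : Prop := ∀ (n j : ℕ) (p : ℝ), Par n j p →
  j < n ∧ Continuous (f n j) ∧ (∀ u ∈ Icc (0 : ℝ) 1, 0 ≤ f n j u) ∧
  (∀ u ∈ Ioo (0 : ℝ) 1, 0 < f n j u) ∧
  StrictAntiOn (f n j) (Icc (((j : ℝ) - 1) / ((n : ℝ) - 1)) 1) ∧
  MonotoneOn (f n j) (Icc 0 (((j : ℝ) - 1) / ((n : ℝ) - 1))) ∧
  G n j 0 = 0 ∧ G n j 1 = 1 ∧ f n j 1 = 0 ∧ StrictMonoOn (G n j) (Icc 0 1) ∧
  0 ≤ ((j : ℝ) - 1) / ((n : ℝ) - 1) ∧ ((j : ℝ) - 1) / ((n : ℝ) - 1) < 1

/-- HH (30 min). The weight `h`: bounded, total mass one, and `T(g) = ∫ (g - g(w)) h dW`. -/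
def S_HH : Prop := ∀ W : Measure ℝ, Ref W → ∀ (n j : ℕ) (p : ℝ), Par n j p →
  (∃ C : ℝ, ∀ x, |f n j (cdf W x)| ≤ C) ∧ (∀ x, 0 ≤ f n j (cdf W x)) ∧
  Measurable (fun x => f n j (cdf W x)) ∧
  (∀ φ : ℝ → ℝ, Measurable φ → ∫ x, φ (cdf W x) ∂W = ∫ u in (0 : ℝ)..1, φ u) ∧
  (∫ x, f n j (cdf W x) ∂W = 1) ∧
  (∀ t, ∫ x in Iic t, f n j (cdf W x) ∂W = G n j (cdf W t)) ∧
  (∀ g : ℝ → ℝ, AEStronglyMeasurable g W → Integrable (fun x => g x ^ 2) W →
    Integrable g W ∧ Integrable (fun x => g x * f n j (cdf W x)) W ∧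
    T W n j p g = ∫ x, (g x - g (quant W p)) * f n j (cdf W x) ∂W)

/-- MEA (15 min). A function monotone or antitone on `spt W` is a.e. measurable (the complement of
the interval `spt W` is a null set). -/
def S_MEA : Prop := ∀ W : Measure ℝ, Ref W → ∀ g : ℝ → ℝ,
  (MonotoneOn g (spt W) ∨ AntitoneOn g (spt W)) → AEStronglyMeasurable g W

/-- CON (30 min). Contractions diminish the variance: `2 Var(g) = ∬ (g(x) - g(y))²`. -/
def S_CON : Prop := ∀ W : Measure ℝ, Ref W → ∀ g g' : ℝ → ℝ,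
  AEStronglyMeasurable g W → AEStronglyMeasurable g' W → Integrable (fun x => g x ^ 2) W →
  (∀ x ∈ spt W, ∀ y ∈ spt W, |g' x - g' y| ≤ |g x - g y|) →
  Integrable (fun x => g' x ^ 2) W ∧ sdW W g' ≤ sdW W g

/-- TRF (45 min). Transfer from laws to functions: `W(ξ)` is uniform, so `quant μ (cdf W ξ)` has
the law `μ`. -/
def S_TRF : Prop := ∀ W : Measure ℝ, Ref W → ∀ μ : Measure ℝ, Dist μ →
  MonotoneOn (fun x => quant μ (cdf W x)) (spt W) ∧
  W.map (fun x => quant μ (cdf W x)) = μ ∧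
  Integrable (fun x => quant μ (cdf W x) ^ 2) W ∧
  sdW W (fun x => quant μ (cdf W x)) = sd μ ∧
  ∀ (n j : ℕ) (p : ℝ), Par n j p →
    bias μ n j p = T W n j p (fun x => quant μ (cdf W x)) / sd μ

/-- LAW (45 min). Transfer from functions to laws: for a continuous monotone `g` the quantile
function of `W.map g` is `g ∘ quant W`. -/
def S_LAW : Prop := ∀ W : Measure ℝ, Ref W → ∀ g : ℝ → ℝ, MonotoneOn g (spt W) →
  ContinuousOn g (spt W) → Integrable (fun x => g x ^ 2) W → 0 < sdW W g →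
  Dist (W.map g) ∧ (∀ x ∈ spt W, quant (W.map g) (cdf W x) = g x) ∧
  (∀ y, cdf (W.map g) y = W.real {x | x ∈ spt W ∧ g x ≤ y}) ∧ sd (W.map g) = sdW W g ∧
  ∀ (n j : ℕ) (p : ℝ), Par n j p → bias (W.map g) n j p = T W n j p g / sdW W g

/-- SST (35 min). `u f(u) - G(u)` is nonnegative on `[0,m]` (`f` increasing there), strictly
decreasing on `[m,1]` (`f` strictly decreasing, `G' = f`), and equals `-1` at `1`. -/
def S_SST : Prop := ∀ (n j : ℕ) (p : ℝ), Par n j p → ∃ s : ℝ,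
  (((j : ℝ) - 1) / ((n : ℝ) - 1) ≤ s ∧ s < 1 ∧ s * f n j s = G n j s) ∧
  (∀ s' ∈ Icc (((j : ℝ) - 1) / ((n : ℝ) - 1)) 1, s' * f n j s' = G n j s' → s' = s) ∧
  (∀ u ∈ Icc 0 s, G n j u ≤ u * f n j u) ∧ (∀ u ∈ Icc s 1, u * f n j u ≤ G n j u)

/-- DFS (45 min). Distribution free upper bound. With `v = g(w)`: replace `g` by `max g v`
(contraction: CON; `T` grows since `T(g) = ∫ (g - v) h`, `h ≥ 0`). Now `g = v` on the left of `w`
and `g ≥ v`. On the right of `w` the weight `h` is decreasing and `g` increasing, so (Chebyshev)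
`∫_{x>w} (g-v) h ≤ (1-G(p))/(1-p) · A`, `A = ∫_{x>w} (g-v)`. By Cauchy-Schwarz
`∫ (g-v)² ≥ A²/(1-p)`, so `Var g ≥ A²/(1-p) - A² = A² p/(1-p)`. -/
def S_DFS : Prop := ∀ W : Measure ℝ, Ref W → ∀ (n j : ℕ) (p : ℝ), Par n j p → ∀ g : ℝ → ℝ,
  MonotoneOn g (spt W) → Integrable (fun x => g x ^ 2) W →
  T W n j p g ≤ Bsup n j p * sdW W g

/-- DFI (60 min). Distribution free lower bound. `r = min s p`, `F̄(u) = G(r)/r` on `(0,r]`,
`= f(u)` on `(r,p]` (if `r = 0`, i.e. `j = 1`, then `F̄ = f`). `F̄` is nonincreasing, nonnegative,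
`∫_0^u F̄ ≥ G(u)` on `[0,p]` with equality for `u ∈ [r,p]` (`G(u) ≤ u G(r)/r` for `u ≤ r`, since
`G(u)/u` is nondecreasing on `(0,s]`: SST). Let `v = g(w)`, `k = v - min g v` (nonincreasing,
`≥ 0`, `= 0` to the right of `w`), `sdW k ≤ sdW g` (CON), `-T(g) ≤ ∫ k h`. Since `k` is
nonincreasing, `∫ k h ≤ ∫ k F̄(W)` (layer cake: the level sets of `k` are left half lines; or
directly: on `(0,r]` use Chebyshev type inequality). With `c = G(p)/(1-p)` and
`q = (F̄(W) + c) 1_{x ≤ w}`: `∫ q = G(p) + c p = c`, so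
`∫ k F̄(W) = ∫ k q - c ∫ k = Cov(k,q) ≤ sd(k) sd(q)` and
`sd(q)² = ∫_0^p F̄² + 2 c G(p) + c² p - c² = ∫_0^p F̄² + G(p)²/(1-p) = Binf²`. -/
def S_DFI : Prop := ∀ W : Measure ℝ, Ref W → ∀ (n j : ℕ) (p : ℝ), Par n j p → ∀ s : ℝ,
  ((j : ℝ) - 1) / ((n : ℝ) - 1) ≤ s → s < 1 → s * f n j s = G n j s → ∀ g : ℝ → ℝ,
  MonotoneOn g (spt W) → Integrable (fun x => g x ^ 2) W →
  -(T W n j p g) ≤ Binf n j p s * sdW W g

/-- Bounded nondecreasing left continuous functions, constant far to the right. -/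
structure Tame (φ : ℝ → ℝ) : Prop where
  mono : Monotone φ
  bdd : ∃ C : ℝ, ∀ x, |φ x| ≤ C
  left : ∀ x, ContinuousWithinAt φ (Iic x) x
  const : ∃ M : ℝ, ∀ x y, M ≤ x → M ≤ y → φ x = φ y

/-- AS1 (25 min). `φ = 1_{x > w}`: `T(φ) = 1 - G(p)`, `Var φ = p(1-p)`. -/
def S_AS1 : Prop := ∀ W : Measure ℝ, Ref W → ∀ (n j : ℕ) (p : ℝ), Par n j p →
  ∃ φ : ℝ → ℝ, Tame φ ∧ 0 < sdW W φ ∧ T W n j p φ / sdW W φ = Bsup n j p

/-- AS2 (60 min). `φ_q(x) = -(F̄(W(x)) + c)` for `x ≤ w_q`, `= 0` for `x > w_q`, with `q < p`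
close to `p` (notation of DFI; for `x` left of the support the value at `0+`). As `q → p`,
`T(φ_q) → -∫_0^p (F̄+c) f du = -Binf²` (`∫_0^r (G(r)/r) f = G(r)²/r = ∫_0^r F̄²`) and
`Var φ_q → Binf²` (dominated convergence; `φ_q(w) = 0`). -/
def S_AS2 : Prop := ∀ W : Measure ℝ, Ref W → ∀ (n j : ℕ) (p : ℝ), Par n j p → ∀ s : ℝ,
  ((j : ℝ) - 1) / ((n : ℝ) - 1) ≤ s → s < 1 → s * f n j s = G n j s → ∀ ε : ℝ, 0 < ε →
  ∃ φ : ℝ → ℝ, Tame φ ∧ 0 < sdW W φ ∧ T W n j p φ / sdW W φ ≤ -Binf n j p s + ε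

/-- APX (40 min). `ψ(x) = (1/η) ∫_{x-η}^x φ`, `η → 0`: Lipschitz with constant `2 ‖φ‖/η`,
`φ(x-η) ≤ ψ(x) ≤ φ(x)`, so `ψ → φ` pointwise and boundedly. -/
def S_APX : Prop := ∀ W : Measure ℝ, Ref W → ∀ (n j : ℕ) (p : ℝ), Par n j p →
  ∀ φ : ℝ → ℝ, Tame φ → 0 < sdW W φ → ∀ ε : ℝ, 0 < ε →
  ∃ ψ : ℝ → ℝ, Tame ψ ∧ (∃ L : NNReal, LipschitzWith L ψ) ∧ 0 < sdW W ψ ∧
    |T W n j p ψ / sdW W ψ - T W n j p φ / sdW W φ| < ε

/-- The functions whose laws precede `W` in the star order with left endpoint `0`. -/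
structure StarF (W : Measure ℝ) (g : ℝ → ℝ) : Prop where
  cont : ContinuousOn g (spt W)
  mono : MonotoneOn g (spt W)
  pos : ∀ x ∈ spt W, 0 < g x
  lim : ∀ ε : ℝ, 0 < ε → ∃ x ∈ spt W, g x ≤ ε
  anti : AntitoneOn (fun x => g x / (x - lep W)) (spt W)
  sq : Integrable (fun x => g x ^ 2) W
  nondeg : 0 < sdW W g

/-- COL (50 min). The collapse. Let `|ψ| ≤ C`, `ψ` `L`-Lipschitz, constant on `[M,∞)`, `M > a`.
Fix `K = C + 1 + L (M - a)` and for small `δ > 0` let `g(x) = K + ψ(x)` for `x ≥ a + δ` and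
`g(x) = (K + ψ(a+δ)) (x-a)/δ` for `x < a + δ`. On `[a+δ,∞)`: `g(x)/(x-a)` is antitone because for
`x < y ≤ M` `(ψ(y)-ψ(x))(x-a) ≤ L (y-x)(M-a) ≤ (K+ψ(x))(y-x)`. As `δ → 0`, `g → K + ψ` off the
set `(a,a+δ)` of mass tending to `0`, `0 ≤ g ≤ K + C`, so `T(g) → T(ψ)` (`T` kills constants and
`w > a + δ` eventually) and `sdW g → sdW ψ`. -/
def S_COL : Prop := ∀ W : Measure ℝ, Ref W → BddBelow {x | 0 < cdf W x} →
  ∀ (n j : ℕ) (p : ℝ), Par n j p → ∀ ψ : ℝ → ℝ, Tame ψ → (∃ L : NNReal, LipschitzWith L ψ) →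
  0 < sdW W ψ → ∀ ε : ℝ, 0 < ε →
  ∃ g : ℝ → ℝ, StarF W g ∧ |T W n j p g / sdW W g - T W n j p ψ / sdW W ψ| < ε

/-- EQS (45 min). With `μ = W.map g`: `cdf μ y = 0` for `y ≤ 0`, `> 0` for `y > 0`, so
`lep μ = 0`. For `y > 0` with `cdf μ y < 1` let `x_y` be the largest `x` with `g x ≤ y`; then
`cdf μ y = W(x_y)`, `g(x_y) = y`, `x_y` is nondecreasing in `y`, and the ratio is
`(x_y - a)/g(x_y)`. -/
def S_EQS : Prop := ∀ W : Measure ℝ, Ref W → BddBelow {x | 0 < cdf W x} →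
  ∀ g : ℝ → ℝ, StarF W g → StarLE (W.map g) W

/-- EQ1 (50 min). `φ = W⁻¹∘F` is convex nondecreasing on the open interval `spt μ = (a_F,b_F)`
(no atom at `a_F`) and tends to `a` at `a_F`, so it is continuous and strictly increasing;
`quant μ ∘ W` is its inverse on the range of `φ` and the constant `b_F` beyond, hence concave. -/
def S_EQ1 : Prop := ∀ W : Measure ℝ, Ref W → ∀ μ : Measure ℝ, Dist μ → ConvLE μ W →
  ConcaveOn ℝ (spt W) (fun x => quant μ (cdf W x))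

/-- EQ2 (50 min). `g` is strictly increasing and continuous up to a point `c` and constant
afterwards. `spt μ` is the image of the part before `c`, there `cdf μ (g x) = cdf W x`, so
`W⁻¹∘F` is the inverse of a concave strictly increasing function. -/
def S_EQ2 : Prop := ∀ W : Measure ℝ, Ref W → ∀ g : ℝ → ℝ, ConcaveOn ℝ (spt W) g →
  MonotoneOn g (spt W) → Integrable (fun x => g x ^ 2) W → 0 < sdW W g → ConvLE (W.map g) W

/-- CRL (40 min). Linearisation on the left: `s = g'_+(w)` (right derivative),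
`g' = g(w) + s (x-w)` for `x ≤ w`, `g' = g` for `x ≥ w`. `g ≤ g'`, so `T(g) ≤ T(g')`
(`h ≥ 0`, same value at `w`); the slopes of `g` on the left are `≥ s`, so
`|g'(x)-g'(y)| ≤ |g(x)-g(y)|` and CON applies. -/
def S_CRL : Prop := ∀ W : Measure ℝ, Ref W → ∀ (n j : ℕ) (p : ℝ), Par n j p → ∀ g : ℝ → ℝ,
  ConcaveOn ℝ (spt W) g → MonotoneOn g (spt W) → Integrable (fun x => g x ^ 2) W →
  ∃ (s : ℝ) (g' : ℝ → ℝ), 0 ≤ s ∧
    (∀ x ∈ spt W, x ≤ quant W p → g' x = g (quant W p) + s * (x - quant W p)) ∧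
    (∀ x ∈ spt W, quant W p ≤ x → g' x = g x) ∧
    (∀ x ∈ spt W, g x ≤ g (quant W p) + s * (x - quant W p)) ∧
    MonotoneOn g' (spt W) ∧ Integrable (fun x => g' x ^ 2) W ∧
    T W n j p g ≤ T W n j p g' ∧ sdW W g' ≤ sdW W g

/-- CRR (60 min). Truncation on the right. `v = g(w)`. If `s = 0` then `g ≤ v` and `T(g) ≤ 0`.
Let `s > 0`, `g_t(x) = v + s (min x t - w)`, so `T(g_t) = s N(t)`, `sdW g_t = s √V(t)`. Choose `t`
with `∫_{x>w} g_t = ∫_{x>w} g` (possible with `w ≤ t`, `t ∈ spt W`, unless `g` is affine a.e. on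
the whole of `spt W`; if `t = w` then `T(g) ≤ 0`). `ψ = g_t - g` vanishes left of `w`, is `≥ 0`
then `≤ 0` on the right, `∫ ψ = 0`; `h` is decreasing on the right, so `∫ ψ h ≥ 0`; `g_t + g` is
nondecreasing, so `∫ ψ (g_t+g) ≤ 0`. Hence `T(g) ≤ T(g_t)`, `sdW g_t ≤ sdW g`. If `g` is affine:
`x²` is integrable, let `t` tend to the right end of `spt W` in `s N(t) ≤ c s √V(t)` (dominated
convergence). -/
def S_CRR : Prop := ∀ W : Measure ℝ, Ref W → ∀ (n j : ℕ) (p : ℝ), Par n j p → ∀ c : ℝ, 0 ≤ c →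
  (∀ t ∈ spt W, quant W p < t → Nt W n j p t ≤ c * Real.sqrt (Vt W t)) →
  ∀ (s : ℝ) (g : ℝ → ℝ), 0 ≤ s →
    (∀ x ∈ spt W, x ≤ quant W p → g x = g (quant W p) + s * (x - quant W p)) →
    (∀ x ∈ spt W, quant W p ≤ x → g x ≤ g (quant W p) + s * (x - quant W p)) →
    MonotoneOn g (spt W) → Integrable (fun x => g x ^ 2) W →
    T W n j p g ≤ c * sdW W g

/-- Integrability of the square of the negative part (otherwise the family is empty: EMP). -/
def IM (W : Measure ℝ) : Prop := Integrable (fun x => (min x 0) ^ 2) W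

/-- NV (45 min). `M(t) = M(t₀) + ∫_{t₀}^t (1-W)`, similarly
`N(t) = N(t₀) + ∫_{t₀}^t (1-G(W))`, `E min(ξ,t)² = ... + ∫ 2x (1-W(x)) dx`. -/
def S_NV : Prop := ∀ W : Measure ℝ, Ref W → IM W → ∀ (n j : ℕ) (p : ℝ), Par n j p → ∀ t : ℝ,
  HasDerivAt (Mt W) (1 - cdf W t) t ∧
  HasDerivAt (Vt W) (2 * (1 - cdf W t) * (t - Mt W t)) t ∧
  HasDerivAt (Nt W n j p) (1 - G n j (cdf W t)) t ∧
  (t ∈ spt W → 0 < Vt W t ∧ Mt W t < t)

/-- CS (20 min). With `Y = (t-ξ)_+ = t - min(ξ,t)`: `E Y = t - M(t)`, `Var Y = V(t)` and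
`(E Y)² ≤ P(Y>0) E Y²` with `P(Y > 0) = W(t)`. -/
def S_CS : Prop := ∀ W : Measure ℝ, Ref W → IM W → ∀ t : ℝ,
  (1 - cdf W t) * (t - Mt W t) ^ 2 ≤ cdf W t * Vt W t

/-- MON (50 min). Write `y = t - M(t)`, `H(t) = (1-G(W(t)))/(1-W(t))`, the mean of `f` over
`(W(t),1)`, strictly decreasing for `t ≥ w_m`. `Dt = (1-W)(H V - y N)`.
(1) `V/y - M` is nonincreasing on `spt W`: its derivative is `(1-W) - V W / y²`, which is `≤ 0` by
CS. (2) Let `w < t₁ < t₂` and `H₁V₁ ≤ y₁N₁`. Since `1-G(W(x)) = H(x)(1-W(x)) ≥ H₂ (1-W(x))` for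
`x ≤ t₂`: `N₂ ≥ N₁ + H₂ (M₂-M₁)`. So
`H₂V₂ - y₂N₂ ≤ H₂ V₂ - y₂ H₂ (M₂-M₁) - y₂ N₁ < H₂ (V₂ - y₂(M₂-M₁) - y₂ V₁/y₁) ≤ 0` by (1), using
`N₁ ≥ H₁V₁/y₁ > H₂V₁/y₁`. -/
def S_MON : Prop := ∀ W : Measure ℝ, Ref W → IM W → ∀ (n j : ℕ) (p : ℝ), Par n j p →
  ∀ t₁ ∈ spt W, ∀ t₂ ∈ spt W, quant W p < t₁ → t₁ < t₂ → Dt W n j p t₁ ≤ 0 →
    Dt W n j p t₂ < 0

/-- MAX (35 min). `(N/√V)' = Dt / V^{3/2}` by NV. By MON `Dt > 0` on `(w,t*)` and `Dt < 0` after
`t*`. `N(t*) > 0` because `(1-W)(t-M) N = (1-G) V > 0`. -/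
def S_MAX : Prop := ∀ W : Measure ℝ, Ref W → IM W → ∀ (n j : ℕ) (p : ℝ), Par n j p →
  ∀ t' ∈ spt W, quant W p < t' → Dt W n j p t' = 0 →
    0 < Nt W n j p t' ∧
    (∀ t ∈ spt W, quant W p < t → t ≠ t' →
      Nt W n j p t / Real.sqrt (Vt W t) < Nt W n j p t' / Real.sqrt (Vt W t')) ∧
    (∀ t ∈ spt W, quant W p < t → Dt W n j p t = 0 → t = t')

/-- END (60 min). If `Dt` has no zero on `(w,d)` then `Dt > 0` there: it is continuous, and where
`N ≤ 0` it is positive; `N(t) < 0` for `t` slightly larger than `w` (`N(w) = E min(W_{j:n},w) - w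
< 0`). So `Φ = N/√V` is strictly increasing. `V` is bounded: else `V(t) → ∞` at the right end; for
`Z = max(min(ξ,t),w) - w`, `P(Z=0) ≥ p`, so `(E Z)² ≤ (1-p)/p Var Z ≤ (1-p)/p V(t)`, and
`N(t) ≤ N(t₀) + H(t₀) E Z` with `H(t₀) → 0` as `t₀ → d` (`f(1) = 0`), so `limsup Φ ≤ 0`,
contradiction with `Φ` increasing and positive somewhere. Hence `x²` is integrable, and
`Φ(t) → T(x)/sd(x)` as `t → d`. -/
def S_END : Prop := ∀ W : Measure ℝ, Ref W → IM W → ∀ (n j : ℕ) (p : ℝ), Par n j p →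
  (∀ t ∈ spt W, quant W p < t → Dt W n j p t ≠ 0) →
  (∃ t ∈ spt W, quant W p < t ∧ 0 < Nt W n j p t) →
  Integrable (fun x : ℝ => x ^ 2) W ∧ 0 < sdW W (fun x => x) ∧ 0 < T W n j p (fun x => x) ∧
  ∀ t ∈ spt W, quant W p < t →
    Nt W n j p t / Real.sqrt (Vt W t) < T W n j p (fun x => x) / sdW W (fun x => x)

/-- C0B (30 min). `g = min(x,t)`, `t → a`: `|T(g)| = ∫ (t-x)_+ h ≤ (∫(t-x)_+²)^{1/2}
(∫_0^{W(t)} f²)^{1/2}` and `sdW(g)² ≥ (1-W(t)) ∫ (t-x)_+²`. -/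
def S_C0B : Prop := ∀ W : Measure ℝ, Ref W → IM W → ∀ (n j : ℕ) (p : ℝ), Par n j p →
  ∀ ε : ℝ, 0 < ε → ∃ t ∈ spt W, t < quant W p ∧ 0 < sdW W (fun x => min x t) ∧
    -ε < T W n j p (fun x => min x t) / sdW W (fun x => min x t)

/-- EMP (25 min). A nonconstant nondecreasing concave function tends to `-∞` at least linearly
to the left. -/
def S_EMP : Prop := ∀ W : Measure ℝ, Ref W → ∀ g : ℝ → ℝ, ConcaveOn ℝ (spt W) g →
  MonotoneOn g (spt W) → Integrable (fun x => g x ^ 2) W → 0 < sdW W g → IM W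

/-- CE1 (60 min, wanted). Equality case of CRL, CRR, MAX: the extremal `g` is affine in
`min(x,t')`. (`T(g) = c sdW(g)`, `c > 0`, forces equality in all steps: `g = g'` on the left since
`h > 0`; on the right `∫ ψ h = 0` with `h` strictly decreasing forces `ψ = 0` a.e.; then `t = t'`
by MAX. If `g` is affine on all of `spt W` then `Φ` is strictly decreasing after `t'` and its
limit is `< Φ(t')`.) -/
def S_CE1 : Prop := ∀ W : Measure ℝ, Ref W → IM W → ∀ (n j : ℕ) (p : ℝ), Par n j p →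
  ∀ t' ∈ spt W, quant W p < t' → Dt W n j p t' = 0 → ∀ g : ℝ → ℝ,
  ConcaveOn ℝ (spt W) g → MonotoneOn g (spt W) → Integrable (fun x => g x ^ 2) W →
  0 < sdW W g → T W n j p g / sdW W g = Nt W n j p t' / Real.sqrt (Vt W t') →
  ∃ α b : ℝ, 0 < α ∧ ∀ x ∈ spt W, g x = α * min x t' + b

/-- CE2 (45 min, wanted). The same in the case without zero of `Dt`: the extremal is affine. -/
def S_CE2 : Prop := ∀ W : Measure ℝ, Ref W → IM W → ∀ (n j : ℕ) (p : ℝ), Par n j p →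
  (∀ t ∈ spt W, quant W p < t → Dt W n j p t ≠ 0) →
  (∃ t ∈ spt W, quant W p < t ∧ 0 < Nt W n j p t) → ∀ g : ℝ → ℝ,
  ConcaveOn ℝ (spt W) g → MonotoneOn g (spt W) → Integrable (fun x => g x ^ 2) W →
  0 < sdW W g →
  T W n j p g / sdW W g = T W n j p (fun x => x) / sdW W (fun x => x) →
  ∃ α b : ℝ, 0 < α ∧ ∀ x ∈ spt W, g x = α * x + b

/-- CLO (60 min). The cone is closed in `L²(W)`. A subsequence converges a.e., hence on a dense
subset `D` of `spt W` (every nonempty open subinterval of `spt W` has positive mass). The limit is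
convex and antitone on `D` and vanishes right of `w`; extend it by `k(x) = inf {φ(y) : y ∈ D,
y < x}` (or by any of the usual ways); a function convex on a dense subset extends to a continuous
convex function. -/
def S_CLO : Prop := ∀ W : Measure ℝ, Ref W → ∀ p : ℝ, 0 < p → p < 1 → ∀ k : ℕ → ℝ → ℝ,
  (∀ i, InK W p (k i)) → ∀ φ : ℝ → ℝ, AEStronglyMeasurable φ W →
  Integrable (fun x => φ x ^ 2) W → Tendsto (fun i => ∫ x, (k i x - φ x) ^ 2 ∂W) atTop (𝓝 0) →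
  ∃ k₀ : ℝ → ℝ, InK W p k₀ ∧ k₀ =ᵐ[W] φ

/-- EXI (60 min). Existence of the projection. Maximise `J(k) = 2 ∫ k h - Var(k)` over the cone
(`Var(k) ≥ (1-p) ∫ k²` since `k = 0` on a set of mass `1-p`, so `J ≤ C²/(1-p)` and by the
parallelogram law a maximising sequence is Cauchy in `L²`; CLO gives a maximiser). Then vary:
`J(k + t k') ≤ J(k)` for `t ≥ 0` and `J((1±t) k) ≤ J(k)`; `∫ k' res = ∫ k' h - Cov(k',k)`. (Or use
`exists_norm_eq_iInf_of_complete_convex` in `Lp ℝ 2 W`.) -/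
def S_EXI : Prop := ∀ W : Measure ℝ, Ref W → ∀ (n j : ℕ) (p : ℝ), Par n j p →
  ∃ k : ℝ → ℝ, VI W n j p k

/-- DUN (20 min). Uniqueness: `∫ (k'-k) res_k ≤ 0`, `∫ (k-k') res_{k'} ≤ 0` add up to
`Var(k-k') ≤ 0`, so `k - k'` is a.e. constant, the constant is `0`, and both are continuous on
`spt W`. -/
def S_DUN : Prop := ∀ W : Measure ℝ, Ref W → ∀ (n j : ℕ) (p : ℝ), Par n j p →
  ∀ k k' : ℝ → ℝ, VI W n j p k → VI W n j p k' → EqOn k k' (spt W)

/-- DB (45 min). Lower bound over concave `g` and the equality case. `k' = g(w) - min g (g(w))` is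
in the cone, `-T(g) ≤ ∫ k' h ≤ Cov(k',k) ≤ sd(k') sd(k) ≤ sd(g) sd(k)` and
`sd(k)² = ∫ k h`. Equality: `g ≤ g(w)` (since `h > 0`), and equality in Cauchy-Schwarz. -/
def S_DB : Prop := ∀ W : Measure ℝ, Ref W → ∀ (n j : ℕ) (p : ℝ), Par n j p →
  ∀ k : ℝ → ℝ, VI W n j p k → ∀ g : ℝ → ℝ, ConcaveOn ℝ (spt W) g → MonotoneOn g (spt W) →
  Integrable (fun x => g x ^ 2) W →
  -(T W n j p g) ≤ Real.sqrt (∫ x, k x * f n j (cdf W x) ∂W) * sdW W g ∧
  (0 < sdW W g →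
    -(T W n j p g) = Real.sqrt (∫ x, k x * f n j (cdf W x) ∂W) * sdW W g →
    ∃ α b : ℝ, 0 < α ∧ ∀ x ∈ spt W, g x = b - α * k x)

/-- DAT (30 min). The solution is attained by `-k`: `∫ k h = Var k` from `∫ k res = 0`; it is
positive since `k' = max (w-x) 0` (truncate: use `IM W`) has `∫ k' h > 0`. -/
def S_DAT : Prop := ∀ W : Measure ℝ, Ref W → IM W → ∀ (n j : ℕ) (p : ℝ), Par n j p →
  ∀ k : ℝ → ℝ, VI W n j p k →
  0 < ∫ x, k x * f n j (cdf W x) ∂W ∧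
  sdW W (fun x => -k x) = Real.sqrt (∫ x, k x * f n j (cdf W x) ∂W) ∧
  T W n j p (fun x => -k x) = -∫ x, k x * f n j (cdf W x) ∂W

/-- AFF (50 min). The projection is affine on `{W ≤ m}`. If `m = 0` nothing to prove. Let
`z = quant W m`, and let `k'` be the affine function on `x ≤ z` with `k'(z) = k(z)` and the same
integral as `k` over `x ≤ z`, `k' = k` on the right. Its slope is `≤ k'_-(z)` (left derivative of
`k`), so `k'` is in the cone. `k' - k` is `≤ 0` then `≥ 0` on `x ≤ z` with integral `0`; `h` is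
nondecreasing there so `∫ (k'-k) h ≥ 0`; `k'+k` is nonincreasing so `∫ (k'²-k²) ≤ 0`. Hence
`J(k') ≥ J(k)` for `J = 2 ∫ k h - Var k`; but VI gives `J(k) - J(k') ≥ Var(k'-k)`, so
`Var(k'-k) = 0` and `k' = k`. -/
def S_AFF : Prop := ∀ W : Measure ℝ, Ref W → ∀ (n j : ℕ) (p : ℝ), Par n j p →
  ∀ k : ℝ → ℝ, VI W n j p k → ∃ α b : ℝ, ∀ x ∈ spt W,
    cdf W x ≤ ((j : ℝ) - 1) / ((n : ℝ) - 1) → k x = α * x + b

/-- HIN (60 min). Reduction of the variational inequality to hinge functions. On `spt W`,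
`k'(x) = ∫_x^w σ(y) dy` with `σ ≥ 0` nonincreasing (minus a one sided derivative), and by layer
cake `k'(x) = ∫_0^∞ (τ(λ) - x)_+ dλ`, `τ(λ) = sup {y ≤ w : σ(y) > λ}` (or the left end of
`spt W` if empty). Fubini (`∫∫ (τ-x)_+ |q| = ∫ k' |q| < ∞`). Or approximate `k'` by piecewise
linear interpolation. -/
def S_HIN : Prop := ∀ W : Measure ℝ, Ref W → ∀ p : ℝ, 0 < p → p < 1 → ∀ q : ℝ → ℝ,
  AEStronglyMeasurable q W → Integrable (fun x => q x ^ 2) W →
  (∀ t ∈ spt W, t ≤ quant W p → ∫ x, max (t - x) 0 * q x ∂W ≤ 0) →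
  ∀ k' : ℝ → ℝ, InK W p k' → ∫ x, k' x * q x ∂W ≤ 0

/-- NA1 (40 min, wanted). The distribution free upper bound is not attained by a continuous
function: equality in DFS forces `g` to be a.e. constant left and right of `w`. -/
def S_NA1 : Prop := ∀ W : Measure ℝ, Ref W → ∀ (n j : ℕ) (p : ℝ), Par n j p → ∀ g : ℝ → ℝ,
  MonotoneOn g (spt W) → ContinuousOn g (spt W) → Integrable (fun x => g x ^ 2) W →
  0 < sdW W g → T W n j p g < Bsup n j p * sdW W g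

/-- NA2 (45 min, wanted). The distribution free lower bound is not attained by a continuous
function: equality in DFI forces `k = v - min g v` to be a positive multiple of `q` (notation of
DFI; equality in Cauchy-Schwarz, `k - E k = α (q - E q)`), which jumps at `w` from
`F̄(p) + c > 0` to `0`. -/
def S_NA2 : Prop := ∀ W : Measure ℝ, Ref W → ∀ (n j : ℕ) (p : ℝ), Par n j p → ∀ s : ℝ,
  ((j : ℝ) - 1) / ((n : ℝ) - 1) ≤ s → s < 1 → s * f n j s = G n j s → ∀ g : ℝ → ℝ,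
  MonotoneOn g (spt W) → ContinuousOn g (spt W) → Integrable (fun x => g x ^ 2) W →
  0 < sdW W g → -(T W n j p g) < Binf n j p s * sdW W g

/-- SC (35 min, wanted). If `F ≼_* W` then `F` has no gap inside (`F` constant on `[x₁,x₂]` with
`0 < F < 1` would make the ratio strictly decreasing), so `quant μ ∘ W` is continuous. -/
def S_SC : Prop := ∀ W : Measure ℝ, Ref W → BddBelow {x | 0 < cdf W x} →
  ∀ μ : Measure ℝ, Dist μ → StarLE μ W → ContinuousOn (fun x => quant μ (cdf W x)) (spt W)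

end Pool.Agent.T2H99.QB
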