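import Pool.Agent.T2H99.QB.Stm

/-!
# MP_c5814c_pr: two further packages (shape of the projection `k`)
-/

open MeasureTheory ProbabilityTheory Set Filter Topology

noncomputable section

namespace Pool.Agent.T2H99.QB

/-- SHA (45 min). Where the residual is positive the projection is affine. Let `k_c` be `k` outside
`[α,β]` and the chord of `k` on `[α,β]`: it is in the cone and `e = k_c - k ≥ 0` vanishes outside
`[α,β]`. VI: `∫ k_c res ≤ 0 = ∫ k res`, so `∫ e res ≤ 0` while `e res ≥ 0` and `res > 0` on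
`[α,β]`; hence `e = 0` a.e. on `[α,β]`, and everywhere by continuity (every open subinterval of
`spt W` has positive mass). -/
def S_SHA : Prop := ∀ W : Measure ℝ, Ref W → ∀ (n j : ℕ) (p : ℝ), Par n j p →
  ∀ k : ℝ → ℝ, VI W n j p k → ∀ α ∈ spt W, ∀ β ∈ spt W, α < β → β ≤ quant W p →
  (∀ x ∈ Icc α β, 0 < res W n j k x) → ∃ c b : ℝ, ∀ x ∈ Icc α β, k x = c * x + b

/-- SHB (50 min). Where the residual is negative the projection has at most one kink. Let `k_t` be
`k` outside `[α,β]` and on `[α,β]` the maximum of the two supporting lines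
`k(α) + k'_+(α) (x-α)` and `k(β) + k'_-(β) (x-β)`: it is in the cone, `k_t ≤ k`, and as in SHA
`∫ (k_t - k) res ≤ 0` while `(k_t-k) res ≥ 0`, so `k_t = k` on `[α,β]`. -/
def S_SHB : Prop := ∀ W : Measure ℝ, Ref W → ∀ (n j : ℕ) (p : ℝ), Par n j p →
  ∀ k : ℝ → ℝ, VI W n j p k → ∀ α ∈ spt W, ∀ β ∈ spt W, α < β → β ≤ quant W p →
  (∀ x ∈ Ioo α β, res W n j k x < 0) →
  ∃ c b c' b' : ℝ, ∀ x ∈ Icc α β, k x = max (c * x + b) (c' * x + b')

end Pool.Agent.T2H99.QB
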