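import Pool.Agent.T2H99.QB.Stm2

/-!
# MP_c5814c_pr: stability packages (identification of the limits of extremal sequences)
-/

open MeasureTheory ProbabilityTheory Set Filter Topology

noncomputable section

namespace Pool.Agent.T2H99.QB

/-- Standardised quantile function `(F⁻¹(u) - mean) / σ_F`. -/
def stq (μ : Measure ℝ) (u : ℝ) : ℝ := (quant μ u - ∫ x, x ∂μ) / sd μ

/-- Standardised quantile function of the two point law with masses `p`, `1-p`. -/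
def eSup (p u : ℝ) : ℝ := if u ≤ p then -Real.sqrt ((1 - p) / p) else Real.sqrt (p / (1 - p))

/-- Standardised quantile function of the law of `-(ρ(U) + c) 1_{U ≤ p}`, `c = G(p)/(1-p)`,
`ρ = G(r)/r` on `(0,r]`, `ρ = f` on `(r,p]`, `r = min s p`. -/
def eInf (n j : ℕ) (p s u : ℝ) : ℝ :=
  (G n j p / (1 - p) - (if u ≤ p then
    (if u ≤ min s p then G n j (min s p) / min s p else f n j u) + G n j p / (1 - p) else 0)) /
    Binf n j p s

/-- STS (40 min). Stability of the distribution free upper bound. Let `B = Bsup`,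
`g = quant μ ∘ W`, `ĝ = (g - E g)/sd g`, `ĝ₀ = eSup p ∘ W` (`= (1_{x>w} - (1-p))/√(p(1-p))`), both
nondecreasing with mean `0` and variance `1`, `T(ĝ₀) = B`, `τ = T(ĝ) = bias μ`. DFS for `ĝ + ĝ₀`:
`τ + B ≤ B sd(ĝ+ĝ₀)`, and `∫ (ĝ-ĝ₀)² = 4 - sd(ĝ+ĝ₀)²`. If `τ + B ≥ 0` this is
`≤ 4 - (1+τ/B)² = (1-τ/B)(3+τ/B) ≤ 4 (1-τ/B)` (`τ ≤ B`); if `τ < -B` it is `≤ 4 ≤ 4(1-τ/B)`.
Pass to the unit interval by HH or UNI. -/
def S_STS : Prop := ∀ W : Measure ℝ, Ref W → ∀ (n j : ℕ) (p : ℝ), Par n j p →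
  ∀ μ : Measure ℝ, Dist μ →
  ∫ u in (0 : ℝ)..1, (stq μ u - eSup p u) ^ 2 ≤ 4 * (1 - bias μ n j p / Bsup n j p)

/-- STI (50 min). Stability of the distribution free lower bound, the same argument with DFI and
`g₀(x) = -(ρ(W(x)) + c)` for `x < w`, `= 0` for `x ≥ w` (nondecreasing on `spt W`):
`E g₀ = -c`, `sd g₀ = Binf`, `T(g₀) = -Binf²` (computations in PkgAS2.core at `q = p`). -/
def S_STI : Prop := ∀ W : Measure ℝ, Ref W → ∀ (n j : ℕ) (p : ℝ), Par n j p → ∀ s : ℝ,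
  ((j : ℝ) - 1) / ((n : ℝ) - 1) ≤ s → s < 1 → s * f n j s = G n j s →
  ∀ μ : Measure ℝ, Dist μ →
  ∫ u in (0 : ℝ)..1, (stq μ u - eInf n j p s u) ^ 2 ≤ 4 * (1 + bias μ n j p / Binf n j p s)

end Pool.Agent.T2H99.QB
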