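import Pool.Agent.T2H99.QB.Fin
import Pool.Agent.T2H99.QB.Stm3

open MeasureTheory ProbabilityTheory Set Filter Topology

noncomputable section

namespace Pool.Agent.T2H99.QB

/-- The two star order bounds. -/
def StarPart (W : Measure ℝ) (n j : ℕ) (p : ℝ) : Prop :=
  ∃ s : ℝ, ((j : ℝ) - 1) / ((n : ℝ) - 1) ≤ s ∧ s < 1 ∧ s * f n j s = G n j s ∧
    (∀ s' ∈ Icc (((j : ℝ) - 1) / ((n : ℝ) - 1)) 1, s' * f n j s' = G n j s' → s' = s) ∧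
    (∀ μ, Dist μ → -Binf n j p s ≤ bias μ n j p ∧ bias μ n j p ≤ Bsup n j p) ∧
    -- laws almost attaining the bounds are close (after standardisation) to explicit laws
    (∀ μ, Dist μ →
      (∫ u in (0 : ℝ)..1, (stq μ u - eSup p u) ^ 2 ≤ 4 * (1 - bias μ n j p / Bsup n j p)) ∧
      (∫ u in (0 : ℝ)..1, (stq μ u - eInf n j p s u) ^ 2 ≤
        4 * (1 + bias μ n j p / Binf n j p s))) ∧
    (BddBelow {x | 0 < cdf W x} →
      IsLUB (starVals W n j p) (Bsup n j p) ∧ IsGLB (starVals W n j p) (-Binf n j p s) ∧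
      ∀ μ, Dist μ → StarLE μ W → -Binf n j p s < bias μ n j p ∧ bias μ n j p < Bsup n j p)

/-- The upper bound over the convex order family. -/
def ConvSup (W : Measure ℝ) (n j : ℕ) (p : ℝ) : Prop :=
  ((∀ t ∈ spt W, quant W p < t → Nt W n j p t ≤ 0) → IsLUB (convVals W n j p) 0) ∧
  ((∃ t ∈ spt W, quant W p < t ∧ 0 < Nt W n j p t) →
    (∀ t ∈ spt W, quant W p < t → Dt W n j p t ≠ 0) →
      Integrable (fun x : ℝ => x ^ 2) W ∧ IsGreatest (convVals W n j p) (bias W n j p) ∧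
      ∀ μ, Dist μ → ConvLE μ W → (bias μ n j p = bias W n j p ↔
        ∃ α b : ℝ, 0 < α ∧ μ = W.map (fun x => α * x + b))) ∧
  (∀ t' ∈ spt W, quant W p < t' → Dt W n j p t' = 0 →
    0 < Nt W n j p t' ∧ (∀ t ∈ spt W, quant W p < t → Dt W n j p t = 0 → t = t') ∧
    IsGreatest (convVals W n j p) (Nt W n j p t' / Real.sqrt (Vt W t')) ∧
    ∀ μ, Dist μ → ConvLE μ W → (bias μ n j p = Nt W n j p t' / Real.sqrt (Vt W t') ↔
      ∃ α b : ℝ, 0 < α ∧ μ = W.map (fun x => α * min x t' + b)))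

/-- The lower bound over the convex order family. -/
def ConvInf (W : Measure ℝ) (n j : ℕ) (p : ℝ) : Prop :=
  ∃ k : ℝ → ℝ, Sol W n j p k ∧ (∀ k', Sol W n j p k' → EqOn k k' (spt W)) ∧
    0 < (∫ x, k x * f n j (cdf W x) ∂W) ∧
    IsLeast (convVals W n j p) (-Real.sqrt (∫ x, k x * f n j (cdf W x) ∂W)) ∧
    (∀ μ, Dist μ → ConvLE μ W →
      (bias μ n j p = -Real.sqrt (∫ x, k x * f n j (cdf W x) ∂W) ↔
        ∃ α b : ℝ, 0 < α ∧ μ = W.map (fun x => b - α * k x))) ∧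
    -- shape
    (∃ α b : ℝ, ∀ x ∈ spt W, cdf W x ≤ ((j : ℝ) - 1) / ((n : ℝ) - 1) → k x = α * x + b) ∧
    (∀ α ∈ spt W, ∀ β ∈ spt W, α < β → β ≤ quant W p →
      ((∀ x ∈ Icc α β, 0 < res W n j k x) → ∃ c b : ℝ, ∀ x ∈ Icc α β, k x = c * x + b) ∧
      ((∀ x ∈ Ioo α β, res W n j k x < 0) →
        ∃ c b c' b' : ℝ, ∀ x ∈ Icc α β, k x = max (c * x + b) (c' * x + b'))) ∧
    (p = ((j : ℝ) - 1) / ((n : ℝ) - 1) →
      ∃ c : ℝ, 0 < c ∧ ∀ x ∈ spt W, k x = c * (quant W p - min x (quant W p)))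

theorem assemble (hHH : S_HH) (hUNI : S_UNI) (hMEA : S_MEA) (hTRF : S_TRF) (hLAW : S_LAW)
    (hSST : S_SST) (hDFS : S_DFS) (hDFI : S_DFI) (hAS1 : S_AS1) (hAS2 : S_AS2) (hAPX : S_APX)
    (hCOL : S_COL) (hEQS : S_EQS) (hEQ1 : S_EQ1) (hEQ2 : S_EQ2) (hCRL : S_CRL) (hCRR : S_CRR)
    (hNV : S_NV) (hMAX : S_MAX) (hEND : S_END) (hC0B : S_C0B) (hEMP : S_EMP) (hCE1 : S_CE1)
    (hCE2 : S_CE2) (hEXI : S_EXI) (hDUN : S_DUN) (hDB : S_DB) (hDAT : S_DAT) (hAFF : S_AFF)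
    (hHIN : S_HIN) (hNA1 : S_NA1) (hNA2 : S_NA2) (hSC : S_SC) (hSHA : S_SHA) (hSHB : S_SHB)
    (hSTS : S_STS) (hSTI : S_STI)
    (W : Measure ℝ) (hW : Ref W) (n j : ℕ) (p : ℝ) (hp : Par n j p) :
    StarPart W n j p ∧ (¬ IM W → ∀ μ, Dist μ → ¬ ConvLE μ W) ∧
      (IM W → ConvSup W n j p ∧ ConvInf W n j p) := by
  refine ⟨?_, conv_empty hTRF hEQ1 hEMP hW hp, ?_⟩
  · obtain ⟨s, ⟨hs0, hs1, hs⟩, hu, -⟩ := hSST n j p hp
    refine ⟨s, hs0, hs1, hs, hu, fun μ hμ => df_bounds hTRF hDFS hDFI hW hp hs0 hs1 hs hμ,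
      fun μ hμ => ⟨hSTS W hW n j p hp μ hμ, hSTI W hW n j p hp s hs0 hs1 hs μ hμ⟩, ?_⟩
    intro hb
    exact ⟨star_lub hUNI hTRF hLAW hAS1 hAPX hCOL hEQS hDFS hDFI hW hb hp hs0 hs1 hs,
      star_glb hUNI hTRF hLAW hAS2 hAPX hCOL hEQS hDFS hDFI hW hb hp hs0 hs1 hs,
      fun μ hμ hst => star_strict hTRF hNA1 hNA2 hSC hW hb hp hs0 hs1 hs hμ hst⟩
  · intro hIM
    refine ⟨⟨?_, ?_, ?_⟩, ?_⟩
    · exact conv_sup_zero hUNI hTRF hLAW hEQ1 hEQ2 hCRL hCRR hC0B hW hp hIM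
    · intro hN hD
      exact conv_sup_noD hUNI hHH hMEA hTRF hLAW hEQ1 hEQ2 hCRL hCRR hNV hEND hCE2 hW hp hIM hD hN
    · intro t' ht' hwt hD
      exact conv_sup_zeroD hUNI hHH hMEA hTRF hLAW hEQ1 hEQ2 hCRL hCRR hNV hMAX hCE1 hW hp hIM
        ht' hwt hD
    · obtain ⟨k, hk⟩ := hEXI W hW n j p hp
      obtain ⟨hpos, hleast, hext⟩ := conv_inf hUNI hHH hMEA hTRF hLAW hEQ1 hEQ2 hDB hDAT hW hp hIM
        hk
      refine ⟨k, (sol_iff hUNI hHH hMEA hHIN hW hp hIM k).2 hk, ?_, hpos, hleast, hext, ?_, ?_, ?_⟩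
      · intro k' hk'
        exact hDUN W hW n j p hp k k' hk ((sol_iff hUNI hHH hMEA hHIN hW hp hIM k').1 hk')
      · exact hAFF W hW n j p hp k hk
      · intro α hα β hβ hαβ hβw
        exact ⟨hSHA W hW n j p hp k hk α hα β hβ hαβ hβw,
          hSHB W hW n j p hp k hk α hα β hβ hαβ hβw⟩
      · exact edge_case hUNI hAFF hW hp hk hpos

end Pool.Agent.T2H99.QB
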